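import Mathlib

set_option autoImplicit false
set_option linter.unusedSectionVars false
open Finset

namespace H178.AJP

def ex {X : Type} [DecidableEq X] (c : X → X → ℤ) (w z : X) : X → X → ℤ :=
  fun x v => if v = z then - c x w else if v = w then 0 else c x v + c x w * c z v

def lev {X : Type} [Fintype X] (c : X → X → ℤ) (x : X) : ℤ := ∑ v, c x v

structure TS (X J : Type) [Fintype X] [DecidableEq X] where
  good : Finset X → (X → X → ℤ) → (X → Finset J) → Prop
  supp : ∀ {A c h}, good A c h → ∀ x v, v ∉ A → c x v = 0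
  diag : ∀ {A c h}, good A c h → ∀ v ∈ A, ∀ w, c v w = if v = w then 1 else 0
  nz : ∀ {A c h}, good A c h → ∀ x, ∃ v, c x v ≠ 0
  hlev : ∀ {A c h}, good A c h → ∀ x, x ∉ A → lev c x + (h x).card ≤ 0
  exch : ∀ {A c h}, good A c h → ∀ w ∈ A, ∃ z h', z ∉ A ∧ c z w = -1 ∧
    good (insert z (A.erase w)) (ex c w z) h' ∧ ∀ x j, j ∉ h z → (j ∈ h' x ↔ j ∈ h x)

variable {X J : Type} [Fintype X] [DecidableEq X] [DecidableEq J]

theorem lev_ex (c : X → X → ℤ) (w z x : X) (hzw : c z w = -1) (hz : c z z = 0) (hx : c x z = 0) :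
    lev (ex c w z) x = lev c x + (lev c z - 1) * c x w := by
  have hne : z ≠ w := by
    rintro rfl
    omega
  have key : ∀ v, ex c w z x v = (c x v + c x w * c z v) + (if v = z then - c x w else 0) := by
    intro v
    unfold ex
    by_cases h1 : v = z
    · subst h1
      simp [hx, hz]
    · by_cases h2 : v = w
      · subst h2
        simp [h1, hzw]
      · simp [h1, h2]
  unfold lev
  rw [Finset.sum_congr rfl (fun v _ => key v), Finset.sum_add_distrib, Finset.sum_add_distrib,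
    ← Finset.mul_sum]
  simp
  ring

theorem ex_z (c : X → X → ℤ) (w z x : X) : ex c w z x z = - c x w := by
  simp [ex]

theorem ex_of_ne (c : X → X → ℤ) (w z x v : X) (h1 : v ≠ z) (h2 : v ≠ w) :
    ex c w z x v = c x v + c x w * c z v := by
  simp [ex, h1, h2]

def IsOpp (A : Finset X) (c : X → X → ℤ) (w z : X) : Prop :=
  z ∉ A ∧ c z w = -1 ∧ ∀ y, y ∉ A → y ≠ z → lev c y ≤ (1 - lev c z) * c y w

def Cov (A : Finset X) (c : X → X → ℤ) (w z : X) : Prop :=
  z ∉ A ∧ lev c z = 0 ∧ c z w = -1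

variable {T : TS X J} {A : Finset X} {c : X → X → ℤ} {h : X → Finset J}

theorem nm_ex {w z x : X} (hx : x ∉ A) (hxz : x ≠ z) : x ∉ insert z (A.erase w) := by
  simp only [mem_insert, mem_erase, not_or]
  exact ⟨hxz, fun h => hx h.2⟩

theorem TS.mem_of_ne (g : T.good A c h) {x v : X} (hx : c x v ≠ 0) : v ∈ A := by
  by_contra hv
  exact hx (T.supp g x v hv)

theorem TS.lev_le (g : T.good A c h) {x : X} (hx : x ∉ A) : lev c x ≤ 0 := by
  have := T.hlev g x hx
  omega

theorem TS.lev_ex' (g : T.good A c h) {w z : X} (hz : z ∉ A) (hzw : c z w = -1) (x : X) :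
    lev (ex c w z) x = lev c x + (lev c z - 1) * c x w :=
  lev_ex c w z x hzw (T.supp g z z hz) (T.supp g x z hz)

theorem TS.exch_data (g : T.good A c h) {w : X} (hw : w ∈ A) :
    ∃ z h', IsOpp A c w z ∧ T.good (insert z (A.erase w)) (ex c w z) h' ∧
      ∀ x j, j ∉ h z → (j ∈ h' x ↔ j ∈ h x) := by
  obtain ⟨z, h', hz, hzw, g', hh⟩ := T.exch g w hw
  refine ⟨z, h', ⟨hz, hzw, ?_⟩, g', hh⟩
  intro y hy hyz
  have h1 := T.hlev g' y (nm_ex hy hyz)
  rw [TS.lev_ex' g hz hzw] at h1
  nlinarith [(h' y).card.cast_nonneg (α := ℤ)]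

theorem TS.exists_opp (g : T.good A c h) {w : X} (hw : w ∈ A) : ∃ z, IsOpp A c w z := by
  obtain ⟨z, _, hz, _⟩ := TS.exch_data g hw
  exact ⟨z, hz⟩

theorem IsOpp.unique {w z1 z2 : X} (h1 : IsOpp A c w z1) (h2 : IsOpp A c w z2) : z1 = z2 := by
  by_contra hne
  have a := h1.2.2 z2 h2.1 (Ne.symm hne)
  have b := h2.2.2 z1 h1.1 hne
  rw [h2.2.1] at a
  rw [h1.2.1] at b
  linarith

theorem TS.N6 (g : T.good A c h) {w x : X} (hx : x ∉ A) (hw : c x w < 0) :
    IsOpp A c w x ∨ ((h x).card : ℤ) ≤ - lev c x + c x w := by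
  obtain ⟨z, h', hz, g', hh⟩ := TS.exch_data g (TS.mem_of_ne g (x := x) (v := w) (by omega))
  by_cases hxz : x = z
  · left
    rw [hxz]
    exact hz
  · right
    have h1 := T.hlev g' x (nm_ex hx hxz)
    rw [TS.lev_ex' g hz.1 hz.2.1] at h1
    have h2 := T.hlev g z hz.1
    have h3 : (h x).card ≤ (h' x).card + (h z).card := by
      refine le_trans (Finset.card_le_card ?_) (Finset.card_union_le _ _)
      intro j hj
      rw [Finset.mem_union]
      by_cases hjz : j ∈ h z
      · right; exact hjz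
      · left; exact (hh x j hjz).2 hj
    have h3' : ((h x).card : ℤ) ≤ (h' x).card + (h z).card := by exact_mod_cast h3
    have h4 := TS.lev_le g hz.1
    nlinarith [mul_nonneg (neg_nonneg.2 h4) (show (0:ℤ) ≤ -(c x w) - 1 by omega)]

theorem TS.negopp (g : T.good A c h) {w z : X} (hz : IsOpp A c w z) {x : X} (hx : x ∉ A) (hxz : x ≠ z)
    (hw : c x w < 0) : ((h x).card : ℤ) ≤ - lev c x + c x w := by
  rcases TS.N6 g hx hw with h1 | h1
  · exact absurd (h1.unique hz) hxz
  · exact h1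

/-- the level-zero exchange -/
theorem TS.exch0 (g : T.good A c h) {w z : X} (hz : z ∉ A) (hl : lev c z = 0) (hw : c z w < 0) :
    IsOpp A c w z ∧ T.good (insert z (A.erase w)) (ex c w z) h := by
  obtain ⟨z', h', hz', g', hh⟩ := TS.exch_data g (TS.mem_of_ne g (x := z) (v := w) (by omega))
  have hzz : z = z' := by
    by_contra hne
    have := hz'.2.2 z hz hne
    rw [hl] at this
    have h4 := TS.lev_le g hz'.1
    nlinarith
  subst hzz
  refine ⟨hz', ?_⟩
  have h2 := T.hlev g z hz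
  have h3 : h z = ∅ := by
    rw [← Finset.card_eq_zero]
    omega
  have : h' = h := by
    funext x
    ext j
    exact hh x j (by rw [h3]; simp)
  rw [this] at g'
  exact g'

theorem TS.covNeg (g : T.good A c h) {w z : X} (hz : z ∉ A) (hl : lev c z = 0) (hw : c z w < 0) :
    Cov A c w z := ⟨hz, hl, (TS.exch0 g hz hl hw).1.2.1⟩

theorem TS.covGood (g : T.good A c h) {w z : X} (hz : Cov A c w z) :
    T.good (insert z (A.erase w)) (ex c w z) h :=
  (TS.exch0 g hz.1 hz.2.1 (by have := hz.2.2; omega)).2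

theorem TS.covOpp (g : T.good A c h) {w z : X} (hz : Cov A c w z) : IsOpp A c w z :=
  (TS.exch0 g hz.1 hz.2.1 (by have := hz.2.2; omega)).1

theorem TS.cov_unique (g : T.good A c h) {w z1 z2 : X} (h1 : Cov A c w z1) (h2 : Cov A c w z2) :
    z1 = z2 := (TS.covOpp g h1).unique (TS.covOpp g h2)

theorem TS.cov_mem (g : T.good A c h) {w z : X} (h1 : Cov A c w z) : w ∈ A :=
  TS.mem_of_ne g (x := z) (by have := h1.2.2; omega)

theorem TS.cov_nonneg (g : T.good A c h) {v z1 z2 : X} (h1 : Cov A c v z1) (hz : z2 ∉ A)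
    (hl : lev c z2 = 0) (hne : z1 ≠ z2) : 0 ≤ c z2 v := by
  by_contra hneg
  push Not at hneg
  exact hne (TS.cov_unique g h1 (TS.covNeg g hz hl hneg))

theorem TS.lev_ex0 (g : T.good A c h) {w z : X} (hz : Cov A c w z) (x : X) :
    lev (ex c w z) x = lev c x - c x w := by
  rw [TS.lev_ex' g hz.1 hz.2.2, hz.2.1]
  ring

theorem TS.hcov (g : T.good A c h) {w z : X} (hz : Cov A c w z) : h z = ∅ := by
  have h2 := T.hlev g z hz.1
  have := hz.2.1
  rw [← Finset.card_eq_zero]
  omega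

theorem TS.P2 (g : T.good A c h) {v1 v2 z1 z2 x : X} (h1 : Cov A c v1 z1) (h2 : Cov A c v2 z2)
    (hz : z1 ≠ z2) (hx : x ∉ A) (hx1 : x ≠ z1) (hx2 : x ≠ z2) (hn1 : c x v1 < 0) (hn2 : c x v2 < 0) :
    ((h x).card : ℤ) ≤ - lev c x + c x v1 + c x v2 := by
  have hv : v1 ≠ v2 := by
    rintro rfl
    exact hz (TS.cov_unique g h1 h2)
  have hmem1 := TS.cov_mem g h1
  have hmem2 := TS.cov_mem g h2
  have hv1z2 : v1 ≠ z2 := fun hh => h2.1 (hh ▸ hmem1)
  have hv2z1 : v2 ≠ z1 := fun hh => h1.1 (hh ▸ hmem2)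
  have p12 : 0 ≤ c z1 v2 := TS.cov_nonneg g h2 h1.1 h1.2.1 (Ne.symm hz)
  have p21 : 0 ≤ c z2 v1 := TS.cov_nonneg g h1 h2.1 h2.2.1 hz
  have g1 := TS.covGood g h1
  have g2 := TS.covGood g h2
  have e1 : ex c v1 z1 x v2 = c x v2 + c x v1 * c z1 v2 := ex_of_ne _ _ _ _ _ hv2z1 (Ne.symm hv)
  have e2 : ex c v2 z2 x v1 = c x v1 + c x v2 * c z2 v1 := ex_of_ne _ _ _ _ _ hv1z2 hv
  rcases Nat.eq_zero_or_pos (c z1 v2).toNat with q | q
  · have q1 : c z1 v2 = 0 := by omega
    rcases Nat.eq_zero_or_pos (c z2 v1).toNat with r | r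
    · have r1 : c z2 v1 = 0 := by omega
      -- ζ2 still covers v2
      have hc : Cov (insert z1 (A.erase v1)) (ex c v1 z1) v2 z2 := by
        refine ⟨nm_ex h2.1 (Ne.symm hz), ?_, ?_⟩
        · rw [TS.lev_ex0 g h1, h2.2.1, r1]; ring
        · rw [ex_of_ne _ _ _ _ _ hv2z1 (Ne.symm hv), h2.2.2, r1]; ring
      have := TS.negopp g1 (TS.covOpp g1 hc) (nm_ex hx hx1) hx2 (by rw [e1, q1]; linarith)
      rw [TS.lev_ex0 g h1, e1, q1] at this
      linarith
    · have r1 : 1 ≤ c z2 v1 := by omega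
      have hle : ex c v2 z2 x v1 ≤ c x v1 - 1 := by
        rw [e2]
        nlinarith
      rcases TS.N6 g2 (nm_ex hx hx2) (show ex c v2 z2 x v1 < 0 by omega) with k | k
      · have := k.2.1
        omega
      · rw [TS.lev_ex0 g h2] at k
        linarith
  · have q1 : 1 ≤ c z1 v2 := by omega
    have hle : ex c v1 z1 x v2 ≤ c x v2 - 1 := by
      rw [e1]
      nlinarith
    rcases TS.N6 g1 (nm_ex hx hx1) (show ex c v1 z1 x v2 < 0 by omega) with k | k
    · have := k.2.1
      omega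
    · rw [TS.lev_ex0 g h1] at k
      linarith

theorem TS.N1 (z : X → X) (S : Finset X) : ∀ {A : Finset X} {c : X → X → ℤ} {h : X → Finset J},
    T.good A c h → (∀ b ∈ S, Cov A c b (z b)) → (∀ b ∈ S, ∀ b' ∈ S, b' ≠ b → c (z b) b' = 0) →
    ∀ x, x ∉ A → (∀ b ∈ S, x ≠ z b) → ((h x).card : ℤ) ≤ - lev c x + ∑ b ∈ S, c x b := by
  induction S using Finset.induction_on with
  | empty =>
    intro A c h g _ _ x hx _
    have := T.hlev g x hx
    simp
    omega
  | insert a S ha ih =>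
    intro A c h g hcov hind x hx hxz
    have hca := hcov a (mem_insert_self _ _)
    have g1 := TS.covGood g hca
    have hmema := TS.cov_mem g hca
    have hbz : ∀ b ∈ S, b ≠ z a := by
      intro b hb hh
      have := TS.cov_mem g (hcov b (mem_insert_of_mem hb))
      rw [hh] at this
      exact hca.1 this
    have hba : ∀ b ∈ S, b ≠ a := by
      rintro b hb rfl
      exact ha hb
    have hzne : ∀ b ∈ S, z b ≠ z a := by
      intro b hb hh
      have h1 := hind a (mem_insert_self _ _) b (mem_insert_of_mem hb) (hba b hb)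
      have h2 := (hcov b (mem_insert_of_mem hb)).2.2
      rw [hh] at h2
      omega
    have key : ∀ y, ∀ b ∈ S, ex c a (z a) y b = c y b := by
      intro y b hb
      rw [ex_of_ne _ _ _ _ _ (hbz b hb) (hba b hb),
        hind a (mem_insert_self _ _) b (mem_insert_of_mem hb) (hba b hb)]
      ring
    have := ih g1 (fun b hb => ⟨nm_ex (hcov b (mem_insert_of_mem hb)).1 (hzne b hb), by
        rw [TS.lev_ex0 g hca, (hcov b (mem_insert_of_mem hb)).2.1,
          hind b (mem_insert_of_mem hb) a (mem_insert_self _ _) (Ne.symm (hba b hb))]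
        ring, by rw [key _ b hb]; exact (hcov b (mem_insert_of_mem hb)).2.2⟩)
      (fun b hb b' hb' hne => by
        rw [key _ b' hb']
        exact hind b (mem_insert_of_mem hb) b' (mem_insert_of_mem hb') hne)
      x (nm_ex hx (hxz a (mem_insert_self _ _))) (fun b hb => hxz b (mem_insert_of_mem hb))
    rw [TS.lev_ex0 g hca, Finset.sum_congr rfl (fun b hb => key x b hb)] at this
    rw [Finset.sum_insert ha]
    linarith

/-- a vertex outside the basis has a negative coordinate -/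
theorem TS.exists_neg (g : T.good A c h) {x : X} (hx : x ∉ A) : ∃ v ∈ A, c x v < 0 := by
  by_contra hcon
  push Not at hcon
  have hall : ∀ v ∈ (Finset.univ : Finset X), 0 ≤ c x v := by
    intro v _
    by_cases hv : v ∈ A
    · exact hcon v hv
    · rw [T.supp g x v hv]
  obtain ⟨v, hv⟩ := T.nz g x
  have h1 : 0 < lev c x := by
    unfold lev
    refine Finset.sum_pos' hall ⟨v, mem_univ _, ?_⟩
    have := hall v (mem_univ _)
    omega
  have := TS.lev_le g hx
  omega

end H178.AJP
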