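import Pool.Agent.H178R3.AjpA

set_option autoImplicit false
set_option linter.unusedSectionVars false
open Finset

namespace H178.AJP

variable {X J : Type} [Fintype X] [DecidableEq X] [DecidableEq J]
variable {T : TS X J} {A : Finset X} {c : X → X → ℤ} {h : X → Finset J}

theorem TS.ex_zero (g : T.good A c h) {w z y : X} (hz : z ∉ A) (hy : c y w = 0) (u : X) :
    ex c w z y u = c y u := by
  unfold ex
  split_ifs with h1 h2
  · rw [h1, T.supp g y z hz, hy]; rfl
  · rw [h2, hy]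
  · rw [hy]; ring

theorem TS.cov_persist (g : T.good A c h) {w z v y : X} (hz : Cov A c w z) (hy : Cov A c v y)
    (hyz : y ≠ z) (h0 : c y w = 0) : Cov (insert z (A.erase w)) (ex c w z) v y := by
  refine ⟨nm_ex hy.1 hyz, ?_, ?_⟩
  · rw [TS.lev_ex0 g hz, hy.2.1, h0]; rfl
  · rw [TS.ex_zero g hz.1 h0]; exact hy.2.2

structure Star (A : Finset X) (c : X → X → ℤ) (w z v n : X) : Prop where
  zA : z ∉ A
  nA : n ∉ A
  hz : ∀ u, c z u = (if u = v then 1 else 0) - (if u = w then 1 else 0)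
  hn : ∀ u, c n u = if u = w then -1 else 0
  hvw : v ≠ w

theorem Star.levz {w z v n : X} (s : Star A c w z v n) : lev c z = 0 := by
  unfold lev
  rw [Finset.sum_congr rfl (fun u _ => s.hz u)]
  simp

theorem Star.levn {w z v n : X} (s : Star A c w z v n) : lev c n = -1 := by
  unfold lev
  rw [Finset.sum_congr rfl (fun u _ => s.hn u)]
  simp

theorem Star.zw {w z v n : X} (s : Star A c w z v n) : c z w = -1 := by
  rw [s.hz]
  simp [Ne.symm s.hvw]

theorem Star.zv {w z v n : X} (s : Star A c w z v n) : c z v = 1 := by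
  rw [s.hz]
  simp [s.hvw]

theorem Star.nw {w z v n : X} (s : Star A c w z v n) : c n w = -1 := by
  rw [s.hn]
  simp

theorem Star.nv {w z v n : X} (s : Star A c w z v n) : c n v = 0 := by
  rw [s.hn]
  simp [s.hvw]

theorem Star.cov {w z v n : X} (s : Star A c w z v n) : Cov A c w z := ⟨s.zA, s.levz, s.zw⟩

theorem Star.nz' {w z v n : X} (s : Star A c w z v n) : n ≠ z := by
  intro hh
  have h1 := s.nv
  have h2 := s.zv
  rw [hh] at h1
  omega

theorem Star.covn (g : T.good A c h) {w z v n : X} (s : Star A c w z v n) :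
    Cov (insert z (A.erase w)) (ex c w z) v n := by
  have hv : v ∈ A := TS.mem_of_ne g (x := z) (by rw [s.zv]; norm_num)
  have hvz : v ≠ z := fun hh => s.zA (hh ▸ hv)
  refine ⟨nm_ex s.nA s.nz', ?_, ?_⟩
  · rw [TS.lev_ex0 g s.cov, s.levn, s.nw]; rfl
  · rw [ex_of_ne _ _ _ _ _ hvz s.hvw, s.nv, s.nw, s.zv]; rfl

theorem Star.hn0 (g : T.good A c h) {w z v n : X} (s : Star A c w z v n) : h n = ∅ := by
  have := TS.negopp g (TS.covOpp g s.cov) s.nA s.nz' (by rw [s.nw]; norm_num)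
  rw [s.levn, s.nw] at this
  rw [← Finset.card_eq_zero]
  omega

theorem Star.n_unique (g : T.good A c h) {w z v n n' : X} (s : Star A c w z v n)
    (s' : Star A c w z v n') : n = n' :=
  TS.cov_unique (TS.covGood g s.cov) (s.covn g) (s'.covn g)

/-- L3 -/
theorem Star.inj (g : T.good A c h) {w1 w2 z1 z2 v n1 n2 : X} (s1 : Star A c w1 z1 v n1)
    (s2 : Star A c w2 z2 v n2) : w1 = w2 := by
  by_contra hne
  have g1 := TS.covGood g s1.cov
  have c1 := s1.covn g
  have hz21 : z2 ≠ z1 := by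
    intro hh
    have h1 := s1.zw
    rw [← hh, s2.hz] at h1
    simp [hne, Ne.symm s1.hvw] at h1
  have hn21 : n2 ≠ z1 := by
    intro hh
    have h1 := s1.zw
    rw [← hh, s2.hn] at h1
    simp [hne] at h1
  have hn12 : n1 ≠ z2 := by
    intro hh
    have h1 := s1.nw
    rw [hh, s2.hz] at h1
    simp [hne, Ne.symm s1.hvw] at h1
  have hz2w1 : c z2 w1 = 0 := by
    rw [s2.hz]
    simp [hne, Ne.symm s1.hvw]
  have hn2w1 : c n2 w1 = 0 := by
    rw [s2.hn]
    simp [hne]
  have hw2 : w2 ∈ A := TS.cov_mem g s2.cov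
  have hw2z1 : w2 ≠ z1 := fun hh => s1.zA (hh ▸ hw2)
  have s2' : Star (insert z1 (A.erase w1)) (ex c w1 z1) w2 z2 v n2 := by
    refine ⟨nm_ex s2.zA hz21, nm_ex s2.nA hn21, ?_, ?_, s2.hvw⟩
    · intro u
      rw [TS.ex_zero g s1.zA hz2w1, s2.hz]
    · intro u
      rw [TS.ex_zero g s1.zA hn2w1, s2.hn]
  have g2 := TS.covGood g1 s2'.cov
  have c2 := s2'.covn g1
  have h0 : ex c w1 z1 n1 w2 = 0 := by
    rw [ex_of_ne _ _ _ _ _ hw2z1 (Ne.symm hne), s1.hn, s1.hn, s1.hz]
    simp [Ne.symm hne, Ne.symm s2.hvw]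
  have c1' := TS.cov_persist g1 s2'.cov c1 hn12 h0
  have := TS.cov_unique g2 c1' c2
  have h1 := s1.nw
  rw [this, hn2w1] at h1
  omega

/-- trichotomy -/
theorem Star.pos (g : T.good A c h) {w z v n ζ : X} (s : Star A c w z v n) (hζ : Cov A c v ζ) :
    1 ≤ c ζ w := by
  by_contra hcon
  have hζz : ζ ≠ z := by
    intro hh
    have h1 := s.zv
    have h2 := hζ.2.2
    rw [hh] at h2
    omega
  rcases lt_or_eq_of_le (show c ζ w ≤ 0 by omega) with h1 | h1
  · exact hζz (TS.cov_unique g (TS.covNeg g hζ.1 hζ.2.1 h1) s.cov)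
  · have c1 := TS.cov_persist g s.cov hζ hζz h1
    have := TS.cov_unique (TS.covGood g s.cov) c1 (s.covn g)
    have h2 := hζ.2.2
    rw [this, s.nv] at h2
    omega

theorem TS.negJ (g : T.good A c h) {v y x : X} (hy : IsOpp A c v y) (hx : x ∉ A) (hxy : x ≠ y)
    (hv : v ∈ A)
    {J0 : Finset J} (hJ : J0 ⊆ h x) (hd : ∀ j ∈ J0, j ∉ h y) :
    ((J0.card : ℤ) ≤ - lev c x - (lev c y - 1) * c x v) ∧
    ∃ h', T.good (insert y (A.erase v)) (ex c v y) h' ∧ J0 ⊆ h' x := by
  obtain ⟨z, h', hz, g', hh⟩ := TS.exch_data g hv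
  have hzy : z = y := hz.unique hy
  subst hzy
  have hsub : J0 ⊆ h' x := fun j hj => (hh x j (hd j hj)).2 (hJ hj)
  refine ⟨?_, h', g', hsub⟩
  have h1 := T.hlev g' x (nm_ex hx hxy)
  rw [TS.lev_ex' g hz.1 hz.2.1] at h1
  have h2 : ((J0.card : ℕ) : ℤ) ≤ (h' x).card := by exact_mod_cast Finset.card_le_card hsub
  linarith

/-- the exceptional class attached to ζ -/
structure ZZ (A : Finset X) (c : X → X → ℤ) (h : X → Finset J) (ζ y : X) : Prop where
  yA : y ∉ A
  lv : lev c y ≤ -1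
  hc : ((h y).card : ℤ) = - lev c y - 1
  neg : ∀ v, c y v < 0 → Cov A c v ζ ∧ c y v = -1

theorem TS.exc (g : T.good A c h) {x : X} (hx : x ∉ A) (hlx : lev c x ≤ -1)
    (hO : ∀ v, ¬ IsOpp A c v x) {J0 : Finset J} (hJ : J0 ⊆ h x)
    (hd : ∀ v ∈ A, ∀ y, IsOpp A c v y → lev c y < 0 → ∀ j ∈ J0, j ∉ h y)
    (hcard : - lev c x - 1 ≤ (J0.card : ℤ)) : ∃ ζ, ζ ∉ A ∧ lev c ζ = 0 ∧ ZZ A c h ζ x := by
  have key : ∀ v, c x v < 0 → (∃ ζ, Cov A c v ζ) ∧ c x v = -1 ∧ ((h x).card : ℤ) = - lev c x - 1 := by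
    intro v hv
    have hvA : v ∈ A := TS.mem_of_ne g (x := x) (by omega)
    obtain ⟨y, hy⟩ := TS.exists_opp g hvA
    have hxy : x ≠ y := by
      rintro rfl
      exact hO v hy
    have hy0 : lev c y = 0 := by
      by_contra hne
      have hlt : lev c y < 0 := lt_of_le_of_ne (TS.lev_le g hy.1) hne
      have := (TS.negJ g hy hx hxy hvA hJ (hd v hvA y hy hlt)).1
      nlinarith
    have hcov : Cov A c v y := ⟨hy.1, hy0, hy.2.1⟩
    have h1 := TS.negopp g hy hx hxy hv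
    have h2 : ((J0.card : ℕ) : ℤ) ≤ (h x).card := by exact_mod_cast Finset.card_le_card hJ
    exact ⟨⟨y, hcov⟩, by omega, by omega⟩
  obtain ⟨v0, hv0A, hv0⟩ := TS.exists_neg g hx
  obtain ⟨⟨ζ, hζ⟩, h1, h2⟩ := key v0 hv0
  refine ⟨ζ, hζ.1, hζ.2.1, hx, hlx, h2, ?_⟩
  intro v hv
  obtain ⟨⟨ζ', hζ'⟩, h1', h2'⟩ := key v hv
  refine ⟨?_, h1'⟩
  by_cases hζζ : ζ' = ζ
  · rw [← hζζ]; exact hζ'
  · exfalso
    have e1 : x ≠ ζ := by
      rintro rfl
      have := hζ.2.1
      omega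
    have e2 : x ≠ ζ' := by
      rintro rfl
      have := hζ'.2.1
      omega
    have := TS.P2 g hζ' hζ hζζ hx e2 e1 hv hv0
    omega

/-- nonnegative integer function with sum one -/
theorem sum_one_form (f : X → ℤ) (hf : ∀ x, 0 ≤ f x) (hs : ∑ x, f x = 1) :
    ∃ v, ∀ u, f u = if u = v then 1 else 0 := by
  have h1 : ∃ v, 1 ≤ f v := by
    by_contra hcon
    push Not at hcon
    have : ∑ x, f x = 0 := Finset.sum_eq_zero (fun x _ => by have := hcon x; have := hf x; omega)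
    omega
  obtain ⟨v, hv⟩ := h1
  have h2 : ∑ x, f x = f v + ∑ x ∈ univ.erase v, f x := (Finset.add_sum_erase _ _ (mem_univ v)).symm
  have h3 : 0 ≤ ∑ x ∈ univ.erase v, f x := Finset.sum_nonneg (fun x _ => hf x)
  have h4 : ∑ x ∈ univ.erase v, f x = 0 := by omega
  refine ⟨v, fun u => ?_⟩
  split_ifs with h5
  · subst h5; omega
  · exact (Finset.sum_eq_zero_iff_of_nonneg (fun x _ => hf x)).1 h4 u (by simp [h5])

/-- single covers are of the form `e_v - e_w` -/
theorem single_form (g : T.good A c h) {w ζ : X} (hζ : Cov A c w ζ)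
    (hs : ∀ u, c ζ u < 0 → u = w) :
    ∃ v, v ≠ w ∧ ∀ u, c ζ u = (if u = v then 1 else 0) - (if u = w then 1 else 0) := by
  have h1 := sum_one_form (fun u => c ζ u + (if u = w then 1 else 0)) (fun u => by
    show 0 ≤ c ζ u + (if u = w then 1 else 0)
    by_cases hu : u = w
    · rw [hu, hζ.2.2]; simp
    · have : ¬ c ζ u < 0 := fun hh => hu (hs u hh)
      simp [hu]; omega) (by
    rw [Finset.sum_add_distrib]
    have := hζ.2.1
    unfold lev at this
    rw [this]
    simp)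
  obtain ⟨v, hv⟩ := h1
  refine ⟨v, ?_, ?_⟩
  · rintro rfl
    have := hv v
    simp only [if_true] at this
    have := hζ.2.2
    omega
  · intro u
    have := hv u
    linarith

/-- a member of the exceptional class of a single cover is `-e_w` -/
theorem ZZ.single {w ζ y : X} (z : ZZ A c h ζ y) (hs : ∀ u, c ζ u < 0 → u = w) :
    lev c y = -1 ∧ ∀ u, c y u = if u = w then -1 else 0 := by
  have hneg : ∀ u, c y u < 0 → u = w ∧ c y u = -1 := by
    intro u hu
    obtain ⟨h1, h2⟩ := z.neg u hu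
    exact ⟨hs u (by rw [h1.2.2]; norm_num), h2⟩
  have hf : ∀ u, 0 ≤ c y u + (if u = w then 1 else 0) := by
    intro u
    by_cases hu : u = w
    · by_cases h3 : c y u < 0
      · rw [(hneg u h3).2]; simp [hu]
      · simp [hu]; rw [hu] at h3; omega
    · have : ¬ c y u < 0 := fun hh => hu (hneg u hh).1
      simp [hu]; omega
  have hsum : ∑ u, (c y u + (if u = w then 1 else 0)) = lev c y + 1 := by
    rw [Finset.sum_add_distrib]
    unfold lev
    simp
  have hge : 0 ≤ lev c y + 1 := by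
    rw [← hsum]
    exact Finset.sum_nonneg (fun u _ => hf u)
  have hl : lev c y = -1 := by
    have := z.lv
    omega
  refine ⟨hl, ?_⟩
  intro u
  rw [hl] at hsum
  have := (Finset.sum_eq_zero_iff_of_nonneg (fun x _ => hf x)).1 hsum u (mem_univ _)
  split_ifs with h5
  · simp [h5] at this; rw [h5]; omega
  · simp [h5] at this; omega

end H178.AJP
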