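import Pool.Agent.H178R3.AjpB

set_option autoImplicit false
set_option linter.unusedSectionVars false
open Finset

namespace H178.AJP

variable {X J : Type} [Fintype X] [DecidableEq X] [DecidableEq J]
variable {T : TS X J} {A : Finset X} {c : X → X → ℤ} {h : X → Finset J}

theorem lev_of_form {z w b : X} (f : ∀ u, c z u = (if u = w then 1 else 0) - (if u = b then 1 else 0)) :
    lev c z = 0 := by
  unfold lev
  rw [Finset.sum_congr rfl (fun u _ => f u)]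
  simp

theorem QA (g : T.good A c h) {x b1 b2 w1 z1 z2 n1 : X} (hx : x ∉ A) (hl : lev c x = -2)
    (c1 : Cov A c b1 z1) (c2 : Cov A c b2 z2) (hz1w1 : c z1 w1 = 1) (hz1b2 : c z1 b2 = 0)
    (hz2b1 : c z2 b1 = 0) (hz2w1 : c z2 w1 = 0) (hz12 : z1 ≠ z2) (hb : b1 ≠ b2) (hbw : b1 ≠ w1)
    (hb2w : b2 ≠ w1)
    (hnA : n1 ∉ A) (hn : ∀ u, c n1 u = if u = w1 then -1 else 0)
    (hxb1 : c x b1 = -1) (hxb2 : c x b2 = -1) (hxw1 : c x w1 = 0) : False := by
  have hw1A : w1 ∈ A := TS.mem_of_ne g (x := z1) (by omega)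
  have hb2A : b2 ∈ A := TS.cov_mem g c2
  have hw1z1 : w1 ≠ z1 := fun hh => c1.1 (hh ▸ hw1A)
  have hb2z1 : b2 ≠ z1 := fun hh => c1.1 (hh ▸ hb2A)
  have g1 := TS.covGood g c1
  have c2' := TS.cov_persist g c1 c2 (Ne.symm hz12) hz2b1
  have levn : lev c n1 = -1 := by
    unfold lev
    rw [Finset.sum_congr rfl (fun u _ => hn u)]
    simp
  have hn0 : c n1 b1 = 0 := by rw [hn]; simp [hbw]
  have hl1x : lev (ex c b1 z1) x = -1 := by
    rw [TS.lev_ex0 g c1, hl, hxb1]; rfl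
  have hl1n : lev (ex c b1 z1) n1 = -1 := by
    rw [TS.lev_ex0 g c1, levn, hn0]; rfl
  have hc1x : ex c b1 z1 x w1 = -1 := by
    rw [ex_of_ne _ _ _ _ _ hw1z1 (Ne.symm hbw), hxw1, hxb1, hz1w1]; rfl
  have hc1n : ex c b1 z1 n1 w1 = -1 := by
    rw [TS.ex_zero g c1.1 hn0, hn]; simp
  have hc1xb2 : ex c b1 z1 x b2 = -1 := by
    rw [ex_of_ne _ _ _ _ _ hb2z1 (Ne.symm hb), hxb1, hxb2, hz1b2]; rfl
  have hxz1 : x ≠ z1 := by
    rintro rfl
    have := c1.2.1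
    omega
  have hxz2 : x ≠ z2 := by
    rintro rfl
    have := c2.2.1
    omega
  have hnz1 : n1 ≠ z1 := by
    intro hh
    have := c1.2.1
    rw [← hh] at this
    omega
  have hxn1 : x ≠ n1 := by
    intro hh
    rw [← hh] at levn
    omega
  have hw1A1 : w1 ∈ insert z1 (A.erase b1) := by
    simp [hw1A, Ne.symm hbw]
  obtain ⟨ω, hω⟩ := TS.exists_opp g1 hw1A1
  have hω0 : lev (ex c b1 z1) ω = 0 := by
    by_cases hxω : x = ω
    · have := hω.2.2 n1 (nm_ex hnA hnz1) (by rw [← hxω]; exact Ne.symm hxn1)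
      rw [hl1n, hc1n] at this
      have h2 := TS.lev_le g1 hω.1
      omega
    · have := hω.2.2 x (nm_ex hx hxz1) hxω
      rw [hl1x, hc1x] at this
      have h2 := TS.lev_le g1 hω.1
      omega
  have hωz2 : z2 ≠ ω := by
    intro hh
    have h1 := hω.2.1
    rw [← hh, TS.ex_zero g c1.1 hz2b1, hz2w1] at h1
    omega
  have hxω : x ≠ ω := by
    intro hh
    rw [← hh] at hω0
    omega
  have := TS.P2 g1 c2' ⟨hω.1, hω0, hω.2.1⟩ hωz2 (nm_ex hx hxz1) hxz2 hxω (by omega) (by omega)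
  omega

theorem lemQ (g : T.good A c h) {x b1 b2 w1 w2 z1 z2 Z1 Z2 n1 n2 : X} (hx : x ∉ A)
    (hlx : lev c x ≤ -2) (hO : ∀ v, ¬ IsOpp A c v x)
    (s1 : Star A c w1 Z1 b1 n1) (s2 : Star A c w2 Z2 b2 n2)
    (hz1 : z1 ∉ A) (hz2 : z2 ∉ A)
    (f1 : ∀ u, c z1 u = (if u = w1 then 1 else 0) - (if u = b1 then 1 else 0))
    (f2 : ∀ u, c z2 u = (if u = w2 then 1 else 0) - (if u = b2 then 1 else 0))
    (hb : b1 ≠ b2) (hb1w2 : b1 ≠ w2) (hb2w1 : b2 ≠ w1)
    (hn1 : c x b1 < 0) (hn2 : c x b2 < 0)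
    {J0 : Finset J} (hJ : J0 ⊆ h x)
    (hd : ∀ v ∈ A, ∀ y, IsOpp A c v y → lev c y < 0 → ∀ j ∈ J0, j ∉ h y)
    (hcard : - lev c x - 2 ≤ (J0.card : ℤ)) : False := by
  have hb1w1 : b1 ≠ w1 := s1.hvw
  have hb2w2 : b2 ≠ w2 := s2.hvw
  have hw12 : w1 ≠ w2 := by
    intro hh
    have s2' := s2.cov
    rw [← hh] at s2'
    have h1 := s1.zv
    rw [TS.cov_unique g s1.cov s2', s2.hz] at h1
    simp [hb, hb1w2] at h1
  have z1b1 : c z1 b1 = -1 := by rw [f1]; simp [hb1w1]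
  have z1b2 : c z1 b2 = 0 := by rw [f1]; simp [hb2w1, Ne.symm hb]
  have z2b2 : c z2 b2 = -1 := by rw [f2]; simp [hb2w2]
  have z2b1 : c z2 b1 = 0 := by rw [f2]; simp [hb1w2, hb]
  have z1w1 : c z1 w1 = 1 := by rw [f1]; simp [Ne.symm hb1w1]
  have z1w2 : c z1 w2 = 0 := by rw [f1]; simp [Ne.symm hw12, Ne.symm hb1w2]
  have z2w2 : c z2 w2 = 1 := by rw [f2]; simp [Ne.symm hb2w2]
  have z2w1 : c z2 w1 = 0 := by rw [f2]; simp [hw12, Ne.symm hb2w1]
  have cv1 : Cov A c b1 z1 := ⟨hz1, lev_of_form f1, z1b1⟩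
  have cv2 : Cov A c b2 z2 := ⟨hz2, lev_of_form f2, z2b2⟩
  have hz12 : z1 ≠ z2 := by
    intro hh
    rw [hh] at z1b1
    omega
  have hxz1 : x ≠ z1 := by
    rintro rfl
    have := cv1.2.1
    omega
  have hxz2 : x ≠ z2 := by
    rintro rfl
    have := cv2.2.1
    omega
  have p := TS.P2 g cv1 cv2 hz12 hx hxz1 hxz2 hn1 hn2
  have hJc : ((J0.card : ℕ) : ℤ) ≤ (h x).card := by exact_mod_cast Finset.card_le_card hJ
  have xb1 : c x b1 = -1 := by omega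
  have xb2 : c x b2 = -1 := by omega
  have hxc : ((h x).card : ℤ) = - lev c x - 2 := by omega
  have hb1A := TS.cov_mem g cv1
  have hb2A := TS.cov_mem g cv2
  have hne1 : ∀ u ∈ A, u ≠ z1 := fun u hu hh => hz1 (hh ▸ hu)
  have hne2 : ∀ u ∈ A, u ≠ z2 := fun u hu hh => hz2 (hh ▸ hu)
  -- double exchange
  have g1 := TS.covGood g cv1
  have cv2' := TS.cov_persist g cv1 cv2 (Ne.symm hz12) z2b1
  have g2 := TS.covGood g1 cv2'
  have e1b2 : ∀ y, ex c b1 z1 y b2 = c y b2 := by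
    intro y
    rw [ex_of_ne _ _ _ _ _ (hne1 b2 hb2A) (Ne.symm hb), z1b2]; ring
  have l2 : ∀ y, lev (ex (ex c b1 z1) b2 z2) y = lev c y - c y b1 - c y b2 := by
    intro y
    rw [TS.lev_ex0 g1 cv2', TS.lev_ex0 g cv1, e1b2]
  have c2 : ∀ y, ∀ u ∈ A, u ≠ b1 → u ≠ b2 → ex (ex c b1 z1) b2 z2 y u =
      c y u + c y b1 * c z1 u + c y b2 * c z2 u := by
    intro y u hu h1 h2
    rw [ex_of_ne _ _ _ _ _ (hne2 u hu) h2, e1b2, ex_of_ne _ _ _ _ _ (hne1 u hu) h1,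
      TS.ex_zero g hz1 z2b1]
  have hxA2 : x ∉ insert z2 ((insert z1 (A.erase b1)).erase b2) := nm_ex (nm_ex hx hxz1) hxz2
  have hlx2 : lev (ex (ex c b1 z1) b2 z2) x = lev c x + 2 := by
    rw [l2, xb1, xb2]; ring
  obtain ⟨u, huA2, hu⟩ := TS.exists_neg g2 hxA2
  have huz2 : u ≠ z2 := by
    rintro rfl
    rw [ex_z, e1b2, xb2] at hu
    omega
  have huz1 : u ≠ z1 := by
    rintro rfl
    rw [ex_of_ne _ _ _ _ _ hz12 (fun hh => hne1 b2 hb2A hh.symm), ex_z, ex_z, e1b2, xb1, xb2, z2b1] at hu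
    omega
  have huA : u ∈ A ∧ u ≠ b1 ∧ u ≠ b2 := by
    simp only [mem_insert, mem_erase] at huA2
    tauto
  obtain ⟨huA, hub1, hub2⟩ := huA
  have hopp : IsOpp (insert z2 ((insert z1 (A.erase b1)).erase b2)) (ex (ex c b1 z1) b2 z2) u x := by
    rcases TS.N6 g2 hxA2 hu with k | k
    · exact k
    · rw [hlx2] at k
      omega
  have hxu2 := hopp.2.1
  -- the case u = w_j
  have caseW : ∀ w n, w ∈ A → w ≠ b1 → w ≠ b2 → n ∉ A → (∀ u, c n u = if u = w then -1 else 0) → u = w →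
      lev c x = -2 := by
    intro w n hwA hwb1 hwb2 hnA hn huw
    subst huw
    have levn : lev c n = -1 := by
      unfold lev
      rw [Finset.sum_congr rfl (fun u _ => hn u)]
      simp
    have hnb1 : c n b1 = 0 := by rw [hn]; simp [Ne.symm hwb1]
    have hnb2 : c n b2 = 0 := by rw [hn]; simp [Ne.symm hwb2]
    have hnz1 : n ≠ z1 := by
      rintro rfl
      have := cv1.2.1
      omega
    have hnz2 : n ≠ z2 := by
      rintro rfl
      have := cv2.2.1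
      omega
    have hnx : n ≠ x := by
      rintro rfl
      omega
    have := hopp.2.2 n (nm_ex (nm_ex hnA hnz1) hnz2) hnx
    rw [hlx2, l2, c2 n _ hwA hwb1 hwb2, hnb1, hnb2, levn, hn] at this
    simp only [if_true] at this
    omega
  by_cases huw1 : u = w1
  · have hl2 := caseW w1 n1 (TS.cov_mem g s1.cov) (Ne.symm hb1w1) (Ne.symm hb2w1) s1.nA s1.hn huw1
    have hxw1 : c x w1 = 0 := by
      rw [c2 x u huA hub1 hub2, huw1, z1w1, z2w1, xb1] at hxu2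
      omega
    exact QA g hx hl2 cv1 cv2 z1w1 z1b2 z2b1 z2w1 hz12 hb hb1w1 hb2w1 s1.nA s1.hn xb1 xb2 hxw1
  by_cases huw2 : u = w2
  · have hl2 := caseW w2 n2 (TS.cov_mem g s2.cov) (Ne.symm hb1w2) (Ne.symm hb2w2) s2.nA s2.hn huw2
    have hxw2 : c x w2 = 0 := by
      rw [c2 x u huA hub1 hub2, huw2, z1w2, z2w2, xb2] at hxu2
      omega
    exact QA g hx hl2 cv2 cv1 z2w2 z2b1 z1b2 z1w2 (Ne.symm hz12) (Ne.symm hb) hb2w2 hb1w2 s2.nA s2.hn
      xb2 xb1 hxw2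
  have z1u : c z1 u = 0 := by rw [f1]; simp [huw1, hub1]
  have z2u : c z2 u = 0 := by rw [f2]; simp [huw2, hub2]
  have hxu : c x u = -1 := by
    rw [c2 x u huA hub1 hub2, z1u, z2u] at hxu2
    omega
  obtain ⟨y, hy⟩ := TS.exists_opp g huA
  have hxy : x ≠ y := by
    rintro rfl
    exact hO u hy
  have hyz1 : y ≠ z1 := by
    rintro rfl
    have := hy.2.1
    omega
  have hyz2 : y ≠ z2 := by
    rintro rfl
    have := hy.2.1
    omega
  have hb1y : b1 ≠ y := fun hh => hy.1 (hh ▸ hb1A)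
  have hb2y : b2 ≠ y := fun hh => hy.1 (hh ▸ hb2A)
  rcases lt_or_eq_of_le (TS.lev_le g hy.1) with hylt | hy0
  · -- t ≥ 1
    obtain ⟨k1, h3, g3, hJ3⟩ := TS.negJ g hy hx hxy huA hJ (hd u huA y hy hylt)
    rw [hxu] at k1
    have hly : lev c y = -1 := by omega
    have hJ3c : ((J0.card : ℕ) : ℤ) ≤ (h3 x).card := by exact_mod_cast Finset.card_le_card hJ3
    have l3x : lev (ex c u y) x = lev c x + 2 := by
      rw [TS.lev_ex' g hy.1 hy.2.1, hxu, hly]; ring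
    have stepb : ∀ b z, Cov A c b z → c z u = 0 → b ≠ y → b ≠ u → z ≠ y → x ≠ z → c x b = -1 → c y b ≤ -1 := by
      intro b z hc hzu hby hbu hzy hxz hxb
      have c3 : Cov (insert y (A.erase u)) (ex c u y) b z := by
        refine ⟨nm_ex hc.1 hzy, ?_, ?_⟩
        · rw [TS.lev_ex' g hy.1 hy.2.1, hzu, hc.2.1]; ring
        · rw [TS.ex_zero g hy.1 hzu]; exact hc.2.2
      by_contra hcon
      have hlt : ex c u y x b < 0 := by
        rw [ex_of_ne _ _ _ _ _ hby hbu, hxb, hxu]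
        omega
      have := TS.negopp g3 (TS.covOpp g3 c3) (nm_ex hx hxy) hxz hlt
      rw [l3x] at this
      omega
    have r1 := stepb b1 z1 cv1 z1u hb1y (Ne.symm hub1) (Ne.symm hyz1) hxz1 xb1
    have r2 := stepb b2 z2 cv2 z2u hb2y (Ne.symm hub2) (Ne.symm hyz2) hxz2 xb2
    have := TS.P2 g cv1 cv2 hz12 hy.1 hyz1 hyz2 (by omega) (by omega)
    omega
  · -- t = 0
    have cy : Cov A c u y := ⟨hy.1, hy0, hy.2.1⟩
    have g3 := TS.covGood g cy
    have k1 := hopp.2.2 y (nm_ex (nm_ex hy.1 hyz1) hyz2) (Ne.symm hxy)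
    rw [hlx2, l2, c2 y u huA hub1 hub2, z1u, z2u, hy.2.1, hy0] at k1
    have hlx2' := TS.lev_le g2 hxA2
    rw [hlx2] at hlx2'
    have stepb : ∀ b, b ∈ A → b ≠ y → b ≠ u → c x b = -1 → c y b ≤ 0 := by
      intro b hbA hby hbu hxb
      by_contra hcon
      have e3 : ex c u y x b = -1 - c y b := by
        rw [ex_of_ne _ _ _ _ _ hby hbu, hxb, hxu]; ring
      rcases TS.N6 g3 (nm_ex hx hxy) (show ex c u y x b < 0 by rw [e3]; omega) with k | k
      · have := k.2.1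
        rw [e3] at this
        omega
      · rw [TS.lev_ex0 g cy, e3, hxu] at k
        omega
    have r1 := stepb b1 hb1A hb1y (Ne.symm hub1) xb1
    have r2 := stepb b2 hb2A hb2y (Ne.symm hub2) xb2
    omega

end H178.AJP
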