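import Pool.Agent.H178R3.AjpC

set_option autoImplicit false
set_option linter.unusedSectionVars false
open Finset

namespace H178.AJP

variable {X J : Type} [Fintype X] [DecidableEq X] [DecidableEq J]
variable {T : TS X J} {A : Finset X} {c : X → X → ℤ} {h : X → Finset J}

theorem keyK (g : T.good A c h) {ζ w2 z2 v2 n2 v1 y : X} (s2 : Star A c w2 z2 v2 n2)
    (hc : c ζ w2 = 1) (cv1 : Cov A c v1 ζ) (hv : v1 ≠ v2) (hyA : y ∉ A)
    (hly : lev c y = -1) (hyv1 : c y v1 = -1) : 1 ≤ c y w2 := by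
  have hv1w2 : v1 ≠ w2 := by
    rintro rfl
    have := cv1.2.2
    omega
  have hw2A := TS.cov_mem g s2.cov
  have hv1A := TS.cov_mem g cv1
  have g' := TS.covGood g s2.cov
  have hz2v1 : c z2 v1 = 0 := by rw [s2.hz]; simp [hv, hv1w2]
  have hζz2 : ζ ≠ z2 := by
    intro hh
    have := cv1.2.2
    rw [hh] at this
    omega
  have hne : ∀ u ∈ A, u ≠ z2 := fun u hu hh => s2.zA (hh ▸ hu)
  have hlζ : lev (ex c w2 z2) ζ = -1 := by
    rw [TS.lev_ex0 g s2.cov, cv1.2.1, hc]; rfl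
  have e1 : ∀ x, ex c w2 z2 x v1 = c x v1 := by
    intro x
    rw [ex_of_ne _ _ _ _ _ (hne v1 hv1A) hv1w2, hz2v1]; ring
  have hζA' := nm_ex (w := w2) cv1.1 hζz2
  have hv1A' : v1 ∈ insert z2 (A.erase w2) := by simp [hv1A, hv1w2]
  obtain ⟨z', hz'⟩ := TS.exists_opp g' hv1A'
  have hopp : z' = ζ := by
    by_contra hne'
    have k := hz'.2.2 ζ hζA' (Ne.symm hne')
    rw [hlζ, e1, cv1.2.2] at k
    have k2 := TS.lev_le g' hz'.1
    have k3 : lev (ex c w2 z2) z' = 0 := by omega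
    have k4 : c z' v1 = -1 := by rw [← e1]; exact hz'.2.1
    have hz'A : z' ∉ A := by
      intro hh
      rw [T.diag g z' hh] at k4
      split_ifs at k4
    have hz'z2 : z' ≠ z2 := by
      intro hh
      apply hz'.1
      rw [hh]
      exact mem_insert_self _ _
    rw [TS.lev_ex0 g s2.cov] at k3
    have k5 := TS.lev_le g hz'A
    rcases lt_or_eq_of_le (show c z' w2 ≤ 0 by omega) with k6 | k6
    · have := TS.P2 g cv1 s2.cov hζz2 hz'A hne' hz'z2 (by omega) k6
      omega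
    · exact hne' (TS.cov_unique g ⟨hz'A, by omega, k4⟩ cv1)
  rw [hopp] at hz'
  have hyζ : y ≠ ζ := by
    rintro rfl
    have := cv1.2.1
    omega
  have hyz2 : y ≠ z2 := by
    rintro rfl
    have := s2.levz
    omega
  have k := hz'.2.2 y (nm_ex hyA hyz2) hyζ
  rw [TS.lev_ex0 g s2.cov, hly, hlζ, e1, hyv1] at k
  omega

def Nn (c : X → X → ℤ) (y : X) : Finset X := univ.filter (fun u => c y u < 0)
def Dd (c : X → X → ℤ) (ζ y : X) : Finset X := univ.filter (fun u => 1 ≤ c ζ u ∧ c y u = c ζ u - 1)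
def Pp (c : X → X → ℤ) (ζ : X) : Finset X := univ.filter (fun u => 1 ≤ c ζ u)

theorem ZZ.ne {ζ y : X} (zz : ZZ A c h ζ y) (hl : lev c ζ = 0) : y ≠ ζ := by
  rintro rfl
  have := zz.lv
  omega

theorem ZZ.D0 (g : T.good A c h) {ζ y : X} (zz : ZZ A c h ζ y) (hζ : ζ ∉ A) (hl : lev c ζ = 0) (u : X) :
    -1 ≤ c y u - c ζ u := by
  obtain ⟨v0, hv0A, hv0⟩ := TS.exists_neg g zz.yA
  obtain ⟨cv, hyv⟩ := zz.neg v0 hv0
  have g' := TS.covGood g cv
  have hyζ := zz.ne hl
  by_cases hu1 : u = ζ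
  · subst hu1
    rw [T.supp g _ _ hζ, T.supp g _ _ hζ]; norm_num
  by_cases hu2 : u = v0
  · subst hu2
    rw [hyv, cv.2.2]; norm_num
  have e : ex c v0 ζ y u = c y u - c ζ u := by
    rw [ex_of_ne _ _ _ _ _ hu1 hu2, hyv]; ring
  by_contra hcon
  rcases TS.N6 g' (nm_ex zz.yA hyζ) (show ex c v0 ζ y u < 0 by rw [e]; omega) with k | k
  · have := k.2.1
    rw [e] at this
    omega
  · rw [TS.lev_ex0 g cv, hyv, e] at k
    have := zz.hc
    omega

theorem ZZ.D2 (g : T.good A c h) {ζ y : X} (zz : ZZ A c h ζ y) (hζ : ζ ∉ A) (hl : lev c ζ = 0) {u v : X}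
    (hv : v ∈ Nn c y) (hu : u ∈ Dd c ζ y) : IsOpp (insert ζ (A.erase v)) (ex c v ζ) u y := by
  simp only [Nn, Dd, mem_filter, mem_univ, true_and] at hv hu
  obtain ⟨cv, hyv⟩ := zz.neg v hv
  have g' := TS.covGood g cv
  have hyζ := zz.ne hl
  have hu1 : u ≠ ζ := by
    rintro rfl
    have := T.supp g u u hζ
    omega
  have hu2 : u ≠ v := by
    rintro rfl
    have := cv.2.2
    omega
  have e : ex c v ζ y u = c y u - c ζ u := by
    rw [ex_of_ne _ _ _ _ _ hu1 hu2, hyv]; ring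
  rcases TS.N6 g' (nm_ex zz.yA hyζ) (show ex c v ζ y u < 0 by rw [e]; omega) with k | k
  · exact k
  · rw [TS.lev_ex0 g cv, hyv, e] at k
    have := zz.hc
    omega

theorem ZZ.D1 (g : T.good A c h) {ζ y : X} (zz : ZZ A c h ζ y) (hζ : ζ ∉ A) (hl : lev c ζ = 0) :
    - lev c y + ((Nn c ζ).card : ℤ) ≤ (Dd c ζ y).card + (Nn c y).card := by
  have h1 : ∑ u, ((if c ζ u < 0 then (1:ℤ) else 0) - (if c y u < 0 then 1 else 0) -
      (if (1 ≤ c ζ u ∧ c y u = c ζ u - 1) then 1 else 0)) ≤ ∑ u, (c y u - c ζ u) := by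
    refine Finset.sum_le_sum (fun u _ => ?_)
    have d0 := zz.D0 g hζ hl u
    by_cases h2 : c ζ u < 0
    · have h3 := (TS.covNeg g hζ hl h2).2.2
      by_cases h4 : c y u < 0
      · have h5 := (zz.neg u h4).2
        simp only [h2, h4, if_true]
        split_ifs <;> omega
      · simp only [h2, h4, if_true, if_false]
        split_ifs <;> omega
    · have h4 : ¬ c y u < 0 := by
        intro h4
        have := (zz.neg u h4).1.2.2
        omega
      simp only [h2, h4, if_false]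
      split_ifs <;> omega
  have h2 : ∑ u, (c y u - c ζ u) = lev c y := by
    rw [Finset.sum_sub_distrib]
    unfold lev at *
    rw [hl]; ring
  rw [h2, Finset.sum_sub_distrib, Finset.sum_sub_distrib, Finset.sum_boole, Finset.sum_boole,
    Finset.sum_boole] at h1
  unfold Nn Dd
  linarith

theorem Pp_le (g : T.good A c h) {ζ : X} (hζ : ζ ∉ A) (hl : lev c ζ = 0) :
    (Pp c ζ).card ≤ (Nn c ζ).card ∧ ((Nn c ζ).card ≤ (Pp c ζ).card →
      ∀ u, c ζ u = (if u ∈ Pp c ζ then 1 else 0) - (if u ∈ Nn c ζ then 1 else 0)) := by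
  have hf : ∀ u, 0 ≤ c ζ u - (if u ∈ Pp c ζ then 1 else 0) + (if u ∈ Nn c ζ then 1 else 0) := by
    intro u
    simp only [Pp, Nn, mem_filter, mem_univ, true_and]
    by_cases h2 : c ζ u < 0
    · have h3 := (TS.covNeg g hζ hl h2).2.2
      rw [h3]; simp
    · by_cases h4 : 1 ≤ c ζ u
      · simp [h2, h4]
      · simp [h2, h4]; omega
  have hs : ∑ u, (c ζ u - (if u ∈ Pp c ζ then 1 else 0) + (if u ∈ Nn c ζ then 1 else 0)) =
      - ((Pp c ζ).card : ℤ) + (Nn c ζ).card := by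
    rw [Finset.sum_add_distrib, Finset.sum_sub_distrib, Finset.sum_boole, Finset.sum_boole]
    unfold lev at hl
    rw [hl]
    simp
  have h0 := Finset.sum_nonneg (fun u (_ : u ∈ (univ : Finset X)) => hf u)
  rw [hs] at h0
  refine ⟨by omega, ?_⟩
  intro hle u
  have h1 : ∑ u, (c ζ u - (if u ∈ Pp c ζ then 1 else 0) + (if u ∈ Nn c ζ then 1 else 0)) = 0 := by
    rw [hs]; omega
  have := (Finset.sum_eq_zero_iff_of_nonneg (fun x _ => hf x)).1 h1 u (mem_univ _)
  linarith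

theorem group (g : T.good A c h) {ζ : X} (hζ : ζ ∉ A) (hl : lev c ζ = 0) (Z B : Finset X)
    (hZ : ∀ y ∈ Z, ZZ A c h ζ y) (hB : ∀ w ∈ B, ∃ z v n, Star A c w z v n ∧ Cov A c v ζ)
    (hm : 2 ≤ (Nn c ζ).card) : B.card + Z.card + 3 ≤ 3 * (Nn c ζ).card := by
  have hPle := Pp_le g hζ hl
  have hNF : ∀ y ∈ Z, Nn c y ⊆ Nn c ζ := by
    intro y hy v hv
    simp only [Nn, mem_filter, mem_univ, true_and] at hv ⊢
    have := ((hZ y hy).neg v hv).1.2.2
    omega
  have hN1 : ∀ y ∈ Z, 1 ≤ (Nn c y).card := by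
    intro y hy
    obtain ⟨v, _, hv⟩ := TS.exists_neg g (hZ y hy).yA
    exact Finset.card_pos.2 ⟨v, by simp [Nn, hv]⟩
  have hDP : ∀ y, Dd c ζ y ⊆ Pp c ζ := by
    intro y u hu
    simp only [Dd, Pp, mem_filter, mem_univ, true_and] at hu ⊢
    exact hu.1
  have hD1 : ∀ y ∈ Z, 1 + (Nn c ζ).card ≤ (Dd c ζ y).card + (Nn c y).card := by
    intro y hy
    have h1 := (hZ y hy).D1 g hζ hl
    have h2 := (hZ y hy).lv
    omega
  have huniq : ∀ y ∈ Z, ∀ y' ∈ Z, ∀ v u, v ∈ Nn c y → v ∈ Nn c y' → u ∈ Dd c ζ y → u ∈ Dd c ζ y' → y = y' := by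
    intro y hy y' hy' v u h1 h2 h3 h4
    exact ((hZ y hy).D2 g hζ hl h1 h3).unique ((hZ y' hy').D2 g hζ hl h2 h4)
  -- |Z| ≤ m
  have hZm : Z.card ≤ (Nn c ζ).card := by
    have h1 : (Z.sigma (fun y => (Nn c y) ×ˢ (Dd c ζ y))).card ≤ ((Nn c ζ) ×ˢ (Pp c ζ)).card := by
      refine Finset.card_le_card_of_injOn (fun p => p.2) ?_ ?_
      · rintro ⟨y, v, u⟩ hp
        simp only [coe_sigma, Set.mem_sigma_iff, mem_coe, mem_product] at hp ⊢
        exact ⟨hNF y hp.1 hp.2.1, hDP y hp.2.2⟩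
      · rintro ⟨y, v, u⟩ hp ⟨y', v', u'⟩ hp' heq
        simp only [coe_sigma, Set.mem_sigma_iff, mem_coe, mem_product] at hp hp'
        simp only at heq
        obtain ⟨rfl, rfl⟩ := Prod.mk.inj heq
        have := huniq y hp.1 y' hp'.1 v u hp.2.1 hp'.2.1 hp.2.2 hp'.2.2
        subst this
        rfl
    rw [Finset.card_sigma, Finset.card_product] at h1
    have h2 : ∑ y ∈ Z, (Nn c ζ).card ≤ ∑ y ∈ Z, ((Nn c y) ×ˢ (Dd c ζ y)).card := by
      refine Finset.sum_le_sum (fun y hy => ?_)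
      rw [Finset.card_product]
      have a1 := hN1 y hy
      have a2 := Finset.card_le_card (hNF y hy)
      have a3 := hD1 y hy
      generalize (Nn c y).card = n at *
      generalize (Nn c ζ).card = m at *
      generalize (Dd c ζ y).card = D at *
      obtain ⟨k, rfl⟩ := Nat.exists_eq_add_of_le a1
      obtain ⟨l, rfl⟩ := Nat.exists_eq_add_of_le a2
      have : 1 + l ≤ D := by omega
      nlinarith
    rw [Finset.sum_const, smul_eq_mul] at h2
    have h3 : Z.card * (Nn c ζ).card ≤ (Nn c ζ).card * (Nn c ζ).card :=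
      le_trans h2 (le_trans h1 (Nat.mul_le_mul_left _ hPle.1))
    exact Nat.le_of_mul_le_mul_right h3 (by omega)
  have hBP : B ⊆ Pp c ζ := by
    intro w hw
    obtain ⟨z, v, n, s, cv⟩ := hB w hw
    simp only [Pp, mem_filter, mem_univ, true_and]
    exact s.pos g cv
  have hBm : B.card ≤ (Nn c ζ).card := le_trans (Finset.card_le_card hBP) hPle.1
  by_cases hm3 : 3 ≤ (Nn c ζ).card
  · omega
  have hm2 : (Nn c ζ).card = 2 := by omega
  by_cases hB1 : B.card ≤ 1
  · omega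
  by_cases hZ1 : Z.card ≤ 1
  · omega
  exfalso
  push Not at hB1 hZ1
  obtain ⟨w1, hw1, w2, hw2, hw12⟩ := Finset.one_lt_card.1 hB1
  obtain ⟨y, hy, y', hy', hyy⟩ := Finset.one_lt_card.1 hZ1
  obtain ⟨z1, v1, n1, s1, cv1⟩ := hB w1 hw1
  obtain ⟨z2, v2, n2, s2, cv2⟩ := hB w2 hw2
  have hv12 : v1 ≠ v2 := by
    rintro rfl
    exact hw12 (s1.inj g s2)
  have hPm : (Nn c ζ).card ≤ (Pp c ζ).card := by
    have := Finset.card_le_card hBP
    omega
  have hPcard : (Pp c ζ).card = 2 := by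
    have := hPle.1
    omega
  have hform := hPle.2 hPm
  have hFeq : ({v1, v2} : Finset X) = Nn c ζ := by
    refine Finset.eq_of_subset_of_card_le ?_ ?_
    · intro v hv
      simp only [mem_insert, mem_singleton] at hv
      simp only [Nn, mem_filter, mem_univ, true_and]
      rcases hv with rfl | rfl
      · have := cv1.2.2; omega
      · have := cv2.2.2; omega
    · rw [hm2, Finset.card_pair hv12]
  have hPeq : ({w1, w2} : Finset X) = Pp c ζ := by
    refine Finset.eq_of_subset_of_card_le ?_ ?_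
    · intro w hw
      simp only [mem_insert, mem_singleton] at hw
      rcases hw with rfl | rfl
      · exact hBP hw1
      · exact hBP hw2
    · rw [hPcard, Finset.card_pair hw12]
  have hnotN : ∀ w ∈ Pp c ζ, w ∉ Nn c ζ := by
    intro w hw hw'
    simp only [Pp, Nn, mem_filter, mem_univ, true_and] at hw hw'
    omega
  have hcw : ∀ w ∈ Pp c ζ, c ζ w = 1 := by
    intro w hw
    rw [hform w]
    simp [hw, hnotN w hw]
  have hw1P : w1 ∈ Pp c ζ := hBP hw1
  have hw2P : w2 ∈ Pp c ζ := hBP hw2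
  -- all members of Z have level -1
  have hlev1 : ∀ y ∈ Z, ∀ y' ∈ Z, y ≠ y' → lev c y = -1 := by
    intro y hy y' hy' hne
    by_contra hcon
    have hl2 : lev c y ≤ -2 := by
      have := (hZ y hy).lv
      omega
    have a1 := (hZ y hy).D1 g hζ hl
    have a2 := Finset.card_le_card (hNF y hy)
    have a3 := Finset.card_le_card (hDP y)
    have eN : Nn c y = Nn c ζ := Finset.eq_of_subset_of_card_le (hNF y hy) (by omega)
    have eD : Dd c ζ y = Pp c ζ := Finset.eq_of_subset_of_card_le (hDP y) (by omega)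
    have b1 := hN1 y' hy'
    have b2 := hD1 y' hy'
    have b3 := Finset.card_le_card (hNF y' hy')
    obtain ⟨v, hv⟩ := Finset.card_pos.1 (show 0 < (Nn c y').card by omega)
    obtain ⟨u, hu⟩ := Finset.card_pos.1 (show 0 < (Dd c ζ y').card by omega)
    exact hne (huniq y hy y' hy' v u (eN ▸ hNF y' hy' hv) hv (eD ▸ hDP y' hu) hu)
  have hly := hlev1 y hy y' hy' hyy
  have k1 : v1 ∈ Nn c y → w2 ∉ Dd c ζ y := by
    intro hv hw
    simp only [Nn, Dd, mem_filter, mem_univ, true_and] at hv hw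
    have := keyK g s2 (hcw w2 hw2P) cv1 hv12 (hZ y hy).yA hly ((hZ y hy).neg v1 hv).2
    have := hcw w2 hw2P
    omega
  have k2 : v2 ∈ Nn c y → w1 ∉ Dd c ζ y := by
    intro hv hw
    simp only [Nn, Dd, mem_filter, mem_univ, true_and] at hv hw
    have := keyK g s1 (hcw w1 hw1P) cv2 (Ne.symm hv12) (hZ y hy).yA hly ((hZ y hy).neg v2 hv).2
    have := hcw w1 hw1P
    omega
  have hsum := hD1 y hy
  rw [hm2] at hsum
  have e1 : (Nn c y).card ≤ (if v1 ∈ Nn c y then 1 else 0) + (if v2 ∈ Nn c y then 1 else 0) := by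
    have : Nn c y ⊆ (if v1 ∈ Nn c y then {v1} else ∅) ∪ (if v2 ∈ Nn c y then {v2} else ∅) := by
      intro v hv
      have h1 := hNF y hy hv
      rw [← hFeq] at h1
      simp only [mem_insert, mem_singleton] at h1
      rcases h1 with rfl | rfl
      · simp [hv]
      · simp [hv]
    refine le_trans (Finset.card_le_card this) (le_trans (Finset.card_union_le _ _) ?_)
    split_ifs <;> simp
  have e2 : (Dd c ζ y).card ≤ (if w1 ∈ Dd c ζ y then 1 else 0) + (if w2 ∈ Dd c ζ y then 1 else 0) := by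
    have : Dd c ζ y ⊆ (if w1 ∈ Dd c ζ y then {w1} else ∅) ∪ (if w2 ∈ Dd c ζ y then {w2} else ∅) := by
      intro v hv
      have h1 := hDP y hv
      rw [← hPeq] at h1
      simp only [mem_insert, mem_singleton] at h1
      rcases h1 with rfl | rfl
      · simp [hv]
      · simp [hv]
    refine le_trans (Finset.card_le_card this) (le_trans (Finset.card_union_le _ _) ?_)
    split_ifs <;> simp
  by_cases q1 : v1 ∈ Nn c y <;> by_cases q2 : v2 ∈ Nn c y <;>
    by_cases q3 : w1 ∈ Dd c ζ y <;> by_cases q4 : w2 ∈ Dd c ζ y <;>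
    simp only [q1, q2, q3, q4, if_true, if_false] at e1 e2 <;> first | omega | exact absurd q4 (k1 q1) | exact absurd q3 (k2 q2)

end H178.AJP
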