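import Pool.Agent.H178R3.AjpD

set_option autoImplicit false
set_option linter.unusedSectionVars false
set_option linter.unusedVariables false
open Finset

namespace H178.AJP

variable {X J : Type} [Fintype X] [DecidableEq X] [DecidableEq J]
variable {T : TS X J} {A : Finset X} {c : X → X → ℤ} {h : X → Finset J}

theorem Star.n_unique' (g : T.good A c h) {w z v n z' v' n' : X} (s : Star A c w z v n)
    (s' : Star A c w z' v' n') : n = n' := by
  have hz : z = z' := TS.cov_unique g s.cov s'.cov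
  subst hz
  have h1 := s'.zv
  rw [s.hz] at h1
  have hv : v' = v := by
    by_contra hne
    simp [hne] at h1
    split_ifs at h1 <;> omega
  subst hv
  exact s.n_unique g s'

/-- if `x` is full with a single opposite `v`, then `x = -e_v` -/
theorem full_single (g : T.good A c h) {x v : X} (hx : x ∉ A) (hfull : ((h x).card : ℤ) = - lev c x)
    (hlx : lev c x < 0)
    (hO : ∀ u, IsOpp A c u x → u = v) : lev c x = -1 ∧ ∀ u, c x u = if u = v then -1 else 0 := by
  have hneg : ∀ u, c x u < 0 → u = v ∧ c x u = -1 := by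
    intro u hu
    rcases TS.N6 g hx hu with k | k
    · exact ⟨hO u k, k.2.1⟩
    · omega
  have hf : ∀ u, 0 ≤ c x u + (if u = v then 1 else 0) := by
    intro u
    by_cases hu : u = v
    · by_cases h3 : c x u < 0
      · rw [(hneg u h3).2]; simp [hu]
      · simp [hu]; rw [hu] at h3; omega
    · have : ¬ c x u < 0 := fun hh => hu (hneg u hh).1
      simp [hu]; omega
  have hsum : ∑ u, (c x u + (if u = v then 1 else 0)) = lev c x + 1 := by
    rw [Finset.sum_add_distrib]
    unfold lev
    simp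
  have hge : 0 ≤ lev c x + 1 := by
    rw [← hsum]
    exact Finset.sum_nonneg (fun u _ => hf u)
  have hl : lev c x = -1 := by omega
  refine ⟨hl, ?_⟩
  intro u
  rw [hl] at hsum
  have := (Finset.sum_eq_zero_iff_of_nonneg (fun x _ => hf x)).1 hsum u (mem_univ _)
  split_ifs with h5
  · simp [h5] at this; rw [h5]; omega
  · simp [h5] at this; omega

theorem full_no_star (g : T.good A c h) {x v w z n : X} (hx : x ∉ A) (hl : lev c x = -1)
    (hc : ∀ u, c x u = if u = v then -1 else 0) (hcard : (h x).card ≠ 0) (s : Star A c w z v n) : False := by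
  have g1 := TS.covGood g s.cov
  have cn := s.covn g
  have hvA : v ∈ A := TS.mem_of_ne g (x := z) (by rw [s.zv]; norm_num)
  have hxw : c x w = 0 := by rw [hc]; simp [Ne.symm s.hvw]
  have hxz : x ≠ z := by
    rintro rfl
    have := s.levz
    omega
  have hxn : x ≠ n := by
    rintro rfl
    have := s.nw
    omega
  have e : ex c w z x v = -1 := by
    rw [TS.ex_zero g s.zA hxw, hc]; simp
  have := TS.negopp g1 (TS.covOpp g1 cn) (nm_ex hx hxz) hxn (by rw [e]; norm_num)
  rw [TS.lev_ex0 g s.cov, hl, hxw, e] at this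
  omega

open scoped Classical in
theorem main [Nonempty X] (g : T.good A c h)
    (hNH : ∀ w v z z' n n', Star A c w z v n → Star A c v z' w n' → False)
    (hspec : ∀ v ∈ A, 0 ≤ ∑ x, c x v) :
    A.card + 2 * ((univ.filter (fun x => x ∉ A)).biUnion h).card + 3 * Fintype.card X ≤ 9 * A.card := by
  -- opposite function
  have hopp : ∀ v : X, ∃ z, v ∈ A → IsOpp A c v z := by
    intro v
    by_cases hv : v ∈ A
    · obtain ⟨z, hz⟩ := TS.exists_opp g hv
      exact ⟨z, fun _ => hz⟩
    · exact ⟨v, fun h => absurd h hv⟩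
  choose o ho using hopp
  have hstar : ∀ w : X, ∃ z v n, (∃ z v n, Star A c w z v n) → Star A c w z v n := by
    intro w
    by_cases hw : ∃ z v n, Star A c w z v n
    · obtain ⟨z, v, n, hs⟩ := hw
      exact ⟨z, v, n, fun _ => hs⟩
    · exact ⟨w, w, w, fun h => absurd h hw⟩
  choose zf φ nf hst using hstar
  obtain ⟨SS, hSS⟩ : ∃ SS : Finset X, ∀ w, w ∈ SS ↔ ∃ z v n, Star A c w z v n :=
    ⟨univ.filter (fun w => ∃ z v n, Star A c w z v n), fun w => by simp⟩
  have hS : ∀ w ∈ SS, Star A c w (zf w) (φ w) (nf w) := fun w hw => hst w ((hSS w).1 hw)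
  have hφinj : ∀ w ∈ SS, ∀ w' ∈ SS, φ w = φ w' → w = w' := by
    intro w hw w' hw' heq
    have s1 := hS w hw
    have s2 := hS w' hw'
    rw [← heq] at s2
    exact s1.inj g s2
  have hφA : ∀ w ∈ SS, φ w ∈ A := fun w hw =>
    TS.mem_of_ne g (x := zf w) (by rw [(hS w hw).zv]; norm_num)
  have hocov : ∀ v ζ, Cov A c v ζ → o v = ζ := fun v ζ hc =>
    (ho v (TS.cov_mem g hc)).unique (TS.covOpp g hc)
  have hlo : ∀ v ∈ A, lev c (o v) ≤ 0 := fun v hv => TS.lev_le g (ho v hv).1
  have hcovo : ∀ v ∈ A, lev c (o v) = 0 → Cov A c v (o v) := fun v hv hl =>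
    ⟨(ho v hv).1, hl, (ho v hv).2.1⟩
  -- classes
  obtain ⟨SSg, hSSg⟩ : ∃ S : Finset X, S = SS.filter (fun w => lev c (o (φ w)) < 0) := ⟨_, rfl⟩
  obtain ⟨SSb, hSSb⟩ : ∃ S : Finset X, S = SS.filter (fun w => lev c (o (φ w)) = 0 ∧
    2 ≤ (Nn c (o (φ w))).card) := ⟨_, rfl⟩
  obtain ⟨SSa1, hSSa1⟩ : ∃ S : Finset X, S = SS.filter (fun w => (lev c (o (φ w)) = 0 ∧
    (Nn c (o (φ w))).card = 1) ∧ 1 ≤ ∑ x, c x (φ w)) := ⟨_, rfl⟩
  obtain ⟨SSa2, hSSa2⟩ : ∃ S : Finset X, S = SS.filter (fun w => (lev c (o (φ w)) = 0 ∧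
    (Nn c (o (φ w))).card = 1) ∧ ∑ x, c x (φ w) ≤ 0) := ⟨_, rfl⟩
  have hNn1 : ∀ v ζ, Cov A c v ζ → v ∈ Nn c ζ := by
    intro v ζ hc
    simp only [Nn, mem_filter, mem_univ, true_and]
    have := hc.2.2
    omega
  have hSScard : SS.card ≤ SSg.card + SSb.card + SSa1.card + SSa2.card := by
    have : SS ⊆ ((SSg ∪ SSb) ∪ SSa1) ∪ SSa2 := by
      intro w hw
      have hv := hφA w hw
      have h1 := hlo _ hv
      simp only [mem_union, hSSg, hSSb, hSSa1, hSSa2, mem_filter, hw, true_and]
      rcases lt_or_eq_of_le h1 with h2 | h2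
      · left; left; left; exact h2
      · have h3 : 1 ≤ (Nn c (o (φ w))).card := Finset.card_pos.2 ⟨_, hNn1 _ _ (hcovo _ hv h2)⟩
        by_cases h4 : 2 ≤ (Nn c (o (φ w))).card
        · left; left; right; exact ⟨h2, h4⟩
        · have h5 : (Nn c (o (φ w))).card = 1 := by omega
          by_cases h6 : 1 ≤ ∑ x, c x (φ w)
          · left; right; exact ⟨⟨h2, h5⟩, h6⟩
          · right; exact ⟨⟨h2, h5⟩, by omega⟩
    refine le_trans (Finset.card_le_card this) ?_
    refine le_trans (Finset.card_union_le _ _) ?_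
    have h1 := Finset.card_union_le (SSg ∪ SSb) SSa1
    have h2 := Finset.card_union_le SSg SSb
    omega
  -- alpha form
  have halpha : ∀ w ∈ SS, lev c (o (φ w)) = 0 → (Nn c (o (φ w))).card = 1 →
      (∀ u, c (o (φ w)) u = (if u = w then 1 else 0) - (if u = φ w then 1 else 0)) ∧ φ w ∉ SS := by
    intro w hw hl hc1
    have s := hS w hw
    have cv := hcovo _ (hφA w hw) hl
    obtain ⟨a, ha⟩ := Finset.card_eq_one.1 hc1
    have hsing : ∀ u, c (o (φ w)) u < 0 → u = φ w := by
      intro u hu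
      have h1 : u ∈ Nn c (o (φ w)) := by simp [Nn, hu]
      have h2 := hNn1 _ _ cv
      rw [ha, mem_singleton] at h1 h2
      rw [h1, h2]
    obtain ⟨v', hv', hform⟩ := single_form g cv hsing
    have hpos := s.pos g cv
    have hwv : w = v' := by
      by_contra hne
      rw [hform] at hpos
      simp [hne] at hpos
      split_ifs at hpos <;> omega
    subst hwv
    refine ⟨hform, ?_⟩
    intro hcon
    have s' := hS _ hcon
    have hz : zf (φ w) = o (φ w) := TS.cov_unique g s'.cov cv
    have h3 := s'.zv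
    rw [hz, hform] at h3
    have h4 : φ (φ w) = w := by
      by_contra hne
      simp [hne] at h3
      split_ifs at h3 <;> omega
    rw [h4] at s'
    exact hNH _ _ _ _ _ _ s s'
  -- kappa
  have hkap : ∀ w, ∃ x, w ∈ SSa2 → x ∉ A ∧ lev c x < 0 ∧ c x (φ w) < 0 := by
    intro w
    by_cases hw : w ∈ SSa2
    · rw [hSSa2, mem_filter] at hw
      obtain ⟨hwS, ⟨hl, hc1⟩, hle⟩ := hw
      by_contra hcon
      push Not at hcon
      have s := hS w hwS
      have cv := hcovo _ (hφA w hwS) hl
      have hvA := hφA w hwS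
      have hnn : ∀ x, x ≠ o (φ w) → 0 ≤ c x (φ w) := by
        intro x hx
        by_cases hxA : x ∈ A
        · rw [T.diag g x hxA]
          split_ifs <;> norm_num
        · by_contra hneg
          push Not at hneg
          rcases lt_or_eq_of_le (TS.lev_le g hxA) with h1 | h1
          · have := (hcon x).2 hxA h1
            omega
          · exact hx (TS.cov_unique g (TS.covNeg g hxA h1 hneg) cv)
      have hne1 : φ w ≠ o (φ w) := fun hh => cv.1 (hh ▸ hvA)
      have hne2 : zf w ≠ o (φ w) := by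
        intro hh
        have h1 := s.zv
        rw [hh, cv.2.2] at h1
        omega
      have hne3 : φ w ≠ zf w := fun hh => s.zA (hh ▸ hvA)
      have hsub : ({φ w, zf w} : Finset X) ⊆ univ.erase (o (φ w)) := by
        intro x hx
        simp only [mem_insert, mem_singleton] at hx
        rcases hx with rfl | rfl
        · simp [hne1]
        · simp [hne2]
      have h1 : ∑ x ∈ ({φ w, zf w} : Finset X), c x (φ w) ≤ ∑ x ∈ univ.erase (o (φ w)), c x (φ w) :=
        Finset.sum_le_sum_of_subset_of_nonneg hsub (fun x hx _ => hnn x (by simpa using hx))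
      rw [Finset.sum_pair hne3, T.diag g _ hvA, s.zv] at h1
      have h2 : ∑ x, c x (φ w) = c (o (φ w)) (φ w) + ∑ x ∈ univ.erase (o (φ w)), c x (φ w) :=
        (Finset.add_sum_erase _ _ (mem_univ _)).symm
      rw [cv.2.2] at h2
      simp only [if_true] at h1
      omega
    · exact ⟨w, fun h => absurd h hw⟩
  choose κ hκ using hkap
  -- nu
  obtain ⟨U, hU⟩ : ∃ U : Finset J, U = (univ.filter (fun x => x ∉ A)).biUnion h := ⟨_, rfl⟩
  rw [← hU]
  have hnu : ∀ j, ∃ x, j ∈ U → x ∉ A ∧ lev c x < 0 ∧ j ∈ h x ∧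
      ((∀ v ∈ A, o v ≠ x) → ∀ v ∈ A, lev c (o v) < 0 → j ∉ h (o v)) := by
    intro j
    by_cases hex : ∃ v ∈ A, lev c (o v) < 0 ∧ j ∈ h (o v)
    · obtain ⟨v, hv, h1, h2⟩ := hex
      exact ⟨o v, fun _ => ⟨(ho v hv).1, h1, h2, fun h3 => absurd rfl (h3 v hv)⟩⟩
    · push Not at hex
      by_cases hj : j ∈ U
      · rw [hU, mem_biUnion] at hj
        obtain ⟨x, hx, hjx⟩ := hj
        simp only [mem_filter, mem_univ, true_and] at hx
        refine ⟨x, fun _ => ⟨hx, ?_, hjx, fun _ => hex⟩⟩
        have h1 := T.hlev g x hx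
        have h2 : 0 < (h x).card := Finset.card_pos.2 ⟨j, hjx⟩
        omega
      · exact ⟨Classical.arbitrary X, fun h => absurd h hj⟩
  choose ν hν using hnu
  obtain ⟨Ac, hAc⟩ : ∃ S : Finset X, S = univ.filter (fun x => x ∉ A) := ⟨_, rfl⟩
  obtain ⟨D, hD⟩ : ∃ S : Finset X, S = Ac.filter (fun x => lev c x < 0) := ⟨_, rfl⟩
  obtain ⟨H0, hH0⟩ : ∃ S : Finset X, S = Ac.filter (fun x => ¬ lev c x < 0) := ⟨_, rfl⟩
  have hDm : ∀ x, x ∈ D ↔ x ∉ A ∧ lev c x < 0 := by
    intro x; rw [hD, hAc]; simp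
  have hH0m : ∀ x, x ∈ H0 ↔ x ∉ A ∧ lev c x = 0 := by
    intro x; rw [hH0, hAc]; simp only [mem_filter, mem_univ, true_and]
    constructor
    · rintro ⟨h1, h2⟩
      have := TS.lev_le g h1
      exact ⟨h1, by omega⟩
    · rintro ⟨h1, h2⟩
      exact ⟨h1, by omega⟩
  obtain ⟨fib, hfib⟩ : ∃ f : X → Finset X, ∀ x, f x = A.filter (fun v => o v = x) := ⟨_, fun _ => rfl⟩
  obtain ⟨u, hu⟩ : ∃ f : X → Finset J, ∀ x, f x = U.filter (fun j => ν j = x) := ⟨_, fun _ => rfl⟩
  have huh : ∀ x, u x ⊆ h x := by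
    intro x j hj
    rw [hu, mem_filter] at hj
    have := (hν j hj.1).2.2.1
    rwa [hj.2] at this
  have hOx : ∀ x, fib x = ∅ → ∀ v, ¬ IsOpp A c v x := by
    intro x hx v hv
    have hvA : v ∈ A := TS.mem_of_ne g (x := x) (by rw [hv.2.1]; norm_num)
    have : v ∈ fib x := by
      rw [hfib, mem_filter]
      exact ⟨hvA, (ho v hvA).unique hv⟩
    rw [hx] at this
    simp at this
  have hdx : ∀ x, fib x = ∅ → ∀ v ∈ A, ∀ y, IsOpp A c v y → lev c y < 0 → ∀ j ∈ u x, j ∉ h y := by
    intro x hx v hvA y hy hly j hj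
    rw [hu, mem_filter] at hj
    have h1 := (hν j hj.1).2.2.2
    rw [hj.2] at h1
    have h2 : o v = y := (ho v hvA).unique hy
    rw [← h2]
    refine h1 ?_ v hvA (by rw [h2]; exact hly)
    intro v' hv' hov'
    have : v' ∈ fib x := by
      rw [hfib, mem_filter]
      exact ⟨hv', hov'⟩
    rw [hx] at this
    simp at this
  obtain ⟨W, hW⟩ : ∃ S : Finset X, S = D.filter (fun x => fib x = ∅ ∧
    - lev c x - 1 ≤ ((u x).card : ℤ)) := ⟨_, rfl⟩
  have hzt : ∀ x, ∃ ζ, x ∈ W → ζ ∉ A ∧ lev c ζ = 0 ∧ ZZ A c h ζ x := by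
    intro x
    by_cases hx : x ∈ W
    · rw [hW, mem_filter, hDm] at hx
      obtain ⟨⟨h1, h2⟩, h3, h4⟩ := hx
      obtain ⟨ζ, hζ⟩ := TS.exc g h1 (by omega) (hOx x h3) (huh x) (hdx x h3) h4
      exact ⟨ζ, fun _ => hζ⟩
    · exact ⟨x, fun h => absurd h hx⟩
  choose zt hzt using hzt
  have perx : ∀ x ∈ D, ((SSg.filter (fun w => o (φ w) = x)).card : ℤ) +
      (SSa2.filter (fun w => κ w = x)).card + 2 * (u x).card ≤
      3 * (fib x).card + 2 * (-lev c x) - 3 + (if x ∈ W then 1 else 0) := by
    intro x hxD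
    obtain ⟨hxA, hlx⟩ := (hDm x).1 hxD
    have hg : (SSg.filter (fun w => o (φ w) = x)).card ≤ (fib x).card := by
      refine Finset.card_le_card_of_injOn φ ?_ ?_
      · intro w hw
        simp only [coe_filter, Set.mem_ofPred, hSSg, mem_filter] at hw
        simp only [hfib, coe_filter, Set.mem_ofPred]
        exact ⟨hφA w hw.1.1, hw.2⟩
      · intro w hw w' hw' heq
        simp only [coe_filter, Set.mem_ofPred, hSSg, mem_filter] at hw hw'
        exact hφinj w hw.1.1 w' hw'.1.1 heq
    have hucard : (u x).card ≤ (h x).card := Finset.card_le_card (huh x)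
    obtain ⟨Tx, hTx⟩ : ∃ S : Finset X, S = SSa2.filter (fun w => κ w = x) := ⟨_, rfl⟩
    rw [← hTx]
    have hTx' : ∀ w ∈ Tx, w ∈ SS ∧ lev c (o (φ w)) = 0 ∧ (Nn c (o (φ w))).card = 1 ∧ c x (φ w) < 0 := by
      intro w hw
      rw [hTx, mem_filter] at hw
      have h1 := (hκ w hw.1).2.2
      rw [hw.2] at h1
      have h2 := hw.1
      rw [hSSa2, mem_filter] at h2
      exact ⟨h2.1, h2.2.1.1, h2.2.1.2, h1⟩
    have hN : ((h x).card : ℤ) + Tx.card ≤ - lev c x := by
      have hcardS : (Tx.image φ).card = Tx.card :=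
        Finset.card_image_of_injOn (fun w hw w' hw' heq =>
          hφinj w (hTx' w hw).1 w' (hTx' w' hw').1 heq)
      have h1 := TS.N1 o (Tx.image φ) g (by
        intro b hb
        obtain ⟨w, hw, rfl⟩ := mem_image.1 hb
        exact hcovo _ (hφA w (hTx' w hw).1) (hTx' w hw).2.1) (by
        intro b hb b' hb' hne
        obtain ⟨w, hw, rfl⟩ := mem_image.1 hb
        obtain ⟨w', hw', rfl⟩ := mem_image.1 hb'
        obtain ⟨k1, k2, k3, k4⟩ := hTx' w hw
        obtain ⟨l1, l2, l3, l4⟩ := hTx' w' hw'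
        have h5 := (halpha w k1 k2 k3).1
        have h6 : φ w' ≠ w := by
          intro hh
          exact (halpha w' l1 l2 l3).2 (hh ▸ k1)
        rw [h5]
        simp [h6, hne]) x hxA (by
        intro b hb
        obtain ⟨w, hw, rfl⟩ := mem_image.1 hb
        intro hh
        have := (hTx' w hw).2.1
        rw [← hh] at this
        omega)
      have h2 : ∑ b ∈ Tx.image φ, c x b ≤ ∑ b ∈ Tx.image φ, (-1 : ℤ) := by
        refine Finset.sum_le_sum (fun b hb => ?_)
        obtain ⟨w, hw, rfl⟩ := mem_image.1 hb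
        have := (hTx' w hw).2.2.2
        omega
      rw [Finset.sum_const, hcardS] at h2
      simp at h2
      linarith
    by_cases hf : fib x = ∅
    · have hf0 : (fib x).card = 0 := by rw [hf]; rfl
      by_cases hxW : x ∈ W
      · obtain ⟨hζA, hζ0, zz⟩ := hzt x hxW
        have hT0 : Tx.card = 0 := by
          rw [Finset.card_eq_zero]
          by_contra hne
          obtain ⟨w, hw⟩ := Finset.nonempty_iff_ne_empty.2 hne
          obtain ⟨k1, k2, k3, k4⟩ := hTx' w hw
          obtain ⟨k5, k6⟩ := halpha w k1 k2 k3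
          have cv := (zz.neg _ k4).1
          have hoz : o (φ w) = zt x := hocov _ _ cv
          rw [hoz] at k5
          have hsing : ∀ u, c (zt x) u < 0 → u = φ w := by
            intro u hu
            rw [k5] at hu
            by_contra hne
            simp [hne] at hu
            split_ifs at hu <;> omega
          obtain ⟨z1, z2⟩ := zz.single hsing
          apply k6
          rw [hSS]
          exact ⟨zt x, w, x, ⟨hζA, hxA, k5, z2, Ne.symm (hS w k1).hvw⟩⟩
        have := zz.hc
        simp only [hxW, if_true]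
        omega
      · simp only [hxW, if_false]
        have hlt : ((u x).card : ℤ) < - lev c x - 1 := by
          by_contra hcon
          apply hxW
          rw [hW, mem_filter]
          exact ⟨hxD, hf, by omega⟩
        by_cases h3 : ((u x).card : ℤ) ≤ - lev c x - 3
        · omega
        · by_cases ha : Tx.card ≤ 1
          · omega
          · exfalso
            push Not at ha
            obtain ⟨w1, hw1, w2, hw2, hne⟩ := Finset.one_lt_card.1 ha
            obtain ⟨k1, k2, k3, k4⟩ := hTx' w1 hw1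
            obtain ⟨l1, l2, l3, l4⟩ := hTx' w2 hw2
            obtain ⟨k5, k6⟩ := halpha w1 k1 k2 k3
            obtain ⟨l5, l6⟩ := halpha w2 l1 l2 l3
            refine lemQ g hxA (by omega) (hOx x hf) (hS w1 k1) (hS w2 l1) (ho _ (hφA w1 k1)).1
              (ho _ (hφA w2 l1)).1 k5 l5 (fun hh => hne (hφinj _ k1 _ l1 hh))
              (fun hh => k6 (hh ▸ l1)) (fun hh => l6 (hh ▸ k1)) k4 l4 (huh x) (hdx x hf) (by omega)
    · have hf1 : 1 ≤ (fib x).card := Finset.card_pos.2 (Finset.nonempty_iff_ne_empty.2 hf)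
      have hW0 : (0 : ℤ) ≤ (if x ∈ W then 1 else 0) := by split_ifs <;> norm_num
      by_cases h1 : ((u x).card : ℤ) ≤ - lev c x - 1
      · omega
      · by_cases h2 : 2 ≤ (fib x).card
        · omega
        · have hf2 : (fib x).card = 1 := by omega
          obtain ⟨v, hv⟩ := Finset.card_eq_one.1 hf2
          obtain ⟨f1, f2⟩ := full_single g (v := v) hxA (by omega) hlx (by
            intro u hu
            have huA : u ∈ A := TS.mem_of_ne g (x := x) (by rw [hu.2.1]; norm_num)
            have : u ∈ fib x := by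
              rw [hfib, mem_filter]
              exact ⟨huA, (ho u huA).unique hu⟩
            rw [hv, mem_singleton] at this
            exact this)
          have hg0 : (SSg.filter (fun w => o (φ w) = x)).card = 0 := by
            rw [Finset.card_eq_zero]
            by_contra hne
            obtain ⟨w, hw⟩ := Finset.nonempty_iff_ne_empty.2 hne
            rw [mem_filter, hSSg, mem_filter] at hw
            have h3 : φ w ∈ fib x := by
              rw [hfib, mem_filter]
              exact ⟨hφA w hw.1.1, hw.2⟩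
            rw [hv, mem_singleton] at h3
            have s := hS w hw.1.1
            rw [h3] at s
            exact full_no_star g hxA f1 f2 (by omega) s
          omega
  obtain ⟨W2, hW2⟩ : ∃ S : Finset X, S = W.filter (fun x => 2 ≤ (Nn c (zt x)).card) := ⟨_, rfl⟩
  obtain ⟨W1, hW1⟩ : ∃ S : Finset X, S = W.filter (fun x => ¬ 2 ≤ (Nn c (zt x)).card) := ⟨_, rfl⟩
  -- groups
  have hgrp : ∀ ζ ∈ H0, (SSb.filter (fun w => o (φ w) = ζ)).card + (W2.filter (fun x => zt x = ζ)).card + 3
      ≤ 3 * (fib ζ).card := by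
    intro ζ hζ
    obtain ⟨hζA, hζ0⟩ := (hH0m ζ).1 hζ
    have hfN : fib ζ = Nn c ζ := by
      ext v
      rw [hfib, mem_filter]
      simp only [Nn, mem_filter, mem_univ, true_and]
      constructor
      · rintro ⟨h1, h2⟩
        have := (ho v h1).2.1
        rw [h2] at this
        omega
      · intro h1
        have cv := TS.covNeg g hζA hζ0 h1
        exact ⟨TS.cov_mem g cv, hocov _ _ cv⟩
    rw [hfN]
    by_cases hm : 2 ≤ (Nn c ζ).card
    · refine group g hζA hζ0 _ _ ?_ ?_ hm
      · intro y hy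
        rw [mem_filter, hW2, mem_filter] at hy
        have := (hzt y hy.1.1).2.2
        rw [hy.2] at this
        exact this
      · intro w hw
        rw [mem_filter, hSSb, mem_filter] at hw
        refine ⟨zf w, φ w, nf w, hS w hw.1.1, ?_⟩
        have := hcovo _ (hφA w hw.1.1) hw.1.2.1
        rw [hw.2] at this
        exact this
    · have h1 : (SSb.filter (fun w => o (φ w) = ζ)).card = 0 := by
        rw [Finset.card_eq_zero, Finset.filter_eq_empty_iff]
        intro w hw hh
        rw [hSSb, mem_filter] at hw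
        apply hm
        rw [← hh]
        exact hw.2.2
      have h2 : (W2.filter (fun x => zt x = ζ)).card = 0 := by
        rw [Finset.card_eq_zero, Finset.filter_eq_empty_iff]
        intro w hw hh
        rw [hW2, mem_filter] at hw
        apply hm
        rw [← hh]
        exact hw.2
      obtain ⟨v, _, hv⟩ := TS.exists_neg g hζA
      have h3 : 1 ≤ (Nn c ζ).card := Finset.card_pos.2 ⟨v, by simp [Nn, hv]⟩
      omega
  -- W1 injects into SS
  have hW1SS : W1.card ≤ SS.card := by
    have hex : ∀ x, ∃ w, x ∈ W1 → w ∈ SS ∧ ∃ z v, Star A c w z v x := by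
      intro x
      by_cases hx : x ∈ W1
      · rw [hW1, mem_filter] at hx
        obtain ⟨hxW, hx2⟩ := hx
        obtain ⟨hζA, hζ0, zz⟩ := hzt x hxW
        obtain ⟨w, _, hw⟩ := TS.exists_neg g hζA
        have h3 : w ∈ Nn c (zt x) := by simp [Nn, hw]
        have h1 : 1 ≤ (Nn c (zt x)).card := Finset.card_pos.2 ⟨w, h3⟩
        obtain ⟨a, ha⟩ := Finset.card_eq_one.1 (show (Nn c (zt x)).card = 1 by omega)
        have hsing : ∀ u, c (zt x) u < 0 → u = w := by
          intro u hu
          have h4 : u ∈ Nn c (zt x) := by simp [Nn, hu]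
          rw [ha, mem_singleton] at h3 h4
          rw [h3, h4]
        obtain ⟨v, hv, hform⟩ := single_form g (TS.covNeg g hζA hζ0 hw) hsing
        obtain ⟨z1, z2⟩ := zz.single hsing
        have st : Star A c w (zt x) v x := ⟨hζA, zz.yA, hform, z2, hv⟩
        exact ⟨w, fun _ => ⟨(hSS w).2 ⟨_, _, _, st⟩, _, _, st⟩⟩
      · exact ⟨x, fun h => absurd h hx⟩
    choose ωf hωf using hex
    refine Finset.card_le_card_of_injOn ωf (fun x hx => (hωf x hx).1) ?_
    intro x hx x' hx' heq
    obtain ⟨z, v, st⟩ := (hωf x hx).2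
    obtain ⟨z', v', st'⟩ := (hωf x' hx').2
    rw [← heq] at st'
    exact st.n_unique' g st'
  -- sums
  have eW : W2.card + W1.card = W.card := by
    rw [hW2, hW1]
    exact Finset.card_filter_add_card_filter_not _
  have s1 : ∑ x ∈ D, (SSg.filter (fun w => o (φ w) = x)).card = SSg.card := by
    refine (Finset.card_eq_sum_card_fiberwise ?_).symm
    intro w hw
    simp only [mem_coe] at hw ⊢
    rw [hSSg, mem_filter] at hw
    rw [hDm]
    exact ⟨(ho _ (hφA w hw.1)).1, hw.2⟩
  have s2 : ∑ x ∈ D, (SSa2.filter (fun w => κ w = x)).card = SSa2.card := by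
    refine (Finset.card_eq_sum_card_fiberwise ?_).symm
    intro w hw
    simp only [mem_coe] at hw ⊢
    rw [hDm]
    exact ⟨(hκ w hw).1, (hκ w hw).2.1⟩
  have s3 : ∑ x ∈ D, (u x).card = U.card := by
    rw [Finset.sum_congr rfl (fun x _ => by rw [hu x])]
    refine (Finset.card_eq_sum_card_fiberwise ?_).symm
    intro j hj
    simp only [mem_coe] at hj ⊢
    rw [hDm]
    exact ⟨(hν j hj).1, (hν j hj).2.1⟩
  have s4 : ∑ x ∈ D, (if x ∈ W then (1:ℤ) else 0) = W.card := by
    rw [Finset.sum_boole]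
    congr 2
    rw [hW]
    ext x
    simp only [mem_filter]
    tauto
  have s5 : ∑ x ∈ H0, (SSb.filter (fun w => o (φ w) = x)).card = SSb.card := by
    refine (Finset.card_eq_sum_card_fiberwise ?_).symm
    intro w hw
    simp only [mem_coe] at hw ⊢
    rw [hSSb, mem_filter] at hw
    rw [hH0m]
    exact ⟨(ho _ (hφA w hw.1)).1, hw.2.1⟩
  have s6 : ∑ ζ ∈ H0, (W2.filter (fun x => zt x = ζ)).card = W2.card := by
    refine (Finset.card_eq_sum_card_fiberwise ?_).symm
    intro w hw
    simp only [mem_coe] at hw ⊢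
    rw [hW2, mem_filter] at hw
    rw [hH0m]
    exact ⟨(hzt w hw.1).1, (hzt w hw.1).2.1⟩
  have s7 : ∑ x ∈ D, (fib x).card + ∑ x ∈ H0, (fib x).card = A.card := by
    rw [hD, hH0, Finset.sum_filter_add_sum_filter_not, Finset.sum_congr rfl (fun x _ => by rw [hfib x])]
    refine (Finset.card_eq_sum_card_fiberwise ?_).symm
    intro v hv
    simp only [mem_coe] at hv ⊢
    rw [hAc]
    simp only [mem_filter, mem_univ, true_and]
    exact (ho v hv).1
  have s8 : D.card + H0.card = Ac.card := by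
    rw [hD, hH0]
    exact Finset.card_filter_add_card_filter_not _
  have s9 : A.card + Ac.card = Fintype.card X := by
    have : Ac = Aᶜ := by
      rw [hAc]; ext x; simp
    rw [this, Finset.card_add_card_compl]
  have s10 : ∑ v ∈ A, ∑ x, c x v = A.card + ∑ x ∈ D, lev c x := by
    rw [Finset.sum_comm]
    have h1 : ∀ x, ∑ v ∈ A, c x v = lev c x := by
      intro x
      unfold lev
      exact Finset.sum_subset (subset_univ A) (fun v _ hv => T.supp g x v hv)
    rw [Finset.sum_congr rfl (fun x _ => h1 x)]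
    have h2 : ∑ x, lev c x = ∑ x ∈ A, lev c x + ∑ x ∈ Aᶜ, lev c x :=
      (Finset.sum_add_sum_compl _ _).symm
    have h3 : ∑ x ∈ A, lev c x = A.card := by
      rw [Finset.sum_congr rfl (fun x hx => show lev c x = 1 by
        unfold lev
        rw [Finset.sum_congr rfl (fun v _ => T.diag g x hx v)]
        simp)]
      simp
    have h4 : ∑ x ∈ Aᶜ, lev c x = ∑ x ∈ D, lev c x := by
      symm
      refine Finset.sum_subset ?_ ?_
      · intro x hx
        rw [mem_compl]
        exact ((hDm x).1 hx).1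
      · intro x hx hxD
        rw [mem_compl] at hx
        have := TS.lev_le g hx
        by_contra hne
        exact hxD ((hDm x).2 ⟨hx, by omega⟩)
    rw [h2, h3, h4]
  have s11 : (SSa1.card : ℤ) ≤ ∑ v ∈ A, ∑ x, c x v := by
    have h1 : (SSa1.card : ℤ) = ∑ w ∈ SSa1, (1 : ℤ) := by simp
    have h2 : ∑ w ∈ SSa1, (1 : ℤ) ≤ ∑ w ∈ SSa1, ∑ x, c x (φ w) := by
      refine Finset.sum_le_sum (fun w hw => ?_)
      rw [hSSa1, mem_filter] at hw
      exact hw.2.2
    have h3 : ∑ w ∈ SSa1, ∑ x, c x (φ w) = ∑ v ∈ SSa1.image φ, ∑ x, c x v := by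
      rw [Finset.sum_image]
      intro w hw w' hw' heq
      simp only [mem_coe, hSSa1, mem_filter] at hw hw'
      exact hφinj w hw.1 w' hw'.1 heq
    have h4 : ∑ v ∈ SSa1.image φ, ∑ x, c x v ≤ ∑ v ∈ A, ∑ x, c x v := by
      refine Finset.sum_le_sum_of_subset_of_nonneg ?_ (fun v hv _ => hspec v hv)
      intro v hv
      obtain ⟨w, hw, rfl⟩ := mem_image.1 hv
      rw [hSSa1, mem_filter] at hw
      exact hφA w hw.1
    linarith
  have t1 := Finset.sum_le_sum perx
  have t2 := Finset.sum_le_sum hgrp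
  simp only [Finset.sum_add_distrib, Finset.sum_sub_distrib, ← Finset.mul_sum, Finset.sum_neg_distrib,
    Finset.sum_const, smul_eq_mul, s4, s5, s6] at t1 t2
  have s1' : ∑ x ∈ D, ((SSg.filter (fun w => o (φ w) = x)).card : ℤ) = SSg.card := by exact_mod_cast s1
  have s2' : ∑ x ∈ D, ((SSa2.filter (fun w => κ w = x)).card : ℤ) = SSa2.card := by exact_mod_cast s2
  have s3' : ∑ x ∈ D, ((u x).card : ℤ) = U.card := by exact_mod_cast s3
  have s7' : ∑ x ∈ D, ((fib x).card : ℤ) + ∑ x ∈ H0, ((fib x).card : ℤ) = A.card := by exact_mod_cast s7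
  rw [s1', s2', s3'] at t1
  have t2' : (SSb.card : ℤ) + W2.card + H0.card * 3 ≤ 3 * ∑ x ∈ H0, ((fib x).card : ℤ) := by exact_mod_cast t2
  simp only [nsmul_eq_mul] at t1
  have f : (A.card : ℤ) + 2 * U.card + 3 * Fintype.card X ≤ 9 * A.card := by
    have e1 : (W2.card : ℤ) + W1.card = W.card := by exact_mod_cast eW
    have e2 : (D.card : ℤ) + H0.card = Ac.card := by exact_mod_cast s8
    have e3 : (A.card : ℤ) + Ac.card = Fintype.card X := by exact_mod_cast s9
    have e4 : (W1.card : ℤ) ≤ SS.card := by exact_mod_cast hW1SS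
    have e5 : (SS.card : ℤ) ≤ SSg.card + SSb.card + SSa1.card + SSa2.card := by exact_mod_cast hSScard
    have e6 : 0 ≤ ∑ v ∈ A, ∑ x, c x v := Finset.sum_nonneg hspec
    rw [s10] at e6 s11
    linarith
  exact_mod_cast f

end H178.AJP
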