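import Pool.Agent.H178R3.AjpE

set_option autoImplicit false
set_option linter.unusedSectionVars false
set_option linter.unusedVariables false
open Finset

namespace H178.AJP

variable {E : Type} [AddCommGroup E] [DecidableEq E]

structure Fac (V G : Finset E) (n : ℕ) (c : E → E → ℤ) : Prop where
  sub : G ⊆ V
  card : G.card = n
  add : ∀ x y v, c (x + y) v = c x v + c y v
  supp : ∀ x v, v ∉ G → c x v = 0
  diag : ∀ v ∈ G, ∀ w, c v w = if v = w then 1 else 0
  rep : ∀ x, x = ∑ v ∈ G, c x v • v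
  lev : ∀ x ∈ V, x ∉ G → ∑ v ∈ G, c x v ≤ 0

variable {V G : Finset E} {n : ℕ} {c : E → E → ℤ}

def Fac.hom (F : Fac V G n c) (v : E) : E →+ ℤ := AddMonoidHom.mk' (fun x => c x v) (fun x y => F.add x y v)

theorem Fac.hom_apply (F : Fac V G n c) (v x : E) : F.hom v x = c x v := rfl

theorem Fac.neg (F : Fac V G n c) (x v : E) : c (-x) v = - c x v := by
  have := map_neg (F.hom v) x
  simpa [Fac.hom_apply] using this

theorem Fac.sub' (F : Fac V G n c) (x y v : E) : c (x - y) v = c x v - c y v := by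
  have := map_sub (F.hom v) x y
  simpa [Fac.hom_apply] using this

theorem Fac.zero (F : Fac V G n c) (v : E) : c 0 v = 0 := by
  have := map_zero (F.hom v)
  simpa [Fac.hom_apply] using this

theorem Fac.sum (F : Fac V G n c) {ι : Type} (s : Finset ι) (f : ι → E) (v : E) :
    c (∑ i ∈ s, f i) v = ∑ i ∈ s, c (f i) v := by
  exact map_sum (F.hom v) f s

theorem Fac.smul (F : Fac V G n c) (k : ℤ) (x v : E) : c (k • x) v = k * c x v := by
  have := map_zsmul (F.hom v) k x
  simpa [Fac.hom_apply] using this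

theorem Fac.uniq {c' : E → E → ℤ} (F : Fac V G n c) (F' : Fac V G n c') (x v : E) : c x v = c' x v := by
  by_cases hv : v ∈ G
  · have h1 : c' x v = ∑ u ∈ G, c x u * c' u v := by
      conv_lhs => rw [F.rep x]
      rw [F'.sum]
      exact Finset.sum_congr rfl (fun u _ => F'.smul _ _ _)
    rw [h1, Finset.sum_congr rfl (fun u hu => by rw [F'.diag u hu v])]
    simp [hv]
  · rw [F.supp x v hv, F'.supp x v hv]

theorem push (hP : ∀ f : E →+ ℝ, f ≠ 0 → ∃ v ∈ V, 0 < f v) (f δ : E →+ ℝ) (hf : ∀ v ∈ V, f v ≤ 1)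
    (hδ : δ ≠ 0) : ∃ θ : ℝ, 0 ≤ θ ∧ (∀ v ∈ V, f v + θ * δ v ≤ 1) ∧
      ∃ z ∈ V, 0 < δ z ∧ f z + θ * δ z = 1 := by
  obtain ⟨v0, hv0, hv0'⟩ := hP δ hδ
  obtain ⟨z, hz, hmin⟩ := Finset.exists_min_image (V.filter (fun v => 0 < δ v)) (fun v => (1 - f v) / δ v)
    ⟨v0, by simp [hv0, hv0']⟩
  rw [mem_filter] at hz
  refine ⟨(1 - f z) / δ z, ?_, ?_, z, hz.1, hz.2, ?_⟩
  · exact div_nonneg (by linarith [hf z hz.1]) hz.2.le
  · intro v hv
    rcases lt_or_ge 0 (δ v) with h1 | h1
    · have := hmin v (by simp [hv, h1])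
      rw [le_div_iff₀ h1] at this
      linarith
    · have h2 : 0 ≤ (1 - f z) / δ z := div_nonneg (by linarith [hf z hz.1]) hz.2.le
      have := mul_nonpos_of_nonneg_of_nonpos h2 h1
      linarith [hf v hv]
  · rw [div_mul_cancel₀ _ (ne_of_gt hz.2)]
    ring

theorem Fac.lev_ex (F : Fac V G n c) {w z : E} (hw : w ∈ G) (hz : z ∉ G) (hzw : c z w = -1) (x : E) :
    ∑ v ∈ insert z (G.erase w), ex c w z x v = ∑ v ∈ G, c x v + (∑ v ∈ G, c z v - 1) * c x w := by
  have hz' : z ∉ G.erase w := fun h => hz (Finset.mem_of_mem_erase h)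
  rw [Finset.sum_insert hz', ex_z' ]
  have h1 : ∑ v ∈ G.erase w, ex c w z x v = ∑ v ∈ G.erase w, (c x v + c x w * c z v) := by
    refine Finset.sum_congr rfl (fun v hv => ?_)
    have h1 := Finset.mem_erase.1 hv
    have : v ≠ z := fun hh => hz (hh ▸ h1.2)
    simp [ex, this, h1.1]
  rw [h1, Finset.sum_add_distrib, ← Finset.mul_sum]
  have h2 := Finset.add_sum_erase G (fun v => c x v) hw
  have h3 := Finset.add_sum_erase G (fun v => c z v) hw
  rw [← h2, ← h3, hzw]
  ring
where
  ex_z' {x w z : E} {c : E → E → ℤ} : ex c w z x z = - c x w := by simp [ex]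

theorem Fac.exch (F : Fac V G n c) (hP : ∀ f : E →+ ℝ, f ≠ 0 → ∃ v ∈ V, 0 < f v)
    (hS : ∀ f : E →+ ℝ, (∀ v ∈ V, f v ≤ 1) → ∃ b : Module.Basis (Fin n) ℤ E,
      ∀ v ∈ V, f v = 1 → v ∈ Set.range b) {w : E} (hw : w ∈ G) :
    ∃ z ∈ V, z ∉ G ∧ c z w = -1 ∧ Fac V (insert z (G.erase w)) n (ex c w z) := by
  -- functionals
  let f : E →+ ℝ := ∑ v ∈ G, (Int.castAddHom ℝ).comp (F.hom v)
  let δ : E →+ ℝ := -((Int.castAddHom ℝ).comp (F.hom w))
  have hfx : ∀ x, f x = ((∑ v ∈ G, c x v : ℤ) : ℝ) := by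
    intro x
    simp [f, Fac.hom_apply]
  have hδx : ∀ x, δ x = -((c x w : ℤ) : ℝ) := by
    intro x
    simp [δ, Fac.hom_apply]
  have hf : ∀ v ∈ V, f v ≤ 1 := by
    intro v hv
    rw [hfx]
    by_cases hvG : v ∈ G
    · rw [Finset.sum_congr rfl (fun u _ => F.diag v hvG u)]
      simp [hvG]
    · have := F.lev v hv hvG
      exact_mod_cast (by omega : (∑ u ∈ G, c v u) ≤ 1)
  have hδ : δ ≠ 0 := by
    intro hh
    have := hδx w
    rw [hh, F.diag w hw w] at this
    simp at this
  obtain ⟨θ, hθ, hle, z, hzV, hz1, hz2⟩ := push hP f δ hf hδ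
  have hczw : c z w < 0 := by
    rw [hδx] at hz1
    have : ((c z w : ℤ) : ℝ) < 0 := by linarith
    exact_mod_cast this
  have hzG : z ∉ G := by
    intro hh
    rw [F.diag z hh w] at hczw
    split_ifs at hczw <;> omega
  obtain ⟨b, hb⟩ := hS (f + θ • δ) (fun v hv => by
    simpa using hle v hv)
  have hG' : (insert z (G.erase w)).card = n := by
    rw [Finset.card_insert_of_notMem (fun h => hzG (Finset.mem_of_mem_erase h)), Finset.card_erase_of_mem hw,
      F.card]
    have : 0 < G.card := Finset.card_pos.2 ⟨w, hw⟩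
    rw [F.card] at this
    omega
  have hsub : insert z (G.erase w) ⊆ (univ : Finset (Fin n)).image b := by
    intro v hv
    have h1 : v ∈ Set.range b := by
      refine hb v ?_ ?_
      · rcases Finset.mem_insert.1 hv with rfl | h1
        · exact hzV
        · exact F.sub (Finset.mem_of_mem_erase h1)
      · simp only [AddMonoidHom.add_apply, AddMonoidHom.smul_apply, smul_eq_mul]
        rcases Finset.mem_insert.1 hv with rfl | h1
        · exact hz2
        · obtain ⟨h2, h3⟩ := Finset.mem_erase.1 h1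
          rw [hfx, hδx, F.diag v h3 w, Finset.sum_congr rfl (fun u _ => F.diag v h3 u)]
          simp [h2, h3]
    obtain ⟨i, hi⟩ := h1
    exact Finset.mem_image.2 ⟨i, mem_univ _, hi⟩
  have heq : insert z (G.erase w) = (univ : Finset (Fin n)).image b := by
    refine Finset.eq_of_subset_of_card_le hsub ?_
    rw [hG']
    exact le_trans Finset.card_image_le (by simp)
  have hdvd : c z w ∣ 1 := by
    have h1 : w = ∑ i, b.repr w i • b i := (b.sum_repr w).symm
    have h2 : c w w = ∑ i, b.repr w i * c (b i) w := by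
      have h7 : c (∑ i, b.repr w i • b i) w = ∑ i, b.repr w i * c (b i) w := by
        rw [F.sum]
        exact Finset.sum_congr rfl (fun u _ => F.smul _ _ _)
      rwa [b.sum_repr] at h7
    rw [F.diag w hw w] at h2
    simp only [if_true] at h2
    rw [h2]
    refine Finset.dvd_sum (fun i _ => ?_)
    have h3 : b i ∈ insert z (G.erase w) := by
      rw [heq]; exact Finset.mem_image_of_mem _ (mem_univ i)
    rcases Finset.mem_insert.1 h3 with h4 | h4
    · rw [h4]; exact Dvd.intro_left _ rfl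
    · obtain ⟨h5, h6⟩ := Finset.mem_erase.1 h4
      rw [F.diag _ h6 w]
      simp [h5]
  have hzw : c z w = -1 := by
    obtain ⟨k, hk⟩ := hdvd
    rcases Int.eq_one_or_neg_one_of_mul_eq_one hk.symm with h1 | h1
    · omega
    · exact h1
  have hθ' : θ = 1 - ((∑ v ∈ G, c z v : ℤ) : ℝ) := by
    rw [hfx, hδx, hzw] at hz2
    push_cast at hz2 ⊢
    linarith
  refine ⟨z, hzV, hzG, hzw, ?_, hG', ?_, ?_, ?_, ?_, ?_⟩
  · intro v hv
    rcases Finset.mem_insert.1 hv with rfl | h1
    · exact hzV
    · exact F.sub (Finset.mem_of_mem_erase h1)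
  · intro x y v
    unfold ex
    split_ifs
    · rw [F.add]; ring
    · rfl
    · rw [F.add, F.add]; ring
  · intro x v hv
    rw [Finset.mem_insert, Finset.mem_erase, not_or] at hv
    unfold ex
    rw [if_neg hv.1]
    split_ifs with h1
    · rfl
    · have : v ∉ G := fun hh => hv.2 ⟨h1, hh⟩
      rw [F.supp x v this, F.supp z v this]; ring
  · intro v hv u
    rcases Finset.mem_insert.1 hv with rfl | h1
    · unfold ex
      by_cases h2 : u = v
      · simp [h2, hzw]
      · rw [if_neg h2, if_neg (Ne.symm h2)]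
        split_ifs with h3
        · rfl
        · rw [hzw]; ring
    · obtain ⟨h2, h3⟩ := Finset.mem_erase.1 h1
      have h4 : v ≠ z := fun hh => hzG (hh ▸ h3)
      unfold ex
      rw [F.diag v h3 w, F.diag v h3 u]
      by_cases h5 : u = z
      · subst h5; simp [h2, h4]
      · by_cases h6 : u = w
        · subst h6; simp [h2, h5]
        · simp [h5, h6, h2]
  · intro x
    have hz' : z ∉ G.erase w := fun h => hzG (Finset.mem_of_mem_erase h)
    rw [Finset.sum_insert hz']
    have h1 : ∑ v ∈ G.erase w, ex c w z x v • v = ∑ v ∈ G.erase w, c x v • v +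
        c x w • ∑ v ∈ G.erase w, c z v • v := by
      rw [Finset.smul_sum, ← Finset.sum_add_distrib]
      refine Finset.sum_congr rfl (fun v hv => ?_)
      have h1 := Finset.mem_erase.1 hv
      have : v ≠ z := fun hh => hzG (hh ▸ h1.2)
      simp only [ex, this, h1.1, if_false]
      rw [add_smul, mul_smul]
    have h2 := Finset.add_sum_erase G (fun v => c x v • v) hw
    have h3 := Finset.add_sum_erase G (fun v => c z v • v) hw
    rw [← F.rep x] at h2
    rw [← F.rep z, hzw] at h3
    have h4 : ex c w z x z = - c x w := by simp [ex]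
    rw [h1, h4]
    have h5 : ∑ v ∈ G.erase w, c z v • v = z + w := by
      generalize (∑ v ∈ G.erase w, c z v • v) = S at h3 ⊢
      rw [← h3]; module
    rw [h5]
    generalize (∑ v ∈ G.erase w, c x v • v) = S at h2 ⊢
    have h6 : S = x - c x w • w := eq_sub_of_add_eq' h2
    rw [h6]
    generalize c x w = k
    module
  · intro x hxV hx
    rw [F.lev_ex hw hzG hzw]
    have h1 : (f + θ • δ) x ≤ 1 := by simpa using hle x hxV
    have h2 : (f + θ • δ) x ≠ 1 := by
      intro hh
      apply hx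
      rw [heq]
      obtain ⟨i, hi⟩ := hb x hxV hh
      exact Finset.mem_image.2 ⟨i, mem_univ _, hi⟩
    have h3 : (f + θ • δ) x < 1 := lt_of_le_of_ne h1 h2
    simp only [AddMonoidHom.add_apply, AddMonoidHom.smul_apply, smul_eq_mul] at h3
    rw [hfx, hδx, hθ'] at h3
    have h4 : ((∑ v ∈ G, c x v + (∑ v ∈ G, c z v - 1) * c x w : ℤ) : ℝ) < 1 := by
      push_cast at h3 ⊢
      nlinarith
    have h5 : (∑ v ∈ G, c x v + (∑ v ∈ G, c z v - 1) * c x w : ℤ) < 1 := by exact_mod_cast h4
    omega

theorem ofBasis (b : Module.Basis (Fin n) ℤ E) (hbV : ∀ i, b i ∈ V) (f : E →+ ℝ) (hf : ∀ v ∈ V, f v ≤ 1)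
    (hfb : ∀ i, f (b i) = 1) (ht : ∀ v ∈ V, f v = 1 → v ∈ Set.range b) :
    ∃ G c, Fac V G n c := by
  have hinj := b.injective
  have hcb : ∀ x i, (∑ j, if b j = b i then b.repr x j else 0) = b.repr x i := by
    intro x i
    rw [Finset.sum_eq_single i]
    · simp
    · intro j _ hj
      rw [if_neg (fun hh => hj (hinj hh))]
    · simp
  refine ⟨univ.image b, fun x v => ∑ i, if b i = v then b.repr x i else 0, ?_, ?_, ?_, ?_, ?_, ?_, ?_⟩
  · intro v hv
    obtain ⟨i, _, rfl⟩ := Finset.mem_image.1 hv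
    exact hbV i
  · rw [Finset.card_image_of_injective _ hinj]; simp
  · intro x y v
    rw [← Finset.sum_add_distrib]
    refine Finset.sum_congr rfl (fun i _ => ?_)
    split_ifs <;> simp
  · intro x v hv
    refine Finset.sum_eq_zero (fun i _ => ?_)
    rw [if_neg]
    intro hh
    exact hv (Finset.mem_image.2 ⟨i, mem_univ _, hh⟩)
  · intro v hv w
    obtain ⟨i, _, rfl⟩ := Finset.mem_image.1 hv
    by_cases hiw : b i = w
    · subst hiw
      simp only [if_true]
      rw [hcb]; simp
    · rw [if_neg hiw]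
      refine Finset.sum_eq_zero (fun j _ => ?_)
      split_ifs with h1
      · have : i ≠ j := fun hh => hiw (hh ▸ h1)
        simp [this]
      · rfl
  · intro x
    rw [Finset.sum_image (fun i _ j _ h => hinj h)]
    conv_lhs => rw [← b.sum_repr x]
    exact Finset.sum_congr rfl (fun i _ => by simp only [hcb])
  · intro x hxV hx
    rw [Finset.sum_image (fun i _ j _ h => hinj h), Finset.sum_congr rfl (fun i _ => hcb x i)]
    have h1 : f x = ((∑ i, b.repr x i : ℤ) : ℝ) := by
      conv_lhs => rw [← b.sum_repr x]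
      rw [map_sum]
      push_cast
      refine Finset.sum_congr rfl (fun i _ => ?_)
      rw [map_zsmul, hfb]
      simp
    have h2 : f x < 1 := lt_of_le_of_ne (hf x hxV) (fun hh => by
      obtain ⟨i, hi⟩ := ht x hxV hh
      exact hx (Finset.mem_image.2 ⟨i, mem_univ _, hi⟩))
    rw [h1] at h2
    have h9 : (∑ i, b.repr x i : ℤ) < 0 + 1 := by rw [zero_add]; exact_mod_cast h2
    exact Int.lt_add_one_iff.1 h9

theorem firstFac (hP : ∀ f : E →+ ℝ, f ≠ 0 → ∃ v ∈ V, 0 < f v)
    (hS : ∀ f : E →+ ℝ, (∀ v ∈ V, f v ≤ 1) → ∃ b : Module.Basis (Fin n) ℤ E,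
      ∀ v ∈ V, f v = 1 → v ∈ Set.range b) : ∃ G c, Fac V G n c := by
  classical
  have key : ∀ k : ℕ, (∃ G c, Fac V G n c) ∨ ∃ f : E →+ ℝ, (∀ v ∈ V, f v ≤ 1) ∧
      k ≤ (V.filter (fun v => f v = 1)).card := by
    intro k
    induction k with
    | zero => exact Or.inr ⟨0, fun v _ => by simp, by simp⟩
    | succ k ih =>
      rcases ih with h1 | ⟨f, hf, hk⟩
      · exact Or.inl h1
      · obtain ⟨b, hb⟩ := hS f hf
        by_cases hall : ∀ i, b i ∈ V ∧ f (b i) = 1
        · left
          exact ofBasis b (fun i => (hall i).1) f hf (fun i => (hall i).2) hb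
        · right
          push Not at hall
          obtain ⟨i, hi⟩ := hall
          let δ : E →+ ℝ := (Int.castAddHom ℝ).comp (b.coord i).toAddMonoidHom
          have hδx : ∀ x, δ x = ((b.repr x i : ℤ) : ℝ) := by
            intro x
            simp [δ]
          have hδ : δ ≠ 0 := by
            intro hh
            have := hδx (b i)
            rw [hh] at this
            simp at this
          obtain ⟨θ, hθ, hle, z, hzV, hz1, hz2⟩ := push hP f δ hf hδ
          refine ⟨f + θ • δ, fun v hv => by simpa using hle v hv, ?_⟩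
          have hzero : ∀ v ∈ V, f v = 1 → δ v = 0 := by
            intro v hv hfv
            obtain ⟨j, rfl⟩ := hb v hv hfv
            have hji : j ≠ i := by
              rintro rfl
              exact hi hv hfv
            rw [hδx]
            simp [hji]
          have hlt : (V.filter (fun v => f v = 1)).card < (V.filter (fun v => (f + θ • δ) v = 1)).card := by
            refine Finset.card_lt_card ⟨?_, ?_⟩
            · intro v hv
              rw [mem_filter] at hv ⊢
              refine ⟨hv.1, ?_⟩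
              simp only [AddMonoidHom.add_apply, AddMonoidHom.smul_apply, smul_eq_mul]
              rw [hzero v hv.1 hv.2, hv.2]
              ring
            · intro hcon
              have h1 : z ∈ V.filter (fun v => (f + θ • δ) v = 1) := by
                rw [mem_filter]
                exact ⟨hzV, by simpa using hz2⟩
              have h2 := hcon h1
              rw [mem_filter] at h2
              have := hzero z h2.1 h2.2
              linarith
          omega
  rcases key (V.card + 1) with h1 | ⟨f, _, hk⟩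
  · exact h1
  · have := Finset.card_filter_le V (fun v => f v = 1)
    omega

open scoped Classical in
theorem specialFac (hP : ∀ f : E →+ ℝ, f ≠ 0 → ∃ v ∈ V, 0 < f v)
    (hS : ∀ f : E →+ ℝ, (∀ v ∈ V, f v ≤ 1) → ∃ b : Module.Basis (Fin n) ℤ E,
      ∀ v ∈ V, f v = 1 → v ∈ Set.range b) (s : E) : ∃ G c, Fac V G n c ∧ ∀ v ∈ G, 0 ≤ c s v := by
  have hex : ∀ G : Finset E, ∃ c : E → E → ℤ, (∃ c, Fac V G n c) → Fac V G n c := by
    intro G
    by_cases h : ∃ c, Fac V G n c
    · obtain ⟨c, hc⟩ := h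
      exact ⟨c, fun _ => hc⟩
    · exact ⟨fun _ _ => 0, fun h' => absurd h' h⟩
  choose cG hcG using hex
  obtain ⟨G0, c0, F0⟩ := firstFac hP hS
  obtain ⟨G, hG, hmax⟩ := Finset.exists_max_image (V.powerset.filter (fun G => ∃ c, Fac V G n c))
    (fun G => ∑ v ∈ G, cG G s v) ⟨G0, by
      rw [mem_filter, mem_powerset]
      exact ⟨F0.sub, c0, F0⟩⟩
  rw [mem_filter] at hG
  have F := hcG G hG.2
  refine ⟨G, cG G, F, ?_⟩
  intro w hw
  by_contra hcon
  push Not at hcon
  obtain ⟨z, hzV, hzG, hzw, F'⟩ := F.exch hP hS hw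
  have h1 := hmax (insert z (G.erase w)) (by
    rw [mem_filter, mem_powerset]
    exact ⟨F'.sub, _, F'⟩)
  have h2 : ∑ v ∈ insert z (G.erase w), cG (insert z (G.erase w)) s v =
      ∑ v ∈ insert z (G.erase w), ex (cG G) w z s v :=
    Finset.sum_congr rfl (fun v _ => (hcG _ ⟨_, F'⟩).uniq F' s v)
  rw [h2, F.lev_ex hw hzG hzw] at h1
  have h3 := F.lev z hzV hzG
  nlinarith

end H178.AJP
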