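import Pool.Agent.H178R3.AjpF

set_option autoImplicit false
set_option linter.unusedSectionVars false
set_option linter.unusedVariables false
open Finset

namespace H178.AJP

variable {E : Type} [AddCommGroup E] [DecidableEq E]

def HexP (V : Finset E) (p q : E) : Prop := q - p ∈ V ∧ p - q ∈ V ∧ -p ∈ V ∧ -q ∈ V
def hexset (p q : E) : Finset E := {p, q, q - p, p - q, -p, -q}
def FF : ℕ → ℤ → ℤ → ℤ
  | 0, a, b => a + b
  | k+1, a, b => FF k (b + a) (-a)

theorem FF_pos (a b : ℤ) (h : a ≠ 0 ∨ b ≠ 0) : ∃ k, 1 ≤ FF k a b := by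
  by_cases h0 : 1 ≤ a + b
  · exact ⟨0, h0⟩
  by_cases h1 : 1 ≤ b
  · exact ⟨1, by simp only [FF]; omega⟩
  by_cases h2 : 1 ≤ -a
  · exact ⟨2, by simp only [FF]; omega⟩
  by_cases h3 : 1 ≤ -a - b
  · exact ⟨3, by simp only [FF]; omega⟩
  by_cases h4 : 1 ≤ -b
  · exact ⟨4, by simp only [FF]; omega⟩
  by_cases h5 : 1 ≤ a
  · exact ⟨5, by simp only [FF]; omega⟩
  omega

variable {V G : Finset E} {n : ℕ} {c : E → E → ℤ}

theorem rotN (hP : ∀ f : E →+ ℝ, f ≠ 0 → ∃ v ∈ V, 0 < f v)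
    (hS : ∀ f : E →+ ℝ, (∀ v ∈ V, f v ≤ 1) → ∃ b : Module.Basis (Fin n) ℤ E,
      ∀ v ∈ V, f v = 1 → v ∈ Set.range b) (x : E) (k : ℕ) :
    ∀ (G : Finset E) (c : E → E → ℤ) (p q : E), Fac V G n c → p ∈ G → q ∈ G → p ≠ q → HexP V p q →
      x ∉ G → x ∉ hexset p q → 1 ≤ FF k (c x p) (c x q) →
      ∃ G' c', Fac V G' n c' ∧ (∀ v ∈ G, v ≠ p → v ≠ q → v ∈ G' ∧ c' x v = c x v) ∧ x ∉ G' ∧
        ∑ v ∈ G, c x v - c x p - c x q + 1 ≤ ∑ v ∈ G', c' x v := by
  induction k with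
  | zero =>
    intro G c p q F hp hq hpq hH hx hxh hF
    refine ⟨G, c, F, fun v hv _ _ => ⟨hv, rfl⟩, hx, ?_⟩
    simp only [FF] at hF
    linarith
  | succ k ih =>
    intro G c p q F hp hq hpq hH hx hxh hF
    obtain ⟨z', hz'V, hz'G, hz'p, F'⟩ := F.exch hP hS hp
    have hcz : ∀ v, c (q - p) v = c q v - c p v := fun v => F.sub' q p v
    have hzp : c (q - p) p = -1 := by
      rw [hcz, F.diag q hq, F.diag p hp]
      simp [Ne.symm hpq]
    have hzq : c (q - p) q = 1 := by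
      rw [hcz, F.diag q hq, F.diag p hp]
      simp [hpq]
    have hz0 : ∀ v, v ≠ p → v ≠ q → c (q - p) v = 0 := by
      intro v h1 h2
      rw [hcz, F.diag q hq, F.diag p hp]
      simp [Ne.symm h1, Ne.symm h2]
    have hzG : q - p ∉ G := by
      intro hh
      have := F.diag _ hh p
      rw [hzp] at this
      split_ifs at this
    have hlz : ∑ v ∈ G, c (q - p) v = 0 := by
      rw [Finset.sum_congr rfl (fun v _ => hcz v), Finset.sum_sub_distrib,
        Finset.sum_congr rfl (fun v _ => F.diag q hq v), Finset.sum_congr rfl (fun v _ => F.diag p hp v)]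
      simp [hp, hq]
    have hzz : q - p = z' := by
      by_contra hne
      have h1 := F'.lev (q - p) hH.1 (by
        simp only [mem_insert, mem_erase, not_or]
        exact ⟨hne, fun h => hzG h.2⟩)
      rw [F.lev_ex hp hz'G hz'p, hlz, hzp] at h1
      have h2 := F.lev z' hz'V hz'G
      omega
    subst hzz
    have hqz : q ≠ q - p := fun hh => hzG (hh ▸ hq)
    have hxz : x ≠ q - p := by
      rintro rfl
      exact hxh (by simp [hexset])
    have hH' : HexP V q (q - p) := by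
      refine ⟨?_, ?_, hH.2.2.2, ?_⟩
      · have : q - p - q = -p := by abel
        rw [this]; exact hH.2.2.1
      · have : q - (q - p) = p := by abel
        rw [this]; exact F.sub hp
      · have : -(q - p) = p - q := by abel
        rw [this]; exact hH.2.1
    have hxh' : x ∉ hexset q (q - p) := by
      intro hh
      apply hxh
      simp only [hexset, mem_insert, mem_singleton] at hh ⊢
      rcases hh with h | h | h | h | h | h
      · right; left; exact h
      · right; right; left; exact h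
      · right; right; right; right; left; rw [h]; abel
      · left; rw [h]; abel
      · right; right; right; right; right; exact h
      · right; right; right; left; rw [h]; abel
    have e1 : ex c p (q - p) x q = c x q + c x p := by
      unfold ex
      rw [if_neg hqz, if_neg (Ne.symm hpq), hzq]; ring
    have e2 : ex c p (q - p) x (q - p) = - c x p := by
      unfold ex
      rw [if_pos rfl]
    obtain ⟨G', c', F2, h3, h4, h5⟩ := ih (insert (q - p) (G.erase p)) (ex c p (q - p)) q (q - p) F'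
      (by simp [hq, Ne.symm hpq]) (mem_insert_self _ _) hqz hH'
      (by
        simp only [mem_insert, mem_erase, not_or]
        exact ⟨hxz, fun h => hx h.2⟩) hxh' (by
        rw [e1, e2]
        simpa [FF] using hF)
    refine ⟨G', c', F2, ?_, h4, ?_⟩
    · intro v hv hvp hvq
      have hvz : v ≠ q - p := fun hh => hzG (hh ▸ hv)
      obtain ⟨h6, h7⟩ := h3 v (by simp [hv, hvp]) hvq hvz
      refine ⟨h6, ?_⟩
      rw [h7]
      unfold ex
      rw [if_neg hvz, if_neg hvp, hz0 v hvp hvq]; ring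
    · rw [F.lev_ex hp hz'G hz'p, hlz, e1, e2] at h5
      linarith

theorem normK (hP : ∀ f : E →+ ℝ, f ≠ 0 → ∃ v ∈ V, 0 < f v)
    (hS : ∀ f : E →+ ℝ, (∀ v ∈ V, f v ≤ 1) → ∃ b : Module.Basis (Fin n) ℤ E,
      ∀ v ∈ V, f v = 1 → v ∈ Set.range b) (x : E) (hxV : x ∈ V) (K : Finset (E × E)) :
    ∀ (G : Finset E) (c : E → E → ℤ), Fac V G n c →
      (∀ pr ∈ K, pr.1 ∈ G ∧ pr.2 ∈ G ∧ pr.1 ≠ pr.2 ∧ HexP V pr.1 pr.2) →
      (∀ pr ∈ K, ∀ pr' ∈ K, pr ≠ pr' → pr.1 ≠ pr'.1 ∧ pr.1 ≠ pr'.2 ∧ pr.2 ≠ pr'.1 ∧ pr.2 ≠ pr'.2) →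
      x ∉ G → (∀ pr ∈ K, x ∉ hexset pr.1 pr.2) →
      ∑ v ∈ G, c x v - ∑ pr ∈ K, (c x pr.1 + c x pr.2) +
        (K.filter (fun pr => c x pr.1 ≠ 0 ∨ c x pr.2 ≠ 0)).card ≤ 0 := by
  induction K using Finset.induction_on with
  | empty =>
    intro G c F _ _ hx _
    have := F.lev x hxV hx
    simpa using this
  | insert a K ha ih =>
    intro G c F hK hd hx hxh
    have hKK : ∀ pr ∈ K, pr ∈ insert a K := fun pr h => mem_insert_of_mem h
    rw [Finset.sum_insert ha, Finset.filter_insert]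
    obtain ⟨ha1, ha2, ha3, ha4⟩ := hK a (mem_insert_self _ _)
    by_cases hhit : c x a.1 ≠ 0 ∨ c x a.2 ≠ 0
    · rw [if_pos hhit, Finset.card_insert_of_notMem (by simp [ha])]
      obtain ⟨k, hk⟩ := FF_pos _ _ hhit
      obtain ⟨G', c', F', h1, h2, h3⟩ := rotN hP hS x k G c a.1 a.2 F ha1 ha2 ha3 ha4 hx
        (hxh a (mem_insert_self _ _)) hk
      have hne : ∀ pr ∈ K, pr.1 ≠ a.1 ∧ pr.1 ≠ a.2 ∧ pr.2 ≠ a.1 ∧ pr.2 ≠ a.2 := by
        intro pr hpr
        exact hd pr (hKK pr hpr) a (mem_insert_self _ _) (fun hh => ha (hh ▸ hpr))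
      have h4 : ∀ pr ∈ K, (pr.1 ∈ G' ∧ c' x pr.1 = c x pr.1) ∧ (pr.2 ∈ G' ∧ c' x pr.2 = c x pr.2) := by
        intro pr hpr
        obtain ⟨k1, k2, k3, k4⟩ := hK pr (hKK pr hpr)
        obtain ⟨l1, l2, l3, l4⟩ := hne pr hpr
        exact ⟨h1 _ k1 l1 l2, h1 _ k2 l3 l4⟩
      have := ih G' c' F' (fun pr hpr => ⟨(h4 pr hpr).1.1, (h4 pr hpr).2.1, (hK pr (hKK pr hpr)).2.2.1,
        (hK pr (hKK pr hpr)).2.2.2⟩) (fun pr hpr pr' hpr' hne => hd pr (hKK _ hpr) pr' (hKK _ hpr') hne)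
        h2 (fun pr hpr => hxh pr (hKK _ hpr))
      have e1 : ∑ pr ∈ K, (c' x pr.1 + c' x pr.2) = ∑ pr ∈ K, (c x pr.1 + c x pr.2) :=
        Finset.sum_congr rfl (fun pr hpr => by rw [(h4 pr hpr).1.2, (h4 pr hpr).2.2])
      have e2 : K.filter (fun pr => c' x pr.1 ≠ 0 ∨ c' x pr.2 ≠ 0) =
          K.filter (fun pr => c x pr.1 ≠ 0 ∨ c x pr.2 ≠ 0) :=
        Finset.filter_congr (fun pr hpr => by rw [(h4 pr hpr).1.2, (h4 pr hpr).2.2])
      rw [e1, e2] at this
      push_cast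
      linarith
    · rw [if_neg hhit]
      push Not at hhit
      have := ih G c F (fun pr hpr => hK pr (hKK _ hpr))
        (fun pr hpr pr' hpr' hne => hd pr (hKK _ hpr) pr' (hKK _ hpr') hne)
        hx (fun pr hpr => hxh pr (hKK _ hpr))
      rw [hhit.1, hhit.2]
      linarith

structure Fam (V : Finset E) (K : Finset (E × E)) : Prop where
  hex : ∀ pr ∈ K, pr.1 ≠ pr.2 ∧ HexP V pr.1 pr.2
  disj : ∀ pr ∈ K, ∀ pr' ∈ K, pr ≠ pr' → pr.1 ≠ pr'.1 ∧ pr.1 ≠ pr'.2 ∧ pr.2 ≠ pr'.1 ∧ pr.2 ≠ pr'.2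

def XS (V : Finset E) (K : Finset (E × E)) : Finset E := V.filter (fun x => ∀ pr ∈ K, x ∉ hexset pr.1 pr.2)

theorem hex_zero (F : Fac V G n c) {p q x v : E} (hp : p ∈ G) (hq : q ∈ G) (hx : x ∈ hexset p q)
    (hvp : v ≠ p) (hvq : v ≠ q) : c x v = 0 := by
  have h1 : c p v = 0 := by rw [F.diag p hp]; simp [Ne.symm hvp]
  have h2 : c q v = 0 := by rw [F.diag q hq]; simp [Ne.symm hvq]
  simp only [hexset, mem_insert, mem_singleton] at hx
  rcases hx with rfl | rfl | rfl | rfl | rfl | rfl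
  · exact h1
  · exact h2
  · rw [F.sub', h1, h2]; rfl
  · rw [F.sub', h1, h2]; rfl
  · rw [F.neg, h1]; rfl
  · rw [F.neg, h2]; rfl

theorem hex_in_G (F : Fac V G n c) {p q x : E} (hp : p ∈ G) (hq : q ∈ G) (hpq : p ≠ q)
    (hx : x ∈ hexset p q) (hxG : x ∈ G) : x = p ∨ x = q := by
  have h1 : c p p = 1 := by rw [F.diag p hp]; simp
  have h2 : c q q = 1 := by rw [F.diag q hq]; simp
  have h3 : c p q = 0 := by rw [F.diag p hp]; simp [hpq]
  have h4 : c q p = 0 := by rw [F.diag q hq]; simp [Ne.symm hpq]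
  have h5 := F.diag x hxG p
  have h6 := F.diag x hxG q
  simp only [hexset, mem_insert, mem_singleton] at hx
  rcases hx with h | h | h | h | h | h
  · left; exact h
  · right; exact h
  · exfalso
    have : c x p = -1 := by rw [h, F.sub', h1, h4]; rfl
    rw [this] at h5
    split_ifs at h5
  · exfalso
    have : c x q = -1 := by rw [h, F.sub', h2, h3]; rfl
    rw [this] at h6
    split_ifs at h6
  · exfalso
    have : c x p = -1 := by rw [h, F.neg, h1]
    rw [this] at h5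
    split_ifs at h5
  · exfalso
    have : c x q = -1 := by rw [h, F.neg, h2]
    rw [this] at h6
    split_ifs at h6

theorem XS_not {K : Finset (E × E)} {v : E} (hv : v ∈ XS V K) {pr : E × E} (hpr : pr ∈ K) :
    v ≠ pr.1 ∧ v ≠ pr.2 := by
  have := (mem_filter.1 hv).2 pr hpr
  constructor
  · rintro rfl
    exact this (by simp [hexset])
  · rintro rfl
    exact this (by simp [hexset])

theorem split_sum (F : Fac V G n c) {K : Finset (E × E)} (hK : Fam V K)
    (hG : ∀ pr ∈ K, pr.1 ∈ G ∧ pr.2 ∈ G) (f : E → ℤ) (hf : ∀ v, v ∉ G → f v = 0) :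
    ∑ v ∈ G, f v = ∑ v ∈ XS V K, f v + ∑ pr ∈ K, (f pr.1 + f pr.2) := by
  have h1 : ∑ v ∈ XS V K, f v = ∑ v ∈ G.filter (fun v => v ∈ XS V K), f v := by
    symm
    refine Finset.sum_subset ?_ ?_
    · intro v hv
      exact (mem_filter.1 hv).2
    · intro v hv hv'
      refine hf v (fun hh => hv' ?_)
      rw [mem_filter]
      exact ⟨hh, hv⟩
  have h2 : G.filter (fun v => v ∉ XS V K) = K.biUnion (fun pr => {pr.1, pr.2}) := by
    ext v
    simp only [mem_filter, mem_biUnion, mem_insert, mem_singleton]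
    constructor
    · rintro ⟨h3, h4⟩
      unfold XS at h4
      rw [mem_filter] at h4
      push Not at h4
      obtain ⟨pr, hpr, h5⟩ := h4 (F.sub h3)
      exact ⟨pr, hpr, hex_in_G F (hG pr hpr).1 (hG pr hpr).2 (hK.hex pr hpr).1 h5 h3⟩
    · rintro ⟨pr, hpr, h3⟩
      refine ⟨?_, ?_⟩
      · rcases h3 with rfl | rfl
        · exact (hG pr hpr).1
        · exact (hG pr hpr).2
      · intro hv
        have := XS_not hv hpr
        tauto
  have h3 : ∑ v ∈ K.biUnion (fun pr => ({pr.1, pr.2} : Finset E)), f v = ∑ pr ∈ K, (f pr.1 + f pr.2) := by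
    rw [Finset.sum_biUnion]
    · exact Finset.sum_congr rfl (fun pr hpr => Finset.sum_pair (hK.hex pr hpr).1)
    · intro pr hpr pr' hpr' hne
      rw [Function.onFun, Finset.disjoint_left]
      intro v hv hv'
      have := hK.disj pr hpr pr' hpr' hne
      simp only [mem_insert, mem_singleton] at hv hv'
      rcases hv with rfl | rfl <;> rcases hv' with h | h <;> tauto
  rw [h1, ← h3, ← h2, Finset.sum_filter_add_sum_filter_not]

theorem relLev (hP : ∀ f : E →+ ℝ, f ≠ 0 → ∃ v ∈ V, 0 < f v)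
    (hS : ∀ f : E →+ ℝ, (∀ v ∈ V, f v ≤ 1) → ∃ b : Module.Basis (Fin n) ℤ E,
      ∀ v ∈ V, f v = 1 → v ∈ Set.range b) {K : Finset (E × E)} (hK : Fam V K)
    (F : Fac V G n c) (hG : ∀ pr ∈ K, pr.1 ∈ G ∧ pr.2 ∈ G) {x : E} (hx : x ∈ XS V K) (hxG : x ∉ G) :
    ∑ v ∈ XS V K, c x v + (K.filter (fun pr => c x pr.1 ≠ 0 ∨ c x pr.2 ≠ 0)).card ≤ 0 := by
  have h1 := normK hP hS x (mem_filter.1 hx).1 K G c F
    (fun pr hpr => ⟨(hG pr hpr).1, (hG pr hpr).2, hK.hex pr hpr⟩) hK.disj hxG (mem_filter.1 hx).2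
  rw [split_sum F hK hG (fun v => c x v) (fun v hv => F.supp x v hv)] at h1
  linarith

def mkTS (hP : ∀ f : E →+ ℝ, f ≠ 0 → ∃ v ∈ V, 0 < f v)
    (hS : ∀ f : E →+ ℝ, (∀ v ∈ V, f v ≤ 1) → ∃ b : Module.Basis (Fin n) ℤ E,
      ∀ v ∈ V, f v = 1 → v ∈ Set.range b) (h0 : (0 : E) ∉ V) {K : Finset (E × E)} (hK : Fam V K) :
    TS {x // x ∈ XS V K} (E × E) where
  good A cc hh := ∃ G c, Fac V G n c ∧ (∀ pr ∈ K, pr.1 ∈ G ∧ pr.2 ∈ G) ∧ (∀ x, x ∈ A ↔ x.1 ∈ G) ∧
    (∀ x v, cc x v = c x.1 v.1) ∧ (∀ x, hh x = K.filter (fun pr => c x.1 pr.1 ≠ 0 ∨ c x.1 pr.2 ≠ 0))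
  supp := by
    rintro A cc hh ⟨G, c, F, h1, h2, h3, h4⟩ x v hv
    rw [h3]
    exact F.supp _ _ (fun h => hv ((h2 v).2 h))
  diag := by
    rintro A cc hh ⟨G, c, F, h1, h2, h3, h4⟩ v hv w
    rw [h3, F.diag _ ((h2 v).1 hv)]
    simp only [Subtype.ext_iff]
  nz := by
    rintro A cc hh ⟨G, c, F, h1, h2, h3, h4⟩ x
    by_cases hx : x.1 ∈ G
    · refine ⟨x, ?_⟩
      rw [h3, F.diag _ hx]
      simp
    · by_contra hcon
      push Not at hcon
      have hz : ∀ v ∈ XS V K, c x.1 v = 0 := by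
        intro v hv
        rw [← hcon ⟨v, hv⟩, h3]
      have h5 := relLev hP hS hK F h1 x.2 hx
      rw [Finset.sum_eq_zero hz] at h5
      have h6 : K.filter (fun pr => c x.1 pr.1 ≠ 0 ∨ c x.1 pr.2 ≠ 0) = ∅ := by
        rw [← Finset.card_eq_zero]
        omega
      have hall : ∀ v ∈ G, c x.1 v = 0 := by
        intro v hv
        by_cases hvX : v ∈ XS V K
        · exact hz v hvX
        · unfold XS at hvX
          rw [mem_filter] at hvX
          push Not at hvX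
          obtain ⟨pr, hpr, h5⟩ := hvX (F.sub hv)
          have h7 := hex_in_G F (h1 pr hpr).1 (h1 pr hpr).2 (hK.hex pr hpr).1 h5 hv
          have h8 : pr ∉ K.filter (fun pr => c x.1 pr.1 ≠ 0 ∨ c x.1 pr.2 ≠ 0) := by rw [h6]; simp
          rw [mem_filter] at h8
          push Not at h8
          have h9 := h8 hpr
          rcases h7 with rfl | rfl
          · exact h9.1
          · exact h9.2
      have h7 : x.1 = 0 := by
        rw [F.rep x.1]
        exact Finset.sum_eq_zero (fun v hv => by rw [hall v hv]; simp)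
      exact h0 (h7 ▸ (mem_filter.1 x.2).1)
  hlev := by
    rintro A cc hh ⟨G, c, F, h1, h2, h3, h4⟩ x hx
    have h5 := relLev hP hS hK F h1 x.2 (fun h => hx ((h2 x).2 h))
    rw [h4]
    have h6 : lev cc x = ∑ v ∈ XS V K, c x.1 v := by
      unfold lev
      rw [Finset.sum_congr rfl (fun v _ => h3 x v)]
      exact Finset.sum_coe_sort (XS V K) (fun v => c x.1 v)
    rw [h6]
    exact h5
  exch := by
    rintro A cc hh ⟨G, c, F, h1, h2, h3, h4⟩ w hw
    have hwG := (h2 w).1 hw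
    obtain ⟨z, hzV, hzG, hzw, F'⟩ := F.exch hP hS hwG
    have hzX : z ∈ XS V K := by
      unfold XS
      rw [mem_filter]
      refine ⟨hzV, fun pr hpr hzh => ?_⟩
      have h5 := XS_not w.2 hpr
      rw [hex_zero F (h1 pr hpr).1 (h1 pr hpr).2 hzh h5.1 h5.2] at hzw
      omega
    refine ⟨⟨z, hzX⟩, fun x => K.filter (fun pr => ex c w.1 z x.1 pr.1 ≠ 0 ∨ ex c w.1 z x.1 pr.2 ≠ 0),
      fun h => hzG ((h2 _).1 h), by rw [h3]; exact hzw, ⟨_, _, F', ?_, ?_, ?_, fun _ => rfl⟩, ?_⟩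
    · intro pr hpr
      have h5 := XS_not w.2 hpr
      simp [(h1 pr hpr).1, (h1 pr hpr).2, Ne.symm h5.1, Ne.symm h5.2]
    · intro x
      simp only [mem_insert, mem_erase, Subtype.ext_iff, h2, ne_eq]
    · intro x v
      simp only [ex, Subtype.ext_iff, h3]
    · intro x pr hpr
      rw [h4, mem_filter] at hpr
      rw [h4, mem_filter, mem_filter]
      by_cases hK' : pr ∈ K
      · have h5 := XS_not w.2 hK'
        push Not at hpr
        have h6 := hpr hK'
        have e1 : ex c w.1 z x.1 pr.1 = c x.1 pr.1 := by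
          unfold ex
          rw [if_neg (fun hh : pr.1 = z => hzG (hh ▸ (h1 pr hK').1)), if_neg (Ne.symm h5.1), h6.1]
          ring
        have e2 : ex c w.1 z x.1 pr.2 = c x.1 pr.2 := by
          unfold ex
          rw [if_neg (fun hh : pr.2 = z => hzG (hh ▸ (h1 pr hK').2)), if_neg (Ne.symm h5.2), h6.2]
          ring
        rw [e1, e2]
      · simp [hK']

end H178.AJP
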