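import Pool.Agent.H178R3.AjpG

set_option autoImplicit false
set_option linter.unusedSectionVars false
set_option linter.unusedVariables false
open Finset

namespace H178.AJP

variable {E : Type} [AddCommGroup E] [DecidableEq E]
variable {V G : Finset E} {n : ℕ} {c : E → E → ℤ}

open scoped Classical in
theorem absFinal (hP : ∀ f : E →+ ℝ, f ≠ 0 → ∃ v ∈ V, 0 < f v)
    (hS : ∀ f : E →+ ℝ, (∀ v ∈ V, f v ≤ 1) → ∃ b : Module.Basis (Fin n) ℤ E,
      ∀ v ∈ V, f v = 1 → v ∈ Set.range b) (h0 : (0 : E) ∉ V) :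
    ∃ G c K, Fac V G n c ∧ (∀ pr ∈ K, pr.1 ∈ G ∧ pr.2 ∈ G) ∧ Fam V K ∧
      (∀ pr ∈ K, ∀ x ∈ V, x ∈ hexset pr.1 pr.2 ∨ (c x pr.1 = 0 ∧ c x pr.2 = 0)) ∧
      (n : ℤ) - 2 * K.card ≤ 3 * (3 * n - V.card) := by
  obtain ⟨G, c, F, hs⟩ := specialFac hP hS (∑ x ∈ V, x)
  obtain ⟨𝓙, h𝓙, hmax⟩ := Finset.exists_max_image ((G ×ˢ G).powerset.filter (fun K => Fam V K))
    (fun K => K.card) ⟨∅, by
      rw [mem_filter, mem_powerset]
      exact ⟨empty_subset _, ⟨fun pr h => by simp at h, fun pr h => by simp at h⟩⟩⟩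
  rw [mem_filter, mem_powerset] at h𝓙
  obtain ⟨h𝓙s, hF⟩ := h𝓙
  have hG : ∀ pr ∈ 𝓙, pr.1 ∈ G ∧ pr.2 ∈ G := fun pr hpr => mem_product.1 (h𝓙s hpr)
  let A : Finset {x // x ∈ XS V 𝓙} := univ.filter (fun x => x.1 ∈ G)
  let cc : {x // x ∈ XS V 𝓙} → {x // x ∈ XS V 𝓙} → ℤ := fun x v => c x.1 v.1
  let hh : {x // x ∈ XS V 𝓙} → Finset (E × E) := fun x =>
    𝓙.filter (fun pr => c x.1 pr.1 ≠ 0 ∨ c x.1 pr.2 ≠ 0)
  have hAm : ∀ x, x ∈ A ↔ x.1 ∈ G := fun x => by simp [A]
  have g : (mkTS hP hS h0 hF).good A cc hh := ⟨G, c, F, hG, hAm, fun _ _ => rfl, fun _ => rfl⟩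
  have hrep : ∀ (y : {x // x ∈ XS V 𝓙}) (f : E → ℤ), hh y = ∅ → (∀ u, cc y u = f u.1) →
      (∀ pr ∈ 𝓙, f pr.1 = 0 ∧ f pr.2 = 0) → y.1 = ∑ u ∈ G, f u • u := by
    intro y f hy h1 h2
    rw [F.rep y.1]
    refine Finset.sum_congr rfl (fun u hu => ?_)
    congr 1
    by_cases huX : u ∈ XS V 𝓙
    · exact h1 ⟨u, huX⟩
    · have huX' := huX
      unfold XS at huX'
      rw [mem_filter] at huX'
      push Not at huX'
      obtain ⟨pr, hpr, h5⟩ := huX' (F.sub hu)
      have h7 := hex_in_G F (hG pr hpr).1 (hG pr hpr).2 (hF.hex pr hpr).1 h5 hu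
      have h8 : pr ∉ hh y := by rw [hy]; simp
      simp only [hh, mem_filter] at h8
      push Not at h8
      have h9 := h8 hpr
      rcases h7 with rfl | rfl
      · rw [h9.1, (h2 pr hpr).1]
      · rw [h9.2, (h2 pr hpr).2]
  have hNH : ∀ w v z z' n n', Star A cc w z v n → Star A cc v z' w n' → False := by
    intro w v z z' n1 n2 s1 s2
    have hwA := TS.cov_mem g s1.cov
    have hvA := TS.cov_mem g s2.cov
    have hwG := (hAm w).1 hwA
    have hvG := (hAm v).1 hvA
    have hne : v.1 ≠ w.1 := fun h => s1.hvw (Subtype.ext h)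
    have hp0 : ∀ pr ∈ 𝓙, pr.1 ≠ w.1 ∧ pr.1 ≠ v.1 ∧ pr.2 ≠ w.1 ∧ pr.2 ≠ v.1 := by
      intro pr hpr
      have h1 := XS_not w.2 hpr
      have h2 := XS_not v.2 hpr
      exact ⟨Ne.symm h1.1, Ne.symm h2.1, Ne.symm h1.2, Ne.symm h2.2⟩
    have ez : z.1 = v.1 - w.1 := by
      rw [hrep z (fun u => (if u = v.1 then 1 else 0) - (if u = w.1 then 1 else 0)) (TS.hcov g s1.cov)
        (fun u => by rw [s1.hz u]; simp only [Subtype.ext_iff]) (fun pr hpr => by
          obtain ⟨a1, a2, a3, a4⟩ := hp0 pr hpr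
          simp [a1, a2, a3, a4])]
      simp [sub_smul, ite_smul, hwG, hvG]
    have ez' : z'.1 = w.1 - v.1 := by
      rw [hrep z' (fun u => (if u = w.1 then 1 else 0) - (if u = v.1 then 1 else 0)) (TS.hcov g s2.cov)
        (fun u => by rw [s2.hz u]; simp only [Subtype.ext_iff]) (fun pr hpr => by
          obtain ⟨a1, a2, a3, a4⟩ := hp0 pr hpr
          simp [a1, a2, a3, a4])]
      simp [sub_smul, ite_smul, hwG, hvG]
    have en1 : n1.1 = - w.1 := by
      rw [hrep n1 (fun u => if u = w.1 then -1 else 0) (s1.hn0 g)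
        (fun u => by rw [s1.hn u]; simp only [Subtype.ext_iff]) (fun pr hpr => by
          obtain ⟨a1, a2, a3, a4⟩ := hp0 pr hpr
          simp [a1, a2, a3, a4])]
      simp [ite_smul, hwG, hvG]
    have en2 : n2.1 = - v.1 := by
      rw [hrep n2 (fun u => if u = v.1 then -1 else 0) (s2.hn0 g)
        (fun u => by rw [s2.hn u]; simp only [Subtype.ext_iff]) (fun pr hpr => by
          obtain ⟨a1, a2, a3, a4⟩ := hp0 pr hpr
          simp [a1, a2, a3, a4])]
      simp [ite_smul, hwG, hvG]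
    have hVm : ∀ y : {x // x ∈ XS V 𝓙}, y.1 ∈ V := fun y => (mem_filter.1 y.2).1
    have hnot : (w.1, v.1) ∉ 𝓙 := by
      intro hcon
      exact (hp0 _ hcon).1 rfl
    have h1 := hmax (insert (w.1, v.1) 𝓙) (by
      rw [mem_filter, mem_powerset]
      refine ⟨?_, ?_, ?_⟩
      · intro pr hpr
        rcases Finset.mem_insert.1 hpr with rfl | h
        · exact mem_product.2 ⟨hwG, hvG⟩
        · exact h𝓙s h
      · intro pr hpr
        rcases Finset.mem_insert.1 hpr with rfl | h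
        · refine ⟨Ne.symm hne, ?_, ?_, ?_, ?_⟩
          · show v.1 - w.1 ∈ V
            rw [← ez]; exact hVm z
          · show w.1 - v.1 ∈ V
            rw [← ez']; exact hVm z'
          · show - w.1 ∈ V
            rw [← en1]; exact hVm n1
          · show - v.1 ∈ V
            rw [← en2]; exact hVm n2
        · exact hF.hex pr h
      · intro pr hpr pr' hpr' hne'
        rcases Finset.mem_insert.1 hpr with rfl | h <;> rcases Finset.mem_insert.1 hpr' with rfl | h'
        · exact absurd rfl hne'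
        · obtain ⟨a1, a2, a3, a4⟩ := hp0 pr' h'
          exact ⟨Ne.symm a1, Ne.symm a3, Ne.symm a2, Ne.symm a4⟩
        · exact hp0 pr h
        · exact hF.disj pr h pr' h' hne')
    rw [Finset.card_insert_of_notMem hnot] at h1
    omega
  have hsumX : ∀ f : E → ℤ, ∑ v : {x // x ∈ XS V 𝓙}, f v.1 = ∑ v ∈ XS V 𝓙, f v := fun f =>
    Finset.sum_coe_sort (XS V 𝓙) f
  have hspec : ∀ v ∈ A, 0 ≤ ∑ x, cc x v := by
    intro v hv
    have hvG := (hAm v).1 hv
    have h1 := hs v.1 hvG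
    rw [F.sum] at h1
    have h2 : ∑ x ∈ V, c x v.1 = ∑ x ∈ XS V 𝓙, c x v.1 := by
      symm
      refine Finset.sum_subset (Finset.filter_subset _ _) ?_
      intro x hxV hx
      unfold XS at hx
      rw [mem_filter] at hx
      push Not at hx
      obtain ⟨pr, hpr, h5⟩ := hx hxV
      have h6 := XS_not v.2 hpr
      exact hex_zero F (hG pr hpr).1 (hG pr hpr).2 h5 h6.1 h6.2
    rw [h2, ← hsumX (fun x => c x v.1)] at h1
    exact h1
  obtain ⟨U, hU⟩ : ∃ U : Finset (E × E), U = (univ.filter (fun x => x ∉ A)).biUnion hh := ⟨_, rfl⟩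
  have hmain : A.card + 2 * U.card + 3 * Fintype.card {x // x ∈ XS V 𝓙} ≤ 9 * A.card := by
    rcases isEmpty_or_nonempty {x // x ∈ XS V 𝓙} with he | he
    · have h1 : Fintype.card {x // x ∈ XS V 𝓙} = 0 := Fintype.card_eq_zero
      have h2 : U = ∅ := by
        rw [hU]
        ext j
        simp only [mem_biUnion]
        constructor
        · rintro ⟨x, _⟩
          exact he.elim x
        · intro h; simp at h
      rw [h1, h2, Finset.card_empty]
      omega
    · rw [hU]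
      exact main g hNH hspec
  have hU𝓙 : U ⊆ 𝓙 := by
    intro pr hpr
    rw [hU, mem_biUnion] at hpr
    obtain ⟨x, _, hx⟩ := hpr
    exact (mem_filter.1 hx).1
  refine ⟨G, c, 𝓙 \ U, F, fun pr hpr => hG pr (mem_sdiff.1 hpr).1, ⟨fun pr hpr => hF.hex pr (mem_sdiff.1 hpr).1,
    fun pr hpr pr' hpr' => hF.disj pr (mem_sdiff.1 hpr).1 pr' (mem_sdiff.1 hpr').1⟩, ?_, ?_⟩
  · intro pr hpr x hxV
    obtain ⟨hpr1, hpr2⟩ := mem_sdiff.1 hpr
    by_cases hxX : x ∈ XS V 𝓙
    · right
      by_cases hxG : x ∈ G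
      · have h1 := XS_not hxX hpr1
        rw [F.diag x hxG, F.diag x hxG]
        simp [h1.1, h1.2]
      · by_contra hcon
        apply hpr2
        rw [hU, mem_biUnion]
        refine ⟨⟨x, hxX⟩, ?_, ?_⟩
        · simp only [mem_filter, mem_univ, true_and, hAm]
          exact hxG
        · simp only [hh, mem_filter]
          refine ⟨hpr1, ?_⟩
          tauto
    · unfold XS at hxX
      rw [mem_filter] at hxX
      push Not at hxX
      obtain ⟨pr', hpr', h5⟩ := hxX hxV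
      by_cases hpp : pr = pr'
      · left; rw [hpp]; exact h5
      · right
        have h6 := hF.disj pr hpr1 pr' hpr' hpp
        exact ⟨hex_zero F (hG pr' hpr').1 (hG pr' hpr').2 h5 h6.1 h6.2.1,
          hex_zero F (hG pr' hpr').1 (hG pr' hpr').2 h5 h6.2.2.1 h6.2.2.2⟩
  · have c1 := Finset.card_sdiff_add_card_eq_card hU𝓙
    have c2 : Fintype.card {x // x ∈ XS V 𝓙} = (XS V 𝓙).card := Fintype.card_coe _
    have c3 : V.card ≤ (XS V 𝓙).card + 6 * 𝓙.card := by
      have h1 : V ⊆ XS V 𝓙 ∪ 𝓙.biUnion (fun pr => hexset pr.1 pr.2) := by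
        intro x hxV
        rw [mem_union]
        by_cases hxX : x ∈ XS V 𝓙
        · left; exact hxX
        · right
          unfold XS at hxX
          rw [mem_filter] at hxX
          push Not at hxX
          obtain ⟨pr', hpr', h5⟩ := hxX hxV
          exact mem_biUnion.2 ⟨pr', hpr', h5⟩
      have h2 := Finset.card_le_card h1
      have h3 := Finset.card_union_le (XS V 𝓙) (𝓙.biUnion (fun pr => hexset pr.1 pr.2))
      have h4 : (𝓙.biUnion (fun pr => hexset pr.1 pr.2)).card ≤ 𝓙.card * 6 :=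
        Finset.card_biUnion_le_card_mul _ _ _ (fun pr _ => by
          unfold hexset
          exact Finset.card_le_six)
      omega
    have c4 : (n : ℤ) = A.card + 2 * 𝓙.card := by
      have h1 := split_sum F hF hG (fun v => if v ∈ G then (1:ℤ) else 0) (fun v hv => by simp [hv])
      have h2 : ∑ v ∈ G, (if v ∈ G then (1:ℤ) else 0) = n := by
        rw [Finset.sum_congr rfl (fun v hv => by rw [if_pos hv])]
        simp [F.card]
      have h3 : ∑ pr ∈ 𝓙, ((if pr.1 ∈ G then (1:ℤ) else 0) + (if pr.2 ∈ G then (1:ℤ) else 0)) =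
          2 * 𝓙.card := by
        rw [Finset.sum_congr rfl (fun pr hpr => by rw [if_pos (hG pr hpr).1, if_pos (hG pr hpr).2])]
        simp
        ring
      have h4 : ∑ v ∈ XS V 𝓙, (if v ∈ G then (1:ℤ) else 0) = A.card := by
        rw [← hsumX]
        simp [A, Finset.sum_boole]
      rw [h2, h3, h4] at h1
      exact h1
    rw [c2] at hmain
    omega

end H178.AJP
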