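import Pool.Agent.H178R3.AjpH

set_option autoImplicit false
set_option linter.unusedSectionVars false
set_option linter.unusedVariables false
open Finset

namespace H178.AJP

variable {d : ℕ}

theorem fsum (f : (Fin d → ℤ) →+ ℝ) (v : Fin d → ℤ) :
    f v = ∑ i, f (Pi.single i 1) * (v i : ℝ) := by
  have h1 : v = ∑ i, (v i) • (Pi.single i 1 : Fin d → ℤ) := by
    ext j
    simp [Finset.sum_apply, Pi.single_apply]
  conv_lhs => rw [h1]
  rw [map_sum]
  refine Finset.sum_congr rfl (fun i _ => ?_)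
  rw [map_zsmul, zsmul_eq_mul]
  ring

theorem hPos (V : Finset (Fin d → ℤ))
    (hint : (0 : Fin d → ℝ) ∈ interior (convexHull ℝ
        ((fun (v : Fin d → ℤ) (i : Fin d) => (v i : ℝ)) '' (V : Set (Fin d → ℤ))))) :
    ∀ f : (Fin d → ℤ) →+ ℝ, f ≠ 0 → ∃ v ∈ V, 0 < f v := by
  intro f hf
  by_contra hcon
  push Not at hcon
  apply hf
  let u : Fin d → ℝ := fun i => f (Pi.single i 1)
  let L : (Fin d → ℝ) →ₗ[ℝ] ℝ := ∑ i, u i • LinearMap.proj i
  have hL : ∀ y, L y = ∑ i, u i * y i := by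
    intro y
    simp [L]
  have hsub : convexHull ℝ ((fun (v : Fin d → ℤ) (i : Fin d) => (v i : ℝ)) '' (V : Set (Fin d → ℤ))) ⊆
      {y | L y ≤ 0} := by
    refine convexHull_min ?_ (convex_halfSpace_le L.isLinear 0)
    rintro _ ⟨v, hv, rfl⟩
    have := hcon v hv
    rw [fsum f v] at this
    show L _ ≤ 0
    rw [hL]
    exact this
  have hcont : Continuous (fun t : ℝ => t • u) := by fun_prop
  have hev : ∀ᶠ t in nhds (0:ℝ), t • u ∈ convexHull ℝ
      ((fun (v : Fin d → ℤ) (i : Fin d) => (v i : ℝ)) '' (V : Set (Fin d → ℤ))) := by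
    have h1 := hcont.continuousAt (x := (0:ℝ))
    have h2 : (convexHull ℝ ((fun (v : Fin d → ℤ) (i : Fin d) => (v i : ℝ)) '' (V : Set (Fin d → ℤ)))) ∈
        nhds ((0:ℝ) • u) := by
      rw [zero_smul]
      exact mem_interior_iff_mem_nhds.1 hint
    exact h1 h2
  obtain ⟨t, ht1, ht2⟩ := ((hev.filter_mono nhdsWithin_le_nhds).and
    (self_mem_nhdsWithin (s := Set.Ioi (0:ℝ)))).exists
  have h3 := hsub ht1
  have h4 : L (t • u) = t * ∑ i, u i * u i := by
    rw [map_smul, hL]; rfl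
  have h5 : L (t • u) ≤ 0 := h3
  rw [h4] at h5
  have ht : 0 < t := ht2
  have h6 : ∑ i, u i * u i ≤ 0 := by
    by_contra hc
    push Not at hc
    have := mul_pos ht hc
    linarith
  have h7 : ∑ i, u i * u i = 0 := le_antisymm h6 (Finset.sum_nonneg (fun i _ => mul_self_nonneg _))
  have h8 := (Finset.sum_eq_zero_iff_of_nonneg (fun i _ => mul_self_nonneg (u i))).1 h7
  refine DFunLike.ext _ _ (fun v => ?_)
  rw [fsum f v]
  simp only [AddMonoidHom.zero_apply]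
  refine Finset.sum_eq_zero (fun i _ => ?_)
  have h9 : u i = 0 := mul_self_eq_zero.1 (h8 i (mem_univ _))
  show u i * _ = 0
  rw [h9]; ring

theorem hSm (V : Finset (Fin d → ℤ))
    (h : ∀ u : Fin d → ℝ, (∀ v ∈ V, ∑ i, u i * (v i : ℝ) ≤ 1) →
        ∃ b : Module.Basis (Fin d) ℤ (Fin d → ℤ),
          ∀ v ∈ V, ∑ i, u i * (v i : ℝ) = 1 → v ∈ Set.range b) :
    ∀ f : (Fin d → ℤ) →+ ℝ, (∀ v ∈ V, f v ≤ 1) → ∃ b : Module.Basis (Fin d) ℤ (Fin d → ℤ),
      ∀ v ∈ V, f v = 1 → v ∈ Set.range b := by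
  intro f hf
  obtain ⟨b, hb⟩ := h (fun i => f (Pi.single i 1)) (fun v hv => by rw [← fsum f v]; exact hf v hv)
  exact ⟨b, fun v hv h1 => hb v hv (by rw [← fsum f v]; exact h1)⟩

theorem hZero (V : Finset (Fin d → ℤ)) (hd : 0 < d)
    (hP : ∀ f : (Fin d → ℤ) →+ ℝ, f ≠ 0 → ∃ v ∈ V, 0 < f v)
    (hS : ∀ f : (Fin d → ℤ) →+ ℝ, (∀ v ∈ V, f v ≤ 1) → ∃ b : Module.Basis (Fin d) ℤ (Fin d → ℤ),
      ∀ v ∈ V, f v = 1 → v ∈ Set.range b)
    (hV : ∀ v ∈ V, (fun i : Fin d => (v i : ℝ)) ∉ convexHull ℝ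
        ((fun (w : Fin d → ℤ) (i : Fin d) => (w i : ℝ)) '' ((V.erase v : Finset (Fin d → ℤ)) : Set (Fin d → ℤ)))) :
    (0 : Fin d → ℤ) ∉ V := by
  intro h0
  apply hV 0 h0
  obtain ⟨G, c, F⟩ := firstFac hP hS
  obtain ⟨G', c', F', hs⟩ := specialFac hP hS (- ∑ v ∈ G, v)
  let s : Fin d → ℤ := - ∑ v ∈ G, v
  let W : (Fin d → ℤ) → ℤ := fun v => (if v ∈ G then 1 else 0) + c' s v
  have hc' : ∀ v, 0 ≤ c' s v := by
    intro v
    by_cases hv : v ∈ G'
    · exact hs v hv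
    · rw [F'.supp s v hv]
  have hW0 : ∀ v, 0 ≤ W v := by
    intro v
    have := hc' v
    simp only [W]
    split_ifs <;> omega
  have h0G : (0 : Fin d → ℤ) ∉ G := by
    intro hh
    have h1 := F.diag 0 hh 0
    rw [F.zero] at h1
    simp at h1
  have hsumV : ∑ v ∈ V, W v • v = 0 := by
    simp only [W, add_smul, Finset.sum_add_distrib, ite_smul, one_smul, zero_smul]
    have h1 : ∑ v ∈ V, (if v ∈ G then v else 0) = ∑ v ∈ G, v := by
      rw [← Finset.sum_filter]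
      congr 1
      ext v
      simp only [mem_filter]
      exact ⟨fun h => h.2, fun h => ⟨F.sub h, h⟩⟩
    have h2 : ∑ v ∈ V, c' s v • v = ∑ v ∈ G', c' s v • v := by
      symm
      refine Finset.sum_subset F'.sub (fun v _ hv => ?_)
      rw [F'.supp s v hv]; simp
    rw [h1, h2, ← F'.rep s]
    simp [s]
  have hsumE : ∑ v ∈ V.erase 0, W v • v = 0 := by
    have := Finset.add_sum_erase V (fun v => W v • v) h0
    rw [hsumV] at this
    simpa using this
  have hpos : 0 < ∑ v ∈ V.erase 0, (W v : ℝ) := by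
    have hne : G.Nonempty := Finset.card_pos.1 (by rw [F.card]; exact hd)
    obtain ⟨v, hv⟩ := hne
    have hv0 : v ≠ 0 := fun hh => h0G (hh ▸ hv)
    refine Finset.sum_pos' (fun w _ => by exact_mod_cast hW0 w) ⟨v, by simp [hv0, F.sub hv], ?_⟩
    have h1 := hc' v
    have : 0 < W v := by
      simp only [W, if_pos hv]
      omega
    exact_mod_cast this
  have hmem := Finset.centerMass_mem_convexHull (R := ℝ) (V.erase 0) (w := fun v => (W v : ℝ))
    (fun v _ => by exact_mod_cast hW0 v) hpos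
    (z := fun v => (fun i : Fin d => (v i : ℝ)))
    (s := ((fun (w : Fin d → ℤ) (i : Fin d) => (w i : ℝ)) '' ((V.erase 0 : Finset (Fin d → ℤ)) : Set (Fin d → ℤ))))
    (fun v hv => ⟨v, hv, rfl⟩)
  have hcm : (V.erase 0).centerMass (fun v => (W v : ℝ)) (fun v => (fun i : Fin d => (v i : ℝ))) =
      (fun i : Fin d => (((0 : Fin d → ℤ) i : ℤ) : ℝ)) := by
    unfold Finset.centerMass
    ext i
    have h1 : (∑ v ∈ V.erase 0, (W v : ℝ) • (fun i : Fin d => (v i : ℝ))) i = 0 := by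
      rw [Finset.sum_apply]
      have h2 := congrFun hsumE i
      rw [Finset.sum_apply] at h2
      simp only [Pi.smul_apply, smul_eq_mul, Pi.zero_apply] at h2 ⊢
      exact_mod_cast h2
    rw [Pi.smul_apply, h1]
    simp
  rw [hcm] at hmem
  exact hmem

def six : Finset (ℤ × ℤ) := {(1, 0), (0, 1), (-1, 0), (0, -1), (1, 1), (-1, -1)}

theorem hexcoord {p q x : Fin d → ℤ} (hx : x ∈ hexset p q) :
    ∃ a b : ℤ, (a, b) ∈ ({(1, 0), (0, 1), (-1, 0), (0, -1), (1, 1), (-1, -1)} : Finset (ℤ × ℤ)) ∧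
      x = a • p + (-b) • q := by
  simp only [hexset, mem_insert, mem_singleton] at hx
  rcases hx with rfl | rfl | rfl | rfl | rfl | rfl
  · exact ⟨1, 0, by decide, by simp⟩
  · exact ⟨0, -1, by decide, by simp⟩
  · exact ⟨-1, -1, by decide, by simp; abel⟩
  · exact ⟨1, 1, by decide, by simp; abel⟩
  · exact ⟨-1, 0, by decide, by simp⟩
  · exact ⟨0, 1, by decide, by simp⟩

theorem hexcoord' {V G : Finset (Fin d → ℤ)} {p q : Fin d → ℤ} (hp : p ∈ V) (hq : q ∈ V) (hH : HexP V p q)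
    {a b : ℤ} (hab : (a, b) ∈ ({(1, 0), (0, 1), (-1, 0), (0, -1), (1, 1), (-1, -1)} : Finset (ℤ × ℤ))) :
    a • p + (-b) • q ∈ V := by
  simp only [mem_insert, mem_singleton, Prod.mk.injEq] at hab
  obtain ⟨h1, h2, h3, h4⟩ := hH
  rcases hab with ⟨rfl, rfl⟩ | ⟨rfl, rfl⟩ | ⟨rfl, rfl⟩ | ⟨rfl, rfl⟩ | ⟨rfl, rfl⟩ | ⟨rfl, rfl⟩
  · simpa using hp
  · simpa using h4
  · simpa using h3
  · simpa using hq
  · have : (1:ℤ) • p + (-(1:ℤ)) • q = p - q := by simp; abel
    rw [this]; exact h2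
  · have : (-1:ℤ) • p + (-(-1:ℤ)) • q = q - p := by simp; abel
    rw [this]; exact h1

end H178.AJP
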