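import Pool.Agent.H178R3.AjpI

set_option autoImplicit false
set_option linter.unusedSectionVars false
set_option linter.unusedVariables false
open Finset

namespace H178.AJP

variable {d : ℕ}

/-- The linear coordinates attached to a facet and a signed ordering of its vertices. -/
def coordEquiv {V G : Finset (Fin d → ℤ)} {c : (Fin d → ℤ) → (Fin d → ℤ) → ℤ} (F : Fac V G d c)
    (β : Fin d ≃ G) (ε : Fin d → ℤ) (hε : ∀ i, ε i * ε i = 1) : (Fin d → ℤ) ≃ₗ[ℤ] (Fin d → ℤ) where
  toFun x i := ε i * c x (β i)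
  map_add' x y := by
    ext i
    simp only [F.add, Pi.add_apply]
    ring
  map_smul' k x := by
    ext i
    simp only [F.smul, Pi.smul_apply, smul_eq_mul, RingHom.id_apply]
    ring
  invFun y := ∑ i, (ε i * y i) • (β i : Fin d → ℤ)
  left_inv x := by
    have h1 : ∀ i, (ε i * (ε i * c x (β i))) • (β i : Fin d → ℤ) = c x (β i) • (β i : Fin d → ℤ) := by
      intro i
      rw [← mul_assoc, hε, one_mul]
    simp only [h1]
    rw [Equiv.sum_comp β (fun v => c x v.1 • v.1)]
    rw [Finset.sum_coe_sort G (fun v => c x v • v)]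
    exact (F.rep x).symm
  right_inv y := by
    ext i
    simp only
    rw [F.sum]
    have h1 : ∀ j, c ((ε j * y j) • (β j : Fin d → ℤ)) (β i) = if j = i then ε j * y j else 0 := by
      intro j
      rw [F.smul, F.diag _ (β j).2]
      by_cases hji : j = i
      · subst hji; simp
      · have : (β j : Fin d → ℤ) ≠ β i := fun hh => hji (β.injective (Subtype.ext hh))
        simp [this, hji]
    rw [Finset.sum_congr rfl (fun j _ => h1 j)]
    simp only [Finset.sum_ite_eq', mem_univ, if_true]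
    rw [← mul_assoc, hε, one_mul]

theorem final (d : ℕ) (V : Finset (Fin d → ℤ)) (hd : 0 < d)
    (hint : (0 : Fin d → ℝ) ∈ interior (convexHull ℝ
        ((fun (v : Fin d → ℤ) (i : Fin d) => (v i : ℝ)) '' (V : Set (Fin d → ℤ)))))
    (hvert : ∀ v ∈ V, (fun i : Fin d => (v i : ℝ)) ∉ convexHull ℝ
        ((fun (w : Fin d → ℤ) (i : Fin d) => (w i : ℝ)) '' ((V.erase v : Finset (Fin d → ℤ)) : Set (Fin d → ℤ))))
    (hsm : ∀ u : Fin d → ℝ, (∀ v ∈ V, ∑ i, u i * (v i : ℝ) ≤ 1) →
        ∃ b : Module.Basis (Fin d) ℤ (Fin d → ℤ),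
          ∀ v ∈ V, ∑ i, u i * (v i : ℝ) = 1 → v ∈ Set.range b)
    (hk : 3 * (3 * (d : ℤ) - (V.card : ℤ)) < (d : ℤ)) :
      ∃ m : ℕ, 1 ≤ m ∧ 2 * m ≤ d ∧
        (d : ℤ) - 2 * (m : ℤ) ≤ 3 * (3 * (d : ℤ) - (V.card : ℤ)) ∧
        ∃ g : (Fin d → ℤ) ≃ₗ[ℤ] (Fin d → ℤ),
          (∀ v ∈ V, (∀ i : Fin d, (i : ℕ) < 2 * m → g v i = 0) ∨
            ∃ j : ℕ, j < m ∧ ∃ a b : ℤ,
              (a, b) ∈ ({(1, 0), (0, 1), (-1, 0), (0, -1), (1, 1), (-1, -1)} : Finset (ℤ × ℤ)) ∧
              ∀ i : Fin d, g v i =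
                if (i : ℕ) = 2 * j then a else if (i : ℕ) = 2 * j + 1 then b else 0) ∧
          (∀ j : ℕ, j < m → ∀ a b : ℤ,
            (a, b) ∈ ({(1, 0), (0, 1), (-1, 0), (0, -1), (1, 1), (-1, -1)} : Finset (ℤ × ℤ)) →
            ∃ v ∈ V, ∀ i : Fin d, g v i =
              if (i : ℕ) = 2 * j then a else if (i : ℕ) = 2 * j + 1 then b else 0) := by
  have hP := hPos V hint
  have hS := hSm V hsm
  have h0 := hZero V hd hP hS hvert
  obtain ⟨G, c, K, F, hG, hK, hsplit, hcount⟩ := absFinal hP hS h0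
  have h2m : 2 * K.card ≤ d := by
    have h1 := split_sum F hK hG (fun v => if v ∈ G then (1:ℤ) else 0) (fun v hv => by simp [hv])
    have h2 : ∑ v ∈ G, (if v ∈ G then (1:ℤ) else 0) = d := by
      rw [Finset.sum_congr rfl (fun v hv => by rw [if_pos hv])]
      simp [F.card]
    have h3 : ∑ pr ∈ K, ((if pr.1 ∈ G then (1:ℤ) else 0) + (if pr.2 ∈ G then (1:ℤ) else 0)) =
        2 * K.card := by
      rw [Finset.sum_congr rfl (fun pr hpr => by rw [if_pos (hG pr hpr).1, if_pos (hG pr hpr).2])]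
      simp
      ring
    have h4 : 0 ≤ ∑ v ∈ XS V K, (if v ∈ G then (1:ℤ) else 0) :=
      Finset.sum_nonneg (fun v _ => by split_ifs <;> norm_num)
    rw [h2, h3] at h1
    omega
  refine ⟨K.card, by omega, h2m, hcount, ?_⟩
  -- ordering of the vertices
  let pairs : Fin K.card → (Fin d → ℤ) × (Fin d → ℤ) := fun j => (K.equivFin.symm j).1
  have hpK : ∀ j, pairs j ∈ K := fun j => (K.equivFin.symm j).2
  have hpinj : ∀ j j', pairs j = pairs j' → j = j' := fun j j' h =>
    K.equivFin.symm.injective (Subtype.ext h)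
  have hpsurj : ∀ pr ∈ K, ∃ j, pairs j = pr := fun pr hpr => ⟨K.equivFin ⟨pr, hpr⟩, by simp [pairs]⟩
  let f : Fin d → (Fin d → ℤ) := fun i =>
    if h : i.1 / 2 < K.card then (if i.1 % 2 = 0 then (pairs ⟨i.1 / 2, h⟩).1 else (pairs ⟨i.1 / 2, h⟩).2)
    else 0
  have hf0 : ∀ (i : Fin d) (j : Fin K.card), i.1 = 2 * j.1 → f i = (pairs j).1 := by
    intro i j hij
    have h1 : i.1 / 2 < K.card := by have := j.2; omega
    have h2 : (⟨i.1 / 2, h1⟩ : Fin K.card) = j := Fin.ext (by simp only; omega)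
    simp only [f]
    rw [dif_pos h1, if_pos (by omega), h2]
  have hf1 : ∀ (i : Fin d) (j : Fin K.card), i.1 = 2 * j.1 + 1 → f i = (pairs j).2 := by
    intro i j hij
    have h1 : i.1 / 2 < K.card := by have := j.2; omega
    have h2 : (⟨i.1 / 2, h1⟩ : Fin K.card) = j := Fin.ext (by simp only; omega)
    simp only [f]
    rw [dif_pos h1, if_neg (by omega), h2]
  have hcase : ∀ i : Fin d, i.1 < 2 * K.card → ∃ j : Fin K.card, i.1 = 2 * j.1 ∨ i.1 = 2 * j.1 + 1 := by
    intro i hi
    exact ⟨⟨i.1 / 2, by omega⟩, by simp only; omega⟩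
  obtain ⟨β, hβ⟩ := Finset.exists_equiv_extend_of_card_eq (α := Fin d) (t := G) (by rw [F.card]; simp)
    (s := univ.filter (fun i : Fin d => i.1 < 2 * K.card)) (f := f) (by
      intro v hv
      obtain ⟨i, hi, rfl⟩ := mem_image.1 hv
      obtain ⟨j, hj | hj⟩ := hcase i (mem_filter.1 hi).2
      · rw [hf0 i j hj]; exact (hG _ (hpK j)).1
      · rw [hf1 i j hj]; exact (hG _ (hpK j)).2) (by
      intro i hi i' hi' heq
      simp only [coe_filter, mem_univ, true_and, Set.mem_ofPred] at hi hi'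
      obtain ⟨j, hj⟩ := hcase i hi
      obtain ⟨j', hj'⟩ := hcase i' hi'
      by_cases hjj : j = j'
      · subst hjj
        have hne := (hK.hex _ (hpK j)).1
        rcases hj with hj | hj <;> rcases hj' with hj' | hj'
        · exact Fin.ext (by omega)
        · rw [hf0 i j hj, hf1 i' j hj'] at heq
          exact absurd heq hne
        · rw [hf1 i j hj, hf0 i' j hj'] at heq
          exact absurd heq.symm hne
        · exact Fin.ext (by omega)
      · exfalso
        have hd := hK.disj _ (hpK j) _ (hpK j') (fun hh => hjj (hpinj _ _ hh))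
        rcases hj with hj | hj <;> rcases hj' with hj' | hj'
        · rw [hf0 i j hj, hf0 i' j' hj'] at heq
          exact hd.1 heq
        · rw [hf0 i j hj, hf1 i' j' hj'] at heq
          exact hd.2.1 heq
        · rw [hf1 i j hj, hf0 i' j' hj'] at heq
          exact hd.2.2.1 heq
        · rw [hf1 i j hj, hf1 i' j' hj'] at heq
          exact hd.2.2.2 heq)
  have hβ0 : ∀ (i : Fin d) (j : Fin K.card), i.1 = 2 * j.1 → (β i : Fin d → ℤ) = (pairs j).1 := by
    intro i j hij
    rw [hβ i (by simp; have := j.2; omega), hf0 i j hij]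
  have hβ1 : ∀ (i : Fin d) (j : Fin K.card), i.1 = 2 * j.1 + 1 → (β i : Fin d → ℤ) = (pairs j).2 := by
    intro i j hij
    rw [hβ i (by simp; have := j.2; omega), hf1 i j hij]
  let ε : Fin d → ℤ := fun i => if i.1 % 2 = 1 then -1 else 1
  have hε : ∀ i, ε i * ε i = 1 := by
    intro i
    simp only [ε]
    split_ifs <;> norm_num
  have hform : ∀ (j : Fin K.card) (a b : ℤ) (i : Fin d),
      coordEquiv F β ε hε (a • (pairs j).1 + (-b) • (pairs j).2) i =
        if (i : ℕ) = 2 * j.1 then a else if (i : ℕ) = 2 * j.1 + 1 then b else 0 := by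
    intro j a b i
    have hgj := hG _ (hpK j)
    have hne := (hK.hex _ (hpK j)).1
    show ε i * c _ (β i) = _
    rw [F.add, F.smul, F.smul, F.diag _ hgj.1, F.diag _ hgj.2]
    have hj1 : 2 * j.1 < d := by have := j.2; omega
    have hj2 : 2 * j.1 + 1 < d := by have := j.2; omega
    by_cases h1 : (i : ℕ) = 2 * j.1
    · rw [hβ0 i j h1]
      have h2 : ε i = 1 := by simp only [ε]; rw [if_neg (by omega)]
      rw [if_pos h1, h2]
      simp [Ne.symm hne]
    · rw [if_neg h1]
      have h3 : (pairs j).1 ≠ β i := by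
        intro hh
        apply h1
        have h4 := hβ0 ⟨2 * j.1, hj1⟩ j rfl
        rw [← h4] at hh
        have := β.injective (Subtype.ext hh)
        rw [← this]
      by_cases h2 : (i : ℕ) = 2 * j.1 + 1
      · rw [hβ1 i j h2]
        have h5 : ε i = -1 := by simp only [ε]; rw [if_pos (by omega)]
        rw [if_pos h2, h5]
        simp [hne]
      · have h4 : (pairs j).2 ≠ β i := by
          intro hh
          apply h2
          have h4 := hβ1 ⟨2 * j.1 + 1, hj2⟩ j rfl
          rw [← h4] at hh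
          have := β.injective (Subtype.ext hh)
          rw [← this]
        rw [if_neg h2]
        simp [h3, h4]
  refine ⟨coordEquiv F β ε hε, ?_, ?_⟩
  · intro v hv
    by_cases hex : ∃ pr ∈ K, v ∈ hexset pr.1 pr.2
    · right
      obtain ⟨pr, hpr, hvx⟩ := hex
      obtain ⟨j, rfl⟩ := hpsurj pr hpr
      obtain ⟨a, b, hab, hvab⟩ := hexcoord hvx
      refine ⟨j.1, j.2, a, b, hab, ?_⟩
      intro i
      rw [hvab]
      exact hform j a b i
    · left
      intro i hi
      push Not at hex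
      obtain ⟨j, hj⟩ := hcase i hi
      have h1 := (hsplit _ (hpK j) v hv).resolve_left (hex _ (hpK j))
      show ε i * c v (β i) = 0
      rcases hj with hj | hj
      · rw [hβ0 i j hj, h1.1]; ring
      · rw [hβ1 i j hj, h1.2]; ring
  · intro j hj a b hab
    have hgj := hG _ (hpK ⟨j, hj⟩)
    exact ⟨_, hexcoord' (G := G) (F.sub hgj.1) (F.sub hgj.2) (hK.hex _ (hpK ⟨j, hj⟩)).2 hab,
      fun i => hform ⟨j, hj⟩ a b i⟩

end H178.AJP
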