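import Pool.Agent.H178R3.CayDefs

/-!
# Lattice simplices from systematic binary matrices
-/

set_option autoImplicit false

open Set Pointwise Finset

namespace Pool.Agent.H178R3.Cay

section

variable {k p : ℕ} (A : Fin k → Fin p → ℤ) (B : Fin k → ℤ)

/-- Labels of the vertices. -/
abbrev V (k p : ℕ) : Type := Fin k ⊕ (Fin p ⊕ Unit)

/-- The full matrix `[I | A | B]`. -/
def full (j : Fin k) : V k p → ℤ :=
  Sum.elim (fun j' => if j' = j then 1 else 0) (Sum.elim (A j) (fun _ => B j))

/-- The vertices of the simplex. -/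
def vtx : V k p → (Fin (k + p) → ℝ) :=
  Sum.elim (fun j => Fin.addCases (fun j' => if j' = j then 2 else 0) (fun i => -(A j i : ℝ)))
    (Sum.elim (fun i => Fin.addCases (fun _ => 0) (fun i' => if i' = i then 1 else 0))
      (fun _ => 0))

/-- The simplex. -/
def simplex : Set (Fin (k + p) → ℝ) := convexHull ℝ (Set.range (vtx A))

/-- Homogeneous barycentric coordinates, except the last one. -/
noncomputable def bar0 (y : Fin (k + p) → ℝ) : Fin k ⊕ Fin p → ℝ :=
  Sum.elim (fun j => y (Fin.castAdd p j) / 2)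
    (fun i => y (Fin.natAdd k i) + (∑ j, y (Fin.castAdd p j) * A j i) / 2)

/-- Homogeneous barycentric coordinates. -/
noncomputable def bar (t : ℝ) (y : Fin (k + p) → ℝ) : V k p → ℝ :=
  Sum.elim (fun j => bar0 A y (Sum.inl j))
    (Sum.elim (fun i => bar0 A y (Sum.inr i)) (fun _ => t - ∑ l, bar0 A y l))

theorem sum_bar (t : ℝ) (y : Fin (k + p) → ℝ) : ∑ l, bar A t y l = t := by
  simp only [bar, Fintype.sum_sum_type, Sum.elim_inl, Sum.elim_inr, Finset.univ_unique,
    Finset.sum_singleton]
  ring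

theorem sum_bar_smul (t : ℝ) (y : Fin (k + p) → ℝ) : ∑ l, bar A t y l • vtx A l = y := by
  funext c
  simp only [Finset.sum_apply, Pi.smul_apply, smul_eq_mul, Fintype.sum_sum_type,
    Finset.univ_unique, Finset.sum_singleton]
  refine Fin.addCases (fun j => ?_) (fun i => ?_) c
  · simp [bar, vtx, bar0]
  · simp only [bar, vtx, bar0, Sum.elim_inl, Sum.elim_inr, Fin.addCases_right, mul_neg, mul_ite,
      mul_one, mul_zero, Finset.sum_ite_eq, Finset.mem_univ, if_true, Pi.zero_apply, add_zero,
      Finset.sum_neg_distrib, Finset.sum_div]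
    have : ∑ x, y (Fin.castAdd p x) / 2 * (A x i : ℝ) =
        ∑ x, y (Fin.castAdd p x) * (A x i : ℝ) / 2 :=
      Finset.sum_congr rfl fun x _ => by ring
    rw [this]
    ring

theorem bar_smul (c t : ℝ) (y : Fin (k + p) → ℝ) (l : V k p) :
    bar A (c * t) (c • y) l = c * bar A t y l := by
  have h0 : ∀ l, bar0 A (c • y) l = c * bar0 A y l := by
    intro l
    rcases l with j | i
    · simp [bar0]; ring
    · simp only [bar0, Sum.elim_inr, Pi.smul_apply, smul_eq_mul]
      have : ∑ x, c * y (Fin.castAdd p x) * (A x i : ℝ) =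
          c * ∑ x, y (Fin.castAdd p x) * (A x i : ℝ) := by
        rw [Finset.mul_sum]
        exact Finset.sum_congr rfl fun x _ => by ring
      rw [this]
      ring
  rcases l with j | i | u
  · exact h0 (Sum.inl j)
  · exact h0 (Sum.inr i)
  · simp only [bar, Sum.elim_inr, h0, ← Finset.mul_sum]
    ring

theorem bar_add (s t : ℝ) (x y : Fin (k + p) → ℝ) (l : V k p) :
    bar A (s + t) (x + y) l = bar A s x l + bar A t y l := by
  have h0 : ∀ l, bar0 A (x + y) l = bar0 A x l + bar0 A y l := by
    intro l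
    rcases l with j | i
    · simp [bar0]; ring
    · simp only [bar0, Sum.elim_inr, Pi.add_apply, add_mul, Finset.sum_add_distrib]
      ring
  rcases l with j | i | u
  · exact h0 (Sum.inl j)
  · exact h0 (Sum.inr i)
  · simp only [bar, Sum.elim_inr, h0, Finset.sum_add_distrib]
    ring

theorem bar_vtx (l l' : V k p) : bar A 1 (vtx A l') l = if l = l' then 1 else 0 := by
  have h0 : ∀ l, bar0 A (vtx A l') l = if Sum.elim Sum.inl (fun i => Sum.inr (Sum.inl i)) l = l'
      then 1 else 0 := by
    intro l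
    rcases l with j | i <;> rcases l' with j' | i' | u'
    · simp only [bar0, vtx, Sum.elim_inl, Fin.addCases_left, Sum.inl.injEq]
      split_ifs <;> norm_num
    · simp [bar0, vtx]
    · simp [bar0, vtx]
    · simp only [bar0, vtx, Sum.elim_inl, Sum.elim_inr, Fin.addCases_left, Fin.addCases_right,
        ite_mul, zero_mul, Finset.sum_ite_eq', Finset.mem_univ, if_true, reduceCtorEq, if_false]
      ring
    · simp only [bar0, vtx, Sum.elim_inl, Sum.elim_inr, Fin.addCases_left, Fin.addCases_right,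
        zero_mul, Finset.sum_const_zero, zero_div, add_zero, Sum.inr.injEq, Sum.inl.injEq]
    · simp [bar0, vtx]
  rcases l with j | i | u
  · exact h0 (Sum.inl j)
  · exact h0 (Sum.inr i)
  · simp only [bar, Sum.elim_inr, h0]
    rw [Fintype.sum_sum_type]
    rcases l' with j' | i' | u'
    · simp only [Sum.elim_inl, Sum.elim_inr, Sum.inl.injEq, reduceCtorEq, if_false,
        Finset.sum_ite_eq', Finset.mem_univ, if_true, Finset.sum_const_zero]
      norm_num
    · simp only [Sum.elim_inl, Sum.elim_inr, Sum.inl.injEq, Sum.inr.injEq, reduceCtorEq, if_false,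
        Finset.sum_ite_eq', Finset.mem_univ, if_true, Finset.sum_const_zero]
      norm_num
    · simp only [Sum.elim_inl, Sum.elim_inr, Sum.inl.injEq, Sum.inr.injEq, reduceCtorEq, if_false,
        Finset.sum_ite_eq', Finset.mem_univ, if_true, Finset.sum_const_zero]
      norm_num

theorem continuous_bar (t : ℝ) (l : V k p) : Continuous fun y => bar A t y l := by
  have h0 : ∀ l, Continuous fun y => bar0 A y l := by
    intro l
    rcases l with j | i
    · simp only [bar0, Sum.elim_inl]; fun_prop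
    · simp only [bar0, Sum.elim_inr]; fun_prop
  rcases l with j | i | u
  · exact h0 (Sum.inl j)
  · exact h0 (Sum.inr i)
  · exact continuous_const.sub (continuous_finsetSum _ fun l _ => h0 l)

theorem bar_nonneg {y : Fin (k + p) → ℝ} (hy : y ∈ simplex A) (l : V k p) : 0 ≤ bar A 1 y l := by
  have hconv : Convex ℝ {y | 0 ≤ bar A 1 y l} := by
    intro x hx y hy a b ha hb hab
    have hx' : 0 ≤ bar A 1 x l := hx
    have hy' : 0 ≤ bar A 1 y l := hy
    show 0 ≤ bar A 1 (a • x + b • y) l
    have : bar A 1 (a • x + b • y) l = a * bar A 1 x l + b * bar A 1 y l := by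
      rw [← bar_smul, ← bar_smul, ← bar_add, mul_one, mul_one, hab]
    rw [this]
    positivity
  refine convexHull_min ?_ hconv hy
  rintro _ ⟨l', rfl⟩
  show 0 ≤ bar A 1 (vtx A l') l
  rw [bar_vtx]
  split_ifs <;> norm_num

theorem mem_smul_simplex {t : ℝ} (ht : 0 < t) {y : Fin (k + p) → ℝ} (hy : ∀ l, 0 ≤ bar A t y l) :
    y ∈ t • simplex A := by
  rw [Set.mem_smul_set]
  refine ⟨t⁻¹ • y, ?_, by rw [smul_smul, mul_inv_cancel₀ ht.ne', one_smul]⟩
  have h1 : ∀ l, bar A 1 (t⁻¹ • y) l = t⁻¹ * bar A t y l := by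
    intro l
    rw [← bar_smul, inv_mul_cancel₀ ht.ne']
  rw [← sum_bar_smul A 1 (t⁻¹ • y)]
  apply (convex_convexHull ℝ _).sum_mem
  · intro l _
    rw [h1]
    exact mul_nonneg (inv_nonneg.2 ht.le) (hy l)
  · exact sum_bar A 1 _
  · intro l _
    exact subset_convexHull ℝ _ ⟨l, rfl⟩

theorem mem_interior_smul {t : ℝ} (ht : 0 < t) {y : Fin (k + p) → ℝ}
    (hy : ∀ l, 0 < bar A t y l) : y ∈ interior (t • simplex A) := by
  rw [mem_interior]
  refine ⟨{y | ∀ l, 0 < bar A t y l}, fun z hz => mem_smul_simplex A ht fun l => (hz l).le, ?_, hy⟩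
  simp only [Set.ofPred_forall]
  exact isOpen_iInter_of_finite fun l => isOpen_lt continuous_const (continuous_bar A t l)

theorem bar_nonneg_smul {t : ℝ} (ht : 0 < t) {y : Fin (k + p) → ℝ} (hy : y ∈ t • simplex A)
    (l : V k p) : 0 ≤ bar A t y l := by
  obtain ⟨x, hx, rfl⟩ := hy
  have := bar_smul A t 1 x l
  rw [mul_one] at this
  show 0 ≤ bar A t (t • x) l
  rw [this]
  exact mul_nonneg ht.le (bar_nonneg A hx l)

theorem bar_pos_of_mem_interior {t : ℝ} (ht : 0 < t) {y : Fin (k + p) → ℝ}
    (hy : y ∈ interior (t • simplex A)) (l : V k p) : 0 < bar A t y l := by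
  have h0 := bar_nonneg_smul A ht (interior_subset hy) l
  by_contra hcon
  have hz : bar A t y l = 0 := le_antisymm (not_lt.1 hcon) h0
  set w := t • vtx A l with hw
  have hbw : bar A t w l = t := by
    have := bar_smul A t 1 (vtx A l) l
    rw [mul_one, bar_vtx, if_pos rfl, mul_one] at this
    exact this
  have hcont : ContinuousAt (fun ε : ℝ => (1 + ε) • y + (-ε) • w) 0 := by
    apply Continuous.continuousAt
    fun_prop
  have hmem : interior (t • simplex A) ∈ nhds ((1 + (0 : ℝ)) • y + (-(0 : ℝ)) • w) := by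
    have : (1 + (0 : ℝ)) • y + (-(0 : ℝ)) • w = y := by simp
    rw [this]
    exact isOpen_interior.mem_nhds hy
  have hev := hcont hmem
  rw [Filter.mem_map, Metric.mem_nhds_iff] at hev
  obtain ⟨ε, hε, hball⟩ := hev
  have hin : (ε / 2 : ℝ) ∈ Metric.ball (0 : ℝ) ε := by
    rw [Metric.mem_ball, dist_zero_right, Real.norm_eq_abs, abs_of_pos (by linarith)]
    linarith
  have h1 := bar_nonneg_smul A ht (interior_subset (hball hin)) l
  have h2 : bar A t ((1 + ε / 2) • y + (-(ε / 2)) • w) l =
      (1 + ε / 2) * bar A t y l + (-(ε / 2)) * bar A t w l := by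
    rw [← bar_smul, ← bar_smul, ← bar_add]
    congr 1
    ring
  rw [h2, hz, hbw] at h1
  nlinarith

end

end Pool.Agent.H178R3.Cay
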