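import Pool.Agent.H178R3.CayMain

/-!
# A binary code: the dual of the two-error-correcting BCH code of length 127

The code is generated by the 14 rows of `rowsL` (127-bit numbers, systematic in the first 14
positions). All its weights are even and at most 72, and no four or fewer columns of its generator
matrix have sum zero.
-/

set_option autoImplicit false

open Finset

namespace Pool.Agent.H178R3.Cay

/-- Forces the evaluation of a natural number. -/
def force {α : Type} (n : ℕ) (f : ℕ → α) : α := Nat.rec (f 0) (fun m _ => f (m + 1)) n

theorem force_eq {α : Type} (n : ℕ) (f : ℕ → α) : force n f = f n := by
  cases n <;> rfl

/-- Table of the digit sums of the numbers below 256. -/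
def tbl : ℕ := 95125173855764218123276304889944061997689682402263585766959741291920687686033329201817409157123347502415384089435969498586180241031507595463600295898153685276653211633572815512294064538494957912327413386667662218713394765509704508661031522276467630197481635010039778342554499416459730172574551513689147646224

/-- Digit sum. -/
def pc : ℕ → ℕ → ℕ → ℕ
  | 0, _, s => s
  | k + 1, a, s => force (a / 256) fun a' =>
      force (s + (tbl / 2 ^ (4 * (a % 256))) % 16) fun s' => pc k a' s'

/-- The test of a codeword. -/
def good (a : ℕ) : Bool := force (pc 16 a 0) fun w => Nat.ble w 72 && Nat.beq (w % 2) 0

/-- Test of all the sums of an initial vector and a subset of a list. -/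
def chk : List ℕ → ℕ → Bool
  | [], acc => good acc
  | r :: rs, acc => chk rs acc && force (acc ^^^ r) fun a => chk rs a

/-- The rows of the generator matrix. -/
def rowsL : List ℕ := [73224900483765096022819484345155272705, 146449800967530192045638968690310545410, 142626939175655911278756552181911142404, 129680136619235729627291693983970476040, 154233992156422274489069524102294978576, 126309750439666260497567274901379006496, 12098808963677942233893206238139301952, 24197617927355884467786412476278603904, 48395235854711768935572824952557207808, 96790471709423537871145649905114415616, 51449479563595802387844110440340472832, 102898959127191604775688220880680945664, 60841520986058581938626697015259844608, 121683041972117163877253394030519689216]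

theorem chk_rows : chk rowsL 0 = true := by decide +kernel

/-- The columns of the generator matrix, packed in one number. -/
def colsN : ℕ := 11243770465263757767812556647413536010632488347900289808495319757751736993433551220106268635286981129693340500875653517965693432437888469464835677449380717390818573361466131388080324557838461663304405483146337229258450773588931981919005488722518978600789498386370666288526781170685571475214740119006816429718379927126724639702838246385049801111843193099208555171804148197319465576236463593057232832234659561908477301625140051068237685312832078820256178712731044383197030298988065430940300204892121874936051232855635933897468936997339137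

/-- The columns of the generator matrix (`0` at position 127). -/
def cc (i : ℕ) : ℕ := colsN / 2 ^ (14 * i) % 2 ^ 14

/-- All the sums of two columns. -/
def prs : List ℕ := (List.range 128).flatMap fun i => (List.range i).map fun j => cc i ^^^ cc j

/-- A test for the absence of repetitions. -/
def nd : List ℕ → ℕ → Bool
  | [], _ => true
  | v :: vs, m => if Nat.testBit m v then false else force (m ||| 2 ^ v) fun m' => nd vs m'

theorem nd_prs : nd prs 1 = true := by decide +kernel

theorem rows_cols : ∀ i < 127, ∀ j < 14, Nat.testBit (rowsL.getD j 0) i = Nat.testBit (cc i) j := by
  decide +kernel

theorem rows_sys : ∀ i < 14, ∀ j < 14, Nat.testBit (rowsL.getD j 0) i = decide (i = j) := by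
  decide +kernel

theorem rows_127 : ∀ j < 14, Nat.testBit (rowsL.getD j 0) 127 = false := by
  decide +kernel

theorem tbl_ok : ∀ v < 256, (tbl / 2 ^ (4 * v)) % 16 =
    ∑ i ∈ range 8, (if Nat.testBit v i then 1 else 0) := by
  decide +kernel

end Pool.Agent.H178R3.Cay
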