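import Mathlib

set_option autoImplicit false

open Set Pointwise

namespace Pool.Agent.H178R3.Cay

/-- A point all of whose coordinates are integers. -/
def IsLatticePoint {ι : Type} (x : ι → ℝ) : Prop := ∀ i, ∃ z : ℤ, x i = z

/-- A lattice polytope in `ℝ^d`: the convex hull of a nonempty finite set of lattice points. -/
def IsLatticePolytope {d : ℕ} (P : Set (Fin d → ℝ)) : Prop :=
  ∃ S : Set (Fin d → ℝ), S.Finite ∧ S.Nonempty ∧ (∀ x ∈ S, IsLatticePoint x) ∧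
    P = convexHull ℝ S

/-- The `d`-dimensional lattice polytope `P ⊆ ℝ^d` has degree `s = d + 1 - k`, where `k ≥ 1` is
least such that `k P` has a lattice point in its interior. -/
def HasDegree {d : ℕ} (P : Set (Fin d → ℝ)) (s : ℕ) : Prop :=
  ∃ k : ℕ, IsLeast {k : ℕ | 1 ≤ k ∧ ∃ x ∈ interior ((k : ℝ) • P), IsLatticePoint x} k ∧
    s + k = d + 1

/-- The points `e_0 = 0, e_1, …, e_k` of `ℝ^k`. -/
def cayleyPt (k : ℕ) : Fin (k + 1) → (Fin k → ℝ) := Fin.cons 0 (fun i => Pi.single i 1)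

/-- The Cayley polytope `Q_0 * ⋯ * Q_k`, the convex hull of the union of the `Q_i × {e_i}`. -/
def cayley {m k : ℕ} (Q : Fin (k + 1) → Set (Fin m → ℝ)) : Set ((Fin m → ℝ) × (Fin k → ℝ)) :=
  convexHull ℝ (⋃ i, Q i ×ˢ {cayleyPt k i})

/-- `P ⊆ ℝ^d` is a Cayley polytope of `r` lattice polytopes: it is lattice equivalent to the
Cayley polytope of `r = k + 1` lattice polytopes `Q_0, …, Q_k ⊆ ℝ^m`, `m + k = d`; the equivalence
is an affine isomorphism of `ℝ^d` onto `ℝ^m × ℝ^k` that identifies the lattices of integer points. -/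
def IsCayley {d : ℕ} (P : Set (Fin d → ℝ)) (r : ℕ) : Prop :=
  ∃ (m k : ℕ) (Q : Fin (k + 1) → Set (Fin m → ℝ))
    (φ : (Fin d → ℝ) ≃ᵃ[ℝ] (Fin m → ℝ) × (Fin k → ℝ)),
    k + 1 = r ∧ (∀ i, IsLatticePolytope (Q i)) ∧
    (∀ x, IsLatticePoint x ↔ IsLatticePoint (φ x).1 ∧ IsLatticePoint (φ x).2) ∧
    φ '' P = cayley Q

end Pool.Agent.H178R3.Cay
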