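import Pool.Agent.H178R3.CayData

set_option autoImplicit false

open Finset

namespace Pool.Agent.H178R3.Cay

/-! ### Digit sums -/

/-- A bit as a natural number. -/
def bt (a i : ℕ) : ℕ := if Nat.testBit a i then 1 else 0

theorem pc_eq (k a s : ℕ) : pc k a s = s + ∑ i ∈ range (8 * k), bt a i := by
  induction k generalizing a s with
  | zero => simp [pc]
  | succ k ih =>
    rw [pc, force_eq, force_eq, ih, tbl_ok _ (Nat.mod_lt _ (by norm_num)),
      show 8 * (k + 1) = 8 + 8 * k by ring, Finset.sum_range_add, add_assoc]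
    congr 2
    · apply Finset.sum_congr rfl
      intro i hi
      rw [Finset.mem_range] at hi
      have : Nat.testBit (a % 256) i = Nat.testBit a i := by
        rw [show (256 : ℕ) = 2 ^ 8 by norm_num, Nat.testBit_mod_two_pow]
        simp [hi]
      rw [bt, this]
    · apply Finset.sum_congr rfl
      intro i _
      have : Nat.testBit (a / 256) i = Nat.testBit a (8 + i) := by
        rw [show (256 : ℕ) = 2 ^ 8 by norm_num, Nat.testBit_div_two_pow, add_comm]
      rw [bt, bt, this]

theorem good_iff (a : ℕ) (h : good a = true) :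
    ∑ i ∈ range 128, bt a i ≤ 72 ∧ Even (∑ i ∈ range 128, bt a i) := by
  rw [good, force_eq, pc_eq, zero_add, Bool.and_eq_true] at h
  refine ⟨Nat.le_of_ble_eq_true h.1, ?_⟩
  rw [Nat.even_iff]
  exact Nat.eq_of_beq_eq_true h.2

/-- The sum of a selection of the numbers of a list and of an initial value. -/
def sel : List ℕ → (ℕ → Bool) → ℕ → ℕ
  | [], _, acc => acc
  | r :: rs, b, acc => sel rs (fun n => b (n + 1)) (if b 0 then acc ^^^ r else acc)

theorem chk_sel (rs : List ℕ) (b : ℕ → Bool) (acc : ℕ) (h : chk rs acc = true) :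
    good (sel rs b acc) = true := by
  induction rs generalizing b acc with
  | nil => exact h
  | cons r rs ih =>
    rw [chk, force_eq, Bool.and_eq_true] at h
    rw [sel]
    split_ifs
    · exact ih _ _ h.2
    · exact ih _ _ h.1

/-- Number of selected rows with a one at position `i`. -/
def cnt : List ℕ → (ℕ → Bool) → ℕ → ℕ
  | [], _, _ => 0
  | r :: rs, b, i => (if b 0 = true ∧ Nat.testBit r i = true then 1 else 0) +
      cnt rs (fun n => b (n + 1)) i

theorem testBit_sel (rs : List ℕ) (b : ℕ → Bool) (acc i : ℕ) :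
    Nat.testBit (sel rs b acc) i = true ↔ Odd (bt acc i + cnt rs b i) := by
  induction rs generalizing b acc with
  | nil =>
    rw [sel, cnt, add_zero, bt]
    split_ifs with h
    · simp [h]
    · simp [h]
  | cons r rs ih =>
    rw [sel, ih, cnt]
    have key : bt (if b 0 = true then acc ^^^ r else acc) i % 2 =
        (bt acc i + if b 0 = true ∧ Nat.testBit r i = true then 1 else 0) % 2 := by
      by_cases h0 : b 0 = true
      · rw [if_pos h0]
        simp only [bt, Nat.testBit_xor, h0, true_and]
        cases Nat.testBit acc i <;> cases Nat.testBit r i <;> simp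
      · rw [if_neg h0]
        simp [h0]
    rw [Nat.odd_iff, Nat.odd_iff, ← add_assoc, Nat.add_mod, key, ← Nat.add_mod]

theorem cnt_eq (rs : List ℕ) (b : ℕ → Bool) (i : ℕ) :
    cnt rs b i = ∑ j ∈ range rs.length,
      (if b j = true ∧ Nat.testBit (rs.getD j 0) i = true then 1 else 0) := by
  induction rs generalizing b with
  | nil => simp [cnt]
  | cons r rs ih =>
    rw [cnt, ih, List.length_cons, Finset.sum_range_succ']
    simp only [List.getD_cons_succ, List.getD_cons_zero]
    rw [add_comm]

/-! ### The matrices -/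

/-- The matrix `A`. -/
def matA (j : Fin 14) (i : Fin 112) : ℤ :=
  if Nat.testBit (rowsL.getD j 0) (14 + i) then 1 else 0

/-- The matrix `B`. -/
def matB (j : Fin 14) : ℤ := if Nat.testBit (rowsL.getD j 0) 126 then 1 else 0

/-- The position of a vertex label. -/
def idx : V 14 112 → ℕ := Sum.elim (fun j => j) (Sum.elim (fun i => 14 + i) (fun _ => 126))

theorem idx_lt (l : V 14 112) : idx l < 127 := by
  rcases l with j | i | u
  · have := j.2; simp [idx]; omega
  · have := i.2; simp [idx]; omega
  · simp [idx]

theorem idx_inj {l l' : V 14 112} (h : idx l = idx l') : l = l' := by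
  rcases l with j | i | u <;> rcases l' with j' | i' | u'
  · simp only [idx, Sum.elim_inl] at h
    rw [Fin.ext h]
  · simp only [idx, Sum.elim_inl, Sum.elim_inr] at h
    have := j.2; omega
  · simp only [idx, Sum.elim_inl, Sum.elim_inr] at h
    have := j.2; omega
  · simp only [idx, Sum.elim_inl, Sum.elim_inr] at h
    have := j'.2; omega
  · simp only [idx, Sum.elim_inl, Sum.elim_inr] at h
    rw [Fin.ext (Nat.add_left_cancel h)]
  · simp only [idx, Sum.elim_inl, Sum.elim_inr] at h
    have := i.2; omega
  · simp only [idx, Sum.elim_inl, Sum.elim_inr] at h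
    have := j'.2; omega
  · simp only [idx, Sum.elim_inl, Sum.elim_inr] at h
    have := i'.2; omega
  · rfl

theorem full_eq (j : Fin 14) (l : V 14 112) :
    full matA matB j l = if Nat.testBit (rowsL.getD j 0) (idx l) then 1 else 0 := by
  rcases l with j' | i | u
  · show (if j' = j then (1 : ℤ) else 0) =
      if Nat.testBit (rowsL.getD j 0) (j' : ℕ) = true then 1 else 0
    have h := rows_sys _ j'.2 _ j.2
    by_cases hj : j' = j
    · rw [if_pos hj, if_pos]
      rw [h, hj]
      simp
    · rw [if_neg hj, if_neg]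
      rw [h]
      simpa [Fin.ext_iff] using hj
  · rfl
  · rfl

theorem sum_idx (f : ℕ → ℕ) : ∑ l : V 14 112, f (idx l) = ∑ i ∈ range 127, f i := by
  rw [Fintype.sum_sum_type, Fintype.sum_sum_type]
  simp only [idx, Sum.elim_inl, Sum.elim_inr, Finset.univ_unique, Finset.sum_singleton]
  rw [show (127 : ℕ) = (14 + 112) + 1 by norm_num, Finset.sum_range_succ, Finset.sum_range_add,
    Fin.sum_univ_eq_sum_range, Fin.sum_univ_eq_sum_range (fun i => f (14 + i)), add_assoc]

theorem odd_par_iff (b : Fin 14 → ℤ) (l : V 14 112) :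
    Odd (par matA matB b l) ↔ Nat.testBit
      (sel rowsL (fun n => if h : n < 14 then decide (Odd (b ⟨n, h⟩)) else false) 0)
      (idx l) = true := by
  rw [testBit_sel, cnt_eq, par, int_odd_sum_iff]
  have e1 : bt 0 (idx l) = 0 := by simp [bt]
  rw [e1, zero_add, Finset.card_filter]
  have e2 : rowsL.length = 14 := rfl
  rw [e2, ← Fin.sum_univ_eq_sum_range (n := 14) (fun j => if
    (if h : j < 14 then decide (Odd (b ⟨j, h⟩)) else false) = true ∧
      Nat.testBit (rowsL.getD j 0) (idx l) = true then 1 else 0)]
  have : ∀ j : Fin 14, (if Odd (b j * full matA matB j l) then 1 else 0 : ℕ) =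
      (if (if h : (j : ℕ) < 14 then decide (Odd (b ⟨j, h⟩)) else false) = true ∧
      Nat.testBit (rowsL.getD j 0) (idx l) = true then 1 else 0 : ℕ) := by
    intro j
    rw [full_eq, dif_pos j.2]
    by_cases ht : Nat.testBit (rowsL.getD j 0) (idx l) = true
    · rw [if_pos ht, mul_one]
      by_cases hb : Odd (b j)
      · rw [if_pos hb, if_pos ⟨decide_eq_true hb, ht⟩]
      · rw [if_neg hb, if_neg]
        rintro ⟨h, _⟩
        exact hb (of_decide_eq_true h)
    · rw [if_neg ht, mul_zero, if_neg (by decide), if_neg]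
      rintro ⟨_, h⟩
      exact ht h
  rw [Finset.sum_congr rfl fun j _ => this j]

theorem wt_ok (b : Fin 14 → ℤ) : wt matA matB b ≤ 72 ∧ Even (wt matA matB b) := by
  set c := sel rowsL (fun n => if h : n < 14 then decide (Odd (b ⟨n, h⟩)) else false) 0 with hc
  have hg := good_iff c (chk_sel _ _ _ chk_rows)
  have h127 : bt c 127 = 0 := by
    have : ¬ Nat.testBit c 127 = true := by
      rw [hc, testBit_sel, cnt_eq]
      have : ∀ j ∈ range rowsL.length, (if
          (if h : j < 14 then decide (Odd (b ⟨j, h⟩)) else false) = true ∧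
          Nat.testBit (rowsL.getD j 0) 127 = true then 1 else 0 : ℕ) = 0 := by
        intro j hj
        rw [Finset.mem_range] at hj
        rw [rows_127 j hj]
        simp
      rw [Finset.sum_eq_zero this]
      simp [bt]
    simp [bt, this]
  have hw : wt matA matB b = ∑ i ∈ range 128, bt c i := by
    rw [Finset.sum_range_succ, h127, add_zero, ← sum_idx, wt, Finset.card_filter]
    apply Finset.sum_congr rfl
    intro l _
    rw [bt]
    simp only [odd_par_iff, ← hc]
  rw [hw]
  exact hg

/-! ### No dependent columns -/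

theorem nd_sound (vs : List ℕ) (m : ℕ) (h : nd vs m = true) :
    vs.Nodup ∧ ∀ v ∈ vs, Nat.testBit m v = false := by
  induction vs generalizing m with
  | nil => simp
  | cons v vs ih =>
    rw [nd] at h
    by_cases hv : Nat.testBit m v = true
    · rw [if_pos hv] at h
      simp at h
    · rw [if_neg hv, force_eq] at h
      obtain ⟨h1, h2⟩ := ih _ h
      refine ⟨List.nodup_cons.2 ⟨fun hmem => ?_, h1⟩, ?_⟩
      · have := h2 v hmem
        rw [Nat.testBit_or, Nat.testBit_two_pow_self] at this
        simp at this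
      · intro u hu
        rcases List.mem_cons.1 hu with rfl | hu
        · simpa using hv
        · have := h2 u hu
          rw [Nat.testBit_or, Bool.or_eq_false_iff] at this
          exact this.1

theorem mem_prs {i j : ℕ} (hj : j < i) (hi : i < 128) : cc i ^^^ cc j ∈ prs := by
  rw [prs, List.mem_flatMap]
  exact ⟨i, List.mem_range.2 hi, List.mem_map.2 ⟨j, List.mem_range.2 hj, rfl⟩⟩

theorem cc_ne {i j : ℕ} (hij : i ≠ j) (hi : i < 128) (hj : j < 128) : cc i ≠ cc j := by
  intro h
  have key : (0 : ℕ) ∈ prs := by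
    rcases lt_or_gt_of_ne hij with hlt | hgt
    · have := mem_prs hlt hj
      rwa [h, Nat.xor_self] at this
    · have := mem_prs hgt hi
      rwa [h, Nat.xor_self] at this
  have := (nd_sound _ _ nd_prs).2 0 key
  simp at this

theorem prs_inj {i j i' j' : ℕ} (hj : j < i) (hi : i < 128) (hj' : j' < i') (hi' : i' < 128)
    (h : cc i ^^^ cc j = cc i' ^^^ cc j') : i = i' ∧ j = j' := by
  have hnd := (nd_sound _ _ nd_prs).1
  rw [prs, List.nodup_flatMap] at hnd
  obtain ⟨h1, h2⟩ := hnd
  have hii : i = i' := by
    by_contra hne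
    rw [List.pairwise_iff_getElem] at h2
    have hm : ∀ a b, b < a → cc a ^^^ cc b ∈ (List.range a).map fun j => cc a ^^^ cc j :=
      fun a b hab => List.mem_map.2 ⟨b, List.mem_range.2 hab, rfl⟩
    rcases lt_or_gt_of_ne hne with hlt | hgt
    · have := h2 i i' (by simpa using hi) (by simpa using hi') hlt
      simp only [List.getElem_range, Function.onFun] at this
      exact this (hm i j hj) (by rw [h]; exact hm i' j' hj')
    · have := h2 i' i (by simpa using hi') (by simpa using hi) hgt
      simp only [List.getElem_range, Function.onFun] at this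
      exact this (hm i' j' hj') (by rw [← h]; exact hm i j hj)
  subst hii
  refine ⟨rfl, ?_⟩
  exact List.inj_on_of_nodup_map (h1 i (List.mem_range.2 hi)) (List.mem_range.2 hj)
    (List.mem_range.2 hj') h

theorem cc_four {a b c d : ℕ} (ha : a < 128) (hb : b < 128) (hc : c < 128) (hd : d < 128)
    (hab : a ≠ b) (hcd : c ≠ d) (hac : a ≠ c) (had : a ≠ d) :
    cc a ^^^ cc b ≠ cc c ^^^ cc d := by
  intro h
  rcases lt_or_gt_of_ne hab with h1 | h1 <;> rcases lt_or_gt_of_ne hcd with h2 | h2
  · rw [Nat.xor_comm (cc a), Nat.xor_comm (cc c)] at h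
    exact hac (prs_inj h1 hb h2 hd h).2
  · rw [Nat.xor_comm (cc a)] at h
    exact had (prs_inj h1 hb h2 hc h).2
  · rw [Nat.xor_comm (cc c)] at h
    exact had (prs_inj h1 ha h2 hd h).1
  · exact hac (prs_inj h1 ha h2 hc h).1

theorem cc_lt (i : ℕ) : cc i < 2 ^ 14 := Nat.mod_lt _ (by norm_num)

theorem cc_127 : cc 127 = 0 := by decide +kernel

theorem eq_of_bits {u v : ℕ} (hu : u < 2 ^ 14) (hv : v < 2 ^ 14)
    (h : ∀ j < 14, Nat.testBit u j = Nat.testBit v j) : u = v := by
  apply Nat.eq_of_testBit_eq
  intro j
  by_cases hj : j < 14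
  · exact h j hj
  · rw [Nat.testBit_lt_two_pow (lt_of_lt_of_le hu (Nat.pow_le_pow_right (by norm_num) (by omega))),
      Nat.testBit_lt_two_pow (lt_of_lt_of_le hv (Nat.pow_le_pow_right (by norm_num) (by omega)))]

theorem full_cc (j : Fin 14) (l : V 14 112) :
    full matA matB j l = if Nat.testBit (cc (idx l)) j then 1 else 0 := by
  rw [full_eq, rows_cols _ (idx_lt l) _ j.2]

/-- No nonempty set of at most four columns has sum zero. -/
theorem no_dep (I : Finset (V 14 112)) (hne : I.Nonempty) (hcard : #I ≤ 4) :
    ∃ j, Odd (∑ l ∈ I, full matA matB j l) := by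
  classical
  by_contra hcon
  push Not at hcon
  simp only [Int.not_odd_iff_even, full_cc] at hcon
  have hlt : ∀ l : V 14 112, idx l < 128 := fun l => (idx_lt l).trans (by norm_num)
  have h127 : ∀ l : V 14 112, idx l ≠ 127 := fun l => (idx_lt l).ne
  have hpos : 0 < #I := Finset.card_pos.2 hne
  have hcases : #I = 1 ∨ #I = 2 ∨ #I = 3 ∨ #I = 4 := by omega
  rcases hcases with h | h | h | h
  · obtain ⟨a, rfl⟩ := Finset.card_eq_one.1 h
    apply cc_ne (h127 a) (hlt a) (by norm_num)
    rw [cc_127]
    apply eq_of_bits (cc_lt _) (by norm_num)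
    intro j hj
    have := hcon ⟨j, hj⟩
    rw [Finset.sum_singleton] at this
    cases hb : Nat.testBit (cc (idx a)) j
    · simp
    · rw [if_pos hb] at this
      exact absurd this (by decide)
  · obtain ⟨a, b, hab, rfl⟩ := Finset.card_eq_two.1 h
    apply cc_ne (fun h => hab (idx_inj h)) (hlt a) (hlt b)
    apply eq_of_bits (cc_lt _) (cc_lt _)
    intro j hj
    have := hcon ⟨j, hj⟩
    rw [Finset.sum_pair hab] at this
    cases ha : Nat.testBit (cc (idx a)) j <;> cases hb : Nat.testBit (cc (idx b)) j <;>
      simp only [ha, hb, if_true, if_false, Bool.false_eq_true] at this ⊢ <;>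
      exact absurd this (by decide)
  · obtain ⟨a, b, c, hab, hac, hbc, rfl⟩ := Finset.card_eq_three.1 h
    apply cc_four (hlt a) (hlt b) (hlt c) (by norm_num) (fun h => hab (idx_inj h)) (h127 c)
      (fun h => hac (idx_inj h)) (h127 a)
    rw [cc_127, Nat.xor_zero]
    apply eq_of_bits (Nat.xor_lt_two_pow (cc_lt _) (cc_lt _)) (cc_lt _)
    intro j hj
    have := hcon ⟨j, hj⟩
    rw [Finset.sum_insert (by simp [hab, hac]), Finset.sum_pair hbc] at this
    rw [Nat.testBit_xor]
    cases ha : Nat.testBit (cc (idx a)) j <;> cases hb : Nat.testBit (cc (idx b)) j <;>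
      cases hc : Nat.testBit (cc (idx c)) j <;>
      simp only [ha, hb, hc, if_true, if_false, Bool.false_eq_true] at this ⊢ <;>
      first | rfl | exact absurd this (by decide)
  · obtain ⟨a, ha⟩ := hne
    have h3 : #(I.erase a) = 3 := by
      rw [Finset.card_erase_of_mem ha, h]
    obtain ⟨b, c, d, hbc, hbd, hcd, he⟩ := Finset.card_eq_three.1 h3
    have hab : a ≠ b := by
      rintro rfl
      have : a ∈ I.erase a := by rw [he]; simp
      exact absurd rfl (Finset.ne_of_mem_erase this)
    have hac : a ≠ c := by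
      rintro rfl
      have : a ∈ I.erase a := by rw [he]; simp
      exact absurd rfl (Finset.ne_of_mem_erase this)
    have had : a ≠ d := by
      rintro rfl
      have : a ∈ I.erase a := by rw [he]; simp
      exact absurd rfl (Finset.ne_of_mem_erase this)
    apply cc_four (hlt a) (hlt b) (hlt c) (hlt d) (fun h => hab (idx_inj h))
      (fun h => hcd (idx_inj h)) (fun h => hac (idx_inj h)) (fun h => had (idx_inj h))
    apply eq_of_bits (Nat.xor_lt_two_pow (cc_lt _) (cc_lt _))
      (Nat.xor_lt_two_pow (cc_lt _) (cc_lt _))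
    intro j hj
    have := hcon ⟨j, hj⟩
    rw [← Finset.add_sum_erase _ _ ha, he, Finset.sum_insert (by simp [hbc, hbd]),
      Finset.sum_pair hcd] at this
    rw [Nat.testBit_xor, Nat.testBit_xor]
    cases ha' : Nat.testBit (cc (idx a)) j <;> cases hb : Nat.testBit (cc (idx b)) j <;>
      cases hc : Nat.testBit (cc (idx c)) j <;> cases hd : Nat.testBit (cc (idx d)) j <;>
      simp only [ha', hb, hc, hd, if_true, if_false, Bool.false_eq_true] at this ⊢ <;>
      first | rfl | exact absurd this (by decide)

theorem even_row (j : Fin 14) : Even (∑ l, full matA matB j l) := by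
  have h := (wt_ok (fun j' => if j' = j then 1 else 0)).2
  rw [← Nat.not_odd_iff_even, wt, ← int_odd_sum_iff, Int.not_odd_iff_even] at h
  have : ∀ l : V 14 112, par matA matB (fun j' => if j' = j then 1 else 0) l =
      full matA matB j l := by
    intro l
    simp [par]
  simpa only [this] using h

end Pool.Agent.H178R3.Cay
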