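import Pool.Agent.H178R3.CayCode

/-!
# Degree and Cayley decompositions of the simplex of a systematic binary matrix
-/

set_option autoImplicit false

open Set Pointwise Finset

namespace Pool.Agent.H178R3.Cay

theorem int_odd_sum_iff {ι : Type} (s : Finset ι) (f : ι → ℤ) :
    Odd (∑ i ∈ s, f i) ↔ Odd #{i ∈ s | Odd (f i)} := by
  classical
  induction s using Finset.induction_on with
  | empty => simp
  | insert a s ha ih =>
    rw [Finset.sum_insert ha, Finset.filter_insert]
    by_cases h : Odd (f a)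
    · rw [if_pos h, Finset.card_insert_of_notMem (by simp [ha]), Nat.odd_add_one, Int.odd_add,
        ← Int.not_odd_iff_even, ih]
      simp [h]
    · rw [if_neg h, Int.odd_add, ← Int.not_odd_iff_even, ih]
      simp [h]

section

variable {k p : ℕ} (A : Fin k → Fin p → ℤ) (B : Fin k → ℤ)

/-- Twice the barycentric coordinates of an integer point. -/
def two (t : ℤ) (z : Fin (k + p) → ℤ) : V k p → ℤ :=
  Sum.elim (fun j => z (Fin.castAdd p j))
    (Sum.elim (fun i => 2 * z (Fin.natAdd k i) + ∑ j, z (Fin.castAdd p j) * A j i)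
      (fun _ => 2 * t - (∑ j, z (Fin.castAdd p j) +
        ∑ i, (2 * z (Fin.natAdd k i) + ∑ j, z (Fin.castAdd p j) * A j i))))

theorem two_eq (t : ℤ) (z : Fin (k + p) → ℤ) (l : V k p) :
    (two A t z l : ℝ) = 2 * bar A t (fun c => (z c : ℝ)) l := by
  rcases l with j | i | u
  · simp [two, bar, bar0]; ring
  · simp only [two, bar, bar0, Sum.elim_inr, Sum.elim_inl]
    push_cast
    ring
  · simp only [two, bar, bar0, Sum.elim_inr, Sum.elim_inl, Fintype.sum_sum_type]
    push_cast
    rw [Finset.sum_add_distrib, Finset.sum_add_distrib, ← Finset.mul_sum, ← Finset.sum_div,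
      ← Finset.sum_div]
    ring

theorem sum_two (t : ℤ) (z : Fin (k + p) → ℤ) : ∑ l, two A t z l = 2 * t := by
  simp only [two, Fintype.sum_sum_type, Sum.elim_inl, Sum.elim_inr, Finset.univ_unique,
    Finset.sum_singleton]
  ring

/-- The parity vector. -/
def par (b : Fin k → ℤ) (l : V k p) : ℤ := ∑ j, b j * full A B j l

/-- The weight of a codeword. -/
def wt (b : Fin k → ℤ) : ℕ := #{l : V k p | Odd (par A B b l)}

theorem even_sub (t : ℤ) (z : Fin (k + p) → ℤ)
    (hE : Even (wt A B (fun j => z (Fin.castAdd p j)))) (l : V k p) :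
    Even (two A t z l - par A B (fun j => z (Fin.castAdd p j)) l) := by
  set b : Fin k → ℤ := fun j => z (Fin.castAdd p j) with hb
  have h1 : ∀ j, Even (two A t z (Sum.inl j) - par A B b (Sum.inl j)) := by
    intro j
    simp [two, par, full, hb]
  have h2 : ∀ i, Even (two A t z (Sum.inr (Sum.inl i)) - par A B b (Sum.inr (Sum.inl i))) := by
    intro i
    simp [two, par, full, hb]
  rcases l with j | i | u
  · exact h1 j
  · exact h2 i
  · have hs : Even (∑ l, par A B b l) := by
      rw [← Int.not_odd_iff_even, int_odd_sum_iff, Nat.not_odd_iff_even]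
      exact hE
    have ht : Even (∑ l, two A t z l) := by
      rw [sum_two]
      exact even_two_mul t
    have hd : Even (∑ l, (two A t z l - par A B b l)) := by
      rw [Finset.sum_sub_distrib]
      exact ht.sub hs
    rw [Fintype.sum_sum_type, Fintype.sum_sum_type] at hd
    simp only [Finset.univ_unique, Finset.sum_singleton] at hd
    have e1 : Even (∑ j, (two A t z (Sum.inl j) - par A B b (Sum.inl j))) :=
      Finset.even_sum _ fun j _ => h1 j
    have e2 : Even (∑ i, (two A t z (Sum.inr (Sum.inl i)) - par A B b (Sum.inr (Sum.inl i)))) :=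
      Finset.even_sum _ fun j _ => h2 j
    have := (Int.even_add.1 hd).1 e1
    exact (Int.even_add.1 this).1 e2

theorem weight_bound {w : ℕ} (t : ℕ) (z : Fin (k + p) → ℤ)
    (hE : Even (wt A B (fun j => z (Fin.castAdd p j))))
    (hw : wt A B (fun j => z (Fin.castAdd p j)) ≤ w)
    (hpos : ∀ l, 0 < bar A (t : ℝ) (fun c => (z c : ℝ)) l) : 2 * (k + p + 1) ≤ 2 * t + w := by
  set b : Fin k → ℤ := fun j => z (Fin.castAdd p j) with hb
  have hx : ∀ l, 0 < two A t z l := by
    intro l
    have h := two_eq A t z l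
    have hp := hpos l
    have : (0 : ℝ) < (two A t z l : ℝ) := by
      rw [h]
      push_cast
      linarith
    exact_mod_cast this
  have hlow : ∀ l, (2 : ℤ) - (if Odd (par A B b l) then 1 else 0) ≤ two A t z l := by
    intro l
    have h1 := hx l
    have h2 := even_sub A B t z hE l
    split_ifs with hodd
    · omega
    · rw [Int.not_odd_iff_even] at hodd
      have : Even (two A t z l) := by
        have h5 := h2.add hodd
        rwa [sub_add_cancel] at h5
      obtain ⟨c, hc⟩ := this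
      omega
  have hsum := Finset.sum_le_sum (s := Finset.univ) fun l _ => hlow l
  rw [sum_two, Finset.sum_sub_distrib] at hsum
  simp only [Finset.sum_const, Finset.card_univ, Fintype.card_sum, Fintype.card_fin,
    Fintype.card_unit, smul_eq_mul, nsmul_eq_mul, Finset.sum_boole] at hsum
  have h3 : ((#{l : V k p | Odd (par A B b l)} : ℕ) : ℤ) ≤ w := by
    exact_mod_cast hw
  push_cast at hsum
  omega

theorem exists_interior_point (hk : 0 < k) :
    ∃ x ∈ interior (((k + p : ℕ) : ℝ) • simplex A), IsLatticePoint x := by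
  let S : Fin p → ℤ := fun i => ∑ j, A j i
  let z : Fin (k + p) → ℤ := Fin.addCases (fun _ => 1) (fun i => 1 - (S i + 1) / 2)
  refine ⟨fun c => (z c : ℝ), ?_, fun c => ⟨z c, rfl⟩⟩
  have hkp : (0 : ℝ) < ((k + p : ℕ) : ℝ) := by
    have : 0 < k + p := by omega
    exact_mod_cast this
  apply mem_interior_smul A hkp
  have h1 : ∀ j, bar0 A (fun c => (z c : ℝ)) (Sum.inl j) = 1 / 2 := by
    intro j
    simp [bar0, z]
  have h2' : ∀ i, bar0 A (fun c => (z c : ℝ)) (Sum.inr i) = 1 - ((S i + 1) / 2 : ℤ) + (S i : ℝ) / 2 := by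
    intro i
    simp [bar0, z, S]
  have h2 : ∀ i, 1 / 2 ≤ bar0 A (fun c => (z c : ℝ)) (Sum.inr i) ∧
      bar0 A (fun c => (z c : ℝ)) (Sum.inr i) ≤ 1 := by
    intro i
    rw [h2']
    have e1 : 2 * ((S i + 1) / 2) ≤ S i + 1 := by omega
    have e2 : S i ≤ 2 * ((S i + 1) / 2) := by omega
    have e1' : 2 * (((S i + 1) / 2 : ℤ) : ℝ) ≤ S i + 1 := by exact_mod_cast e1
    have e2' : (S i : ℝ) ≤ 2 * (((S i + 1) / 2 : ℤ) : ℝ) := by exact_mod_cast e2
    constructor <;> linarith
  intro l
  rcases l with j | i | u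
  · show 0 < bar0 A (fun c => (z c : ℝ)) (Sum.inl j)
    rw [h1]; norm_num
  · show 0 < bar0 A (fun c => (z c : ℝ)) (Sum.inr i)
    linarith [(h2 i).1]
  · show 0 < ((k + p : ℕ) : ℝ) - ∑ l, bar0 A (fun c => (z c : ℝ)) l
    rw [Fintype.sum_sum_type]
    simp only [h1]
    have h3 : ∑ i, bar0 A (fun c => (z c : ℝ)) (Sum.inr i) ≤ p := by
      have := Finset.sum_le_sum (s := Finset.univ) fun i _ => (h2 i).2
      simpa using this
    have hk' : (1 : ℝ) ≤ k := by exact_mod_cast hk
    simp only [Finset.sum_const, Finset.card_univ, Fintype.card_fin, nsmul_eq_mul]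
    push_cast
    linarith

theorem exists_degree {w : ℕ} (hk : 0 < k)
    (hE : ∀ b, Even (wt A B b)) (hw : ∀ b, wt A B b ≤ w) :
    ∃ s : ℕ, 1 ≤ s ∧ 2 * s ≤ w ∧ HasDegree (simplex A) s := by
  classical
  have hex : ∃ t : ℕ, 1 ≤ t ∧ ∃ x ∈ interior ((t : ℝ) • simplex A), IsLatticePoint x :=
    ⟨k + p, by omega, exists_interior_point A hk⟩
  set K := Nat.find hex with hK
  have hKs := Nat.find_spec hex
  have hKle : K ≤ k + p := Nat.find_min' hex ⟨by omega, exists_interior_point A hk⟩
  have hlow : 2 * (k + p + 1) ≤ 2 * K + w := by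
    obtain ⟨h1, x, hx, hlat⟩ := hKs
    choose z hz using hlat
    have hxz : x = fun c => (z c : ℝ) := funext hz
    have ht : (0 : ℝ) < (K : ℝ) := by exact_mod_cast h1
    apply weight_bound A B K z (hE _) (hw _)
    intro l
    rw [← hxz]
    exact bar_pos_of_mem_interior A ht hx l
  refine ⟨k + p + 1 - K, by omega, by omega, K, ⟨hKs, fun t ht => Nat.find_min' hex ht⟩, by omega⟩

/-- The labelled coordinates of a Cayley structure. -/
noncomputable def lab {m k' : ℕ} (w : (Fin m → ℝ) × (Fin k' → ℝ)) : Fin (k' + 1) → ℝ :=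
  Fin.cons (1 - ∑ i, w.2 i) w.2

theorem sum_lab {m k' : ℕ} (w : (Fin m → ℝ) × (Fin k' → ℝ)) : ∑ i, lab w i = 1 := by
  rw [Fin.sum_univ_succ]
  simp [lab]

theorem lab_nonneg {m k' : ℕ} (Q : Fin (k' + 1) → Set (Fin m → ℝ))
    {w : (Fin m → ℝ) × (Fin k' → ℝ)} (hw : w ∈ cayley Q) (i : Fin (k' + 1)) : 0 ≤ lab w i := by
  have hconv : Convex ℝ {w : (Fin m → ℝ) × (Fin k' → ℝ) | ∀ i, 0 ≤ lab w i} := by
    intro x hx y hy a b ha hb hab i
    have : lab (a • x + b • y) i = a * lab x i + b * lab y i := by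
      refine Fin.cases ?_ (fun i => ?_) i
      · simp only [lab, Fin.cons_zero, Prod.snd_add, Prod.smul_snd, Pi.add_apply, Pi.smul_apply,
          smul_eq_mul, Finset.sum_add_distrib, ← Finset.mul_sum]
        linear_combination (-1 : ℝ) * hab
      · simp [lab]
    rw [this]
    exact add_nonneg (mul_nonneg ha (hx i)) (mul_nonneg hb (hy i))
  refine convexHull_min ?_ hconv hw i
  intro x hx i
  rw [Set.mem_iUnion] at hx
  obtain ⟨i0, hx1, hx2⟩ := hx
  rw [Set.mem_singleton_iff] at hx2
  refine Fin.cases ?_ (fun i => ?_) i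
  · simp only [lab, Fin.cons_zero, hx2]
    refine Fin.cases ?_ (fun i0 => ?_) i0
    · simp [cayleyPt]
    · simp [cayleyPt]
  · simp only [lab, Fin.cons_succ, hx2]
    refine Fin.cases ?_ (fun i0 => ?_) i0
    · simp [cayleyPt]
    · simp only [cayleyPt, Fin.cons_succ, Pi.single_apply]
      split_ifs <;> norm_num

theorem lab_cayleyPt {m k' : ℕ} (x : Fin m → ℝ) (i : Fin (k' + 1)) :
    lab (x, cayleyPt k' i) i = 1 := by
  refine Fin.cases ?_ (fun i => ?_) i
  · simp [lab, cayleyPt]
  · simp [lab, cayleyPt]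

theorem lab_int {m k' : ℕ} {w : (Fin m → ℝ) × (Fin k' → ℝ)} (hw : IsLatticePoint w.2)
    (i : Fin (k' + 1)) : ∃ z : ℤ, lab w i = z := by
  choose z hz using hw
  refine Fin.cases ?_ (fun i => ?_) i
  · refine ⟨1 - ∑ i, z i, ?_⟩
    simp [lab, hz]
  · exact ⟨z i, by simp [lab, hz]⟩

theorem lab_comb {ι : Type} [Fintype ι] {m k' : ℕ} (a : ι → ℝ) (ha : ∑ l, a l = 1)
    (w : ι → (Fin m → ℝ) × (Fin k' → ℝ)) (i : Fin (k' + 1)) :
    lab (∑ l, a l • w l) i = ∑ l, a l * lab (w l) i := by
  refine Fin.cases ?_ (fun i => ?_) i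
  · simp only [lab, Fin.cons_zero, mul_sub, mul_one, Finset.sum_sub_distrib, ha, Prod.snd_sum,
      Finset.sum_apply, Prod.smul_snd, Pi.smul_apply, smul_eq_mul]
    rw [Finset.sum_comm]
    simp only [Finset.mul_sum]
  · simp only [lab, Fin.cons_succ, Prod.snd_sum, Finset.sum_apply, Prod.smul_snd, Pi.smul_apply,
      smul_eq_mul]

theorem affine_comb {ι : Type} [Fintype ι] {E F : Type} [AddCommGroup E] [Module ℝ E]
    [AddCommGroup F] [Module ℝ F] (φ : E →ᵃ[ℝ] F) (a : ι → ℝ) (ha : ∑ l, a l = 1) (w : ι → E) :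
    φ (∑ l, a l • w l) = ∑ l, a l • φ (w l) := by
  have hdec : ∀ x, φ x = φ.linear x + φ 0 := by
    intro x
    have := congrFun (AffineMap.decomp φ) x
    simpa using this
  rw [hdec, map_sum]
  have : ∀ l, a l • φ (w l) = φ.linear (a l • w l) + a l • φ 0 := by
    intro l
    rw [hdec (w l), smul_add, map_smul]
  simp only [this, Finset.sum_add_distrib]
  rw [← Finset.sum_smul, ha, one_smul]

theorem vtx_lattice (l : V k p) : IsLatticePoint (vtx A l) := by
  intro c
  rcases l with j | i | u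
  · refine Fin.addCases (fun j' => ?_) (fun i => ?_) c
    · simp only [vtx, Sum.elim_inl, Fin.addCases_left]
      split_ifs
      · exact ⟨2, by norm_num⟩
      · exact ⟨0, by norm_num⟩
    · exact ⟨-(A j i), by simp [vtx]⟩
  · refine Fin.addCases (fun j' => ?_) (fun i' => ?_) c
    · exact ⟨0, by simp [vtx]⟩
    · simp only [vtx, Sum.elim_inl, Sum.elim_inr, Fin.addCases_right]
      split_ifs
      · exact ⟨1, by norm_num⟩
      · exact ⟨0, by norm_num⟩
  · exact ⟨0, by simp [vtx]⟩

theorem simplex_isLatticePolytope : IsLatticePolytope (simplex A) :=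
  ⟨Set.range (vtx A), Set.finite_range _, ⟨_, ⟨Sum.inr (Sum.inr ()), rfl⟩⟩,
    by rintro _ ⟨l, rfl⟩; exact vtx_lattice A l, rfl⟩

/-- **No Cayley structure with many summands.** -/
theorem not_isCayley {q r : ℕ} (hE : ∀ j, Even (∑ l, full A B j l))
    (hI : ∀ I : Finset (V k p), I.Nonempty → #I ≤ q → ∃ j, Odd (∑ l ∈ I, full A B j l))
    (hr : k + p + 1 < r * (q + 1)) : ¬ IsCayley (simplex A) r := by
  classical
  rintro ⟨m, k', Q, φ, hk', hQ, hlat, himg⟩
  have hφ : ∀ x ∈ simplex A, φ x ∈ cayley Q := by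
    intro x hx
    rw [← himg]
    exact ⟨x, hx, rfl⟩
  have hvmem : ∀ l, vtx A l ∈ simplex A := fun l => subset_convexHull ℝ _ ⟨l, rfl⟩
  -- labels of the vertices are 0 or 1
  have h01 : ∀ l i, lab (φ (vtx A l)) i = 0 ∨ lab (φ (vtx A l)) i = 1 := by
    intro l i
    obtain ⟨z, hz⟩ := lab_int ((hlat _).1 (vtx_lattice A l)).2 i
    have h1 : 0 ≤ lab (φ (vtx A l)) i := lab_nonneg Q (hφ _ (hvmem l)) i
    have h2 : lab (φ (vtx A l)) i ≤ 1 := by
      rw [← sum_lab (φ (vtx A l))]
      exact Finset.single_le_sum (f := fun i => lab (φ (vtx A l)) i)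
        (fun i _ => lab_nonneg Q (hφ _ (hvmem l)) i) (Finset.mem_univ i)
    rw [hz] at h1 h2 ⊢
    have h1' : 0 ≤ z := by exact_mod_cast h1
    have h2' : z ≤ 1 := by exact_mod_cast h2
    have : z = 0 ∨ z = 1 := by omega
    rcases this with rfl | rfl
    · left; norm_num
    · right; norm_num
  have hcomb : ∀ y : Fin (k + p) → ℝ, ∀ i, lab (φ y) i =
      ∑ l, bar A 1 y l * lab (φ (vtx A l)) i := by
    intro y i
    conv_lhs => rw [← sum_bar_smul A 1 y]
    have := affine_comb φ.toAffineMap (bar A 1 y) (sum_bar A 1 y) (vtx A)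
    rw [AffineEquiv.coe_toAffineMap] at this
    rw [this, lab_comb _ (sum_bar A 1 y)]
  -- the classes
  let I : Fin (k' + 1) → Finset (V k p) := fun i =>
    Finset.univ.filter fun l => lab (φ (vtx A l)) i = 1
  have hval : ∀ l i, lab (φ (vtx A l)) i = if l ∈ I i then 1 else 0 := by
    intro l i
    simp only [I, Finset.mem_filter, Finset.mem_univ, true_and]
    rcases h01 l i with h | h
    · rw [h]; norm_num
    · rw [h]; norm_num
  have hne : ∀ i, (I i).Nonempty := by
    intro i
    by_contra hcon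
    rw [Finset.not_nonempty_iff_eq_empty] at hcon
    obtain ⟨S, hS, ⟨s, hs⟩, _, hQS⟩ := hQ i
    have hmem : (s, cayleyPt k' i) ∈ cayley Q := by
      apply subset_convexHull
      rw [Set.mem_iUnion]
      exact ⟨i, by rw [hQS]; exact subset_convexHull ℝ _ hs, rfl⟩
    rw [← himg] at hmem
    obtain ⟨y, hy, hye⟩ := hmem
    have h1 := hcomb y i
    rw [hye, lab_cayleyPt] at h1
    simp only [hval, hcon, Finset.notMem_empty, if_false, mul_zero, Finset.sum_const_zero] at h1
    exact one_ne_zero h1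
  have hcard : ∑ i, #(I i) = k + p + 1 := by
    have h1 : ∑ i, ((#(I i) : ℕ) : ℝ) = ∑ i, ∑ l, lab (φ (vtx A l)) i := by
      apply Finset.sum_congr rfl
      intro i _
      simp only [hval, Finset.sum_ite_mem, Finset.univ_inter, Finset.sum_const, nsmul_eq_mul,
        mul_one]
    rw [Finset.sum_comm] at h1
    simp only [sum_lab, Finset.sum_const, Finset.card_univ, Fintype.card_sum, Fintype.card_fin,
      Fintype.card_unit, nsmul_eq_mul, mul_one] at h1
    have h2 : ((∑ i, #(I i) : ℕ) : ℝ) = ((k + (p + 1) : ℕ) : ℝ) := by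
      rw [Nat.cast_sum]; exact h1
    have h3 : ∑ i, #(I i) = k + (p + 1) := by exact_mod_cast h2
    omega
  obtain ⟨i, hi⟩ : ∃ i, #(I i) ≤ q := by
    by_contra hcon
    push Not at hcon
    have : ∑ _i : Fin (k' + 1), (q + 1) ≤ ∑ i, #(I i) :=
      Finset.sum_le_sum fun i _ => hcon i
    rw [hcard, Finset.sum_const, Finset.card_univ, Fintype.card_fin, smul_eq_mul, hk'] at this
    omega
  obtain ⟨j, hj⟩ := hI (I i) (hne i) hi
  -- the unit vector
  let z : Fin (k + p) → ℤ := Fin.addCases (fun j' => if j' = j then 1 else 0) (fun _ => 0)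
  obtain ⟨c, hc⟩ := lab_int ((hlat (fun c => (z c : ℝ))).1 (fun c => ⟨z c, rfl⟩)).2 i
  have h1 := hcomb (fun c => (z c : ℝ)) i
  rw [hc] at h1
  simp only [hval, mul_ite, mul_one, mul_zero, Finset.sum_ite_mem, Finset.univ_inter] at h1
  have h2 : ((2 * c : ℤ) : ℝ) = ((∑ l ∈ I i, two A 1 z l : ℤ) : ℝ) := by
    push_cast
    rw [h1, Finset.mul_sum]
    apply Finset.sum_congr rfl
    intro l _
    rw [two_eq]
    push_cast
    rfl
  have h3 : 2 * c = ∑ l ∈ I i, two A 1 z l := by exact_mod_cast h2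
  have hb : (fun j' => z (Fin.castAdd p j')) = fun j' => if j' = j then (1 : ℤ) else 0 := by
    funext j'
    simp [z]
  have hpar : ∀ l, par A B (fun j' => z (Fin.castAdd p j')) l = full A B j l := by
    intro l
    rw [hb]
    simp [par]
  have hEw : Even (wt A B (fun j' => z (Fin.castAdd p j'))) := by
    rw [← Nat.not_odd_iff_even, wt, ← int_odd_sum_iff, Int.not_odd_iff_even]
    simp only [hpar]
    exact hE j
  have h4 : Even (∑ l ∈ I i, (two A 1 z l - full A B j l)) := by
    apply Finset.even_sum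
    intro l _
    have := even_sub A B 1 z hEw l
    rwa [hpar] at this
  rw [Finset.sum_sub_distrib, ← h3] at h4
  have h5 : Even (∑ l ∈ I i, full A B j l) := by
    have := (even_two_mul c).sub h4
    simpa using this
  exact (Int.not_odd_iff_even.2 h5) hj

end

end Pool.Agent.H178R3.Cay
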