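import Pool.Agent.H178R3.GamDefs

set_option autoImplicit false

open Set Pointwise

namespace Pool.Agent.H178R3.Gam

/-- The real point with given integer coordinates. -/
def toR (v : Fin 3 → ℤ) : Fin 3 → ℝ := fun i => (v i : ℝ)

/-- The linear functional with given integer coordinates. -/
noncomputable def dot (a : Fin 3 → ℤ) : (Fin 3 → ℝ) →ₗ[ℝ] ℝ where
  toFun p := ∑ i, (a i : ℝ) * p i
  map_add' p q := by
    simp [mul_add, Finset.sum_add_distrib]
  map_smul' c p := by
    simp only [Pi.smul_apply, smul_eq_mul, RingHom.id_apply, Finset.mul_sum]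
    exact Finset.sum_congr rfl fun i _ => by ring

/-- The integer pairing. -/
def idot (a v : Fin 3 → ℤ) : ℤ := ∑ i, a i * v i

theorem dot_toR (a v : Fin 3 → ℤ) : dot a (toR v) = (idot a v : ℝ) := by
  simp [dot, toR, idot]

theorem isLat_toR (v : Fin 3 → ℤ) : IsLat (toR v) := fun i => ⟨v i, rfl⟩

theorem exists_toR {x : Fin 3 → ℝ} (h : IsLat x) : ∃ v, x = toR v := by
  choose v hv using h
  exact ⟨v, funext hv⟩

theorem toR_inj {v w : Fin 3 → ℤ} (h : toR v = toR w) : v = w := by
  funext i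
  have := congrFun h i
  simpa [toR] using this

theorem toR_zero : toR 0 = 0 := by
  funext i
  simp [toR]

theorem toR_sub (v w : Fin 3 → ℤ) : toR (v - w) = toR v - toR w := by
  funext i
  simp [toR]

theorem toR_add (v w : Fin 3 → ℤ) : toR (v + w) = toR v + toR w := by
  funext i
  simp [toR]

/-- Criterion for `Γ_Q = 0`. -/
theorem isGammaCone_zero {ι J : Type} [Fintype ι] [Nonempty J] {Q : Set (Fin 3 → ℝ)}
    (hQ0 : (0 : Fin 3 → ℝ) ∈ Q)
    (hQadd : ∀ x ∈ Q, ∀ y ∈ Q, x + y ∈ Q)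
    (hQsmul : ∀ c : ℝ, 0 ≤ c → ∀ x ∈ Q, c • x ∈ Q)
    (G : ι → Fin 3 → ℤ) (hinj : Function.Injective G)
    (hGQ : ∀ i, toR (G i) ∈ Q)
    (f : ι → Fin 3 → ℤ) (hf : ∀ i, idot (f i) (G i) = 1)
    (l : J → Fin 3 → ℤ) (hl : ∀ j i, 1 ≤ idot (l j) (G i))
    (hl1 : ∀ i, ∃ j, idot (l j) (G i) = 1)
    (hrep : ∀ u : Fin 3 → ℤ, toR u ∈ Q → ∃ (n : ι → ℕ) (j : J),
      toR u = ∑ i, (n i : ℝ) • toR (G i) ∧ (∑ i, (n i : ℝ)) = dot (l j) (toR u)) :
    IsGammaCone Q 0 := by
  classical
  -- every nonzero lattice point has positive values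
  have hpos : ∀ u : Fin 3 → ℝ, u ∈ Q → IsLat u → u ≠ 0 → ∀ j, 1 ≤ dot (l j) u := by
    intro u hu hlat hne j
    obtain ⟨v, rfl⟩ := exists_toR hlat
    obtain ⟨n, j', hn, -⟩ := hrep v hu
    have hex : ∃ i, n i ≠ 0 := by
      by_contra hcon
      push Not at hcon
      apply hne
      rw [hn]
      simp [hcon]
    obtain ⟨i, hi⟩ := hex
    rw [hn, map_sum]
    have h1 : ∀ i, (n i : ℝ) ≤ dot (l j) ((n i : ℝ) • toR (G i)) := by
      intro i
      rw [map_smul, dot_toR, smul_eq_mul]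
      have : (1 : ℝ) ≤ (idot (l j) (G i) : ℝ) := by exact_mod_cast hl j i
      nlinarith [(Nat.cast_nonneg (n i) : (0 : ℝ) ≤ n i)]
    have h2 : (1 : ℝ) ≤ n i := by exact_mod_cast Nat.one_le_iff_ne_zero.mpr hi
    have h3 : (n i : ℝ) ≤ ∑ i, (n i : ℝ) :=
      Finset.single_le_sum (f := fun i => (n i : ℝ)) (fun _ _ => Nat.cast_nonneg _)
        (Finset.mem_univ i)
    have h4 := Finset.sum_le_sum (fun i (_ : i ∈ Finset.univ) => h1 i)
    linarith
  -- ray generators are among the `G i`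
  have hray : ∀ w, IsRayGen Q w → ∃ i, w = toR (G i) := by
    rintro w ⟨hwQ, hw0, hlat, hprim, hext⟩
    obtain ⟨v, rfl⟩ := exists_toR hlat
    obtain ⟨n, j', hn, -⟩ := hrep v hwQ
    have hex : ∃ i, n i ≠ 0 := by
      by_contra hcon
      push Not at hcon
      apply hw0
      rw [hn]
      simp [hcon]
    obtain ⟨i, hi⟩ := hex
    have hrest : ∑ i' ∈ Finset.univ.erase i, (n i' : ℝ) • toR (G i') ∈ Q := by
      apply Finset.sum_induction _ (fun x => x ∈ Q) (fun x y hx hy => hQadd x hx y hy) hQ0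
      intro i' _
      exact hQsmul _ (Nat.cast_nonneg _) _ (hGQ i')
    obtain ⟨t, ht0, ht⟩ := hext ((n i : ℝ) • toR (G i))
      (hQsmul _ (Nat.cast_nonneg _) _ (hGQ i)) _ hrest (by
        rw [hn, Finset.add_sum_erase Finset.univ (fun i => (n i : ℝ) • toR (G i))
          (Finset.mem_univ i)])
    have hni : (0 : ℝ) < n i := by exact_mod_cast Nat.pos_of_ne_zero hi
    have hval := congrArg (dot (f i)) ht
    rw [map_smul, map_smul, dot_toR, dot_toR, hf i, smul_eq_mul, smul_eq_mul, Int.cast_one,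
      mul_one] at hval
    -- w = m • G i with m = idot (f i) v
    have htpos : 0 < t := by
      rcases ht0.lt_or_eq with h | h
      · exact h
      · rw [← h, zero_mul] at hval
        linarith
    have hmpos : (0 : ℝ) < (idot (f i) v : ℝ) := by
      by_contra hcon
      push Not at hcon
      nlinarith
    have hm : (0 : ℤ) < idot (f i) v := by exact_mod_cast hmpos
    obtain ⟨m, hm'⟩ := Int.eq_ofNat_of_zero_le hm.le
    have hwm : toR v = (m : ℝ) • toR (G i) := by
      have h1 : t • toR v = t • ((m : ℝ) • toR (G i)) := by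
        rw [← ht, smul_smul, hval, hm']
        push_cast
        rfl
      exact smul_right_injective _ htpos.ne' h1
    have hm1 := hprim m (toR (G i)) (isLat_toR _) hwm
    refine ⟨i, ?_⟩
    rw [hwm, hm1, Nat.cast_one, one_smul]
  -- the `G i` are in the Hilbert basis
  have hhilb : ∀ i, IsHilb Q (toR (G i)) := by
    intro i
    obtain ⟨j, hj⟩ := hl1 i
    refine ⟨hGQ i, ?_, isLat_toR _, ?_⟩
    · intro h0
      have := congrArg (dot (l j)) h0
      rw [dot_toR, hj, map_zero] at this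
      norm_num at this
    · intro x hx y hy hxl hyl hxy
      by_contra hcon
      push Not at hcon
      have h1 := hpos x hx hxl hcon.1 j
      have h2 := hpos y hy hyl hcon.2 j
      have := congrArg (dot (l j)) hxy
      rw [dot_toR, hj, map_add] at this
      push_cast at this
      linarith
  have hht : ∀ u s, s ∈ htSet Q u → ∀ j, s ≤ dot (l j) u := by
    rintro u s ⟨F, a, hF, rfl, rfl⟩ j
    rw [map_sum]
    apply Finset.sum_le_sum
    intro w hw
    obtain ⟨i, hi⟩ := hray w (hF w hw).1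
    rw [map_smul, smul_eq_mul, hi, dot_toR]
    have h1 : (1 : ℝ) ≤ (idot (l j) (G i) : ℝ) := by exact_mod_cast hl j i
    have h2 := (hF w hw).2
    rw [hi] at h2
    nlinarith
  have hord : ∀ u s, s ∈ ordSet Q u → ∀ j, s ≤ dot (l j) u := by
    rintro u s ⟨F, a, hF, rfl, rfl⟩ j
    rw [map_sum]
    apply Finset.sum_le_sum
    intro w hw
    obtain ⟨h1, h2, h3, -⟩ := hF w hw
    have h4 := hpos w h1 h3 h2 j
    rw [map_smul, smul_eq_mul]
    nlinarith [(Nat.cast_nonneg (a w) : (0 : ℝ) ≤ a w)]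
  refine ⟨⟨0, ⟨∅, 0, by simp, by simp⟩, fun i => ⟨0, by simp⟩, 0, 0, ⟨⟨∅, 0, by simp, by simp,
    by simp⟩, ?_⟩, ⟨⟨∅, 0, by simp, by simp, by simp⟩, ?_⟩, by simp⟩, ?_⟩
  · intro s hs
    have := hht 0 s hs (Classical.arbitrary J)
    rwa [map_zero] at this
  · intro s hs
    have := hord 0 s hs (Classical.arbitrary J)
    rwa [map_zero] at this
  · rintro d ⟨u, hu, hlat, h, k, hh, hk, rfl⟩
    obtain ⟨v, rfl⟩ := exists_toR hlat
    have huQ : toR v ∈ Q := by
      obtain ⟨F, a, hF, hsum⟩ := hu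
      rw [hsum]
      apply Finset.sum_induction _ (fun x => x ∈ Q) (fun x y hx hy => hQadd x hx y hy) hQ0
      intro w hw
      exact hQsmul _ (hF w hw).2.1 _ (hF w hw).1.1
    obtain ⟨n, j, hn, hnj⟩ := hrep v huQ
    have h1 := hht _ _ hh.1 j
    have h2 : (∑ i, (n i : ℝ)) ∈ ordSet Q (toR v) := by
      have hinj' : Function.Injective (fun i => toR (G i)) := fun i i' h => hinj (toR_inj h)
      refine ⟨Finset.univ.image (fun i => toR (G i)),
        Function.extend (fun i => toR (G i)) n 0, ?_, ?_, ?_⟩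
      · intro b hb
        rw [Finset.mem_image] at hb
        obtain ⟨i, -, rfl⟩ := hb
        exact hhilb i
      · rw [Finset.sum_image (fun i _ i' _ h => hinj' h)]
        simp only [hinj'.extend_apply]
        exact hn
      · rw [Finset.sum_image (fun i _ i' _ h => hinj' h)]
        simp only [hinj'.extend_apply]
    have h3 := hk.2 h2
    linarith

end Pool.Agent.H178R3.Gam
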