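import Mathlib

set_option autoImplicit false

open Set Pointwise

namespace Pool.Agent.H178R3.Gam

/-- Lattice points of `ℝ^n`: all coordinates are integers. -/
def IsLat {n : ℕ} (x : Fin n → ℝ) : Prop := ∀ i, ∃ z : ℤ, x i = z

/-- A lattice polytope in `ℝ^n`: the convex hull of a finite set of lattice points. -/
def IsLatticePolytope {n : ℕ} (P : Set (Fin n → ℝ)) : Prop :=
  ∃ S : Set (Fin n → ℝ), S.Finite ∧ (∀ x ∈ S, IsLat x) ∧ P = convexHull ℝ S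

/-- The segment `[x, y]`, `x ≠ y`, is an edge (a one-dimensional face) of `P`. -/
def IsEdge {n : ℕ} (P : Set (Fin n → ℝ)) (x y : Fin n → ℝ) : Prop :=
  x ≠ y ∧ x ∈ P.extremePoints ℝ ∧ y ∈ P.extremePoints ℝ ∧ IsExtreme ℝ P (segment ℝ x y)

/-- The lattice length of the segment `[x, y]`: one less than its number of lattice points. -/
noncomputable def latLength {n : ℕ} (x y : Fin n → ℝ) : ℕ :=
  {z | z ∈ segment ℝ x y ∧ IsLat z}.ncard - 1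

/-- `L` is the least lattice length of an edge of `P`. -/
def IsMinLength {n : ℕ} (P : Set (Fin n → ℝ)) (L : ℕ) : Prop :=
  IsLeast {l : ℕ | ∃ x y, IsEdge P x y ∧ l = latLength x y} L

/-- The cone generated by the vectors `y - x`, `y` running over the vertices adjacent to `x`. -/
def vertexCone {n : ℕ} (P : Set (Fin n → ℝ)) (x : Fin n → ℝ) : Set (Fin n → ℝ) :=
  (PointedCone.hull ℝ {v | ∃ y, IsEdge P x y ∧ v = y - x} : Set (Fin n → ℝ))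

/-- `w` is a primitive ray generator of `Q`: a primitive lattice point on an extreme ray. -/
def IsRayGen {n : ℕ} (Q : Set (Fin n → ℝ)) (w : Fin n → ℝ) : Prop :=
  w ∈ Q ∧ w ≠ 0 ∧ IsLat w ∧
    (∀ (k : ℕ) (v : Fin n → ℝ), IsLat v → w = (k : ℝ) • v → k = 1) ∧
    (∀ x ∈ Q, ∀ y ∈ Q, x + y = w → ∃ t : ℝ, 0 ≤ t ∧ x = t • w)

/-- `b` is in the Hilbert basis of `Q`: it is a nonzero lattice point of `Q` and not the sum of two
nonzero lattice points of `Q`. -/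
def IsHilb {n : ℕ} (Q : Set (Fin n → ℝ)) (b : Fin n → ℝ) : Prop :=
  b ∈ Q ∧ b ≠ 0 ∧ IsLat b ∧
    ∀ x ∈ Q, ∀ y ∈ Q, IsLat x → IsLat y → x + y = b → x = 0 ∨ y = 0

/-- The numbers `∑ a_i` over the representations `u = ∑ a_i w_i`, `a_i ≥ 0` real, `w_i` primitive
ray generators of `Q`. -/
def htSet {n : ℕ} (Q : Set (Fin n → ℝ)) (u : Fin n → ℝ) : Set ℝ :=
  {s | ∃ (F : Finset (Fin n → ℝ)) (a : (Fin n → ℝ) → ℝ),
    (∀ w ∈ F, IsRayGen Q w ∧ 0 ≤ a w) ∧ u = ∑ w ∈ F, a w • w ∧ s = ∑ w ∈ F, a w}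

/-- The numbers `∑ l_j` over the representations `u = ∑ l_j b_j`, `l_j ≥ 0` integers, `b_j` in the
Hilbert basis of `Q`. -/
def ordSet {n : ℕ} (Q : Set (Fin n → ℝ)) (u : Fin n → ℝ) : Set ℝ :=
  {s | ∃ (F : Finset (Fin n → ℝ)) (l : (Fin n → ℝ) → ℕ),
    (∀ b ∈ F, IsHilb Q b) ∧ u = ∑ b ∈ F, (l b : ℝ) • b ∧ s = ∑ b ∈ F, (l b : ℝ)}

/-- The set `S_Q` of the `∑ a_i w_i` with `0 ≤ a_i < 1`. -/
def boxSet {n : ℕ} (Q : Set (Fin n → ℝ)) : Set (Fin n → ℝ) :=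
  {u | ∃ (F : Finset (Fin n → ℝ)) (a : (Fin n → ℝ) → ℝ),
    (∀ w ∈ F, IsRayGen Q w ∧ 0 ≤ a w ∧ a w < 1) ∧ u = ∑ w ∈ F, a w • w}

/-- `g = Γ_Q`, the largest value of `ht u - ord u` for lattice points `u` of `S_Q`. -/
def IsGammaCone {n : ℕ} (Q : Set (Fin n → ℝ)) (g : ℝ) : Prop :=
  IsGreatest {d : ℝ | ∃ u ∈ boxSet Q, IsLat u ∧
    ∃ h k, IsGreatest (htSet Q u) h ∧ IsGreatest (ordSet Q u) k ∧ d = h - k} g

/-- `g = Γ_P`, the largest `Γ_Q` of the vertex cones `Q` of `P`. -/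
def IsGamma {n : ℕ} (P : Set (Fin n → ℝ)) (g : ℝ) : Prop :=
  (∀ x ∈ P.extremePoints ℝ, ∃ d, IsGammaCone (vertexCone P x) d) ∧
    IsGreatest {d : ℝ | ∃ x ∈ P.extremePoints ℝ, IsGammaCone (vertexCone P x) d} g

/-- `P` is integrally closed: `(P ∩ M) + (r P ∩ M) = (r + 1) P ∩ M` for all `r ≥ 1`. -/
def IntegrallyClosed {n : ℕ} (P : Set (Fin n → ℝ)) : Prop :=
  ∀ r : ℕ, 1 ≤ r →
    (P ∩ {x | IsLat x}) + (((r : ℝ) • P) ∩ {x | IsLat x}) =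
      (((r + 1 : ℕ) : ℝ) • P) ∩ {x | IsLat x}

end Pool.Agent.H178R3.Gam
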