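import Pool.Agent.H178R3.GamCone

set_option autoImplicit false

open Set Pointwise

namespace Pool.Agent.H178R3.Gam

/-- The vertices of the polytope. -/
def V : Fin 8 → Fin 3 → ℤ
  | 0 => ![0, 0, 0]
  | 1 => ![0, 0, 1]
  | 2 => ![1, 0, 0]
  | 3 => ![1, 0, 1]
  | 4 => ![0, 1, 0]
  | 5 => ![0, 1, 1]
  | 6 => ![1, 1, 4]
  | 7 => ![1, 1, 5]

/-- The polytope. -/
def PP : Set (Fin 3 → ℝ) := convexHull ℝ (range fun i => toR (V i))

theorem mem_PP {p : Fin 3 → ℝ} (hp : p ∈ PP) : ∃ w : Fin 8 → ℝ, (∀ i, 0 ≤ w i) ∧ ∑ i, w i = 1 ∧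
    p = ∑ i, w i • toR (V i) := by
  rw [PP, convexHull_range_eq_exists_affineCombination] at hp
  obtain ⟨s, w, hw0, hw1, rfl⟩ := hp
  classical
  refine ⟨fun i => if i ∈ s then w i else 0, ?_, ?_, ?_⟩
  · intro i
    dsimp only
    split_ifs with h
    · exact hw0 i h
    · exact le_refl _
  · rw [Finset.sum_ite_mem, Finset.univ_inter]
    exact hw1
  · rw [Finset.affineCombination_eq_linear_combination _ _ _ hw1]
    simp only [ite_smul, zero_smul]
    rw [Finset.sum_ite_mem, Finset.univ_inter]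

theorem V_mem (i : Fin 8) : toR (V i) ∈ PP := subset_convexHull ℝ _ ⟨i, rfl⟩

theorem isExtreme_face (a : Fin 3 → ℤ) (c : ℤ) (j k : Fin 8) (h : ∀ i, c ≤ idot a (V i))
    (he : ∀ i, idot a (V i) = c ↔ i = j ∨ i = k) :
    IsExtreme ℝ PP (segment ℝ (toR (V j)) (toR (V k))) := by
  have hle : ∀ p ∈ PP, (c : ℝ) ≤ dot a p := by
    intro p hp
    obtain ⟨w, hw0, hw1, rfl⟩ := mem_PP hp
    rw [map_sum]
    have : (c : ℝ) = ∑ i, w i * c := by rw [← Finset.sum_mul, hw1, one_mul]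
    rw [this]
    apply Finset.sum_le_sum
    intro i _
    rw [map_smul, dot_toR, smul_eq_mul]
    exact mul_le_mul_of_nonneg_left (by exact_mod_cast h i) (hw0 i)
  have hj : dot a (toR (V j)) = c := by
    rw [dot_toR]; exact_mod_cast (he j).2 (Or.inl rfl)
  have hk : dot a (toR (V k)) = c := by
    rw [dot_toR]; exact_mod_cast (he k).2 (Or.inr rfl)
  have hseg : ∀ p ∈ segment ℝ (toR (V j)) (toR (V k)), dot a p = c := by
    rintro p ⟨s, t, -, -, hst, rfl⟩
    rw [map_add, map_smul, map_smul, hj, hk, smul_eq_mul, smul_eq_mul, ← add_mul, hst, one_mul]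
  have hback : ∀ p ∈ PP, dot a p = c → p ∈ segment ℝ (toR (V j)) (toR (V k)) := by
    intro p hp hpc
    obtain ⟨w, hw0, hw1, rfl⟩ := mem_PP hp
    have hz : ∀ i, w i * ((idot a (V i) : ℝ) - c) = 0 := by
      have hsum : ∑ i, w i * ((idot a (V i) : ℝ) - c) = 0 := by
        rw [map_sum] at hpc
        simp only [mul_sub, Finset.sum_sub_distrib, ← Finset.sum_mul, hw1, one_mul]
        rw [sub_eq_zero, ← hpc]
        apply Finset.sum_congr rfl
        intro i _
        rw [map_smul, dot_toR, smul_eq_mul]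
      have hnn : ∀ i ∈ Finset.univ, 0 ≤ w i * ((idot a (V i) : ℝ) - c) := by
        intro i _
        apply mul_nonneg (hw0 i)
        have : (c : ℝ) ≤ (idot a (V i) : ℝ) := by exact_mod_cast h i
        linarith
      intro i
      exact (Finset.sum_eq_zero_iff_of_nonneg hnn).1 hsum i (Finset.mem_univ i)
    have hw' : ∑ i, w i • toR (V i) =
        ∑ i, w i • (if i = k then toR (V k) else toR (V j)) := by
      apply Finset.sum_congr rfl
      intro i _
      rcases mul_eq_zero.1 (hz i) with h0 | h0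
      · rw [h0, zero_smul, zero_smul]
      · have : idot a (V i) = c := by
          have : (idot a (V i) : ℝ) = c := by linarith
          exact_mod_cast this
        rcases (he i).1 this with h1 | h1
        · subst h1
          split_ifs with h2
          · rw [h2]
          · rfl
        · rw [if_pos h1, h1]
    rw [hw']
    apply (convex_segment _ _).sum_mem (fun i _ => hw0 i) hw1
    intro i _
    split_ifs
    · exact right_mem_segment _ _ _
    · exact left_mem_segment _ _ _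
  refine ⟨?_, ?_⟩
  · exact (convex_convexHull ℝ _).segment_subset (V_mem j) (V_mem k)
  · intro x hx y hy z hz hzo
    obtain ⟨s, t, hs, ht, hst, rfl⟩ := hzo
    have h1 := hseg _ hz
    rw [map_add, map_smul, map_smul, smul_eq_mul, smul_eq_mul] at h1
    have h2 := hle x hx
    have h3 := hle y hy
    apply hback x hx
    have h4 : s * (dot a x - c) = 0 := by
      have : s * (dot a x - c) + t * (dot a y - c) = 0 := by
        have : (s + t) * (c : ℝ) = c := by rw [hst, one_mul]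
        linarith
      have h5 : 0 ≤ s * (dot a x - c) := mul_nonneg hs.le (by linarith)
      have h6 : 0 ≤ t * (dot a y - c) := mul_nonneg ht.le (by linarith)
      linarith
    rcases mul_eq_zero.1 h4 with h5 | h5
    · linarith
    · linarith

theorem V_ext_of (a : Fin 3 → ℤ) (c : ℤ) (j : Fin 8) (h : ∀ i, c ≤ idot a (V i))
    (he : ∀ i, idot a (V i) = c ↔ i = j) : toR (V j) ∈ PP.extremePoints ℝ := by
  have := isExtreme_face a c j j h (fun i => by rw [he i, or_self])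
  rw [segment_same, isExtreme_singleton] at this
  exact this

/-- Functionals exposing the vertices. -/
def va : Fin 8 → Fin 3 → ℤ
  | 0 => ![1, 1, 1]
  | 1 => ![5, 5, -1]
  | 2 => ![-1, 2, 1]
  | 3 => ![-1, 5, -1]
  | 4 => ![2, -1, 1]
  | 5 => ![5, -1, -1]
  | 6 => ![-5, -5, 1]
  | 7 => ![-1, -1, -1]

theorem V_ext (j : Fin 8) : toR (V j) ∈ PP.extremePoints ℝ :=
  V_ext_of (va j) (idot (va j) (V j)) j (by revert j; decide) (by revert j; decide)

/-- The edges. -/
def edgeData : List (Fin 8 × Fin 8 × (Fin 3 → ℤ) × ℤ) :=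
  [(0, 1, ![1, 1, 0], 0), (0, 2, ![0, 1, 1], 0), (0, 4, ![1, 0, 1], 0), (1, 3, ![0, 5, -1], -1),
    (1, 5, ![5, 0, -1], -1), (1, 7, ![4, 4, -2], -2), (2, 3, ![-1, 1, 0], -1),
    (2, 4, ![-4, -4, 2], -4), (2, 6, ![-5, -4, 1], -5), (3, 7, ![-1, 4, -1], -2),
    (4, 5, ![1, -1, 0], -1), (4, 6, ![-4, -5, 1], -5), (5, 7, ![4, -1, -1], -2),
    (6, 7, ![-1, -1, 0], -2)]

theorem edgeData_ok : ∀ e ∈ edgeData, e.1 ≠ e.2.1 ∧ (∀ i, e.2.2.2 ≤ idot e.2.2.1 (V i)) ∧
    ∀ i, idot e.2.2.1 (V i) = e.2.2.2 ↔ i = e.1 ∨ i = e.2.1 := by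
  decide

theorem V_inj : Function.Injective V := by decide

theorem isEdge_of (e : Fin 8 × Fin 8 × (Fin 3 → ℤ) × ℤ) (he : e ∈ edgeData) :
    IsEdge PP (toR (V e.1)) (toR (V e.2.1)) := by
  obtain ⟨h1, h2, h3⟩ := edgeData_ok e he
  refine ⟨fun h => h1 (V_inj (toR_inj h)), V_ext _, V_ext _, isExtreme_face _ _ _ _ h2 h3⟩

theorem IsEdge.symm {n : ℕ} {P : Set (Fin n → ℝ)} {x y : Fin n → ℝ} (h : IsEdge P x y) :
    IsEdge P y x := by
  obtain ⟨h1, h2, h3, h4⟩ := h
  exact ⟨h1.symm, h3, h2, by rwa [segment_symm]⟩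

theorem ext_V {x : Fin 3 → ℝ} (hx : x ∈ PP.extremePoints ℝ) : ∃ i, x = toR (V i) := by
  obtain ⟨i, hi⟩ := extremePoints_convexHull_subset hx
  exact ⟨i, hi.symm⟩

/-- `G` lists the edge vectors at vertex `i`. -/
def nbr : Fin 8 → List (Fin 8)
  | 0 => [1, 2, 4]
  | 1 => [0, 3, 5, 7]
  | 2 => [0, 3, 4, 6]
  | 3 => [1, 2, 7]
  | 4 => [0, 2, 5, 6]
  | 5 => [1, 4, 7]
  | 6 => [2, 4, 7]
  | 7 => [1, 3, 5, 6]

theorem nbr_ok : ∀ i : Fin 8, ∀ j ∈ nbr i, (∃ e ∈ edgeData, e.1 = i ∧ e.2.1 = j) ∨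
    (∃ e ∈ edgeData, e.1 = j ∧ e.2.1 = i) := by
  decide

theorem nbr_edge (i : Fin 8) (j : Fin 8) (hj : j ∈ nbr i) :
    IsEdge PP (toR (V i)) (toR (V j)) := by
  rcases nbr_ok i j hj with ⟨e, he, rfl, rfl⟩ | ⟨e, he, rfl, rfl⟩
  · exact isEdge_of e he
  · exact (isEdge_of e he).symm

end Pool.Agent.H178R3.Gam
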