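import Pool.Agent.H178R3.GamPoly

set_option autoImplicit false

open Set Pointwise

namespace Pool.Agent.H178R3.Gam

theorem cone_nonneg (i : Fin 8) (a : Fin 3 → ℤ) (h : ∀ j, 0 ≤ idot a (V j - V i))
    {u : Fin 3 → ℝ} (hu : u ∈ vertexCone PP (toR (V i))) : 0 ≤ dot a u := by
  rw [vertexCone, SetLike.mem_coe, PointedCone.hull] at hu
  induction hu using Submodule.span_induction with
  | mem x hx =>
    obtain ⟨y, hy, rfl⟩ := hx
    obtain ⟨j, rfl⟩ := ext_V hy.2.2.1
    rw [← toR_sub, dot_toR]
    exact_mod_cast h j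
  | zero => rw [map_zero]
  | add x y _ _ hx hy => rw [map_add]; exact add_nonneg hx hy
  | smul c x _ hx =>
    have : c • x = (c : ℝ) • x := rfl
    rw [this, map_smul, smul_eq_mul]
    exact mul_nonneg c.2 hx

theorem cone_gen (i j : Fin 8) (h : j ∈ nbr i) :
    toR (V j - V i) ∈ vertexCone PP (toR (V i)) := by
  rw [vertexCone, SetLike.mem_coe, PointedCone.hull]
  apply Submodule.subset_span
  exact ⟨toR (V j), nbr_edge i j h, toR_sub _ _⟩

theorem cone_zero (x : Fin 3 → ℝ) : (0 : Fin 3 → ℝ) ∈ vertexCone PP x := by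
  rw [vertexCone, SetLike.mem_coe]
  exact zero_mem _

theorem cone_add (x : Fin 3 → ℝ) : ∀ u ∈ vertexCone PP x, ∀ v ∈ vertexCone PP x,
    u + v ∈ vertexCone PP x := by
  intro u hu v hv
  rw [vertexCone, SetLike.mem_coe] at *
  exact add_mem hu hv

theorem cone_smul (x : Fin 3 → ℝ) : ∀ c : ℝ, 0 ≤ c → ∀ u ∈ vertexCone PP x,
    c • u ∈ vertexCone PP x := by
  intro c hc u hu
  rw [vertexCone, SetLike.mem_coe] at *
  exact Submodule.smul_mem _ (⟨c, hc⟩ : {c : ℝ // 0 ≤ c}) hu

theorem toR_smul_nat (n : ℕ) (v : Fin 3 → ℤ) : (n : ℝ) • toR v = toR ((n : ℤ) • v) := by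
  funext i
  simp [toR]

theorem toR_sum {ι : Type} (s : Finset ι) (f : ι → Fin 3 → ℤ) :
    ∑ i ∈ s, toR (f i) = toR (∑ i ∈ s, f i) := by
  funext k
  simp [toR, Finset.sum_apply]

theorem gammaA (i : Fin 8) (j : Fin 3 → Fin 8) (d : Fin 3 → Fin 3 → ℤ)
    (hj : ∀ t, j t ∈ nbr i)
    (hd : ∀ s t, idot (d s) (V (j t) - V i) = if s = t then 1 else 0)
    (hinv : ∀ p q, ∑ s, d s p * (V (j s) - V i) q = if p = q then 1 else 0)
    (hK : ∀ s k, 0 ≤ idot (d s) (V k - V i)) :
    IsGammaCone (vertexCone PP (toR (V i))) 0 := by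
  apply isGammaCone_zero (ι := Fin 3) (J := Unit) (cone_zero _) (cone_add _) (cone_smul _)
    (fun t => V (j t) - V i) (f := d) (l := fun _ => d 0 + d 1 + d 2)
  · intro s t hst
    have h1 := hd s s
    rw [show V (j s) - V i = V (j t) - V i from hst, hd s t] at h1
    by_contra hne
    rw [if_neg hne, if_pos rfl] at h1
    exact zero_ne_one h1
  · intro t
    exact cone_gen i (j t) (hj t)
  · intro t
    rw [hd t t, if_pos rfl]
  · intro _ t
    have : idot (d 0 + d 1 + d 2) (V (j t) - V i) = idot (d 0) (V (j t) - V i) +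
        idot (d 1) (V (j t) - V i) + idot (d 2) (V (j t) - V i) := by
      simp only [idot, Pi.add_apply, add_mul, Finset.sum_add_distrib]
    rw [this, hd, hd, hd]
    fin_cases t <;> simp
  · intro t
    refine ⟨(), ?_⟩
    have : idot (d 0 + d 1 + d 2) (V (j t) - V i) = idot (d 0) (V (j t) - V i) +
        idot (d 1) (V (j t) - V i) + idot (d 2) (V (j t) - V i) := by
      simp only [idot, Pi.add_apply, add_mul, Finset.sum_add_distrib]
    rw [this, hd, hd, hd]
    fin_cases t <;> simp
  · intro u hu
    have h0 : ∀ s, 0 ≤ idot (d s) u := by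
      intro s
      have := cone_nonneg i (d s) (hK s) hu
      rw [dot_toR] at this
      exact_mod_cast this
    have hcast : ∀ s, ((idot (d s) u).toNat : ℤ) = idot (d s) u := fun s => Int.toNat_of_nonneg (h0 s)
    refine ⟨fun s => (idot (d s) u).toNat, (), ?_, ?_⟩
    · simp only [toR_smul_nat, toR_sum]
      congr 1
      funext q
      rw [Finset.sum_apply]
      simp only [Pi.smul_apply, smul_eq_mul, hcast]
      have : ∀ s, idot (d s) u * (V (j s) - V i) q = ∑ p, u p * (d s p * (V (j s) - V i) q) := by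
        intro s
        rw [idot, Finset.sum_mul]
        exact Finset.sum_congr rfl fun p _ => by ring
      simp only [this]
      rw [Finset.sum_comm]
      simp only [← Finset.mul_sum, hinv]
      simp
    · rw [dot_toR]
      have h1 : ∀ s, (((idot (d s) u).toNat : ℕ) : ℝ) = (idot (d s) u : ℝ) := by
        intro s
        rw [← Int.cast_natCast, hcast]
      simp only [h1]
      rw [Fin.sum_univ_three]
      have : idot (d 0 + d 1 + d 2) u = idot (d 0) u + idot (d 1) u + idot (d 2) u := by
        simp only [idot, Pi.add_apply, add_mul, Finset.sum_add_distrib]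
      rw [this]
      push_cast
      ring

theorem idot_add (a b u : Fin 3 → ℤ) : idot (a + b) u = idot a u + idot b u := by
  simp only [idot, Pi.add_apply, add_mul, Finset.sum_add_distrib]

theorem idot_smul (c : ℤ) (a u : Fin 3 → ℤ) : idot (c • a) u = c * idot a u := by
  simp only [idot, Pi.smul_apply, smul_eq_mul, Finset.mul_sum, mul_assoc]

theorem gammaB (i : Fin 8) (j : Fin 4 → Fin 8) (a b c : Fin 3 → ℤ)
    (hj : ∀ t, j t ∈ nbr i) (hjinj : Function.Injective j)
    (ha : ∀ t, idot a (V (j t) - V i) = ![1, 0, 1, 0] t)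
    (hb : ∀ t, idot b (V (j t) - V i) = ![0, 1, 1, 0] t)
    (hc : ∀ t, idot c (V (j t) - V i) = ![0, 0, -4, 1] t)
    (hinv : ∀ p q, a p * (V (j 0) - V i) q + b p * (V (j 1) - V i) q +
      c p * (V (j 3) - V i) q = if p = q then 1 else 0)
    (hrel : V (j 2) - V i = (V (j 0) - V i) + (V (j 1) - V i) - 4 • (V (j 3) - V i))
    (hKa : ∀ k, 0 ≤ idot a (V k - V i)) (hKb : ∀ k, 0 ≤ idot b (V k - V i))
    (hKc : ∀ k, 0 ≤ idot ((4 : ℤ) • a + c) (V k - V i))
    (hKd : ∀ k, 0 ≤ idot ((4 : ℤ) • b + c) (V k - V i)) :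
    IsGammaCone (vertexCone PP (toR (V i))) 0 := by
  apply isGammaCone_zero (ι := Fin 4) (J := Fin 2) (cone_zero _) (cone_add _) (cone_smul _)
    (fun t => V (j t) - V i) (f := ![a, b, a, c])
    (l := ![(4 : ℤ) • a + b + c, a + (4 : ℤ) • b + c])
  · intro s t hst
    apply hjinj
    apply V_inj
    have : V (j s) - V i = V (j t) - V i := hst
    exact sub_left_inj.1 this
  · intro t
    exact cone_gen i (j t) (hj t)
  · intro t
    fin_cases t
    · simpa using ha 0
    · simpa using hb 1
    · simpa using ha 2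
    · simpa using hc 3
  · intro s t
    have h1 := ha t
    have h2 := hb t
    have h3 := hc t
    fin_cases s
    · show 1 ≤ idot ((4 : ℤ) • a + b + c) (V (j t) - V i)
      rw [idot_add, idot_add, idot_smul, h1, h2, h3]
      fin_cases t <;> decide
    · show 1 ≤ idot (a + (4 : ℤ) • b + c) (V (j t) - V i)
      rw [idot_add, idot_add, idot_smul, h1, h2, h3]
      fin_cases t <;> decide
  · intro t
    have h1 := ha t
    have h2 := hb t
    have h3 := hc t
    by_cases ht : t = 0
    · refine ⟨1, ?_⟩
      show idot (a + (4 : ℤ) • b + c) (V (j t) - V i) = 1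
      rw [idot_add, idot_add, idot_smul, h1, h2, h3]
      subst ht
      decide
    · refine ⟨0, ?_⟩
      show idot ((4 : ℤ) • a + b + c) (V (j t) - V i) = 1
      rw [idot_add, idot_add, idot_smul, h1, h2, h3]
      revert ht
      fin_cases t <;> decide
  · intro u hu
    have conv : ∀ e : Fin 3 → ℤ, (∀ k, 0 ≤ idot e (V k - V i)) → 0 ≤ idot e u := by
      intro e he
      have := cone_nonneg i e he hu
      rw [dot_toR] at this
      exact_mod_cast this
    have h1 := conv a hKa
    have h2 := conv b hKb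
    have h3 := conv _ hKc
    have h4 := conv _ hKd
    rw [idot_add, idot_smul] at h3 h4
    have hu0 : ∀ q, u q = idot a u * (V (j 0) - V i) q + idot b u * (V (j 1) - V i) q +
        idot c u * (V (j 3) - V i) q := by
      intro q
      have : ∀ p, u p * (if p = q then 1 else 0) = u p * (a p * (V (j 0) - V i) q +
        b p * (V (j 1) - V i) q + c p * (V (j 3) - V i) q) := fun p => by rw [hinv]
      have hs := Finset.sum_congr (rfl : (Finset.univ : Finset (Fin 3)) = Finset.univ)
        (fun p _ => this p)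
      simp only [mul_ite, mul_one, mul_zero, Finset.sum_ite_eq', Finset.mem_univ, if_true] at hs
      rw [hs]
      simp only [idot, Finset.sum_mul, ← Finset.sum_add_distrib]
      exact Finset.sum_congr rfl fun p _ => by ring
    have hg2 : ∀ q, (V (j 2) - V i) q = (V (j 0) - V i) q + (V (j 1) - V i) q -
        4 * (V (j 3) - V i) q := by
      intro q
      rw [hrel]
      simp
    obtain ⟨A, hA⟩ := Int.eq_ofNat_of_zero_le h1
    obtain ⟨B, hB⟩ := Int.eq_ofNat_of_zero_le h2
    obtain ⟨C, hC⟩ := Int.eq_ofNat_of_zero_le h3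
    obtain ⟨D, hD⟩ := Int.eq_ofNat_of_zero_le h4
    rcases le_total A B with hAB | hAB
    · obtain ⟨m, rfl⟩ := Nat.exists_eq_add_of_le hAB
      refine ⟨![0, m, A, C], 0, ?_, ?_⟩
      · simp only [toR_smul_nat, toR_sum]
        congr 1
        funext q
        rw [Finset.sum_apply, Fin.sum_univ_four]
        simp only [Pi.smul_apply, smul_eq_mul, Matrix.cons_val_zero, Matrix.cons_val_one,
          Matrix.cons_val]
        rw [hu0 q, hg2 q]
        have e1 : idot c u = C - 4 * A := by rw [← hA]; linarith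
        rw [hA, hB, e1]
        push_cast
        ring
      · rw [dot_toR]
        show _ = ((idot ((4 : ℤ) • a + b + c) u : ℤ) : ℝ)
        rw [idot_add, idot_add, idot_smul, Fin.sum_univ_four]
        have e1 : idot c u = C - 4 * A := by rw [← hA]; linarith
        rw [hA, hB, e1]
        simp
        ring
    · obtain ⟨m, rfl⟩ := Nat.exists_eq_add_of_le hAB
      refine ⟨![m, 0, B, D], 1, ?_, ?_⟩
      · simp only [toR_smul_nat, toR_sum]
        congr 1
        funext q
        rw [Finset.sum_apply, Fin.sum_univ_four]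
        simp only [Pi.smul_apply, smul_eq_mul, Matrix.cons_val_zero, Matrix.cons_val_one,
          Matrix.cons_val]
        rw [hu0 q, hg2 q]
        have e1 : idot c u = D - 4 * B := by rw [← hB]; linarith
        rw [hA, hB, e1]
        push_cast
        ring
      · rw [dot_toR]
        show _ = ((idot (a + (4 : ℤ) • b + c) u : ℤ) : ℝ)
        rw [idot_add, idot_add, idot_smul, Fin.sum_univ_four]
        have e1 : idot c u = D - 4 * B := by rw [← hB]; linarith
        rw [hA, hB, e1]
        simp
        ring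

theorem gamma_vertex (i : Fin 8) : IsGammaCone (vertexCone PP (toR (V i))) 0 := by
  fin_cases i
  · exact gammaA 0 ![2, 4, 1] ![![1, 0, 0], ![0, 1, 0], ![0, 0, 1]] (by decide) (by decide)
      (by decide) (by decide)
  · exact gammaB 1 ![3, 5, 7, 0] ![1, 0, 0] ![0, 1, 0] ![0, 0, -1] (by decide) (by decide)
      (by decide) (by decide) (by decide) (by decide) (by decide) (by decide) (by decide)
      (by decide) (by decide)
  · exact gammaB 2 ![0, 6, 4, 3] ![-1, 0, 0] ![0, 1, 0] ![0, -4, 1] (by decide) (by decide)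
      (by decide) (by decide) (by decide) (by decide) (by decide) (by decide) (by decide)
      (by decide) (by decide)
  · exact gammaA 3 ![1, 7, 2] ![![-1, 0, 0], ![0, 1, 0], ![0, 4, -1]] (by decide) (by decide)
      (by decide) (by decide)
  · exact gammaB 4 ![0, 6, 2, 5] ![0, -1, 0] ![1, 0, 0] ![-4, 0, 1] (by decide) (by decide)
      (by decide) (by decide) (by decide) (by decide) (by decide) (by decide) (by decide)
      (by decide) (by decide)
  · exact gammaA 5 ![1, 7, 4] ![![0, -1, 0], ![1, 0, 0], ![4, 0, -1]] (by decide) (by decide)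
      (by decide) (by decide)
  · exact gammaA 6 ![2, 4, 7] ![![0, -1, 0], ![-1, 0, 0], ![-4, -4, 1]] (by decide) (by decide)
      (by decide) (by decide)
  · exact gammaB 7 ![3, 5, 1, 6] ![0, -1, 0] ![-1, 0, 0] ![4, 4, -1] (by decide) (by decide)
      (by decide) (by decide) (by decide) (by decide) (by decide) (by decide) (by decide)
      (by decide) (by decide)

end Pool.Agent.H178R3.Gam
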