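import Mathlib

set_option autoImplicit false

open Finset

namespace Pool.Agent.H178R3.Gor

/-- A nonnegative combination of finitely many vectors is a positive combination of linearly
independent ones among them. -/
theorem exists_indep_rep {ι X : Type} [AddCommGroup X] [Module ℝ X] (f : ι → X) (J : Finset ι)
    (c : ι → ℝ) (hc : ∀ i ∈ J, 0 ≤ c i) : ∃ J' : Finset ι, J' ⊆ J ∧ ∃ c' : ι → ℝ,
      (∀ i ∈ J', 0 < c' i) ∧ ∑ i ∈ J', c' i • f i = ∑ i ∈ J, c i • f i ∧
      LinearIndepOn ℝ f (J' : Set ι) := by
  classical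
  induction J using Finset.strongInduction generalizing c with
  | H J ih =>
    by_cases h0 : ∃ i ∈ J, c i = 0
    · obtain ⟨i, hi, hci⟩ := h0
      obtain ⟨J', hJ', c', h1, h2, h3⟩ := ih (J.erase i) (erase_ssubset hi) c
        (fun k hk => hc k (mem_of_mem_erase hk))
      refine ⟨J', hJ'.trans (erase_subset _ _), c', h1, ?_, h3⟩
      rw [h2, ← Finset.add_sum_erase J _ hi, hci, zero_smul, zero_add]
    · push Not at h0
      have hpos : ∀ i ∈ J, 0 < c i := fun i hi => lt_of_le_of_ne (hc i hi) (h0 i hi).symm
      by_cases hli : LinearIndepOn ℝ f (J : Set ι)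
      · exact ⟨J, Finset.Subset.refl _, c, hpos, rfl, hli⟩
      · rw [linearIndepOn_finset_iff] at hli
        push Not at hli
        obtain ⟨g, hg, j, hj, hgj⟩ := hli
        have hex : ∃ g : ι → ℝ, ∑ i ∈ J, g i • f i = 0 ∧ ∃ j ∈ J, 0 < g j := by
          rcases lt_or_gt_of_ne hgj with h | h
          · refine ⟨-g, ?_, j, hj, by simpa using h⟩
            simp only [Pi.neg_apply, neg_smul, Finset.sum_neg_distrib, hg, neg_zero]
          · exact ⟨g, hg, j, hj, h⟩
        clear hg hgj hj
        obtain ⟨g, hg, j, hj, hgj⟩ := hex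
        obtain ⟨i0, hi0, hmin⟩ := Finset.exists_min_image (J.filter fun i => 0 < g i)
          (fun i => c i / g i) ⟨j, mem_filter.2 ⟨hj, hgj⟩⟩
        rw [mem_filter] at hi0
        set t := c i0 / g i0 with ht
        have ht0 : 0 < t := div_pos (hpos i0 hi0.1) hi0.2
        have hc2 : ∀ i ∈ J, 0 ≤ c i - t * g i := by
          intro i hi
          rcases le_or_gt (g i) 0 with h | h
          · nlinarith [hc i hi]
          · have := hmin i (mem_filter.2 ⟨hi, h⟩)
            rw [le_div_iff₀ h] at this
            linarith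
        obtain ⟨J', hJ', c', h1, h2, h3⟩ := ih (J.erase i0) (erase_ssubset hi0.1)
          (fun i => c i - t * g i) (fun k hk => hc2 k (mem_of_mem_erase hk))
        refine ⟨J', hJ'.trans (erase_subset _ _), c', h1, ?_, h3⟩
        rw [h2]
        have e1 : ∑ i ∈ J.erase i0, (c i - t * g i) • f i =
            ∑ i ∈ J, (c i - t * g i) • f i := by
          rw [← Finset.add_sum_erase J _ hi0.1]
          have : c i0 - t * g i0 = 0 := by
            rw [ht, div_mul_cancel₀ _ hi0.2.ne', sub_self]
          rw [this, zero_smul, zero_add]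
        rw [e1]
        simp only [sub_smul, Finset.sum_sub_distrib, mul_smul, ← Finset.smul_sum, hg, smul_zero,
          sub_zero]

end Pool.Agent.H178R3.Gor
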