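import Pool.Agent.H178R3.GorCarath

set_option autoImplicit false

open Finset Module

namespace Pool.Agent.H178R3.Gor

/-- The data of a Gorenstein cone: `V` are the generators of the cone (lattice points of height
one), `U` integral functionals defining the cone, `n` the height, `M0` the special interior lattice
point, `L` the lattice. -/
structure GData (W : Type) [AddCommGroup W] [Module ℝ W] where
  V : Finset W
  U : Finset (Dual ℝ W)
  n : Dual ℝ W
  M0 : W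
  L : AddSubgroup W
  hVL : ∀ v ∈ V, v ∈ L
  hVn : ∀ v ∈ V, n v = 1
  hUL : ∀ u ∈ U, ∀ z ∈ L, ∃ k : ℤ, u z = k
  hUV : ∀ u ∈ U, ∀ v ∈ V, 0 ≤ u v
  hM : M0 ∈ L
  hUM : ∀ u ∈ U, u M0 = 1
  hC : ∀ z, (∀ u ∈ U, 0 ≤ u z) → ∃ c : W → ℝ, (∀ v ∈ V, 0 ≤ c v) ∧ z = ∑ v ∈ V, c v • v
  hpyr : ∀ v ∈ V, ∀ u ∈ U, u v = 1 → ∃ v' ∈ V, v' ≠ v ∧ u v' ≠ 0

variable {W : Type} [AddCommGroup W] [Module ℝ W] (G : GData W)

/-- Membership in the cone. -/
def GData.Mem (z : W) : Prop := ∀ u ∈ G.U, 0 ≤ u z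

theorem GData.mem_V {v : W} (hv : v ∈ G.V) : G.Mem v := fun u hu => G.hUV u hu v hv

theorem GData.mem_add {y z : W} (hy : G.Mem y) (hz : G.Mem z) : G.Mem (y + z) := by
  intro u hu
  rw [map_add]
  exact add_nonneg (hy u hu) (hz u hu)

theorem GData.height_eq {c : W → ℝ} (S : Finset W) (hS : S ⊆ G.V) :
    G.n (∑ v ∈ S, c v • v) = ∑ v ∈ S, c v := by
  rw [map_sum]
  apply Finset.sum_congr rfl
  intro v hv
  rw [map_smul, G.hVn v (hS hv), smul_eq_mul, mul_one]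

theorem GData.height_sum (S : Finset W) (hS : S ⊆ G.V) : G.n (∑ v ∈ S, v) = S.card := by
  rw [map_sum, Finset.sum_congr rfl fun v hv => G.hVn v (hS hv)]
  simp

theorem GData.height_nonneg {z : W} (hz : G.Mem z) : 0 ≤ G.n z := by
  obtain ⟨c, hc, rfl⟩ := G.hC z hz
  rw [G.height_eq G.V (Finset.Subset.refl _)]
  exact Finset.sum_nonneg hc

theorem GData.eq_zero {z : W} (hz : G.Mem z) (h0 : G.n z = 0) : z = 0 := by
  obtain ⟨c, hc, rfl⟩ := G.hC z hz
  rw [G.height_eq G.V (Finset.Subset.refl _)] at h0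
  apply Finset.sum_eq_zero
  intro v hv
  rw [(Finset.sum_eq_zero_iff_of_nonneg hc).1 h0 v hv, zero_smul]

theorem GData.ext {y z : W} (h : ∀ u ∈ G.U, u y = u z) : y = z := by
  have h1 : G.Mem (y - z) := by
    intro u hu
    rw [map_sub, h u hu, sub_self]
  have h2 : G.Mem (z - y) := by
    intro u hu
    rw [map_sub, h u hu, sub_self]
  have h3 := G.height_nonneg h1
  have h4 := G.height_nonneg h2
  rw [map_sub] at h3 h4
  have h5 := G.eq_zero h1 (by rw [map_sub]; linarith)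
  exact sub_eq_zero.1 h5

theorem GData.int_V {u : Dual ℝ W} (hu : u ∈ G.U) {v : W} (hv : v ∈ G.V) :
    ∃ k : ℕ, u v = k := by
  obtain ⟨k, hk⟩ := G.hUL u hu v (G.hVL v hv)
  have h0 := G.hUV u hu v hv
  rw [hk] at h0
  have h1 : 0 ≤ k := by exact_mod_cast h0
  obtain ⟨m, rfl⟩ := Int.eq_ofNat_of_zero_le h1
  exact ⟨m, by rw [hk]; push_cast; rfl⟩

theorem GData.exists_one {v : W} (hv : v ∈ G.V) (hle : ∀ u ∈ G.U, u v ≤ 1) :
    ∃ u ∈ G.U, u v = 1 := by
  by_contra hcon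
  push Not at hcon
  have h0 : ∀ u ∈ G.U, u v = 0 := by
    intro u hu
    obtain ⟨k, hk⟩ := G.int_V hu hv
    have h1 := hle u hu
    have h2 := hcon u hu
    rw [hk] at h1 h2 ⊢
    have h3 : k ≤ 1 := by exact_mod_cast h1
    have h4 : k ≠ 1 := by exact_mod_cast h2
    have h5 : k = 0 := by omega
    rw [h5, Nat.cast_zero]
  have h1 := G.height_nonneg (z := -v) (by
    intro u hu
    rw [map_neg, h0 u hu, neg_zero])
  rw [map_neg, G.hVn v hv] at h1
  linarith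

theorem GData.exists_other {v : W} (hv : v ∈ G.V) (hle : ∀ u ∈ G.U, u v ≤ 1) {u : Dual ℝ W}
    (hu : u ∈ G.U) (huv : u v = 1) : ∃ u' ∈ G.U, u' ≠ u ∧ u' v = 1 := by
  by_contra hcon
  push Not at hcon
  have h0 : ∀ u' ∈ G.U, u' ≠ u → u' v = 0 := by
    intro u' hu' hne
    obtain ⟨k, hk⟩ := G.int_V hu' hv
    have h1 := hle u' hu'
    have h2 := hcon u' hu' hne
    rw [hk] at h1 h2 ⊢
    have h3 : k ≤ 1 := by exact_mod_cast h1
    have h4 : k ≠ 1 := by exact_mod_cast h2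
    have h5 : k = 0 := by omega
    rw [h5, Nat.cast_zero]
  obtain ⟨v', hv', hne, huv'⟩ := G.hpyr v hv u hu huv
  obtain ⟨k, hk⟩ := G.int_V hu hv'
  have hk0 : k ≠ 0 := by
    rintro rfl
    exact huv' (by rw [hk, Nat.cast_zero])
  have hk1 : (1 : ℝ) ≤ k := by exact_mod_cast Nat.one_le_iff_ne_zero.2 hk0
  have hmem : G.Mem (v' - (k : ℝ) • v) := by
    intro u' hu'
    rw [map_sub, map_smul, smul_eq_mul]
    by_cases h : u' = u
    · rw [h, huv, hk, mul_one, sub_self]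
    · rw [h0 u' hu' h, mul_zero, sub_zero]
      exact G.hUV u' hu' v' hv'
  have h1 := G.height_nonneg hmem
  rw [map_sub, map_smul, smul_eq_mul, G.hVn v hv, G.hVn v' hv', mul_one] at h1
  have hk2 : (k : ℝ) = 1 := by linarith
  have h2 := G.eq_zero hmem (by
    rw [map_sub, map_smul, smul_eq_mul, G.hVn v hv, G.hVn v' hv', mul_one, hk2, sub_self])
  rw [hk2, one_smul] at h2
  exact hne (sub_eq_zero.1 h2)

/-- If `M0 - ∑ A` is in the cone then for `u ∈ U` exactly one of `u w` and the `u v`, `v ∈ A` is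
one, the others vanish. -/
theorem GData.dich {A : Finset W} (hA : A ⊆ G.V) (hw : G.Mem (G.M0 - ∑ v ∈ A, v))
    {u : Dual ℝ W} (hu : u ∈ G.U) :
    (u (G.M0 - ∑ v ∈ A, v) = 1 ∧ ∀ v ∈ A, u v = 0) ∨
    (u (G.M0 - ∑ v ∈ A, v) = 0 ∧ ∃ v ∈ A, u v = 1 ∧ ∀ v' ∈ A, v' ≠ v → u v' = 0) := by
  classical
  have hsum : u (G.M0 - ∑ v ∈ A, v) + ∑ v ∈ A, u v = 1 := by
    rw [map_sub, map_sum, G.hUM u hu]
    ring
  have hw0 := hw u hu
  obtain ⟨k, hk⟩ := G.hUL u hu (G.M0 - ∑ v ∈ A, v)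
    (sub_mem G.hM (sum_mem fun v hv => G.hVL v (hA hv)))
  have hnn : ∀ v ∈ A, 0 ≤ u v := fun v hv => G.hUV u hu v (hA hv)
  by_cases hex : ∃ v ∈ A, u v ≠ 0
  · right
    obtain ⟨v, hv, hne⟩ := hex
    obtain ⟨m, hm⟩ := G.int_V hu (hA hv)
    have hm1 : (1 : ℝ) ≤ u v := by
      rw [hm] at hne ⊢
      have : m ≠ 0 := by exact_mod_cast hne
      exact_mod_cast Nat.one_le_iff_ne_zero.2 this
    rw [← Finset.add_sum_erase A (fun v => u v) hv] at hsum
    have hnn' : ∀ v' ∈ A.erase v, 0 ≤ u v' := fun v' hv' => hnn v' (mem_of_mem_erase hv')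
    have h1 := Finset.sum_nonneg hnn'
    refine ⟨by linarith, v, hv, by linarith, ?_⟩
    intro v' hv' hne'
    have h2 : ∑ v' ∈ A.erase v, u v' = 0 := by linarith
    exact (Finset.sum_eq_zero_iff_of_nonneg hnn').1 h2 v' (mem_erase.2 ⟨hne', hv'⟩)
  · left
    push Not at hex
    rw [Finset.sum_eq_zero hex, add_zero] at hsum
    exact ⟨hsum, hex⟩

theorem GData.le_one {A : Finset W} (hA : A ⊆ G.V) (hw : G.Mem (G.M0 - ∑ v ∈ A, v))
    {v : W} (hv : v ∈ A) : ∀ u ∈ G.U, u v ≤ 1 := by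
  intro u hu
  rcases G.dich hA hw hu with ⟨-, h⟩ | ⟨-, v0, hv0, h1, h2⟩
  · rw [h v hv]; exact zero_le_one
  · by_cases h : v = v0
    · rw [h, h1]
    · rw [h2 v hv h]; exact zero_le_one

/-- A functional nonnegative on `V` and vanishing at `M0` is zero. -/
theorem GData.func_eq_zero {x : Dual ℝ W} (hx : ∀ v ∈ G.V, 0 ≤ x v) (h0 : x G.M0 = 0) :
    x = 0 := by
  have hnn : ∀ z, G.Mem z → 0 ≤ x z := by
    intro z hz
    obtain ⟨c, hc, rfl⟩ := G.hC z hz
    rw [map_sum]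
    apply Finset.sum_nonneg
    intro v hv
    rw [map_smul]
    exact mul_nonneg (hc v hv) (hx v hv)
  have hall : ∀ z, 0 ≤ x z := by
    intro z
    have hex : ∃ K : ℝ, ∀ u ∈ G.U, -u z ≤ K := by
      obtain ⟨K, hK⟩ := (G.U.image fun u => -u z).bddAbove
      exact ⟨K, fun u hu => hK (by simpa using ⟨u, hu, rfl⟩)⟩
    obtain ⟨K, hK⟩ := hex
    have := hnn (z + K • G.M0) (by
      intro u hu
      rw [map_add, map_smul, G.hUM u hu, smul_eq_mul, mul_one]
      have := hK u hu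
      linarith)
    rwa [map_add, map_smul, h0, smul_zero, add_zero] at this
  ext z
  have h1 := hall z
  have h2 := hall (-z)
  rw [map_neg] at h2
  rw [LinearMap.zero_apply]
  linarith

end Pool.Agent.H178R3.Gor
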