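import Mathlib

set_option autoImplicit false

open Set Pointwise

namespace Pool.Agent.H178R3.Gor

/-- Lattice points of `ℝ^ι`: all coordinates are integers. -/
def IsLat {ι : Type} (x : ι → ℝ) : Prop := ∀ i, ∃ z : ℤ, x i = z

/-- A lattice polytope: the convex hull of finitely many lattice points. -/
def IsLatticePolytope {ι : Type} (P : Set (ι → ℝ)) : Prop :=
  ∃ S : Set (ι → ℝ), S.Finite ∧ (∀ x ∈ S, IsLat x) ∧ P = convexHull ℝ S

/-- `A` and `B` are isomorphic as lattice polytopes: an affine map identifies the affine span of `A`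
with that of `B`, carries `A` onto `B`, and carries the lattice points of the affine span of `A`
exactly to the lattice points of the affine span of `B`. -/
def LatIso {ι κ : Type} (A : Set (ι → ℝ)) (B : Set (κ → ℝ)) : Prop :=
  ∃ φ : (ι → ℝ) →ᵃ[ℝ] (κ → ℝ), Set.InjOn φ (affineSpan ℝ A) ∧ φ '' A = B ∧
    ∀ x ∈ affineSpan ℝ A, (IsLat x ↔ IsLat (φ x))

/-- The dual `{y : ⟨x, y⟩ ≥ -1 for all x ∈ Q}`. -/
def dualSet {n : ℕ} (Q : Set (Fin n → ℝ)) : Set (Fin n → ℝ) := {y | ∀ x ∈ Q, -1 ≤ x ⬝ᵥ y}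

/-- A reflexive polytope: a lattice polytope with `0` in its interior whose dual is a lattice
polytope. -/
def IsReflexive {n : ℕ} (Q : Set (Fin n → ℝ)) : Prop :=
  IsLatticePolytope Q ∧ (0 : Fin n → ℝ) ∈ interior Q ∧ IsLatticePolytope (dualSet Q)

/-- `P` is a full-dimensional Gorenstein polytope of codegree `r`: it is a lattice polytope with
nonempty interior, `r ≥ 1` is least such that `r P` has an interior lattice point, and `r P - m` is
reflexive for some lattice point `m`. -/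
def IsGorenstein {n : ℕ} (P : Set (Fin n → ℝ)) (r : ℕ) : Prop :=
  IsLatticePolytope P ∧ (interior P).Nonempty ∧
    IsLeast {k : ℕ | 1 ≤ k ∧ ∃ x ∈ interior ((k : ℝ) • P), IsLat x} r ∧
    ∃ m : Fin n → ℝ, IsLat m ∧ IsReflexive ((fun x => x - m) '' ((r : ℝ) • P))

/-- The pyramid `conv (Q × {0}, (0, …, 0, 1))` in `ℝ^(n+1)`. -/
def pyramid {n : ℕ} (Q : Set (Fin n → ℝ)) : Set (Fin (n + 1) → ℝ) :=
  convexHull ℝ ((fun q => (Fin.snoc q 0 : Fin (n + 1) → ℝ)) '' Q ∪ {Pi.single (Fin.last n) 1})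

/-- `P` is a lattice pyramid: it is isomorphic to the pyramid over a lattice polytope. -/
def IsLatticePyramid {n : ℕ} (P : Set (Fin n → ℝ)) : Prop :=
  ∃ (k : ℕ) (Q : Set (Fin k → ℝ)), IsLatticePolytope Q ∧ LatIso P (pyramid Q)

/-- The Cayley polytope of a family of subsets of `ℝ^n` indexed by `κ`: the convex hull in `ℝ^(n+κ)`
of the union of the `P_i × {e_i}`. -/
def cayley {n : ℕ} {κ : Type} [DecidableEq κ] (F : κ → Set (Fin n → ℝ)) :
    Set (Fin n ⊕ κ → ℝ) :=
  convexHull ℝ (⋃ i, (fun x => (Sum.elim x (Pi.single i 1) : Fin n ⊕ κ → ℝ)) '' F i)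

/-- The segments `conv (0, e_i)` and `conv (0, -e_i)` in `ℝ^s`. -/
def segs (s : ℕ) : Fin s ⊕ Fin s → Set (Fin s → ℝ)
  | Sum.inl i => segment ℝ 0 (Pi.single i 1)
  | Sum.inr i => segment ℝ 0 (-Pi.single i 1)

/-- The polytope `C_s`, the Cayley polytope of the `2 s` segments `conv (0, e_i)`,
`conv (0, -e_i)`. -/
def Cs (s : ℕ) : Set (Fin s ⊕ (Fin s ⊕ Fin s) → ℝ) := cayley (segs s)

end Pool.Agent.H178R3.Gor
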