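import Pool.Agent.H178R3.GorPairs
import Pool.Agent.H178R3.GorDefs

set_option autoImplicit false

open Set Pointwise Module

namespace Pool.Agent.H178R3.Gor

variable {d : ℕ}

/-- The hypotheses on the generating sets of a Gorenstein polytope and of the dual. -/
structure Hyp (V Y : Finset (Fin d → ℝ)) (m : Fin d → ℝ) (r : ℕ) : Prop where
  hd : 0 < d
  hV : ∀ v ∈ V, IsLat v
  hY : ∀ y ∈ Y, IsLat y
  hm : IsLat m
  hr : 1 ≤ r
  h0 : (0 : Fin d → ℝ) ∈ interior ((fun x => x - m) '' ((r : ℝ) • convexHull ℝ (V : Set (Fin d → ℝ))))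
  hdual : dualSet ((fun x => x - m) '' ((r : ℝ) • convexHull ℝ (V : Set (Fin d → ℝ)))) =
    convexHull ℝ (Y : Set (Fin d → ℝ))

variable {V Y : Finset (Fin d → ℝ)} {m : Fin d → ℝ} {r : ℕ}

theorem convex_halfspace (y : Fin d → ℝ) (c : ℝ) : Convex ℝ {x : Fin d → ℝ | c ≤ x ⬝ᵥ y} := by
  intro x hx z hz a b ha hb hab
  simp only [Set.mem_ofPred] at *
  rw [add_dotProduct, smul_dotProduct, smul_dotProduct, smul_eq_mul, smul_eq_mul]
  have h1 := mul_le_mul_of_nonneg_left hx ha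
  have h2 := mul_le_mul_of_nonneg_left hz hb
  have h3 : c = a * c + b * c := by rw [← add_mul, hab, one_mul]
  linarith

theorem convex_halfspace' (x : Fin d → ℝ) (c : ℝ) : Convex ℝ {y : Fin d → ℝ | c ≤ x ⬝ᵥ y} := by
  have : {y : Fin d → ℝ | c ≤ x ⬝ᵥ y} = {y : Fin d → ℝ | c ≤ y ⬝ᵥ x} := by
    ext y
    simp only [Set.mem_ofPred]
    rw [dotProduct_comm]
  rw [this]
  exact convex_halfspace x c

theorem mem_Q {p : Fin d → ℝ} (hp : p ∈ convexHull ℝ (V : Set (Fin d → ℝ))) :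
    (r : ℝ) • p - m ∈ (fun x => x - m) '' ((r : ℝ) • convexHull ℝ (V : Set (Fin d → ℝ))) :=
  ⟨(r : ℝ) • p, Set.smul_mem_smul_set hp, rfl⟩

theorem Q_forall {y : Fin d → ℝ} {c : ℝ} (h : ∀ v ∈ V, c ≤ ((r : ℝ) • v - m) ⬝ᵥ y) :
    ∀ x ∈ (fun x => x - m) '' ((r : ℝ) • convexHull ℝ (V : Set (Fin d → ℝ))), c ≤ x ⬝ᵥ y := by
  rintro _ ⟨_, ⟨p, hp, rfl⟩, rfl⟩
  have hconv : Convex ℝ {p : Fin d → ℝ | c ≤ ((r : ℝ) • p - m) ⬝ᵥ y} := by
    intro x hx z hz a b ha hb hab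
    simp only [Set.mem_ofPred, sub_dotProduct, smul_dotProduct, add_dotProduct,
      smul_eq_mul] at *
    have : c = a * c + b * c := by rw [← add_mul, hab, one_mul]
    have h2 : m ⬝ᵥ y = a * (m ⬝ᵥ y) + b * (m ⬝ᵥ y) := by rw [← add_mul, hab, one_mul]
    nlinarith
  exact convexHull_min (fun v hv => h v hv) hconv hp

theorem int_dot {x y : Fin d → ℝ} (hx : IsLat x) (hy : IsLat y) : ∃ k : ℤ, x ⬝ᵥ y = k := by
  choose a ha using hx
  choose b hb using hy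
  refine ⟨∑ i, a i * b i, ?_⟩
  rw [dotProduct]
  push_cast
  exact Finset.sum_congr rfl fun i _ => by rw [ha, hb]

theorem IsLat.sub' {ι : Type} {x y : ι → ℝ} (hx : IsLat x) (hy : IsLat y) : IsLat (x - y) := by
  intro i
  obtain ⟨a, ha⟩ := hx i
  obtain ⟨b, hb⟩ := hy i
  exact ⟨a - b, by rw [Pi.sub_apply, ha, hb]; push_cast; rfl⟩

theorem IsLat.add' {ι : Type} {x y : ι → ℝ} (hx : IsLat x) (hy : IsLat y) : IsLat (x + y) := by
  intro i
  obtain ⟨a, ha⟩ := hx i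
  obtain ⟨b, hb⟩ := hy i
  exact ⟨a + b, by rw [Pi.add_apply, ha, hb]; push_cast; rfl⟩

theorem IsLat.smul' {ι : Type} {x : ι → ℝ} (hx : IsLat x) {c : ℝ} (hc : ∃ k : ℤ, c = k) :
    IsLat (c • x) := by
  intro i
  obtain ⟨a, ha⟩ := hx i
  obtain ⟨b, hb⟩ := hc
  exact ⟨b * a, by rw [Pi.smul_apply, ha, hb, smul_eq_mul]; push_cast; rfl⟩

/-- The constant term of the functional attached to `y`. -/
noncomputable def kf (m : Fin d → ℝ) (r : ℕ) (y : Fin d → ℝ) : ℝ := (1 - m ⬝ᵥ y) / r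

/-- The functional attached to `y`. -/
noncomputable def uf (m : Fin d → ℝ) (r : ℕ) (y : Fin d → ℝ) : ((Fin d → ℝ) × ℝ) →ₗ[ℝ] ℝ where
  toFun z := z.1 ⬝ᵥ y + kf m r y * z.2
  map_add' x z := by
    simp only [Prod.fst_add, Prod.snd_add, add_dotProduct]
    ring
  map_smul' c z := by
    simp only [Prod.smul_fst, Prod.smul_snd, smul_dotProduct, smul_eq_mul, RingHom.id_apply]
    ring

theorem uf_apply (y : Fin d → ℝ) (z : (Fin d → ℝ) × ℝ) :
    uf m r y z = z.1 ⬝ᵥ y + kf m r y * z.2 := rfl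

namespace Hyp

variable (H : Hyp V Y m r)

include H

theorem rpos : (0 : ℝ) < r := by exact_mod_cast H.hr

theorem kf_mul (y : Fin d → ℝ) : r * kf m r y = 1 - m ⬝ᵥ y := by
  rw [kf]
  field_simp [H.rpos.ne']

theorem Y_dual {y : Fin d → ℝ} (hy : y ∈ Y) : y ∈ dualSet ((fun x => x - m) ''
    ((r : ℝ) • convexHull ℝ (V : Set (Fin d → ℝ)))) := by
  rw [H.hdual]
  exact subset_convexHull ℝ _ hy

theorem touch {v y : Fin d → ℝ} (hv : v ∈ V) (hy : y ∈ Y) :
    -1 ≤ r * (v ⬝ᵥ y) - m ⬝ᵥ y := by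
  have := H.Y_dual hy _ (mem_Q (subset_convexHull ℝ _ hv))
  rwa [sub_dotProduct, smul_dotProduct, smul_eq_mul] at this

theorem uf_nonneg {v y : Fin d → ℝ} (hv : v ∈ V) (hy : y ∈ Y) : 0 ≤ uf m r y (v, 1) := by
  rw [uf_apply, mul_one]
  have h1 := H.touch hv hy
  have h2 := H.kf_mul y
  have h3 := H.rpos
  have h4 : 0 ≤ r * (v ⬝ᵥ y + kf m r y) := by
    rw [mul_add, h2]
    linarith
  exact nonneg_of_mul_nonneg_right h4 h3

theorem exists_neg {y : Fin d → ℝ} (hy : y ≠ 0) : ∃ v ∈ V, ((r : ℝ) • v - m) ⬝ᵥ y < 0 := by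
  by_contra hcon
  push Not at hcon
  have h1 := Q_forall hcon
  have h2 : ∀ᶠ t : ℝ in nhds 0, (-t) • y ∈ ((fun x => x - m) ''
      ((r : ℝ) • convexHull ℝ (V : Set (Fin d → ℝ)))) := by
    have hcont : Continuous fun t : ℝ => (-t) • y := by fun_prop
    have h4 := hcont.continuousAt.preimage_mem_nhds (t := (fun x => x - m) ''
      ((r : ℝ) • convexHull ℝ (V : Set (Fin d → ℝ)))) (x := 0) (by
        rw [neg_zero, zero_smul]
        exact mem_interior_iff_mem_nhds.1 H.h0)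
    exact h4
  obtain ⟨ε, hε, hball⟩ := Metric.eventually_nhds_iff.1 h2
  have h3 := hball (y := ε / 2) (by
    rw [Real.dist_eq, sub_zero, abs_of_pos (by positivity)]
    linarith)
  have h4 := h1 _ h3
  rw [smul_dotProduct, smul_eq_mul] at h4
  have h5 : 0 < y ⬝ᵥ y := by
    rw [dotProduct]
    have h6 : ∃ i, y i ≠ 0 := by
      by_contra hc
      push Not at hc
      exact hy (funext hc)
    obtain ⟨i, hi⟩ := h6
    have h7 := Finset.single_le_sum (f := fun i => y i * y i) (fun i _ => mul_self_nonneg _)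
      (Finset.mem_univ i)
    have h8 : 0 < y i * y i := mul_self_pos.2 hi
    linarith
  nlinarith

theorem kf_int {y : Fin d → ℝ} (hy : y ∈ Y) (hy0 : y ≠ 0) : ∃ k : ℤ, kf m r y = k := by
  obtain ⟨v, hv, hneg⟩ := H.exists_neg hy0
  obtain ⟨a, ha⟩ := int_dot (H.hV v hv) (H.hY y hy)
  obtain ⟨b, hb⟩ := int_dot H.hm (H.hY y hy)
  have h1 := H.touch hv hy
  rw [sub_dotProduct, smul_dotProduct, smul_eq_mul] at hneg
  rw [ha, hb] at h1 hneg
  have h2 : (-1 : ℤ) ≤ (r : ℤ) * a - b := by exact_mod_cast h1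
  have h3 : (r : ℤ) * a - b < 0 := by exact_mod_cast hneg
  have h4 : (r : ℤ) * a - b = -1 := by omega
  refine ⟨-a, ?_⟩
  have h5 := H.kf_mul y
  rw [hb] at h5
  have h6 : (r : ℝ) * a - b = -1 := by exact_mod_cast h4
  have h7 : (r : ℝ) * kf m r y = r * ((-a : ℤ) : ℝ) := by
    rw [h5]
    push_cast
    linarith
  exact mul_left_cancel₀ H.rpos.ne' h7

/-- Points of positive height satisfying the inequalities. -/
theorem mem_of_pos {z : (Fin d → ℝ) × ℝ} (hz : ∀ y ∈ Y, y ≠ 0 → 0 ≤ uf m r y z) (ht : 0 < z.2) :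
    z.2⁻¹ • z.1 ∈ convexHull ℝ (V : Set (Fin d → ℝ)) := by
  by_contra hcon
  set q := z.2⁻¹ • z.1 with hq
  set Q := (fun x => x - m) '' ((r : ℝ) • convexHull ℝ (V : Set (Fin d → ℝ))) with hQ
  have hclosed : IsClosed Q := by
    have h1 : IsClosed (convexHull ℝ (V : Set (Fin d → ℝ))) :=
      V.finite_toSet.isClosed_convexHull ℝ
    have h2 : IsClosed ((r : ℝ) • convexHull ℝ (V : Set (Fin d → ℝ))) :=
      h1.smul_of_ne_zero H.rpos.ne'
    exact (Homeomorph.subRight m).isClosedMap _ h2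
  have hconv : Convex ℝ Q := by
    have h1 : Convex ℝ ((r : ℝ) • convexHull ℝ (V : Set (Fin d → ℝ))) :=
      (convex_convexHull ℝ _).smul _
    have e : Q = (fun x => -m + x) '' ((r : ℝ) • convexHull ℝ (V : Set (Fin d → ℝ))) := by
      rw [hQ]
      apply Set.image_congr
      intro x _
      rw [sub_eq_neg_add]
    rw [e]
    exact h1.translate (-m)
  have hx : (r : ℝ) • q - m ∉ Q := by
    rintro ⟨_, ⟨p, hp, rfl⟩, h⟩
    have h1 : (r : ℝ) • p = (r : ℝ) • q := sub_left_injective h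
    have h2 := smul_right_injective _ H.rpos.ne' h1
    exact hcon (h2 ▸ hp)
  obtain ⟨f, u, hfx, hfQ⟩ := geometric_hahn_banach_point_closed hconv hclosed hx
  let y0 : Fin d → ℝ := fun i => f (Pi.single i 1)
  have hf : ∀ x, f x = x ⬝ᵥ y0 := by
    intro x
    conv_lhs => rw [pi_eq_sum_univ' x]
    rw [map_sum, dotProduct]
    apply Finset.sum_congr rfl
    intro i _
    rw [map_smul, smul_eq_mul]
  have hu : u < 0 := by
    have := hfQ 0 (interior_subset H.h0)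
    rwa [map_zero] at this
  have hu' : 0 < -u⁻¹ := by
    have := inv_lt_zero.2 hu
    linarith
  have hy : (-u⁻¹) • y0 ∈ convexHull ℝ (Y : Set (Fin d → ℝ)) := by
    rw [← H.hdual]
    intro b hb
    rw [dotProduct_smul, ← hf, smul_eq_mul]
    have h1 := hfQ b hb
    have h2 : -u⁻¹ * u = -1 := by
      rw [neg_mul, inv_mul_cancel₀ hu.ne]
    nlinarith
  have hex : ∃ y ∈ Y, ((r : ℝ) • q - m) ⬝ᵥ y < -1 := by
    by_contra hc
    push Not at hc
    have h1 : -1 ≤ ((r : ℝ) • q - m) ⬝ᵥ ((-u⁻¹) • y0) :=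
      convexHull_min (s := (Y : Set (Fin d → ℝ))) (fun y hy => hc y hy)
        (convex_halfspace' ((r : ℝ) • q - m) (-1)) hy
    rw [dotProduct_smul, ← hf, smul_eq_mul] at h1
    have h2 : -u⁻¹ * u = -1 := by
      rw [neg_mul, inv_mul_cancel₀ hu.ne]
    nlinarith
  obtain ⟨y, hyY, hy1⟩ := hex
  have hy0 : y ≠ 0 := by
    rintro rfl
    rw [dotProduct_zero] at hy1
    linarith
  have h1 := hz y hyY hy0
  rw [uf_apply] at h1
  have h2 : z.1 = z.2 • q := by rw [hq, smul_smul, mul_inv_cancel₀ ht.ne', one_smul]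
  rw [h2, smul_dotProduct, smul_eq_mul] at h1
  rw [sub_dotProduct, smul_dotProduct, smul_eq_mul] at hy1
  have h3 := H.kf_mul y
  have h4 : 0 ≤ r * (z.2 * (q ⬝ᵥ y) + kf m r y * z.2) := mul_nonneg H.rpos.le h1
  have h5 : r * (z.2 * (q ⬝ᵥ y) + kf m r y * z.2) =
      z.2 * (r * (q ⬝ᵥ y) + r * kf m r y) := by ring
  rw [h5, h3] at h4
  nlinarith

theorem exists_dual_neg {p : Fin d → ℝ} (hp : p ≠ 0) : ∃ y ∈ Y, y ≠ 0 ∧ p ⬝ᵥ y < 0 := by
  set K := 1 + ∑ v ∈ V, |((r : ℝ) • v - m) ⬝ᵥ p| with hK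
  have hK1 : 0 < K := by
    have : 0 ≤ ∑ v ∈ V, |((r : ℝ) • v - m) ⬝ᵥ p| := Finset.sum_nonneg fun _ _ => abs_nonneg _
    linarith
  have hmem : (-K⁻¹) • p ∈ convexHull ℝ (Y : Set (Fin d → ℝ)) := by
    rw [← H.hdual]
    apply Q_forall
    intro v hv
    rw [dotProduct_smul, smul_eq_mul]
    have h1 : |((r : ℝ) • v - m) ⬝ᵥ p| ≤ K := by
      have := Finset.single_le_sum (f := fun v => |((r : ℝ) • v - m) ⬝ᵥ p|)
        (fun _ _ => abs_nonneg _) hv
      linarith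
    have h2 := le_abs_self (((r : ℝ) • v - m) ⬝ᵥ p)
    have h3 : K⁻¹ * K = 1 := inv_mul_cancel₀ hK1.ne'
    have h4 : 0 < K⁻¹ := inv_pos.2 hK1
    nlinarith
  have hpp : 0 < p ⬝ᵥ p := by
    rw [dotProduct]
    have h6 : ∃ i, p i ≠ 0 := by
      by_contra hc
      push Not at hc
      exact hp (funext hc)
    obtain ⟨i, hi⟩ := h6
    have h7 := Finset.single_le_sum (f := fun i => p i * p i) (fun i _ => mul_self_nonneg _)
      (Finset.mem_univ i)
    have h8 : 0 < p i * p i := mul_self_pos.2 hi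
    linarith
  have hex : ∃ y ∈ Y, p ⬝ᵥ y < 0 := by
    by_contra hc
    push Not at hc
    have h1 : 0 ≤ p ⬝ᵥ ((-K⁻¹) • p) :=
      convexHull_min (s := (Y : Set (Fin d → ℝ))) (fun y hy => hc y hy)
        (convex_halfspace' p 0) hmem
    rw [dotProduct_smul, smul_eq_mul] at h1
    have h4 : 0 < K⁻¹ := inv_pos.2 hK1
    nlinarith
  obtain ⟨y, hy, h⟩ := hex
  refine ⟨y, hy, ?_, h⟩
  rintro rfl
  rw [dotProduct_zero] at h
  exact lt_irrefl _ h

theorem eq_zero_of_nonpos {z : (Fin d → ℝ) × ℝ} (hz : ∀ y ∈ Y, y ≠ 0 → 0 ≤ uf m r y z)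
    (ht : z.2 ≤ 0) : z = 0 := by
  have hform : ∀ y, uf m r y z = (z.1 - (z.2 / r) • m) ⬝ᵥ y + z.2 / r := by
    intro y
    rw [uf_apply, sub_dotProduct, smul_dotProduct, smul_eq_mul, kf]
    ring
  have htr : z.2 / r ≤ 0 := div_nonpos_of_nonpos_of_nonneg ht H.rpos.le
  have hp : z.1 - (z.2 / r) • m = 0 := by
    by_contra hne
    obtain ⟨y, hy, hy0, hneg⟩ := H.exists_dual_neg hne
    have := hz y hy hy0
    rw [hform] at this
    linarith
  have hexy : ∃ y ∈ Y, y ≠ 0 := by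
    obtain ⟨y, hy, hy0, -⟩ := H.exists_dual_neg (p := Pi.single ⟨0, H.hd⟩ 1) (by
      intro h
      have := congrFun h ⟨0, H.hd⟩
      simp at this)
    exact ⟨y, hy, hy0⟩
  obtain ⟨y, hy, hy0⟩ := hexy
  have h1 := hz y hy hy0
  rw [hform, hp, zero_dotProduct, zero_add] at h1
  have h2 : z.2 / r = 0 := le_antisymm htr h1
  have h3 : z.2 = 0 := by
    rcases div_eq_zero_iff.1 h2 with h | h
    · exact h
    · exact absurd h H.rpos.ne'
  rw [h2, zero_smul, sub_zero] at hp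
  exact Prod.ext hp h3

end Hyp

end Pool.Agent.H178R3.Gor
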