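import Pool.Agent.H178R3.GorLink

set_option autoImplicit false

open Set Pointwise Module

namespace Pool.Agent.H178R3.Gor

theorem cayley_gen {s : ℕ} {x : Fin s → ℝ} {i : Fin s ⊕ Fin s} (hx : x ∈ segs s i) :
    (Sum.elim x (Pi.single i 1) : Fin s ⊕ (Fin s ⊕ Fin s) → ℝ) ∈ Cs s :=
  subset_convexHull ℝ _ (Set.mem_iUnion.2 ⟨i, x, hx, rfl⟩)

/-- The points given by the facet inequalities lie in `C_s`. -/
theorem mem_Cs {s : ℕ} (X A B : Fin s → ℝ) (hA : ∀ q, 0 ≤ A q) (hB : ∀ q, 0 ≤ B q)
    (hXA : ∀ q, X q ≤ A q) (hXB : ∀ q, -B q ≤ X q) (hsum : ∑ q, (A q + B q) = 1) :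
    (Sum.elim X (Sum.elim A B) : Fin s ⊕ (Fin s ⊕ Fin s) → ℝ) ∈ Cs s := by
  have hconv : Convex ℝ (Cs s) := convex_convexHull ℝ _
  let w : Fin s × Fin 4 → ℝ := fun p =>
    (![max (X p.1) 0, A p.1 - max (X p.1) 0, max (-X p.1) 0, B p.1 - max (-X p.1) 0] :
      Fin 4 → ℝ) p.2
  let pt : Fin s × Fin 4 → (Fin s ⊕ (Fin s ⊕ Fin s) → ℝ) := fun p =>
    (![Sum.elim (Pi.single p.1 1) (Pi.single (Sum.inl p.1) 1),
      Sum.elim 0 (Pi.single (Sum.inl p.1) 1),
      Sum.elim (-Pi.single p.1 1) (Pi.single (Sum.inr p.1) 1),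
      Sum.elim 0 (Pi.single (Sum.inr p.1) 1)] :
      Fin 4 → (Fin s ⊕ (Fin s ⊕ Fin s) → ℝ)) p.2
  have hmax : ∀ q, max (X q) 0 - max (-X q) 0 = X q := by
    intro q
    rcases le_total 0 (X q) with h | h
    · rw [max_eq_left h, max_eq_right (by linarith), sub_zero]
    · rw [max_eq_right h, max_eq_left (by linarith)]; ring
  have heq : (Sum.elim X (Sum.elim A B) : Fin s ⊕ (Fin s ⊕ Fin s) → ℝ) = ∑ p, w p • pt p := by
    rw [Fintype.sum_prod_type]
    funext k
    rw [Finset.sum_apply]
    simp only [Fin.sum_univ_four, Pi.add_apply, Pi.smul_apply, smul_eq_mul]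
    simp only [w, pt, Matrix.cons_val_zero, Matrix.cons_val_one, Matrix.cons_val]
    rcases k with t | t | t
    · simp only [Sum.elim_inl, Pi.zero_apply, mul_zero, add_zero, Pi.neg_apply]
      have : ∀ q, max (X q) 0 * (Pi.single q (1 : ℝ) : Fin s → ℝ) t +
          max (-X q) 0 * -(Pi.single q (1 : ℝ) : Fin s → ℝ) t = if t = q then X q else 0 := by
        intro q
        rw [Pi.single_apply]
        split_ifs with h
        · linarith [hmax q]
        · ring
      simp only [this, Finset.sum_ite_eq, Finset.mem_univ, if_true]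
    · simp only [Sum.elim_inr, Sum.elim_inl]
      have : ∀ q, max (X q) 0 * (Pi.single (Sum.inl q) (1 : ℝ) : Fin s ⊕ Fin s → ℝ) (Sum.inl t) +
          (A q - max (X q) 0) * (Pi.single (Sum.inl q) (1 : ℝ) : Fin s ⊕ Fin s → ℝ) (Sum.inl t) +
          max (-X q) 0 * (Pi.single (Sum.inr q) (1 : ℝ) : Fin s ⊕ Fin s → ℝ) (Sum.inl t) +
          (B q - max (-X q) 0) * (Pi.single (Sum.inr q) (1 : ℝ) : Fin s ⊕ Fin s → ℝ) (Sum.inl t) =
          if t = q then A q else 0 := by
        intro q
        rw [Pi.single_apply, Pi.single_apply, if_neg (fun h => Sum.inl_ne_inr h)]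
        simp only [Sum.inl.injEq]
        split_ifs with h
        · ring
        · ring
      simp only [this, Finset.sum_ite_eq, Finset.mem_univ, if_true]
    · simp only [Sum.elim_inr]
      have : ∀ q, max (X q) 0 * (Pi.single (Sum.inl q) (1 : ℝ) : Fin s ⊕ Fin s → ℝ) (Sum.inr t) +
          (A q - max (X q) 0) * (Pi.single (Sum.inl q) (1 : ℝ) : Fin s ⊕ Fin s → ℝ) (Sum.inr t) +
          max (-X q) 0 * (Pi.single (Sum.inr q) (1 : ℝ) : Fin s ⊕ Fin s → ℝ) (Sum.inr t) +
          (B q - max (-X q) 0) * (Pi.single (Sum.inr q) (1 : ℝ) : Fin s ⊕ Fin s → ℝ) (Sum.inr t) =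
          if t = q then B q else 0 := by
        intro q
        rw [Pi.single_apply, Pi.single_apply, if_neg (fun h => Sum.inr_ne_inl h)]
        simp only [Sum.inr.injEq]
        split_ifs with h
        · ring
        · ring
      simp only [this, Finset.sum_ite_eq, Finset.mem_univ, if_true]
  rw [heq]
  apply hconv.sum_mem
  · rintro ⟨q, t⟩ _
    have h1 := hA q
    have h2 := hB q
    have h3 := hXA q
    have h4 := hXB q
    fin_cases t
    · exact le_max_right _ _
    · show 0 ≤ A q - max (X q) 0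
      have := max_le h3 h1
      linarith
    · exact le_max_right _ _
    · show 0 ≤ B q - max (-X q) 0
      have : max (-X q) 0 ≤ B q := max_le (by linarith) h2
      linarith
  · rw [Fintype.sum_prod_type, ← hsum]
    apply Finset.sum_congr rfl
    intro q _
    rw [Fin.sum_univ_four]
    show max (X q) 0 + (A q - max (X q) 0) + max (-X q) 0 + (B q - max (-X q) 0) = _
    ring
  · rintro ⟨q, t⟩ _
    fin_cases t
    · exact cayley_gen (i := Sum.inl q) (right_mem_segment ℝ _ _)
    · exact cayley_gen (i := Sum.inl q) (left_mem_segment ℝ _ _)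
    · exact cayley_gen (i := Sum.inr q) (right_mem_segment ℝ _ _)
    · exact cayley_gen (i := Sum.inr q) (left_mem_segment ℝ _ _)

theorem latIso_Cs {d : ℕ} {V Y : Finset (Fin d → ℝ)} {m : Fin d → ℝ} {r : ℕ}
    (H : Hyp V Y m r) (hpyr : ¬ IsLatticePyramid (convexHull ℝ (V : Set (Fin d → ℝ))))
    {s : ℕ} (hd : d + 1 = 3 * s) (hrs : r + s = d + 1) :
    LatIso (convexHull ℝ (V : Set (Fin d → ℝ))) (Cs s) := by
  classical
  let G := H.data hpyr
  have hnM : G.n G.M0 = 2 * s := by
    show (r : ℝ) = 2 * s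
    have : r = 2 * s := by omega
    rw [this]
    push_cast
    rfl
  have hdim : finrank ℝ ((Fin d → ℝ) × ℝ) = 3 * s := by
    rw [Module.finrank_prod, finrank_fintype_fun_eq_card, Fintype.card_fin, finrank_self, hd]
  obtain ⟨i, j, v, v', a, b, a', b', hVm, hUm, hUall, hx, ha, ha', hb, hb'⟩ :=
    G.main2 s hnM hdim
  have hrecon : ∀ z : (Fin d → ℝ) × ℝ, z = ∑ q, (a q z • i q + b q z • j q +
      (a' q z - a q z) • v' q) := by
    intro z
    apply G.ext
    intro u hu
    have key : ∀ u : Dual ℝ ((Fin d → ℝ) × ℝ), u (∑ q, (a q z • i q + b q z • j q +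
        (a' q z - a q z) • v' q)) = ∑ q, (a q z * u (i q) + b q z * u (j q) +
        (a' q z - a q z) * u (v' q)) := by
      intro u
      rw [map_sum]
      apply Finset.sum_congr rfl
      intro q _
      rw [map_add, map_add, map_smul, map_smul, map_smul, smul_eq_mul, smul_eq_mul, smul_eq_mul]
    rw [key]
    obtain ⟨p, rfl | rfl | rfl | rfl⟩ := hUall u hu
    · have : ∀ q, a q z * a p (i q) + b q z * a p (j q) + (a' q z - a q z) * a p (v' q) =
          if p = q then a q z else 0 := by
        intro q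
        rw [(ha p q).1, (ha p q).2.1, (ha p q).2.2.2]
        split_ifs <;> ring
      simp only [this, Finset.sum_ite_eq, Finset.mem_univ, if_true]
    · have : ∀ q, a q z * b p (i q) + b q z * b p (j q) + (a' q z - a q z) * b p (v' q) =
          if p = q then b q z else 0 := by
        intro q
        rw [(hb p q).1, (hb p q).2.1, (hb p q).2.2.2]
        split_ifs <;> ring
      simp only [this, Finset.sum_ite_eq, Finset.mem_univ, if_true]
    · have : ∀ q, a q z * a' p (i q) + b q z * a' p (j q) + (a' q z - a q z) * a' p (v' q) =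
          if p = q then a' q z else 0 := by
        intro q
        rw [(ha' p q).1, (ha' p q).2.1, (ha' p q).2.2.2]
        split_ifs <;> ring
      simp only [this, Finset.sum_ite_eq, Finset.mem_univ, if_true]
    · have : ∀ q, a q z * b' p (i q) + b q z * b' p (j q) + (a' q z - a q z) * b' p (v' q) =
          if p = q then b' q z else 0 := by
        intro q
        have h1 : a' q z - a q z = b' q z - b q z := by
          rw [← LinearMap.sub_apply, hx q, LinearMap.sub_apply]
        rw [(hb' p q).1, (hb' p q).2.1, (hb' p q).2.2.2, h1]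
        split_ifs <;> ring
      simp only [this, Finset.sum_ite_eq, Finset.mem_univ, if_true]
  have hxz : ∀ q z, a' q z - a q z = b' q z - b q z := by
    intro q z
    rw [← LinearMap.sub_apply, hx q, LinearMap.sub_apply]
  have hheight : ∀ z : (Fin d → ℝ) × ℝ, z.2 = ∑ q, (a q z + b' q z) := by
    intro z
    have h1 := congrArg G.n (hrecon z)
    rw [map_sum] at h1
    have h2 : G.n z = z.2 := rfl
    rw [h2] at h1
    rw [h1]
    apply Finset.sum_congr rfl
    intro q _
    rw [map_add, map_add, map_smul, map_smul, map_smul, G.hVn _ (hVm q).1, G.hVn _ (hVm q).2.1,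
      G.hVn _ (hVm q).2.2.2, hxz q z]
    simp only [smul_eq_mul, mul_one]
    ring
  -- membership in `P`
  have hPmem : ∀ p : Fin d → ℝ, p ∈ convexHull ℝ (V : Set (Fin d → ℝ)) ↔ G.Mem (p, 1) := by
    intro p
    constructor
    · intro hp u hu
      obtain ⟨y, hy, rfl⟩ := Finset.mem_image.1 hu
      have hyY := (Finset.mem_filter.1 hy).1
      rw [uf_apply]
      have hle : ∀ v ∈ V, -kf m r y ≤ v ⬝ᵥ y := by
        intro v hv
        have := H.uf_nonneg hv hyY
        rw [uf_apply] at this
        have h2 : 0 ≤ v ⬝ᵥ y + kf m r y * 1 := this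
        linarith
      have h3 : -kf m r y ≤ p ⬝ᵥ y :=
        convexHull_min (s := (V : Set (Fin d → ℝ))) (fun v hv => hle v hv)
          (convex_halfspace y (-kf m r y)) hp
      show 0 ≤ p ⬝ᵥ y + kf m r y * 1
      linarith
    · intro hp
      have h1 := H.mem_of_pos (z := (p, 1)) (fun y hy hy0 =>
        hp _ (Finset.mem_image.2 ⟨y, Finset.mem_filter.2 ⟨hy, hy0⟩, rfl⟩)) (by norm_num)
      have h2 : ((p, (1 : ℝ)).2)⁻¹ • (p, (1 : ℝ)).1 = p := by simp
      rwa [h2] at h1
  have hVmem : ∀ z ∈ G.V, ∃ p ∈ convexHull ℝ (V : Set (Fin d → ℝ)), z = (p, (1 : ℝ)) := by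
    intro z hz
    obtain ⟨p, hp, rfl⟩ := Finset.mem_image.1 hz
    exact ⟨p, subset_convexHull ℝ _ hp, rfl⟩
  -- the map
  let lin : ((Fin d → ℝ) × ℝ) →ₗ[ℝ] (Fin s ⊕ (Fin s ⊕ Fin s) → ℝ) :=
    { toFun := fun z => Sum.elim (fun q => a q z - a' q z) (Sum.elim (fun q => a q z)
        (fun q => b' q z))
      map_add' := by
        intro x z
        funext k
        rcases k with t | t | t
        · simp only [Sum.elim_inl, Pi.add_apply, map_add]; ring
        · simp only [Sum.elim_inl, Sum.elim_inr, Pi.add_apply, map_add]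
        · simp only [Sum.elim_inr, Pi.add_apply, map_add]
      map_smul' := by
        intro c z
        funext k
        rcases k with t | t | t
        · simp only [Sum.elim_inl, Pi.smul_apply, map_smul, smul_eq_mul, RingHom.id_apply]; ring
        · simp only [Sum.elim_inl, Sum.elim_inr, Pi.smul_apply, map_smul, smul_eq_mul,
            RingHom.id_apply]
        · simp only [Sum.elim_inr, Pi.smul_apply, map_smul, smul_eq_mul, RingHom.id_apply] }
  have hlin : ∀ z, lin z = Sum.elim (fun q => a q z - a' q z) (Sum.elim (fun q => a q z)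
        (fun q => b' q z)) := fun z => rfl
  let φ : (Fin d → ℝ) →ᵃ[ℝ] (Fin s ⊕ (Fin s ⊕ Fin s) → ℝ) :=
    { toFun := fun p => lin (p, 1)
      linear := lin.comp (LinearMap.inl ℝ (Fin d → ℝ) ℝ)
      map_vadd' := by
        intro x z
        rw [LinearMap.comp_apply, vadd_eq_add, vadd_eq_add, ← map_add]
        congr 1
        apply Prod.ext <;> simp }
  have hφ : ∀ p, φ p = lin (p, 1) := fun p => rfl
  have hlininj : ∀ y z, lin y = lin z → y = z := by
    intro y z h
    rw [hlin, hlin] at h
    have e1 : ∀ q, a q y = a q z := fun q => by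
      have := congrFun h (Sum.inr (Sum.inl q))
      simpa using this
    have e2 : ∀ q, b' q y = b' q z := fun q => by
      have := congrFun h (Sum.inr (Sum.inr q))
      simpa using this
    have e3 : ∀ q, a q y - a' q y = a q z - a' q z := fun q => by
      have := congrFun h (Sum.inl q)
      simpa using this
    apply G.ext
    intro u hu
    obtain ⟨p, rfl | rfl | rfl | rfl⟩ := hUall u hu
    · exact e1 p
    · linarith [hxz p y, hxz p z, e1 p, e2 p, e3 p]
    · linarith [e1 p, e3 p]
    · exact e2 p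
  refine ⟨φ, ?_, ?_, ?_⟩
  · intro x _ z _ h
    exact (Prod.ext_iff.1 (hlininj _ _ h)).1
  · apply Set.Subset.antisymm
    · rintro _ ⟨p, hp, rfl⟩
      rw [hPmem] at hp
      rw [hφ, hlin]
      apply mem_Cs
      · intro q; exact hp _ (hUm q).1
      · intro q; exact hp _ (hUm q).2.2.2
      · intro q
        have := hp _ (hUm q).2.2.1
        linarith
      · intro q
        have := hp _ (hUm q).2.1
        have h2 := hxz q (p, 1)
        linarith
      · exact (hheight (p, 1)).symm
    · have hconv : Convex ℝ (φ '' convexHull ℝ (V : Set (Fin d → ℝ))) :=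
        (convex_convexHull ℝ _).affine_image φ
      have himg : ∀ z ∈ G.V, lin z ∈ φ '' convexHull ℝ (V : Set (Fin d → ℝ)) := by
        intro z hz
        obtain ⟨p, hp, rfl⟩ := hVmem z hz
        exact ⟨p, hp, rfl⟩
      have hcomb : ∀ (x y : Fin s → ℝ) (k : Fin s ⊕ Fin s),
          (Sum.elim x (Pi.single k 1) : Fin s ⊕ (Fin s ⊕ Fin s) → ℝ) ∈
            φ '' convexHull ℝ (V : Set (Fin d → ℝ)) →
          (Sum.elim y (Pi.single k 1) : Fin s ⊕ (Fin s ⊕ Fin s) → ℝ) ∈
            φ '' convexHull ℝ (V : Set (Fin d → ℝ)) →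
          ∀ z ∈ segment ℝ x y, (Sum.elim z (Pi.single k 1) : Fin s ⊕ (Fin s ⊕ Fin s) → ℝ) ∈
            φ '' convexHull ℝ (V : Set (Fin d → ℝ)) := by
        rintro x y k h1 h2 z ⟨α, β, hα, hβ, hαβ, rfl⟩
        have h3 := hconv h1 h2 hα hβ hαβ
        have h4 : α • (Sum.elim x (Pi.single k 1) : Fin s ⊕ (Fin s ⊕ Fin s) → ℝ) +
            β • (Sum.elim y (Pi.single k 1) : Fin s ⊕ (Fin s ⊕ Fin s) → ℝ) =
            Sum.elim (α • x + β • y) (Pi.single k 1) := by
          funext t
          rcases t with t | t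
          · simp
          · simp only [Pi.add_apply, Pi.smul_apply, Sum.elim_inr, smul_eq_mul]
            rw [← add_mul, hαβ, one_mul]
        rwa [h4] at h3
      have hi : ∀ q, lin (i q) = Sum.elim (0 : Fin s → ℝ) (Pi.single (Sum.inl q) 1) := by
        intro q
        rw [hlin]
        funext k
        rcases k with t | t | t
        · simp only [Sum.elim_inl, Pi.zero_apply]
          rw [(ha t q).1, (ha' t q).1, sub_self]
        · simp only [Sum.elim_inl, Sum.elim_inr]
          rw [(ha t q).1, Pi.single_apply]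
          simp only [Sum.inl.injEq]
        · simp only [Sum.elim_inr]
          rw [(hb' t q).1, Pi.single_apply, if_neg (fun h => Sum.inr_ne_inl h)]
      have hj : ∀ q, lin (j q) = Sum.elim (0 : Fin s → ℝ) (Pi.single (Sum.inr q) 1) := by
        intro q
        rw [hlin]
        funext k
        rcases k with t | t | t
        · simp only [Sum.elim_inl, Pi.zero_apply]
          rw [(ha t q).2.1, (ha' t q).2.1, sub_self]
        · simp only [Sum.elim_inl, Sum.elim_inr]
          rw [(ha t q).2.1, Pi.single_apply, if_neg (fun h => Sum.inl_ne_inr h)]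
        · simp only [Sum.elim_inr]
          rw [(hb' t q).2.1, Pi.single_apply]
          simp only [Sum.inr.injEq]
      have hv : ∀ q, lin (v q) = Sum.elim (Pi.single q 1) (Pi.single (Sum.inl q) 1) := by
        intro q
        rw [hlin]
        funext k
        rcases k with t | t | t
        · simp only [Sum.elim_inl]
          rw [(ha t q).2.2.1, (ha' t q).2.2.1, sub_zero, Pi.single_apply]
        · simp only [Sum.elim_inl, Sum.elim_inr]
          rw [(ha t q).2.2.1, Pi.single_apply]
          simp only [Sum.inl.injEq]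
        · simp only [Sum.elim_inr]
          rw [(hb' t q).2.2.1, Pi.single_apply, if_neg (fun h => Sum.inr_ne_inl h)]
      have hv' : ∀ q, lin (v' q) = Sum.elim (-Pi.single q 1) (Pi.single (Sum.inr q) 1) := by
        intro q
        rw [hlin]
        funext k
        rcases k with t | t | t
        · simp only [Sum.elim_inl, Pi.neg_apply]
          rw [(ha t q).2.2.2, (ha' t q).2.2.2, zero_sub, Pi.single_apply]
        · simp only [Sum.elim_inl, Sum.elim_inr]
          rw [(ha t q).2.2.2, Pi.single_apply, if_neg (fun h => Sum.inl_ne_inr h)]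
        · simp only [Sum.elim_inr]
          rw [(hb' t q).2.2.2, Pi.single_apply]
          simp only [Sum.inr.injEq]
      apply convexHull_min _ hconv
      intro x hx
      obtain ⟨k, z, hz, rfl⟩ := Set.mem_iUnion.1 hx
      rcases k with q | q
      · apply hcomb 0 (Pi.single q 1) _ _ _ z hz
        · rw [← hi q]; exact himg _ (hVm q).1
        · rw [← hv q]; exact himg _ (hVm q).2.2.1
      · apply hcomb 0 (-Pi.single q 1) _ _ _ z hz
        · rw [← hj q]; exact himg _ (hVm q).2.1
        · rw [← hv' q]; exact himg _ (hVm q).2.2.2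
  · intro p _
    constructor
    · intro hp
      have hpL : (p, (1 : ℝ)) ∈ G.L := ⟨hp, 1, by simp⟩
      rw [hφ, hlin]
      intro k
      rcases k with t | t | t
      · obtain ⟨c1, h1⟩ := G.hUL _ (hUm t).1 _ hpL
        obtain ⟨c2, h2⟩ := G.hUL _ (hUm t).2.2.1 _ hpL
        exact ⟨c1 - c2, by simp only [Sum.elim_inl]; rw [h1, h2]; push_cast; rfl⟩
      · obtain ⟨c1, h1⟩ := G.hUL _ (hUm t).1 _ hpL
        exact ⟨c1, h1⟩
      · obtain ⟨c1, h1⟩ := G.hUL _ (hUm t).2.2.2 _ hpL
        exact ⟨c1, h1⟩
    · intro hp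
      rw [hφ, hlin] at hp
      have e1 : ∀ q, ∃ c : ℤ, a q (p, 1) = c := fun q => hp (Sum.inr (Sum.inl q))
      have e2 : ∀ q, ∃ c : ℤ, b' q (p, 1) = c := fun q => hp (Sum.inr (Sum.inr q))
      have e3 : ∀ q, ∃ c : ℤ, a q (p, 1) - a' q (p, 1) = c := fun q => hp (Sum.inl q)
      have hmem : (p, (1 : ℝ)) ∈ latGroup d := by
        rw [hrecon (p, 1)]
        apply sum_mem
        intro q _
        obtain ⟨c1, h1⟩ := e1 q
        obtain ⟨c2, h2⟩ := e2 q
        obtain ⟨c3, h3⟩ := e3 q
        have hbq : b q (p, 1) = ((c2 + c3 : ℤ) : ℝ) := by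
          push_cast
          linarith [hxz q (p, 1)]
        have hxq : a' q (p, 1) - a q (p, 1) = ((-c3 : ℤ) : ℝ) := by
          push_cast
          linarith
        rw [hxq, h1, hbq]
        have hzs : ∀ (c : ℤ) (z : (Fin d → ℝ) × ℝ), z ∈ latGroup d → (c : ℝ) • z ∈ latGroup d := by
          intro c z hz
          have := zsmul_mem hz c
          rwa [← Int.cast_smul_eq_zsmul ℝ] at this
        exact add_mem (add_mem (hzs _ _ (G.hVL _ (hVm q).1)) (hzs _ _ (G.hVL _ (hVm q).2.1)))
          (hzs _ _ (G.hVL _ (hVm q).2.2.2))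
      exact hmem.1

end Pool.Agent.H178R3.Gor
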