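import Pool.Agent.H178R3.GorData

set_option autoImplicit false

open Set Pointwise Module

namespace Pool.Agent.H178R3.Gor

variable {d : ℕ} {V Y : Finset (Fin d → ℝ)} {m : Fin d → ℝ} {r : ℕ}

/-- An apex at lattice distance one from a hyperplane containing all other vertices gives a lattice
pyramid. -/
theorem isLatticePyramid_of {v0 : Fin d → ℝ} (hV : ∀ v ∈ V, IsLat v) (hv0 : v0 ∈ V)
    {y : Fin d → ℝ} {k : ℝ} (hy : IsLat y) (hk : ∃ z : ℤ, k = z) (h1 : v0 ⬝ᵥ y + k = 1)
    (h0 : ∀ v ∈ V, v ≠ v0 → v ⬝ᵥ y + k = 0) :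
    IsLatticePyramid (convexHull ℝ (V : Set (Fin d → ℝ))) := by
  classical
  let V' : Set (Fin d → ℝ) := {v | v ∈ V ∧ v ≠ v0}
  refine ⟨d, convexHull ℝ V', ⟨V', ?_, fun x hx => hV x hx.1, rfl⟩, ?_⟩
  · exact V.finite_toSet.subset fun v hv => hv.1
  let l : (Fin d → ℝ) → ℝ := fun x => x ⬝ᵥ y + k
  let φ : (Fin d → ℝ) →ᵃ[ℝ] (Fin (d + 1) → ℝ) :=
    { toFun := fun x => Fin.snoc (x - l x • v0) (l x)
      linear :=
        { toFun := fun x => Fin.snoc (x - (x ⬝ᵥ y) • v0) (x ⬝ᵥ y)
          map_add' := by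
            intro x z
            funext i
            refine Fin.lastCases ?_ (fun i => ?_) i
            · simp only [Fin.snoc_last, Pi.add_apply, add_dotProduct]
            · simp only [Fin.snoc_castSucc, Pi.add_apply, add_dotProduct, Pi.sub_apply,
                Pi.smul_apply, smul_eq_mul]
              ring
          map_smul' := by
            intro c x
            funext i
            refine Fin.lastCases ?_ (fun i => ?_) i
            · simp only [Fin.snoc_last, Pi.smul_apply, smul_dotProduct, smul_eq_mul,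
                RingHom.id_apply]
            · simp only [Fin.snoc_castSucc, Pi.sub_apply, smul_dotProduct,
                Pi.smul_apply, smul_eq_mul, RingHom.id_apply]
              ring }
      map_vadd' := by
        intro x z
        funext i
        refine Fin.lastCases ?_ (fun i => ?_) i
        · simp only [l, vadd_eq_add, add_dotProduct, LinearMap.coe_mk, AddHom.coe_mk,
            Pi.add_apply, Fin.snoc_last]
          ring
        · simp only [l, vadd_eq_add, add_dotProduct, LinearMap.coe_mk, AddHom.coe_mk,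
            Pi.add_apply, Fin.snoc_castSucc, Pi.sub_apply, Pi.smul_apply, smul_eq_mul]
          ring }
  have hφ : ∀ x, φ x = Fin.snoc (x - l x • v0) (l x) := fun x => rfl
  have hinj : ∀ x z, φ x = φ z → x = z := by
    intro x z h
    rw [hφ, hφ] at h
    have e1 : l x = l z := by
      have := congrFun h (Fin.last d)
      simpa using this
    funext i
    have := congrFun h (Fin.castSucc i)
    simp only [Fin.snoc_castSucc, Pi.sub_apply, e1] at this
    linarith
  refine ⟨φ, fun x _ z _ h => hinj x z h, ?_, ?_⟩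
  · rw [AffineMap.image_convexHull, pyramid]
    have e2 : (fun q => (Fin.snoc q 0 : Fin (d + 1) → ℝ)) '' convexHull ℝ V' =
        convexHull ℝ ((fun q => (Fin.snoc q 0 : Fin (d + 1) → ℝ)) '' V') := by
      let ψ : (Fin d → ℝ) →ₗ[ℝ] (Fin (d + 1) → ℝ) :=
        { toFun := fun q => Fin.snoc q 0
          map_add' := by
            intro x z
            funext i
            refine Fin.lastCases ?_ (fun i => ?_) i
            · simp
            · simp
          map_smul' := by
            intro c x
            funext i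
            refine Fin.lastCases ?_ (fun i => ?_) i
            · simp
            · simp }
      exact ψ.image_convexHull V'
    rw [e2, convexHull_convexHull_union_left]
    congr 1
    ext z
    constructor
    · rintro ⟨v, hv, rfl⟩
      rw [hφ]
      by_cases hvv : v = v0
      · right
        have : l v = 1 := by rw [hvv]; exact h1
        rw [this, hvv, one_smul, sub_self]
        show _ = _
        funext i
        refine Fin.lastCases ?_ (fun i => ?_) i
        · simp
        · simp [Fin.castSucc_ne_last]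
      · left
        have : l v = 0 := h0 v hv hvv
        rw [this, zero_smul, sub_zero]
        exact ⟨v, ⟨hv, hvv⟩, rfl⟩
    · rintro (⟨v, ⟨hv, hvv⟩, rfl⟩ | hz)
      · refine ⟨v, hv, ?_⟩
        have : l v = 0 := h0 v hv hvv
        rw [hφ, this, zero_smul, sub_zero]
      · refine ⟨v0, hv0, ?_⟩
        have : l v0 = 1 := h1
        rw [hφ, this, one_smul, sub_self, Set.mem_singleton_iff.1 hz]
        funext i
        refine Fin.lastCases ?_ (fun i => ?_) i
        · simp
        · simp [Fin.castSucc_ne_last]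
  · intro x _
    have hlx : IsLat x → ∃ z : ℤ, l x = z := by
      intro hx
      obtain ⟨a, ha⟩ := int_dot hx hy
      obtain ⟨b, hb⟩ := hk
      exact ⟨a + b, by simp only [l]; rw [ha, hb]; push_cast; rfl⟩
    constructor
    · intro hx i
      rw [hφ]
      refine Fin.lastCases ?_ (fun i => ?_) i
      · rw [Fin.snoc_last]; exact hlx hx
      · rw [Fin.snoc_castSucc]
        exact (hx.sub' ((hV v0 hv0).smul' (hlx hx))) i
    · intro hx
      rw [hφ] at hx
      have e1 : ∃ z : ℤ, l x = z := by
        have := hx (Fin.last d)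
        rwa [Fin.snoc_last] at this
      have e2 : IsLat (x - l x • v0) := by
        intro i
        have := hx (Fin.castSucc i)
        rwa [Fin.snoc_castSucc] at this
      have e3 := e2.add' ((hV v0 hv0).smul' e1)
      rwa [sub_add_cancel] at e3

/-- The lattice in `ℝ^d × ℝ`. -/
def latGroup (d : ℕ) : AddSubgroup ((Fin d → ℝ) × ℝ) where
  carrier := {z | IsLat z.1 ∧ ∃ k : ℤ, z.2 = k}
  add_mem' := by
    rintro x z ⟨h1, a, ha⟩ ⟨h2, b, hb⟩
    exact ⟨h1.add' h2, a + b, by rw [Prod.snd_add, ha, hb]; push_cast; rfl⟩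
  zero_mem' := ⟨fun i => ⟨0, by simp⟩, 0, by simp⟩
  neg_mem' := by
    rintro x ⟨h1, a, ha⟩
    refine ⟨fun i => ?_, -a, by rw [Prod.snd_neg, ha]; push_cast; rfl⟩
    obtain ⟨b, hb⟩ := h1 i
    exact ⟨-b, by rw [Prod.fst_neg, Pi.neg_apply, hb]; push_cast; rfl⟩

theorem mem_latGroup {z : (Fin d → ℝ) × ℝ} : z ∈ latGroup d ↔ IsLat z.1 ∧ ∃ k : ℤ, z.2 = k :=
  Iff.rfl

open Classical in
/-- The cone data of a Gorenstein polytope that is not a lattice pyramid. -/
noncomputable def Hyp.data (H : Hyp V Y m r)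
    (hpyr : ¬ IsLatticePyramid (convexHull ℝ (V : Set (Fin d → ℝ)))) :
    GData ((Fin d → ℝ) × ℝ) where
  V := V.image fun v => (v, (1 : ℝ))
  U := (Y.filter fun y => y ≠ 0).image fun y => uf m r y
  n := LinearMap.snd ℝ (Fin d → ℝ) ℝ
  M0 := (m, (r : ℝ))
  L := latGroup d
  hVL := by
    intro z hz
    obtain ⟨v, hv, rfl⟩ := Finset.mem_image.1 hz
    exact ⟨H.hV v hv, 1, by simp⟩
  hVn := by
    intro z hz
    obtain ⟨v, hv, rfl⟩ := Finset.mem_image.1 hz
    rfl
  hUL := by
    intro u hu z hz
    obtain ⟨y, hy, rfl⟩ := Finset.mem_image.1 hu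
    obtain ⟨hyY, hy0⟩ := Finset.mem_filter.1 hy
    obtain ⟨h1, b, hb⟩ := hz
    obtain ⟨a, ha⟩ := int_dot h1 (H.hY y hyY)
    obtain ⟨c, hc⟩ := H.kf_int hyY hy0
    exact ⟨a + c * b, by rw [uf_apply, ha, hb, hc]; push_cast; rfl⟩
  hUV := by
    intro u hu z hz
    obtain ⟨y, hy, rfl⟩ := Finset.mem_image.1 hu
    obtain ⟨v, hv, rfl⟩ := Finset.mem_image.1 hz
    exact H.uf_nonneg hv (Finset.mem_filter.1 hy).1
  hM := ⟨H.hm, r, by simp⟩
  hUM := by
    intro u hu
    obtain ⟨y, hy, rfl⟩ := Finset.mem_image.1 hu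
    rw [uf_apply]
    have := H.kf_mul y
    show m ⬝ᵥ y + kf m r y * r = 1
    linarith
  hC := by
    intro z hz
    have hz' : ∀ y ∈ Y, y ≠ 0 → 0 ≤ uf m r y z := fun y hy hy0 =>
      hz _ (Finset.mem_image.2 ⟨y, Finset.mem_filter.2 ⟨hy, hy0⟩, rfl⟩)
    rcases lt_or_ge 0 z.2 with ht | ht
    · have h1 := H.mem_of_pos hz' ht
      rw [Finset.mem_convexHull'] at h1
      obtain ⟨w, hw0, hw1, hw⟩ := h1
      refine ⟨fun x => z.2 * w x.1, ?_, ?_⟩
      · intro x hx
        obtain ⟨v, hv, rfl⟩ := Finset.mem_image.1 hx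
        exact mul_nonneg ht.le (hw0 v hv)
      · rw [Finset.sum_image (by
          intro x _ x' _ h
          exact (Prod.ext_iff.1 h).1)]
        apply Prod.ext
        · rw [Prod.fst_sum]
          simp only [Prod.smul_fst, mul_smul]
          rw [← Finset.smul_sum, hw, smul_smul, mul_inv_cancel₀ ht.ne', one_smul]
        · rw [Prod.snd_sum]
          simp only [Prod.smul_snd, smul_eq_mul, mul_one]
          rw [← Finset.mul_sum, hw1, mul_one]
    · refine ⟨0, fun _ _ => le_refl _, ?_⟩
      rw [H.eq_zero_of_nonpos hz' ht]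
      simp
  hpyr := by
    intro z hz u hu huz
    obtain ⟨v, hv, rfl⟩ := Finset.mem_image.1 hz
    obtain ⟨y, hy, rfl⟩ := Finset.mem_image.1 hu
    obtain ⟨hyY, hy0⟩ := Finset.mem_filter.1 hy
    by_contra hcon
    push Not at hcon
    rw [uf_apply] at huz
    apply hpyr
    apply isLatticePyramid_of H.hV hv (H.hY y hyY) (H.kf_int hyY hy0)
    · have : v ⬝ᵥ y + kf m r y * 1 = 1 := huz
      rwa [mul_one] at this
    · intro v' hv' hne
      have := hcon (v', 1) (Finset.mem_image.2 ⟨v', hv', rfl⟩) (fun h => hne (Prod.ext_iff.1 h).1)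
      rw [uf_apply] at this
      have h2 : v' ⬝ᵥ y + kf m r y * 1 = 0 := this
      rwa [mul_one] at h2

end Pool.Agent.H178R3.Gor
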