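import Pool.Agent.H178R3.GorSteps

set_option autoImplicit false

open Finset Module

namespace Pool.Agent.H178R3.Gor

variable {W : Type} [AddCommGroup W] [Module ℝ W] [FiniteDimensional ℝ W] (G : GData W)

theorem GData.main2 (s : ℕ) (hr : G.n G.M0 = 2 * s) (hdim : finrank ℝ W = 3 * s) :
    ∃ (i j v v' : Fin s → W) (a b a' b' : Fin s → Dual ℝ W),
      (∀ q, i q ∈ G.V ∧ j q ∈ G.V ∧ v q ∈ G.V ∧ v' q ∈ G.V) ∧
      (∀ q, a q ∈ G.U ∧ b q ∈ G.U ∧ a' q ∈ G.U ∧ b' q ∈ G.U) ∧
      (∀ u ∈ G.U, ∃ q, u = a q ∨ u = b q ∨ u = a' q ∨ u = b' q) ∧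
      (∀ q, a' q - a q = b' q - b q) ∧
      (∀ p q, a p (i q) = (if p = q then 1 else 0) ∧ a p (j q) = 0 ∧
        a p (v q) = (if p = q then 1 else 0) ∧ a p (v' q) = 0) ∧
      (∀ p q, a' p (i q) = (if p = q then 1 else 0) ∧ a' p (j q) = 0 ∧
        a' p (v q) = 0 ∧ a' p (v' q) = (if p = q then 1 else 0)) ∧
      (∀ p q, b p (i q) = 0 ∧ b p (j q) = (if p = q then 1 else 0) ∧
        b p (v q) = (if p = q then 1 else 0) ∧ b p (v' q) = 0) ∧
      (∀ p q, b' p (i q) = 0 ∧ b' p (j q) = (if p = q then 1 else 0) ∧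
        b' p (v q) = 0 ∧ b' p (v' q) = (if p = q then 1 else 0)) := by
  classical
  obtain ⟨A, S, hAV, hSV, hAc, hSc, hAM, hSM, hpos, hE⟩ := G.main1 s hr hdim
  -- the two partitions
  have hmemA : G.Mem (G.M0 - ∑ v ∈ A, v) := by
    rw [hAM, sub_self]; intro u _; rw [map_zero]
  have hmemS : G.Mem (G.M0 - ∑ v ∈ S, v) := by
    rw [hSM, sub_self]; intro u _; rw [map_zero]
  have hαex : ∀ u ∈ G.U, ∃ i ∈ A, ∀ i' ∈ A, u i' = if i' = i then 1 else 0 := by
    intro u hu
    rcases G.dich hAV hmemA hu with ⟨h, -⟩ | ⟨-, i, hi, h1, h2⟩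
    · rw [hAM, sub_self, map_zero] at h
      norm_num at h
    · refine ⟨i, hi, fun i' hi' => ?_⟩
      split_ifs with h
      · rw [h, h1]
      · exact h2 i' hi' h
  have hβex : ∀ u ∈ G.U, ∃ i ∈ S, ∀ i' ∈ S, u i' = if i' = i then 1 else 0 := by
    intro u hu
    rcases G.dich hSV hmemS hu with ⟨h, -⟩ | ⟨-, i, hi, h1, h2⟩
    · rw [hSM, sub_self, map_zero] at h
      norm_num at h
    · refine ⟨i, hi, fun i' hi' => ?_⟩
      split_ifs with h
      · rw [h, h1]
      · exact h2 i' hi' h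
  choose! α hαA hα using hαex
  choose! β hβS hβ using hβex
  have hinj : ∀ u ∈ G.U, ∀ u' ∈ G.U, α u = α u' → β u = β u' → u = u' := by
    intro u hu u' hu' h1 h2
    apply sub_eq_zero.1
    apply hpos
    · intro v hv
      rw [LinearMap.sub_apply, hα u hu v hv, hα u' hu' v hv, h1, sub_self]
    · intro v hv
      rw [LinearMap.sub_apply, hβ u hu v hv, hβ u' hu' v hv, h2, sub_self]
  have hother : ∀ u ∈ G.U, ∃ u' ∈ G.U, u' ≠ u ∧ α u' = α u := by
    intro u hu
    obtain ⟨u', hu', hne, h1⟩ := G.exists_other (hAV (hαA u hu)) (G.le_one hAV hmemA (hαA u hu)) hu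
      (by rw [hα u hu _ (hαA u hu), if_pos rfl])
    refine ⟨u', hu', hne, ?_⟩
    rw [hα u' hu' _ (hαA u hu)] at h1
    by_contra h
    rw [if_neg (fun h' => h h'.symm)] at h1
    norm_num at h1
  have hsurj : ∀ v ∈ S, ∃ u ∈ G.U, β u = v := by
    intro v hv
    obtain ⟨u, hu, h1⟩ := G.exists_one (hSV hv) (G.le_one hSV hmemS hv)
    refine ⟨u, hu, ?_⟩
    rw [hβ u hu v hv] at h1
    by_contra h
    rw [if_neg (fun h' => h h'.symm)] at h1
    norm_num at h1
  -- relations on `S`
  let E : Submodule ℝ (Dual ℝ W) := (Submodule.span ℝ (A : Set W)).dualAnnihilator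
  have hEmem : ∀ x : Dual ℝ W, (∀ v ∈ A, x v = 0) → x ∈ E := by
    intro x h
    rw [Submodule.mem_dualAnnihilator]
    intro z hz
    induction hz using Submodule.span_induction with
    | mem z hz => exact h z hz
    | zero => exact map_zero x
    | add y z _ _ hy hz => rw [map_add, hy, hz, add_zero]
    | smul c y _ hy => rw [map_smul, hy, smul_zero]
  let Lam : (S → ℝ) →ₗ[ℝ] Dual ℝ E := Fintype.linearCombination ℝ (fun v : S => rho E (v : W))
  have hLam : ∀ (c : S → ℝ) (x : E), Lam c x = ∑ v : S, c v * (x : Dual ℝ W) v := by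
    intro c x
    simp only [Lam, Fintype.linearCombination_apply, LinearMap.sum_apply, LinearMap.smul_apply,
      rho_apply, smul_eq_mul]
  have hker : s ≤ finrank ℝ (LinearMap.ker Lam) := by
    have h1 := LinearMap.finrank_range_add_finrank_ker Lam
    have h2 : finrank ℝ (LinearMap.range Lam) ≤ finrank ℝ (Dual ℝ E) :=
      Submodule.finrank_le _
    have hd : finrank ℝ (Dual ℝ E) = finrank ℝ E :=
      Subspace.dual_finrank_eq (K := ℝ) (V := E)
    have h3 : finrank ℝ (S → ℝ) = 2 * s := by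
      rw [finrank_fintype_fun_eq_card, Fintype.card_coe, hSc]
    have h4 : finrank ℝ E = s := hE
    omega
  have hrel : ∀ c ∈ LinearMap.ker Lam, ∀ u, ∀ hu : u ∈ G.U, ∀ u', ∀ hu' : u' ∈ G.U,
      α u = α u' → c ⟨β u, hβS u hu⟩ = c ⟨β u', hβS u' hu'⟩ := by
    intro c hc u hu u' hu' h
    have hx : u - u' ∈ E := by
      apply hEmem
      intro v hv
      rw [LinearMap.sub_apply, hα u hu v hv, hα u' hu' v hv, h, sub_self]
    have h1 := hLam c ⟨u - u', hx⟩
    rw [LinearMap.mem_ker.1 hc, LinearMap.zero_apply] at h1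
    have h2 : ∀ u, ∀ hu : u ∈ G.U, ∑ v : S, c v * u v = c ⟨β u, hβS u hu⟩ := by
      intro u hu
      rw [Finset.sum_eq_single ⟨β u, hβS u hu⟩]
      · rw [hβ u hu _ (hβS u hu), if_pos rfl, mul_one]
      · intro v _ hne
        rw [hβ u hu v v.2, if_neg (fun h => hne (Subtype.ext h)), mul_zero]
      · intro h; exact absurd (Finset.mem_univ _) h
    simp only [LinearMap.sub_apply, mul_sub, Finset.sum_sub_distrib] at h1
    rw [h2 u hu, h2 u' hu'] at h1
    linarith
  -- classes
  let st : Setoid S := ⟨fun v v' => ∀ c ∈ LinearMap.ker Lam, c v = c v',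
    fun _ _ _ => rfl, fun h c hc => (h c hc).symm, fun h h' c hc => (h c hc).trans (h' c hc)⟩
  let Q := Quotient st
  let cl : S → Q := Quotient.mk st
  have hcl : ∀ v v' : S, cl v = cl v' → ∀ c ∈ LinearMap.ker Lam, c v = c v' :=
    fun v v' h => Quotient.exact h
  have hQ : s ≤ Fintype.card Q := by
    let Psi : LinearMap.ker Lam →ₗ[ℝ] (Q → ℝ) :=
      { toFun := fun c q => (c : S → ℝ) q.out
        map_add' := fun _ _ => rfl
        map_smul' := fun _ _ => rfl }
    have hPsi : Function.Injective Psi := by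
      rw [injective_iff_map_eq_zero]
      intro c hc
      apply Subtype.ext
      funext v
      have h1 : (c : S → ℝ) (cl v).out = 0 := congrFun hc (cl v)
      have h2 := hcl (cl v).out v (Quotient.out_eq _) c c.2
      rw [← h2, h1]
      rfl
    have h1 := LinearMap.finrank_le_finrank_of_injective hPsi
    rw [finrank_fintype_fun_eq_card] at h1
    omega
  let fib : Q → Finset S := fun q => Finset.univ.filter fun v => cl v = q
  have hfib2 : ∀ q, 2 ≤ (fib q).card := by
    intro q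
    obtain ⟨v, rfl⟩ := Quotient.exists_rep q
    obtain ⟨u, hu, huv⟩ := hsurj v v.2
    obtain ⟨u', hu', hne, hα'⟩ := hother u hu
    have h1 : cl ⟨β u', hβS u' hu'⟩ = cl v := by
      apply Quotient.sound
      intro c hc
      rw [hrel c hc u' hu' u hu hα']
      congr 1
      exact Subtype.ext huv
    have h2 : (⟨β u', hβS u' hu'⟩ : S) ≠ v := by
      intro h
      apply hne
      apply hinj u' hu' u hu hα'
      rw [huv]
      exact congrArg Subtype.val h
    rw [← Finset.card_pair h2]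
    apply Finset.card_le_card
    intro x hx
    rw [Finset.mem_insert, Finset.mem_singleton] at hx
    rw [Finset.mem_filter]
    rcases hx with rfl | rfl
    · exact ⟨Finset.mem_univ _, h1⟩
    · exact ⟨Finset.mem_univ _, rfl⟩
  have hsumfib : ∑ q : Q, (fib q).card = 2 * s := by
    have h1 := Finset.card_eq_sum_card_fiberwise (s := (Finset.univ : Finset S))
      (t := (Finset.univ : Finset Q)) (f := cl) (fun x _ => Finset.mem_coe.2 (Finset.mem_univ _))
    rw [Finset.card_univ, Fintype.card_coe, hSc] at h1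
    exact h1.symm
  have hQs : Fintype.card Q = s := by
    have h1 : ∑ q : Q, 2 ≤ ∑ q : Q, (fib q).card := Finset.sum_le_sum fun q _ => hfib2 q
    rw [hsumfib, Finset.sum_const, Finset.card_univ, smul_eq_mul] at h1
    omega
  have hfib : ∀ q, (fib q).card = 2 := by
    have h1 : ∑ q : Q, 2 = ∑ q : Q, (fib q).card := by
      rw [hsumfib, Finset.sum_const, Finset.card_univ, hQs, smul_eq_mul, mul_comm]
    intro q
    exact ((Finset.sum_eq_sum_iff_of_le fun q _ => hfib2 q).1 h1 q (Finset.mem_univ q)).symm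
  have hfibex : ∀ q, ∃ v v' : S, v ≠ v' ∧ ∀ x, cl x = q ↔ x = v ∨ x = v' := by
    intro q
    obtain ⟨v, v', hne, h⟩ := Finset.card_eq_two.1 (hfib q)
    refine ⟨v, v', hne, fun x => ?_⟩
    have : x ∈ fib q ↔ x ∈ ({v, v'} : Finset S) := by rw [h]
    rw [Finset.mem_filter, Finset.mem_insert, Finset.mem_singleton] at this
    simpa using this
  choose v v' hvne hv using hfibex
  -- class of a functional
  have hclα : ∀ u, ∀ hu : u ∈ G.U, ∀ u', ∀ hu' : u' ∈ G.U, α u = α u' →
      cl ⟨β u, hβS u hu⟩ = cl ⟨β u', hβS u' hu'⟩ := by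
    intro u hu u' hu' h
    apply Quotient.sound
    intro c hc
    exact hrel c hc u hu u' hu' h
  let N : Q → Finset W := fun q => A.filter fun i => ∃ u, ∃ hu : u ∈ G.U, α u = i ∧
    cl ⟨β u, hβS u hu⟩ = q
  have hN : ∀ q, ∀ u, ∀ hu : u ∈ G.U, α u ∈ N q ↔ cl ⟨β u, hβS u hu⟩ = q := by
    intro q u hu
    rw [Finset.mem_filter]
    constructor
    · rintro ⟨-, u', hu', h1, h2⟩
      rw [← h2]
      exact hclα u hu u' hu' h1.symm
    · intro h
      exact ⟨hαA u hu, u, hu, rfl, h⟩
  have hNV : ∀ q, N q ⊆ G.V := fun q => (Finset.filter_subset _ _).trans hAV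
  have hNsum : ∀ q, ∑ i ∈ N q, i = (v q : W) + (v' q : W) := by
    intro q
    apply G.ext
    intro u hu
    rw [map_sum, map_add, hβ u hu _ (v q).2, hβ u hu _ (v' q).2]
    have h1 : ∑ i ∈ N q, u i = ∑ i ∈ N q, if i = α u then (1 : ℝ) else 0 :=
      Finset.sum_congr rfl fun i hi => hα u hu i (Finset.filter_subset _ _ hi)
    rw [h1, Finset.sum_ite_eq' (N q) (α u) (fun _ => (1 : ℝ))]
    by_cases h : cl ⟨β u, hβS u hu⟩ = q
    · rw [if_pos ((hN q u hu).2 h)]
      rcases (hv q _).1 h with h2 | h2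
      · have h3 : (v q : W) = β u := by rw [← h2]
        have h4 : (v' q : W) ≠ β u := by
          intro h5
          exact hvne q (Subtype.ext (by rw [h3, h5]))
        rw [if_pos h3, if_neg h4, add_zero]
      · have h3 : (v' q : W) = β u := by rw [← h2]
        have h4 : (v q : W) ≠ β u := by
          intro h5
          exact hvne q (Subtype.ext (by rw [h3, h5]))
        rw [if_pos h3, if_neg h4, zero_add]
    · rw [if_neg (fun h' => h ((hN q u hu).1 h'))]
      have h3 : (v q : W) ≠ β u := by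
        intro h5
        exact h ((hv q _).2 (Or.inl (Subtype.ext h5.symm)))
      have h4 : (v' q : W) ≠ β u := by
        intro h5
        exact h ((hv q _).2 (Or.inr (Subtype.ext h5.symm)))
      rw [if_neg h3, if_neg h4, add_zero]
  have hNcard : ∀ q, (N q).card = 2 := by
    intro q
    have h1 := congrArg G.n (hNsum q)
    rw [G.height_sum _ (hNV q), map_add, G.hVn _ (hSV (v q).2), G.hVn _ (hSV (v' q).2)] at h1
    have : ((N q).card : ℝ) = ((2 : ℕ) : ℝ) := by rw [h1]; norm_num
    exact_mod_cast this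
  have hNex : ∀ q, ∃ i j : W, i ≠ j ∧ N q = {i, j} := fun q => Finset.card_eq_two.1 (hNcard q)
  choose i j hij hNij using hNex
  have hiN : ∀ q, i q ∈ N q := fun q => by rw [hNij q]; simp
  have hjN : ∀ q, j q ∈ N q := fun q => by rw [hNij q]; simp
  have hNdisj : ∀ p q x, x ∈ N p → x ∈ N q → p = q := by
    intro p q x hp hq
    obtain ⟨-, u, hu, h1, h2⟩ := Finset.mem_filter.1 hp
    rw [← h1, hN q u hu, h2] at hq
    exact hq
  have hNA : ∀ q x, x ∈ N q → x ∈ A := fun q x hx => (Finset.mem_filter.1 hx).1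
  -- both elements of a class occur
  have hexist : ∀ q x, x ∈ N q → (∃ u ∈ G.U, α u = x ∧ β u = v q) ∧
      (∃ u ∈ G.U, α u = x ∧ β u = v' q) := by
    intro q x hx
    obtain ⟨-, u, hu, h1, h2⟩ := Finset.mem_filter.1 hx
    obtain ⟨u', hu', hne, hα'⟩ := hother u hu
    have h3 : cl ⟨β u', hβS u' hu'⟩ = q := by rw [hclα u' hu' u hu hα', h2]
    have h4 : β u' ≠ β u := fun h => hne (hinj u' hu' u hu hα' h)
    have k1 : β u = v q ∨ β u = v' q := by
      rcases (hv q _).1 h2 with h | h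
      · left; rw [← h]
      · right; rw [← h]
    have k2 : β u' = v q ∨ β u' = v' q := by
      rcases (hv q _).1 h3 with h | h
      · left; rw [← h]
      · right; rw [← h]
    rcases k1 with k1 | k1 <;> rcases k2 with k2 | k2
    · exact absurd (k2.trans k1.symm) h4
    · exact ⟨⟨u, hu, h1, k1⟩, ⟨u', hu', hα'.trans h1, k2⟩⟩
    · exact ⟨⟨u', hu', hα'.trans h1, k2⟩, ⟨u, hu, h1, k1⟩⟩
    · exact absurd (k2.trans k1.symm) h4
  choose a haU haα haβ using fun q => (hexist q (i q) (hiN q)).1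
  choose a' haU' haα' haβ' using fun q => (hexist q (i q) (hiN q)).2
  choose b hbU hbα hbβ using fun q => (hexist q (j q) (hjN q)).1
  choose b' hbU' hbα' hbβ' using fun q => (hexist q (j q) (hjN q)).2
  -- pairings
  have hii : ∀ p q, (i q = i p ↔ p = q) := fun p q =>
    ⟨fun h => hNdisj p q (i q) (by rw [h]; exact hiN p) (hiN q), fun h => by rw [h]⟩
  have hjj : ∀ p q, (j q = j p ↔ p = q) := fun p q =>
    ⟨fun h => hNdisj p q (j q) (by rw [h]; exact hjN p) (hjN q), fun h => by rw [h]⟩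
  have hijne : ∀ p q, j q ≠ i p := by
    intro p q h
    have h1 : p = q := hNdisj p q (j q) (by rw [h]; exact hiN p) (hjN q)
    rw [h1] at h
    exact hij q h.symm
  have hclv : ∀ q, cl (v q) = q := fun q => (hv q _).2 (Or.inl rfl)
  have hclv' : ∀ q, cl (v' q) = q := fun q => (hv q _).2 (Or.inr rfl)
  have hvv : ∀ p q, ((v q : W) = v p ↔ p = q) := by
    intro p q
    constructor
    · intro h
      have : v q = v p := Subtype.ext h
      rw [← hclv p, ← hclv q, this]
    · intro h; rw [h]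
  have hvv' : ∀ p q, ((v' q : W) = v' p ↔ p = q) := by
    intro p q
    constructor
    · intro h
      have : v' q = v' p := Subtype.ext h
      rw [← hclv' p, ← hclv' q, this]
    · intro h; rw [h]
  have hvne' : ∀ p q, (v q : W) ≠ v' p := by
    intro p q h
    have h0 : v q = v' p := Subtype.ext h
    have h1 : p = q := by rw [← hclv' p, ← h0, hclv q]
    rw [h1] at h0
    exact hvne q h0
  have hvne'' : ∀ p q, (v' q : W) ≠ v p := fun p q h => hvne' q p h.symm
  -- transport to `Fin s`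
  let e : Fin s ≃ Q := (Fintype.equivFinOfCardEq hQs).symm
  refine ⟨fun q => i (e q), fun q => j (e q), fun q => v (e q), fun q => v' (e q),
    fun q => a (e q), fun q => b (e q), fun q => a' (e q), fun q => b' (e q),
    fun q => ⟨hNV _ (hiN _), hNV _ (hjN _), hSV (v _).2, hSV (v' _).2⟩,
    fun q => ⟨haU _, hbU _, haU' _, hbU' _⟩, ?_, ?_, ?_, ?_, ?_, ?_⟩
  · intro u hu
    set q := cl ⟨β u, hβS u hu⟩ with hq
    refine ⟨e.symm q, ?_⟩
    simp only [Equiv.apply_symm_apply]
    have h1 : α u ∈ N q := (hN q u hu).2 rfl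
    rw [hNij q, Finset.mem_insert, Finset.mem_singleton] at h1
    have h2 : β u = v q ∨ β u = v' q := by
      rcases (hv q _).1 hq.symm with h | h
      · left; rw [← h]
      · right; rw [← h]
    rcases h1 with h1 | h1 <;> rcases h2 with h2 | h2
    · left; exact hinj u hu _ (haU q) (by rw [h1, haα]) (by rw [h2, haβ])
    · right; right; left; exact hinj u hu _ (haU' q) (by rw [h1, haα']) (by rw [h2, haβ'])
    · right; left; exact hinj u hu _ (hbU q) (by rw [h1, hbα]) (by rw [h2, hbβ])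
    · right; right; right; exact hinj u hu _ (hbU' q) (by rw [h1, hbα']) (by rw [h2, hbβ'])
  · intro q
    apply sub_eq_zero.1
    apply hpos
    · intro x hx
      simp only [LinearMap.sub_apply]
      rw [hα _ (haU _) x hx, hα _ (haU' _) x hx, hα _ (hbU _) x hx, hα _ (hbU' _) x hx, haα, haα',
        hbα, hbα', sub_self, sub_self, sub_self]
    · intro x hx
      simp only [LinearMap.sub_apply]
      rw [hβ _ (haU _) x hx, hβ _ (haU' _) x hx, hβ _ (hbU _) x hx, hβ _ (hbU' _) x hx, haβ, haβ',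
        hbβ, hbβ', sub_self]
  · intro p q
    simp only [hα _ (haU _) _ (hNA _ _ (hiN _)), hα _ (haU _) _ (hNA _ _ (hjN _)),
      hβ _ (haU _) _ (v _).2, hβ _ (haU _) _ (v' _).2, haα, haβ, hii, hvv, hijne, hvne'', if_false,
      EmbeddingLike.apply_eq_iff_eq, and_self]
  · intro p q
    simp only [hα _ (haU' _) _ (hNA _ _ (hiN _)), hα _ (haU' _) _ (hNA _ _ (hjN _)),
      hβ _ (haU' _) _ (v _).2, hβ _ (haU' _) _ (v' _).2, haα', haβ', hii, hvv', hijne, hvne',
      if_false, EmbeddingLike.apply_eq_iff_eq, and_self]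
  · intro p q
    have hijne' : ∀ p q, i q ≠ j p := fun p q h => hijne q p h.symm
    simp only [hα _ (hbU _) _ (hNA _ _ (hiN _)), hα _ (hbU _) _ (hNA _ _ (hjN _)),
      hβ _ (hbU _) _ (v _).2, hβ _ (hbU _) _ (v' _).2, hbα, hbβ, hjj, hvv, hijne', hvne'', if_false,
      EmbeddingLike.apply_eq_iff_eq, and_self]
  · intro p q
    have hijne' : ∀ p q, i q ≠ j p := fun p q h => hijne q p h.symm
    simp only [hα _ (hbU' _) _ (hNA _ _ (hiN _)), hα _ (hbU' _) _ (hNA _ _ (hjN _)),
      hβ _ (hbU' _) _ (v _).2, hβ _ (hbU' _) _ (v' _).2, hbα', hbβ', hjj, hvv', hijne', hvne',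
      if_false, EmbeddingLike.apply_eq_iff_eq, and_self]

end Pool.Agent.H178R3.Gor
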