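import Pool.Agent.H178R3.GorCone

set_option autoImplicit false

open Finset Module

namespace Pool.Agent.H178R3.Gor

variable {W : Type} [AddCommGroup W] [Module ℝ W] [FiniteDimensional ℝ W] (G : GData W)

/-- Evaluation of vectors on a space of functionals. -/
def rho (E : Submodule ℝ (Dual ℝ W)) : W →ₗ[ℝ] Dual ℝ E where
  toFun z := (Dual.eval ℝ W z).comp E.subtype
  map_add' y z := by
    ext x
    simp
  map_smul' c z := by
    ext x
    simp

omit [FiniteDimensional ℝ W] in
theorem rho_apply (E : Submodule ℝ (Dual ℝ W)) (z : W) (x : E) : rho E z x = (x : Dual ℝ W) z :=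
  rfl

theorem card_le_of_indep {X : Type} [AddCommGroup X] [Module ℝ X] [FiniteDimensional ℝ X]
    {ι : Type} (f : ι → X) (S : Finset ι) (h : LinearIndepOn ℝ f (S : Set ι)) :
    S.card ≤ finrank ℝ X := by
  have := h.linearIndependent.fintype_card_le_finrank
  simpa using this

/-- Steinitz: a space of functionals vanishing at `M0` is controlled by at most `2 dim` points of
`V`. -/
theorem GData.steinitz (E : Submodule ℝ (Dual ℝ W)) (hE : ∀ x ∈ E, x G.M0 = 0) :
    ∃ S : Finset W, S ⊆ G.V ∧ S.card ≤ 2 * finrank ℝ E ∧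
      ∀ x ∈ E, (∀ v ∈ S, 0 ≤ x v) → x = 0 := by
  classical
  obtain ⟨B', hB'V, -, hspan, hli⟩ := exists_linearIndepOn_extension
    (linearIndepOn_empty ℝ (rho E)) (Set.empty_subset (G.V : Set W))
  have hfin : B'.Finite := G.V.finite_toSet.subset hB'V
  obtain ⟨B, rfl⟩ : ∃ B : Finset W, B' = (B : Set W) := ⟨hfin.toFinset, by simp⟩
  have hBV : B ⊆ G.V := by exact_mod_cast hB'V
  -- points of B separate E
  have hsep : ∀ x ∈ E, (∀ b ∈ B, x b = 0) → x = 0 := by
    intro x hx hxb
    apply G.func_eq_zero _ (hE x hx)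
    intro v hv
    have h1 : rho E v ∈ Submodule.span ℝ (rho E '' (B : Set W)) := hspan ⟨v, hv, rfl⟩
    have h2 : ∀ y ∈ Submodule.span ℝ (rho E '' (B : Set W)), y ⟨x, hx⟩ = 0 := by
      intro y hy
      induction hy using Submodule.span_induction with
      | mem y hy =>
        obtain ⟨b, hb, rfl⟩ := hy
        exact hxb b hb
      | zero => rfl
      | add y z _ _ hy hz => rw [LinearMap.add_apply, hy, hz, add_zero]
      | smul c y _ hy => rw [LinearMap.smul_apply, hy, smul_zero]
    have h3 := h2 _ h1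
    rw [rho_apply] at h3
    exact h3.ge
  -- a nonnegative representation of the negative of the sum of `B`
  obtain ⟨K, hK⟩ := (G.U.image fun u => u (∑ b ∈ B, b)).bddAbove
  have hK' : ∀ u ∈ G.U, u (∑ b ∈ B, b) ≤ K := fun u hu => hK (by simpa using ⟨u, hu, rfl⟩)
  obtain ⟨c, hc, hceq⟩ := G.hC (K • G.M0 - ∑ b ∈ B, b) (by
    intro u hu
    rw [map_sub, map_smul, G.hUM u hu, smul_eq_mul, mul_one]
    linarith [hK' u hu])
  obtain ⟨J, hJV, c', hc', hJsum, hJli⟩ := exists_indep_rep (rho E) G.V c hc
  refine ⟨B ∪ J, Finset.union_subset hBV hJV, ?_, ?_⟩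
  · have h1 := card_le_of_indep _ B hli
    have h2 := card_le_of_indep _ J hJli
    have hd : finrank ℝ (Dual ℝ E) = finrank ℝ E :=
      Subspace.dual_finrank_eq (K := ℝ) (V := E)
    rw [hd] at h1 h2
    have h3 := Finset.card_union_le B J
    omega
  · intro x hx hpos
    apply hsep x hx
    have h1 : ∑ b ∈ B, x b = - ∑ v ∈ J, c' v * x v := by
      have h2 : x (K • G.M0 - ∑ b ∈ B, b) = ∑ v ∈ J, c' v * x v := by
        rw [hceq]
        have h3 := congrArg (fun y => y ⟨x, hx⟩) hJsum
        simp only [LinearMap.sum_apply, LinearMap.smul_apply, rho_apply, smul_eq_mul] at h3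
        rw [h3, map_sum]
        exact Finset.sum_congr rfl fun v _ => by rw [map_smul, smul_eq_mul]
      rw [map_sub, map_smul, hE x hx, smul_zero, zero_sub, map_sum] at h2
      linarith
    have hnn : ∀ b ∈ B, 0 ≤ x b := fun b hb => hpos b (Finset.mem_union_left _ hb)
    have h4 : ∑ b ∈ B, x b = 0 := by
      have h5 := Finset.sum_nonneg hnn
      have h6 : 0 ≤ ∑ v ∈ J, c' v * x v := Finset.sum_nonneg fun v hv =>
        mul_nonneg (hc' v hv).le (hpos v (Finset.mem_union_right _ hv))
      linarith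
    exact (Finset.sum_eq_zero_iff_of_nonneg hnn).1 h4

theorem GData.main1 (s : ℕ) (hr : G.n G.M0 = 2 * s) (hdim : finrank ℝ W = 3 * s) :
    ∃ A S : Finset W, A ⊆ G.V ∧ S ⊆ G.V ∧ A.card = 2 * s ∧ S.card = 2 * s ∧
      ∑ v ∈ A, v = G.M0 ∧ ∑ v ∈ S, v = G.M0 ∧
      (∀ x : Dual ℝ W, (∀ v ∈ A, x v = 0) → (∀ v ∈ S, 0 ≤ x v) → x = 0) ∧
      finrank ℝ (Submodule.span ℝ (A : Set W)).dualAnnihilator = s := by
  classical
  -- the maximal decomposition
  obtain ⟨A, hA, hmax⟩ := Finset.exists_max_image
    (G.V.powerset.filter fun A => G.Mem (G.M0 - ∑ v ∈ A, v)) Finset.card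
    ⟨∅, by
      rw [mem_filter]
      refine ⟨Finset.empty_mem_powerset _, ?_⟩
      intro u hu
      rw [Finset.sum_empty, sub_zero, G.hUM u hu]
      exact zero_le_one⟩
  rw [mem_filter, mem_powerset] at hA
  obtain ⟨hAV, hw⟩ := hA
  set w := G.M0 - ∑ v ∈ A, v with hwdef
  obtain ⟨c, hc, hceq⟩ := G.hC w hw
  obtain ⟨J, hJV, lam, hlam, hJsum, hJli⟩ := exists_indep_rep (id : W → W) G.V c hc
  simp only [id] at hJsum
  rw [← hceq] at hJsum
  have hface : ∀ u ∈ G.U, u w = 0 → ∀ v ∈ J, u v = 0 := by
    intro u hu huw v hv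
    rw [← hJsum, map_sum] at huw
    have hnn : ∀ v ∈ J, 0 ≤ u (lam v • v) := by
      intro v hv
      rw [map_smul]
      exact mul_nonneg (hlam v hv).le (G.hUV u hu v (hJV hv))
    have h1 := (Finset.sum_eq_zero_iff_of_nonneg hnn).1 huw v hv
    rw [map_smul, smul_eq_mul] at h1
    rcases mul_eq_zero.1 h1 with h2 | h2
    · exact absurd h2 (hlam v hv).ne'
    · exact h2
  have hAu : ∀ v ∈ A, ∃ u ∈ G.U, u v = 1 ∧ (∀ v' ∈ A, v' ≠ v → u v' = 0) ∧ u w = 0 := by
    intro v hv
    obtain ⟨u, hu, huv⟩ := G.exists_one (hAV hv) (G.le_one hAV hw hv)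
    rcases G.dich hAV hw hu with ⟨-, h⟩ | ⟨h0, v0, hv0, h1, h2⟩
    · rw [h v hv] at huv
      norm_num at huv
    · have : v = v0 := by
        by_contra hne
        rw [h2 v hv hne] at huv
        norm_num at huv
      subst this
      exact ⟨u, hu, huv, h2, h0⟩
  have hdisj : Disjoint A J := by
    rw [Finset.disjoint_left]
    intro v hvA hvJ
    obtain ⟨u, hu, h1, -, h2⟩ := hAu v hvA
    rw [hface u hu h2 v hvJ] at h1
    norm_num at h1
  have hlt : ∀ v ∈ J, lam v < 1 := by
    intro v hv
    by_contra hge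
    push Not at hge
    have hvA : v ∉ A := fun h => (Finset.disjoint_left.1 hdisj) h hv
    have hmem : G.Mem (w - v) := by
      intro u hu
      rw [map_sub, ← hJsum, map_sum, ← Finset.add_sum_erase J _ hv, map_smul, smul_eq_mul]
      have h1 : 0 ≤ ∑ x ∈ J.erase v, u (lam x • x) := by
        apply Finset.sum_nonneg
        intro x hx
        rw [map_smul]
        exact mul_nonneg (hlam x (mem_of_mem_erase hx)).le
          (G.hUV u hu x (hJV (mem_of_mem_erase hx)))
      have h2 := G.hUV u hu v (hJV hv)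
      nlinarith
    have h3 := hmax (insert v A) (by
      rw [mem_filter, mem_powerset]
      refine ⟨Finset.insert_subset (hJV hv) hAV, ?_⟩
      rw [Finset.sum_insert hvA]
      have : G.M0 - (v + ∑ v ∈ A, v) = w - v := by
        rw [hwdef]; abel
      rw [this]
      exact hmem)
    rw [Finset.card_insert_of_notMem hvA] at h3
    omega
  -- the interior lattice point
  have hwn : G.n w = 2 * s - A.card := by
    rw [hwdef, map_sub, hr, G.height_sum A hAV]
  have hmemX : G.Mem (∑ v ∈ J, v - (2 : ℝ) • w) := by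
    intro u hu
    rw [map_sub, map_smul, map_sum, smul_eq_mul]
    rcases G.dich hAV hw hu with ⟨h1, -⟩ | ⟨h1, -⟩
    · rw [← hwdef] at h1
      rw [h1]
      have hgt : u w < ∑ v ∈ J, u v := by
        rw [← hJsum, map_sum]
        apply Finset.sum_lt_sum
        · intro v hv
          rw [map_smul, smul_eq_mul]
          nlinarith [hlt v hv, G.hUV u hu v (hJV hv)]
        · by_contra hcon
          push Not at hcon
          have hz : ∀ v ∈ J, u v = 0 := by
            intro v hv
            have h2 := hcon v hv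
            rw [map_smul, smul_eq_mul] at h2
            have h3 := G.hUV u hu v (hJV hv)
            have h4 := hlt v hv
            nlinarith
          rw [← hJsum, map_sum, Finset.sum_eq_zero] at h1
          · norm_num at h1
          · intro v hv
            rw [map_smul, hz v hv, smul_zero]
      obtain ⟨k, hk⟩ := G.hUL u hu (∑ v ∈ J, v) (sum_mem fun v hv => G.hVL v (hJV hv))
      rw [map_sum] at hk
      rw [h1, hk] at hgt
      have h5 : (1 : ℤ) < k := by exact_mod_cast hgt
      have h6 : (2 : ℝ) ≤ k := by exact_mod_cast h5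
      rw [hk]
      linarith
    · rw [← hwdef] at h1
      rw [h1, Finset.sum_eq_zero (hface u hu h1)]
      norm_num
  have hX := G.height_nonneg hmemX
  rw [map_sub, map_smul, G.height_sum J hJV, hwn, smul_eq_mul] at hX
  have hwn0 := G.height_nonneg hw
  rw [hwn] at hwn0
  -- linear independence of `A ∪ J`
  have hAJ : LinearIndepOn ℝ id ((A ∪ J : Finset W) : Set W) := by
    rw [linearIndepOn_finset_iff]
    intro g hg
    simp only [id] at hg
    rw [Finset.sum_union hdisj] at hg
    have hgA : ∀ v ∈ A, g v = 0 := by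
      intro v hv
      obtain ⟨u, hu, h1, h2, h3⟩ := hAu v hv
      have h4 := congrArg u hg
      rw [map_add, map_zero, map_sum, map_sum, Finset.sum_eq_single v, Finset.sum_eq_zero,
        map_smul, h1, smul_eq_mul, mul_one, add_zero] at h4
      · exact h4
      · intro x hx
        rw [map_smul, hface u hu h3 x hx, smul_zero]
      · intro x hx hne
        rw [map_smul, h2 x hx hne, smul_zero]
      · intro h; exact absurd hv h
    rw [Finset.sum_eq_zero (s := A) (fun v hv => by rw [hgA v hv, zero_smul]), zero_add] at hg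
    have hgJ := linearIndepOn_finset_iff.1 hJli g (by simpa using hg)
    intro v hv
    rcases Finset.mem_union.1 hv with h | h
    · exact hgA v h
    · exact hgJ v h
  let E : Submodule ℝ (Dual ℝ W) :=
    (Submodule.span ℝ ((A ∪ J : Finset W) : Set W)).dualAnnihilator
  have hErank : A.card + J.card + finrank ℝ E = 3 * s := by
    rw [← hdim, ← Subspace.finrank_add_finrank_dualAnnihilator_eq
      (Submodule.span ℝ ((A ∪ J : Finset W) : Set W)), finrank_span_finset_eq_card hAJ,
      Finset.card_union_of_disjoint hdisj]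
  have hEmem : ∀ x : Dual ℝ W, x ∈ E ↔ (∀ v ∈ A, x v = 0) ∧ ∀ v ∈ J, x v = 0 := by
    intro x
    rw [Submodule.mem_dualAnnihilator]
    constructor
    · intro h
      exact ⟨fun v hv => h v (Submodule.subset_span (by simp [hv])),
        fun v hv => h v (Submodule.subset_span (by simp [hv]))⟩
    · rintro ⟨h1, h2⟩ z hz
      induction hz using Submodule.span_induction with
      | mem z hz =>
        rcases Finset.mem_union.1 (Finset.mem_coe.1 hz) with h | h
        · exact h1 z h
        · exact h2 z h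
      | zero => exact map_zero x
      | add y z _ _ hy hz => rw [map_add, hy, hz, add_zero]
      | smul c y _ hy => rw [map_smul, hy, smul_zero]
  have hEM : ∀ x ∈ E, x G.M0 = 0 := by
    intro x hx
    rw [hEmem] at hx
    have : G.M0 = ∑ v ∈ A, v + w := by rw [hwdef]; abel
    rw [this, map_add, ← hJsum, map_sum, map_sum, Finset.sum_eq_zero hx.1, Finset.sum_eq_zero,
      add_zero]
    intro v hv
    rw [map_smul, hx.2 v hv, smul_zero]
  obtain ⟨S, hSV, hScard, hS⟩ := G.steinitz E hEM
  have hmemY : G.Mem (∑ v ∈ S, v - ∑ v ∈ A, v) := by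
    intro u hu
    rw [map_sub, map_sum, map_sum]
    have hnn : ∀ v ∈ S, 0 ≤ u v := fun v hv => G.hUV u hu v (hSV hv)
    rcases G.dich hAV hw hu with ⟨-, h1⟩ | ⟨h0, v0, hv0, h1, h2⟩
    · rw [Finset.sum_eq_zero h1, sub_zero]
      exact Finset.sum_nonneg hnn
    · rw [← hwdef] at h0
      rw [Finset.sum_eq_single v0 (fun x hx hne => h2 x hx hne) (fun h => absurd hv0 h), h1]
      obtain ⟨u', hu', hne, h3⟩ := G.exists_other (hAV hv0) (G.le_one hAV hw hv0) hu h1
      have h4 : u' w = 0 ∧ ∀ v' ∈ A, v' ≠ v0 → u' v' = 0 := by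
        rcases G.dich hAV hw hu' with ⟨-, h⟩ | ⟨h0', v1, hv1, h1', h2'⟩
        · rw [h v0 hv0] at h3
          norm_num at h3
        · have : v0 = v1 := by
            by_contra hne
            rw [h2' v0 hv0 hne] at h3
            norm_num at h3
          subst this
          exact ⟨h0', h2'⟩
      have hxE : u' - u ∈ E := by
        rw [hEmem]
        constructor
        · intro v hv
          rw [LinearMap.sub_apply]
          by_cases h : v = v0
          · rw [h, h3, h1, sub_self]
          · rw [h4.2 v hv h, h2 v hv h, sub_self]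
        · intro v hv
          rw [LinearMap.sub_apply, hface u hu h0 v hv, hface u' hu' h4.1 v hv, sub_self]
      have hex : ∃ v ∈ S, (u' - u) v < 0 := by
        by_contra hcon
        push Not at hcon
        exact hne (sub_eq_zero.1 (hS _ hxE hcon))
      obtain ⟨v, hv, hlt'⟩ := hex
      rw [LinearMap.sub_apply] at hlt'
      have h5 := G.hUV u' hu' v (hSV hv)
      obtain ⟨k, hk⟩ := G.int_V hu (hSV hv)
      have h6 : (0 : ℝ) < k := by rw [← hk]; linarith
      have h7 : (1 : ℝ) ≤ k := by
        have : 0 < k := by exact_mod_cast h6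
        exact_mod_cast this
      have h8 := Finset.single_le_sum hnn hv
      rw [hk] at h8
      linarith
  have hY := G.height_nonneg hmemY
  rw [map_sub, G.height_sum S hSV, G.height_sum A hAV] at hY
  -- numbers
  have e1 : A.card ≤ S.card := by
    have : (A.card : ℝ) ≤ S.card := by linarith
    exact_mod_cast this
  have e2 : A.card ≤ 2 * s := by
    have : (A.card : ℝ) ≤ ((2 * s : ℕ) : ℝ) := by push_cast; linarith
    exact_mod_cast this
  have e3 : 4 * s ≤ J.card + 2 * A.card := by
    have : ((4 * s : ℕ) : ℝ) ≤ ((J.card + 2 * A.card : ℕ) : ℝ) := by push_cast; linarith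
    exact_mod_cast this
  have f1 : A.card = 2 * s := by omega
  have f2 : J.card = 0 := by omega
  have f3 : finrank ℝ E = s := by omega
  have f4 : S.card = 2 * s := by omega
  have hJ0 : J = ∅ := Finset.card_eq_zero.1 f2
  have hw0 : w = 0 := by
    rw [← hJsum, hJ0, Finset.sum_empty]
  have hAM : ∑ v ∈ A, v = G.M0 := by
    have : G.M0 = ∑ v ∈ A, v + w := by rw [hwdef]; abel
    rw [this, hw0, add_zero]
  have hSA : ∑ v ∈ S, v - ∑ v ∈ A, v = 0 := by
    apply G.eq_zero hmemY
    rw [map_sub, G.height_sum S hSV, G.height_sum A hAV, f1, f4, sub_self]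
  refine ⟨A, S, hAV, hSV, f1, f4, hAM, ?_, ?_, ?_⟩
  · rw [← hAM]
    exact sub_eq_zero.1 hSA
  · intro x h1 h2
    apply hS x _ h2
    rw [hEmem]
    exact ⟨h1, by rw [hJ0]; intro v hv; simp at hv⟩
  · have hAJ0 : A ∪ J = A := by rw [hJ0, Finset.union_empty]
    have : finrank ℝ (Submodule.span ℝ ((A ∪ J : Finset W) : Set W)).dualAnnihilator = s := f3
    rwa [hAJ0] at this

end Pool.Agent.H178R3.Gor
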