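import Pool.Agent.H178R3.PosFixedDim

set_option autoImplicit false

open Set

namespace Pool.Agent.H178R3

namespace CentralArrangement

/-! ### Arrangements given by a family of normal vectors -/

section family

variable {d : ℕ} {I : Type} [Fintype I] (vec : I → (Fin d → ℝ)) (b : Fin d → ℝ)

theorem dotL_ne_zero {a x : Fin d → ℝ} (h : dotL a x ≠ 0) : dotL a ≠ 0 := by
  intro h0
  rw [h0] at h
  simp at h

open Classical in
/-- The arrangement of the hyperplanes orthogonal to the vectors of a family, where `b` has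
positive scalar product with all of them. -/
noncomputable def arr (hb : ∀ i, 0 < dotL (vec i) b) : CentralArrangement d where
  hyps := Finset.univ.image fun i => LinearMap.ker (dotL (vec i))
  isHyp h hh := by
    obtain ⟨i, _, rfl⟩ := Finset.mem_image.1 hh
    have := Module.Dual.finrank_ker_add_one_of_ne_zero (dotL_ne_zero (hb i).ne')
    simpa using this

variable {vec b}

theorem ker_mem_arr (hb : ∀ i, 0 < dotL (vec i) b) (i : I) :
    LinearMap.ker (dotL (vec i)) ∈ (arr vec b hb).hyps :=
  Finset.mem_image.2 ⟨i, Finset.mem_univ _, rfl⟩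

theorem mem_arr_complement (hb : ∀ i, 0 < dotL (vec i) b) {x : Fin d → ℝ}
    (hx : ∀ i, dotL (vec i) x ≠ 0) : x ∈ (arr vec b hb).complement := by
  intro h hh hxh
  obtain ⟨i, _, rfl⟩ := Finset.mem_image.1 hh
  exact hx i hxh

theorem base_mem (hb : ∀ i, 0 < dotL (vec i) b) : b ∈ (arr vec b hb).complement :=
  mem_arr_complement hb fun i => (hb i).ne'

/-- The base region of the arrangement of a family. -/
noncomputable def baseRegion (hb : ∀ i, 0 < dotL (vec i) b) : (arr vec b hb).Region :=
  regionOf b (base_mem hb)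

theorem arr_le_iff (hb : ∀ i, 0 < dotL (vec i) b) {R R' : Pos (arr vec b hb) (baseRegion hb)}
    {x x' : Fin d → ℝ} (hx : x ∈ (show (arr vec b hb).Region from R).1)
    (hx' : x' ∈ (show (arr vec b hb).Region from R').1) :
    R ≤ R' ↔ ∀ i, dotL (vec i) x < 0 → dotL (vec i) x' < 0 := by
  have hbm : b ∈ (baseRegion hb).1 := mem_regionOf b (base_mem hb)
  rw [le_iff]
  constructor
  · intro h i hi
    have h1 := (mem_sepSet_iff hbm hx (ker_mem_arr hb i) (hb i)).2 hi
    exact (mem_sepSet_iff hbm hx' (ker_mem_arr hb i) (hb i)).1 (h h1)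
  · intro h k hk
    obtain ⟨i, _, rfl⟩ := Finset.mem_image.1 hk.1
    have h1 := (mem_sepSet_iff hbm hx (ker_mem_arr hb i) (hb i)).1 hk
    exact (mem_sepSet_iff hbm hx' (ker_mem_arr hb i) (hb i)).2 (h i h1)

end family

/-! ### The configuration attached to a finite family of elements of a lattice -/

section config

open Classical

variable {L : Type*} [Lattice L] {n : ℕ} (z : Fin n → L)

/-- The vectors `e m`. -/
noncomputable def evec (m : Fin n) : Fin (n + 1) → ℝ :=
  Fin.cons 1 (fun i => if z i ≤ z m then 4 * (n : ℝ) else -1)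

/-- The vectors `f j`. -/
noncomputable def fvec (j : Fin n) : Fin (n + 1) → ℝ :=
  Fin.cons 1 (fun i => if z j ≤ z i then -(4 * (n : ℝ)) else 1)

/-- The vectors `g j w`. -/
noncomputable def gvec (j w : Fin n) : Fin (n + 1) → ℝ :=
  if z j ≤ z w then
    fvec z j - (1 / (2 * (n : ℝ))) • ∑ m ∈ Finset.univ.filter (fun m => ¬ z w ≤ z m), evec z m
  else Fin.cons 1 (fun _ => -1)

/-- The vectors `h m v`. -/
noncomputable def hvec (m v : Fin n) : Fin (n + 1) → ℝ :=
  if z v ≤ z m then
    evec z m - (1 / (2 * (n : ℝ))) • ∑ j ∈ Finset.univ.filter (fun j => ¬ z j ≤ z v), fvec z j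
  else Fin.cons 1 (fun _ => 1)

/-- The whole family of vectors. -/
noncomputable def cvec : (Fin n ⊕ Fin n) ⊕ ((Fin n × Fin n) ⊕ (Fin n × Fin n)) →
    (Fin (n + 1) → ℝ) :=
  Sum.elim (Sum.elim (evec z) (fvec z))
    (Sum.elim (fun p => gvec z p.1 p.2) (fun p => hvec z p.1 p.2))

theorem evec_zero (m : Fin n) : evec z m 0 = 1 := rfl
theorem fvec_zero (m : Fin n) : fvec z m 0 = 1 := rfl
theorem evec_succ (m i : Fin n) :
    evec z m i.succ = if z i ≤ z m then 4 * (n : ℝ) else -1 := rfl
theorem fvec_succ (j i : Fin n) :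
    fvec z j i.succ = if z j ≤ z i then -(4 * (n : ℝ)) else 1 := rfl

theorem npos (i : Fin n) : (1 : ℝ) ≤ n := by
  have : 0 < n := i.pos
  exact_mod_cast this

theorem card_finset_le (F : Finset (Fin n)) : (F.card : ℝ) ≤ n := by
  have h := Finset.card_le_univ F
  rw [Fintype.card_fin] at h
  exact_mod_cast h

theorem gvec_zero_pos (j w : Fin n) : 0 < gvec z j w 0 := by
  have hn := npos j
  unfold gvec
  split_ifs with h
  · simp only [Pi.sub_apply, Pi.smul_apply, Finset.sum_apply, evec_zero, fvec_zero,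
      Finset.sum_const, nsmul_eq_mul, mul_one, smul_eq_mul]
    have hc := card_finset_le (Finset.univ.filter (fun m => ¬ z w ≤ z m))
    have : 1 / (2 * (n : ℝ)) * ((Finset.univ.filter (fun m => ¬ z w ≤ z m)).card : ℝ) ≤ 1 / 2 := by
      rw [div_mul_eq_mul_div, one_mul, div_le_div_iff₀ (by linarith) (by norm_num)]
      linarith
    linarith
  · show (0 : ℝ) < 1
    norm_num

theorem hvec_zero_pos (m v : Fin n) : 0 < hvec z m v 0 := by
  have hn := npos m
  unfold hvec
  split_ifs with h
  · simp only [Pi.sub_apply, Pi.smul_apply, Finset.sum_apply, evec_zero, fvec_zero,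
      Finset.sum_const, nsmul_eq_mul, mul_one, smul_eq_mul]
    have hc := card_finset_le (Finset.univ.filter (fun j => ¬ z j ≤ z v))
    have : 1 / (2 * (n : ℝ)) * ((Finset.univ.filter (fun j => ¬ z j ≤ z v)).card : ℝ) ≤ 1 / 2 := by
      rw [div_mul_eq_mul_div, one_mul, div_le_div_iff₀ (by linarith) (by norm_num)]
      linarith
    linarith
  · show (0 : ℝ) < 1
    norm_num

theorem sum_evec_ge (F : Finset (Fin n)) (i : Fin n) :
    -(n : ℝ) ≤ ∑ m ∈ F, evec z m i.succ ∧
      (i ∈ F → 4 * (n : ℝ) + 1 - n ≤ ∑ m ∈ F, evec z m i.succ) := by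
  have hn := npos i
  have hterm : ∀ m, 0 ≤ evec z m i.succ + 1 := by
    intro m
    rw [evec_succ]
    split_ifs <;> linarith
  have hsum : ∑ m ∈ F, evec z m i.succ = ∑ m ∈ F, (evec z m i.succ + 1) - F.card := by
    rw [Finset.sum_add_distrib]
    simp
  have hF : (F.card : ℝ) ≤ n := by
    have h := Finset.card_le_univ F
    rw [Fintype.card_fin] at h
    exact_mod_cast h
  constructor
  · rw [hsum]
    have := Finset.sum_nonneg (s := F) (fun m _ => hterm m)
    linarith
  · intro hi
    rw [hsum]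
    have := Finset.single_le_sum (f := fun m => evec z m i.succ + 1) (s := F)
      (fun m _ => hterm m) hi
    simp only [evec_succ z i i, le_refl, if_true] at this
    linarith

theorem sum_fvec_le (F : Finset (Fin n)) (i : Fin n) :
    ∑ m ∈ F, fvec z m i.succ ≤ n ∧
      (i ∈ F → ∑ m ∈ F, fvec z m i.succ ≤ -(4 * (n : ℝ) + 1 - n)) := by
  have hn := npos i
  have hterm : ∀ m, 0 ≤ 1 - fvec z m i.succ := by
    intro m
    rw [fvec_succ]
    split_ifs <;> linarith
  have hsum : ∑ m ∈ F, fvec z m i.succ = F.card - ∑ m ∈ F, (1 - fvec z m i.succ) := by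
    rw [Finset.sum_sub_distrib]
    simp
  have hF : (F.card : ℝ) ≤ n := by
    have h := Finset.card_le_univ F
    rw [Fintype.card_fin] at h
    exact_mod_cast h
  constructor
  · rw [hsum]
    have := Finset.sum_nonneg (s := F) (fun m _ => hterm m)
    linarith
  · intro hi
    rw [hsum]
    have := Finset.single_le_sum (f := fun m => 1 - fvec z m i.succ) (s := F)
      (fun m _ => hterm m) hi
    simp only [fvec_succ z i i, le_refl, if_true] at this
    linarith

theorem gvec_neg (j w i : Fin n) : gvec z j w i.succ < 0 := by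
  have hn := npos j
  unfold gvec
  split_ifs with h
  · simp only [Pi.sub_apply, Pi.smul_apply, Finset.sum_apply, smul_eq_mul]
    obtain ⟨h1, h2⟩ := sum_evec_ge z (Finset.univ.filter (fun m => ¬ z w ≤ z m)) i
    set S := ∑ m ∈ Finset.univ.filter (fun m => ¬ z w ≤ z m), evec z m i.succ with hS
    have hc : 0 < 1 / (2 * (n : ℝ)) := by positivity
    rw [fvec_succ]
    split_ifs with hji
    · have : 1 / (2 * (n : ℝ)) * (-(n : ℝ)) ≤ 1 / (2 * (n : ℝ)) * S :=
        mul_le_mul_of_nonneg_left h1 hc.le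
      have e : 1 / (2 * (n : ℝ)) * (-(n : ℝ)) = -(1 / 2) := by
        field_simp
      linarith
    · have hi : i ∈ Finset.univ.filter (fun m => ¬ z w ≤ z m) := by
        rw [Finset.mem_filter]
        exact ⟨Finset.mem_univ _, fun hwi => hji (h.trans hwi)⟩
      have : 1 / (2 * (n : ℝ)) * (3 * (n : ℝ)) ≤ 1 / (2 * (n : ℝ)) * S :=
        mul_le_mul_of_nonneg_left (by linarith [h2 hi]) hc.le
      have e : 1 / (2 * (n : ℝ)) * (3 * (n : ℝ)) = 3 / 2 := by
        field_simp
      linarith
  · show (-1 : ℝ) < 0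
    norm_num

theorem hvec_pos (m v i : Fin n) : 0 < hvec z m v i.succ := by
  have hn := npos m
  unfold hvec
  split_ifs with h
  · simp only [Pi.sub_apply, Pi.smul_apply, Finset.sum_apply, smul_eq_mul]
    obtain ⟨h1, h2⟩ := sum_fvec_le z (Finset.univ.filter (fun j => ¬ z j ≤ z v)) i
    set S := ∑ m ∈ Finset.univ.filter (fun j => ¬ z j ≤ z v), fvec z m i.succ with hS
    have hc : 0 < 1 / (2 * (n : ℝ)) := by positivity
    rw [evec_succ]
    split_ifs with hji
    · have : 1 / (2 * (n : ℝ)) * S ≤ 1 / (2 * (n : ℝ)) * (n : ℝ) :=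
        mul_le_mul_of_nonneg_left h1 hc.le
      have e : 1 / (2 * (n : ℝ)) * (n : ℝ) = 1 / 2 := by
        field_simp
      linarith
    · have hi : i ∈ Finset.univ.filter (fun j => ¬ z j ≤ z v) := by
        rw [Finset.mem_filter]
        exact ⟨Finset.mem_univ _, fun hwi => hji (hwi.trans h)⟩
      have : 1 / (2 * (n : ℝ)) * S ≤ 1 / (2 * (n : ℝ)) * (-(3 * (n : ℝ))) :=
        mul_le_mul_of_nonneg_left (by linarith [h2 hi]) hc.le
      have e : 1 / (2 * (n : ℝ)) * (-(3 * (n : ℝ))) = -(3 / 2) := by
        field_simp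
      linarith
  · show (0 : ℝ) < 1
    norm_num

theorem dotL_single (a : Fin (n + 1) → ℝ) (i : Fin (n + 1)) :
    dotL a (Pi.single i 1) = a i := by
  simp [dotL_apply, Pi.single_apply]

theorem cvec_base (i) : 0 < dotL (cvec z i) (Pi.single 0 1) := by
  rw [dotL_single]
  rcases i with (m | j) | (⟨j, w⟩ | ⟨m, v⟩)
  · show (0 : ℝ) < evec z m 0
    rw [evec_zero]; norm_num
  · show (0 : ℝ) < fvec z j 0
    rw [fvec_zero]; norm_num
  · exact gvec_zero_pos z j w
  · exact hvec_zero_pos z m v

theorem cvec_ne (k : Fin n) (i) : dotL (cvec z i) (Pi.single k.succ 1) ≠ 0 := by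
  have hn := npos k
  rw [dotL_single]
  rcases i with (m | j) | (⟨j, w⟩ | ⟨m, v⟩)
  · show evec z m k.succ ≠ 0
    rw [evec_succ]
    split_ifs
    · linarith
    · norm_num
  · show fvec z j k.succ ≠ 0
    rw [fvec_succ]
    split_ifs
    · linarith
    · norm_num
  · exact (gvec_neg z j w k).ne
  · exact (hvec_pos z m v k).ne'

/-- The arrangement attached to `z`. -/
noncomputable abbrev zArr : CentralArrangement (n + 1) := arr (cvec z) (Pi.single 0 1) (cvec_base z)

/-- Its base region. -/
noncomputable abbrev zBase : (zArr z).Region := baseRegion (cvec_base z)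

/-- The region attached to the `k`-th element. -/
noncomputable def zReg (k : Fin n) : Pos (zArr z) (zBase z) :=
  posOf _ (Pi.single k.succ 1) (mem_arr_complement (cvec_base z) (cvec_ne z k))

theorem mem_zReg (k : Fin n) :
    (Pi.single k.succ 1 : Fin (n + 1) → ℝ) ∈ (show (zArr z).Region from zReg z k).1 :=
  mem_posOf _ _ _

theorem zReg_le_iff (k : Fin n) {R : Pos (zArr z) (zBase z)} {x : Fin (n + 1) → ℝ}
    (hx : x ∈ (show (zArr z).Region from R).1) :
    zReg z k ≤ R ↔ ∀ i, cvec z i k.succ < 0 → dotL (cvec z i) x < 0 := by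
  rw [arr_le_iff (cvec_base z) (R := zReg z k) (mem_zReg z k) hx]
  simp only [dotL_single]

theorem le_zReg_iff (k : Fin n) {R : Pos (zArr z) (zBase z)} {x : Fin (n + 1) → ℝ}
    (hx : x ∈ (show (zArr z).Region from R).1) :
    R ≤ zReg z k ↔ ∀ i, dotL (cvec z i) x < 0 → cvec z i k.succ < 0 := by
  rw [arr_le_iff (cvec_base z) (R' := zReg z k) hx (mem_zReg z k)]
  simp only [dotL_single]

theorem evec_neg_iff (m k : Fin n) : evec z m k.succ < 0 ↔ ¬ z k ≤ z m := by
  have hn := npos k
  rw [evec_succ]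
  split_ifs with h
  · simp only [h, not_true, iff_false, not_lt]; linarith
  · simp only [h, not_false_eq_true, iff_true]; norm_num

theorem fvec_neg_iff (j k : Fin n) : fvec z j k.succ < 0 ↔ z j ≤ z k := by
  have hn := npos k
  rw [fvec_succ]
  split_ifs with h
  · simp only [h, iff_true]; linarith
  · simp only [h, iff_false, not_lt]; norm_num

theorem zReg_le_zReg (k l : Fin n) : zReg z k ≤ zReg z l ↔ z k ≤ z l := by
  rw [zReg_le_iff z k (R := zReg z l) (mem_zReg z l)]
  simp only [dotL_single]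
  constructor
  · intro h
    exact (fvec_neg_iff z k l).1 (h (Sum.inl (Sum.inr k)) ((fvec_neg_iff z k k).2 le_rfl))
  · intro hkl i hi
    rcases i with (m | j) | (⟨j, w⟩ | ⟨m, v⟩)
    · exact (evec_neg_iff z m l).2 fun h => (evec_neg_iff z m k).1 hi (hkl.trans h)
    · exact (fvec_neg_iff z j l).2 (((fvec_neg_iff z j k).1 hi).trans hkl)
    · exact gvec_neg z j w l
    · exact absurd hi (not_lt.2 (hvec_pos z m v k).le)

theorem zReg_join {x y w : Fin n} (hw : z w = z x ⊔ z y) {R : Pos (zArr z) (zBase z)}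
    (h1 : zReg z x ≤ R) (h2 : zReg z y ≤ R) : zReg z w ≤ R := by
  obtain ⟨p, hp⟩ := Region.nonempty (show (zArr z).Region from R)
  rw [zReg_le_iff z _ hp] at h1 h2 ⊢
  have he : ∀ m, ¬ z w ≤ z m → dotL (evec z m) p < 0 := by
    intro m hm
    by_cases hx : z x ≤ z m
    · have hy : ¬ z y ≤ z m := fun hy => hm (hw ▸ sup_le hx hy)
      exact h2 (Sum.inl (Sum.inl m)) ((evec_neg_iff z m y).2 hy)
    · exact h1 (Sum.inl (Sum.inl m)) ((evec_neg_iff z m x).2 hx)
  have hg : ∀ j v, dotL (gvec z j v) p < 0 := fun j v =>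
    h1 (Sum.inr (Sum.inl (j, v))) (gvec_neg z j v x)
  intro i hi
  rcases i with (m | j) | (⟨j, v⟩ | ⟨m, v⟩)
  · exact he m ((evec_neg_iff z m w).1 hi)
  · have hj : z j ≤ z w := (fvec_neg_iff z j w).1 hi
    show dotL (fvec z j) p < 0
    have hgj := hg j w
    rw [gvec, if_pos hj, dotL_comm, map_sub, map_smul, map_sum, smul_eq_mul] at hgj
    have hs : ∑ m ∈ Finset.univ.filter (fun m => ¬ z w ≤ z m), dotL p (evec z m) ≤ 0 := by
      apply Finset.sum_nonpos
      intro m hm
      rw [dotL_comm]
      exact (he m (Finset.mem_filter.1 hm).2).le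
    have hc : 0 ≤ 1 / (2 * (n : ℝ)) := by positivity
    rw [dotL_comm]
    nlinarith [mul_nonneg hc (neg_nonneg.2 hs)]
  · exact hg j v
  · exact absurd hi (not_lt.2 (hvec_pos z m v w).le)

theorem zReg_meet {x y w : Fin n} (hw : z w = z x ⊓ z y) {R : Pos (zArr z) (zBase z)}
    (h1 : R ≤ zReg z x) (h2 : R ≤ zReg z y) : R ≤ zReg z w := by
  obtain ⟨p, hp⟩ := Region.nonempty (show (zArr z).Region from R)
  rw [le_zReg_iff z _ hp] at h1 h2 ⊢
  have hf : ∀ j, ¬ z j ≤ z w → 0 ≤ dotL (fvec z j) p := by
    intro j hj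
    by_contra hneg
    rw [not_le] at hneg
    have e1 := (fvec_neg_iff z j x).1 (h1 (Sum.inl (Sum.inr j)) hneg)
    have e2 := (fvec_neg_iff z j y).1 (h2 (Sum.inl (Sum.inr j)) hneg)
    exact hj (hw ▸ le_inf e1 e2)
  have hh : ∀ m v, 0 ≤ dotL (hvec z m v) p := by
    intro m v
    by_contra hneg
    rw [not_le] at hneg
    have := h1 (Sum.inr (Sum.inr (m, v))) hneg
    exact absurd this (not_lt.2 (hvec_pos z m v x).le)
  intro i hi
  rcases i with (m | j) | (⟨j, v⟩ | ⟨m, v⟩)
  · apply (evec_neg_iff z m w).2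
    intro hm
    have hgj := hh m w
    rw [hvec, if_pos hm, dotL_comm, map_sub, map_smul, map_sum, smul_eq_mul] at hgj
    have hs : 0 ≤ ∑ j ∈ Finset.univ.filter (fun j => ¬ z j ≤ z w), dotL p (fvec z j) := by
      apply Finset.sum_nonneg
      intro j hj
      rw [dotL_comm]
      exact hf j (Finset.mem_filter.1 hj).2
    have hc : 0 ≤ 1 / (2 * (n : ℝ)) := by positivity
    have hi' : dotL (evec z m) p < 0 := hi
    rw [dotL_comm] at hi'
    nlinarith [mul_nonneg hc hs]
  · apply (fvec_neg_iff z j w).2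
    by_contra hj
    exact absurd hi (not_lt.2 (hf j hj))
  · exact gvec_neg z j v w
  · exact absurd hi (not_lt.2 (hh m v))

end config

/-! ### Joins and meets of principal cuts -/

theorem principal_sup {α : Type*} [PartialOrder α] {a b c : α} (h : IsLUB {a, b} c) :
    DedekindCut.principal c = DedekindCut.principal a ⊔ DedekindCut.principal b := by
  apply le_antisymm
  · rw [DedekindCut.principal_le_iff, ← DedekindCut.lowerBounds_right, mem_lowerBounds]
    intro r hr
    have hr' : r ∈ (DedekindCut.principal a ⊔ DedekindCut.principal b).intent := hr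
    rw [Concept.intent_sup] at hr'
    apply h.2
    rintro t (rfl | rfl)
    · exact hr'.1
    · exact hr'.2
  · apply sup_le
    · exact DedekindCut.principal_le_principal.2 (h.1 (by simp))
    · exact DedekindCut.principal_le_principal.2 (h.1 (by simp))

theorem principal_inf {α : Type*} [PartialOrder α] {a b c : α} (h : IsGLB {a, b} c) :
    DedekindCut.principal c = DedekindCut.principal a ⊓ DedekindCut.principal b := by
  apply le_antisymm
  · apply le_inf
    · exact DedekindCut.principal_le_principal.2 (h.1 (by simp))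
    · exact DedekindCut.principal_le_principal.2 (h.1 (by simp))
  · rw [DedekindCut.le_principal_iff, ← DedekindCut.upperBounds_left, mem_upperBounds]
    intro r hr
    have hr' : r ∈ (DedekindCut.principal a ⊓ DedekindCut.principal b).extent := hr
    rw [Concept.extent_inf] at hr'
    apply h.2
    rintro t (rfl | rfl)
    · exact hr'.1
    · exact hr'.2

/-- **Embedding of finite partial lattices.** -/
theorem exists_embedding {L : Type*} [Lattice L] {n : ℕ} (hn : 0 < n) (z : Fin n → L) :
    ∃ (A : CentralArrangement (n + 1)) (B : A.Region) (F : L → DedekindCut (Pos A B)),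
      (∀ k l, F (z k) ≤ F (z l) ↔ z k ≤ z l) ∧
      (∀ x y w, z w = z x ⊔ z y → F (z w) = F (z x) ⊔ F (z y)) ∧
      (∀ x y w, z w = z x ⊓ z y → F (z w) = F (z x) ⊓ F (z y)) := by
  classical
  refine ⟨zArr z, zBase z, fun a => if h : ∃ k, z k = a then
    DedekindCut.principal (zReg z h.choose) else DedekindCut.principal (zReg z ⟨0, hn⟩), ?_⟩
  have key : ∀ k, (if h : ∃ l, z l = z k then
      DedekindCut.principal (zReg z h.choose) else DedekindCut.principal (zReg z ⟨0, hn⟩)) =
      DedekindCut.principal (zReg z k) := by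
    intro k
    have h : ∃ l, z l = z k := ⟨k, rfl⟩
    rw [dif_pos h]
    congr 1
    apply le_antisymm
    · rw [zReg_le_zReg, h.choose_spec]
    · rw [zReg_le_zReg, h.choose_spec]
  refine ⟨?_, ?_, ?_⟩
  · intro k l
    simp only [key]
    rw [DedekindCut.principal_le_principal, zReg_le_zReg]
  · intro x y w hw
    simp only [key]
    apply principal_sup
    constructor
    · rintro t (rfl | rfl)
      · rw [zReg_le_zReg, hw]; exact le_sup_left
      · rw [zReg_le_zReg, hw]; exact le_sup_right
    · intro R hR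
      exact zReg_join z hw (hR (by simp)) (hR (by simp))
  · intro x y w hw
    simp only [key]
    apply principal_inf
    constructor
    · rintro t (rfl | rfl)
      · rw [zReg_le_zReg, hw]; exact inf_le_left
      · rw [zReg_le_zReg, hw]; exact inf_le_right
    · intro R hR
      exact zReg_meet z hw (hR (by simp)) (hR (by simp))

end CentralArrangement

end Pool.Agent.H178R3
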