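import Pool.Agent.H178R3.PosRegions

set_option autoImplicit false

open Set

namespace Pool.Agent.H178R3

namespace CentralArrangement

variable {d : ℕ} {A : CentralArrangement d}

/-- The linear functional `x ↦ ∑ i, a i * x i`. -/
def dotL (a : Fin d → ℝ) : (Fin d → ℝ) →ₗ[ℝ] ℝ where
  toFun x := ∑ i, a i * x i
  map_add' x y := by simp [mul_add, Finset.sum_add_distrib]
  map_smul' c x := by
    simp only [Pi.smul_apply, smul_eq_mul, RingHom.id_apply, Finset.mul_sum]
    exact Finset.sum_congr rfl fun i _ => by ring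

theorem dotL_apply (a x : Fin d → ℝ) : dotL a x = ∑ i, a i * x i := rfl

theorem dotL_comm (a x : Fin d → ℝ) : dotL a x = dotL x a := by
  simp [dotL_apply, mul_comm]

theorem eq_dotL (f : (Fin d → ℝ) →ₗ[ℝ] ℝ) : f = dotL (fun i => f (Pi.single i 1)) := by
  apply LinearMap.pi_ext'
  intro i
  apply LinearMap.ext
  intro c
  simp [dotL_apply, Pi.single_apply]
  have : (Pi.single i c : Fin d → ℝ) = c • Pi.single i 1 := by
    rw [← Pi.single_smul]; simp
  rw [this, map_smul, smul_eq_mul, mul_comm]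

/-- Normal vectors of the hyperplanes, normalized at a point `b` of the base region. -/
structure Normals (A : CentralArrangement d) (B : A.Region) (b : Fin d → ℝ)
    (vec : Submodule ℝ (Fin d → ℝ) → (Fin d → ℝ)) : Prop where
  mem : b ∈ B.1
  ker : ∀ h ∈ A.hyps, LinearMap.ker (dotL (vec h)) = h
  one : ∀ h ∈ A.hyps, dotL (vec h) b = 1

theorem exists_normals (B : A.Region) : ∃ b vec, Normals A B b vec := by
  classical
  obtain ⟨b, hb⟩ := B.nonempty
  have : ∀ h : Submodule ℝ (Fin d → ℝ), ∃ v : Fin d → ℝ, h ∈ A.hyps →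
      LinearMap.ker (dotL v) = h ∧ dotL v b = 1 := by
    intro h
    by_cases hh : h ∈ A.hyps
    · obtain ⟨f, hf, hfb⟩ := exists_functional hh (B.subset hb h hh)
      refine ⟨fun i => f (Pi.single i 1), fun _ => ?_⟩
      rw [← eq_dotL]
      exact ⟨hf, hfb⟩
    · exact ⟨0, fun h' => absurd h' hh⟩
  choose vec hvec using this
  exact ⟨b, vec, hb, fun h hh => (hvec h hh).1, fun h hh => (hvec h hh).2⟩

section fixed

variable {B : A.Region} {b : Fin d → ℝ} {vec : Submodule ℝ (Fin d → ℝ) → (Fin d → ℝ)}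
  (N : Normals A B b vec)

include N

theorem Normals.inj {h k : Submodule ℝ (Fin d → ℝ)} (hh : h ∈ A.hyps) (hk : k ∈ A.hyps)
    (e : vec h = vec k) : h = k := by
  rw [← N.ker h hh, ← N.ker k hk, e]

theorem Normals.mem_iff {R : A.Region} {x : Fin d → ℝ} (hx : x ∈ R.1)
    {h : Submodule ℝ (Fin d → ℝ)} (hh : h ∈ A.hyps) :
    h ∈ sepSet B R ↔ dotL (vec h) x < 0 := by
  have hk := N.ker h hh
  have := mem_sepSet_iff (R := R) N.mem hx (f := dotL (vec h)) (by rw [hk]; exact hh)
    (by rw [N.one h hh]; exact one_pos)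
  rwa [hk] at this

theorem Normals.separation {U : Set (Submodule ℝ (Fin d → ℝ))} (hU : U ⊆ A.hyps)
    {h : Submodule ℝ (Fin d → ℝ)} (hh : h ∈ A.hyps)
    (hnot : vec h ∉ convexHull ℝ (vec '' U)) :
    ∃ x ∈ A.complement, (∀ u ∈ U, dotL (vec u) x < 0) ∧ 0 < dotL (vec h) x := by
  classical
  have hfin : (vec '' U).Finite := (A.hyps.finite_toSet.subset hU).image _
  obtain ⟨f, u, hfu, hfh⟩ := geometric_hahn_banach_closed_point (convex_convexHull ℝ _)
    (hfin.isClosed_convexHull ℝ) hnot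
  set x0 : Fin d → ℝ := fun i => f (Pi.single i 1) with hx0
  have hf : ∀ v, f v = dotL v x0 := by
    intro v
    have := congrArg (fun l : (Fin d → ℝ) →ₗ[ℝ] ℝ => l v) (eq_dotL (f : (Fin d → ℝ) →ₗ[ℝ] ℝ))
    simp only [ContinuousLinearMap.coe_coe] at this
    rw [this, dotL_comm]
  obtain ⟨t, ht, htn⟩ := (Set.Ioo_infinite hfh).exists_notMem_finset
    (A.hyps.image fun k => f (vec k))
  have hval : ∀ k ∈ A.hyps, dotL (vec k) (x0 - t • b) = f (vec k) - t := by
    intro k hk
    rw [map_sub, map_smul, N.one k hk, hf]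
    simp
  refine ⟨x0 - t • b, ?_, ?_, ?_⟩
  · intro k hk hmem
    rw [← N.ker k hk, LinearMap.mem_ker, hval k hk] at hmem
    exact htn (Finset.mem_image.2 ⟨k, hk, by linarith⟩)
  · intro k hk
    rw [hval k (hU hk)]
    have := hfu (vec k) (subset_convexHull ℝ _ ⟨k, hk, rfl⟩)
    linarith [ht.1]
  · rw [hval h hh]
    linarith [ht.2]

omit N in
theorem dotL_neg_of_mem_convexHull {s : Set (Fin d → ℝ)} {x v : Fin d → ℝ}
    (hs : ∀ u ∈ s, dotL u x < 0) (hv : v ∈ convexHull ℝ s) : dotL v x < 0 := by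
  have hconv : Convex ℝ {v : Fin d → ℝ | dotL v x < 0} := by
    have : {v : Fin d → ℝ | dotL v x < 0} = {v | dotL x v < 0} := by
      ext v; rw [mem_ofPred, mem_ofPred, dotL_comm]
    rw [this]
    exact convex_halfSpace_lt (dotL x).isLinear 0
  exact convexHull_min hs hconv hv

omit N in
theorem dotL_nonneg_of_mem_convexHull {s : Set (Fin d → ℝ)} {x v : Fin d → ℝ}
    (hs : ∀ u ∈ s, 0 ≤ dotL u x) (hv : v ∈ convexHull ℝ s) : 0 ≤ dotL v x := by
  have hconv : Convex ℝ {v : Fin d → ℝ | 0 ≤ dotL v x} := by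
    have : {v : Fin d → ℝ | 0 ≤ dotL v x} = {v | 0 ≤ dotL x v} := by
      ext v; rw [mem_ofPred, mem_ofPred, dotL_comm]
    rw [this]
    exact convex_halfSpace_ge (dotL x).isLinear 0
  exact convexHull_min hs hconv hv

end fixed

/-- The region of a point, as an element of the poset of regions. -/
def posOf (B : A.Region) (x : Fin d → ℝ) (hx : x ∈ A.complement) : Pos A B := regionOf x hx

theorem mem_posOf (B : A.Region) (x : Fin d → ℝ) (hx : x ∈ A.complement) :
    x ∈ (show A.Region from posOf B x hx).1 := mem_regionOf x hx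

/-- The open set of a cut. -/
def opn {B : A.Region} (c : DedekindCut (Pos A B)) : Set (Submodule ℝ (Fin d → ℝ)) :=
  {h | ∃ R ∈ c.left, h ∈ sepSet B R}

/-- The closed set of a cut. -/
def cls {B : A.Region} (c : DedekindCut (Pos A B)) : Set (Submodule ℝ (Fin d → ℝ)) :=
  {h | h ∈ A.hyps ∧ ∀ R ∈ c.right, h ∈ sepSet B R}

section cuts

variable {B : A.Region}

theorem le_iff (R R' : Pos A B) : R ≤ R' ↔ sepSet B R ⊆ sepSet B R' := Iff.rfl

theorem mem_right_iff (c : DedekindCut (Pos A B)) (R : Pos A B) :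
    R ∈ c.right ↔ opn c ⊆ sepSet B R := by
  rw [← DedekindCut.upperBounds_left, mem_upperBounds]
  constructor
  · rintro h k ⟨R', hR', hk⟩
    exact h R' hR' hk
  · intro h R' hR' k hk
    exact h ⟨R', hR', hk⟩

theorem mem_left_iff (c : DedekindCut (Pos A B)) (R : Pos A B) :
    R ∈ c.left ↔ sepSet B R ⊆ cls c := by
  rw [← DedekindCut.lowerBounds_right, mem_lowerBounds]
  constructor
  · intro h k hk
    exact ⟨hk.1, fun R' hR' => h R' hR' hk⟩
  · intro h R' hR' k hk
    exact (h hk).2 R' hR'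

theorem opn_subset_hyps (c : DedekindCut (Pos A B)) : opn c ⊆ A.hyps := by
  rintro h ⟨R, _, hh⟩
  exact hh.1

theorem cls_subset_hyps (c : DedekindCut (Pos A B)) : cls c ⊆ A.hyps := fun _ h => h.1

theorem opn_subset_cls (c : DedekindCut (Pos A B)) : opn c ⊆ cls c := by
  rintro h ⟨R, hR, hh⟩
  exact (mem_left_iff c R).1 hR hh

theorem cls_mono {c c' : DedekindCut (Pos A B)} (h : c ≤ c') : cls c ⊆ cls c' := by
  rintro k ⟨hk, hk'⟩
  exact ⟨hk, fun R hR => hk' R (Concept.intent_subset_intent_iff.2 h hR)⟩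

variable {b : Fin d → ℝ} {vec : Submodule ℝ (Fin d → ℝ) → (Fin d → ℝ)} (N : Normals A B b vec)

include N

theorem cls_sup (c c' : DedekindCut (Pos A B)) {h : Submodule ℝ (Fin d → ℝ)}
    (hh : h ∈ cls (c ⊔ c')) : vec h ∈ convexHull ℝ (vec '' (opn c ∪ opn c')) := by
  by_contra hcon
  obtain ⟨x, hx, hxu, hxh⟩ := N.separation
    (union_subset (opn_subset_hyps c) (opn_subset_hyps c')) hh.1 hcon
  have hR : ∀ c'' : DedekindCut (Pos A B), opn c'' ⊆ opn c ∪ opn c' →
      posOf B x hx ∈ c''.right := by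
    intro c'' hc
    rw [mem_right_iff]
    intro k hk
    exact (N.mem_iff (mem_posOf B x hx) (opn_subset_hyps _ hk)).2 (hxu k (hc hk))
  have hmem : posOf B x hx ∈ (c ⊔ c').right := by
    show _ ∈ (c ⊔ c').intent
    rw [Concept.intent_sup]
    exact ⟨hR c subset_union_left, hR c' subset_union_right⟩
  have := (N.mem_iff (mem_posOf B x hx) hh.1).1 (hh.2 _ hmem)
  linarith

theorem opn_inf (c c' : DedekindCut (Pos A B)) {h : Submodule ℝ (Fin d → ℝ)}
    (hh : h ∈ A.hyps) (hh' : h ∉ opn (c ⊓ c')) :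
    vec h ∈ convexHull ℝ (vec '' (((A.hyps : Set _) \ cls c) ∪ ((A.hyps : Set _) \ cls c'))) := by
  by_contra hcon
  obtain ⟨x, hx, hxu, hxh⟩ := N.separation
    (union_subset sdiff_subset sdiff_subset) hh hcon
  have hy : -x ∈ A.complement := by
    intro k hk hmem
    exact hx k hk (by simpa using k.neg_mem hmem)
  have hR : ∀ c'' : DedekindCut (Pos A B),
      (A.hyps : Set _) \ cls c'' ⊆ ((A.hyps : Set _) \ cls c) ∪ ((A.hyps : Set _) \ cls c') →
      posOf B (-x) hy ∈ c''.left := by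
    intro c'' hc
    rw [mem_left_iff]
    intro k hk
    by_contra hkc
    have h1 := (N.mem_iff (mem_posOf B (-x) hy) hk.1).1 hk
    have h2 := hxu k (hc ⟨hk.1, hkc⟩)
    rw [map_neg] at h1
    linarith
  have hmem : posOf B (-x) hy ∈ (c ⊓ c').left := by
    show _ ∈ (c ⊓ c').extent
    rw [Concept.extent_inf]
    exact ⟨hR c subset_union_left, hR c' subset_union_right⟩
  apply hh'
  refine ⟨_, hmem, (N.mem_iff (mem_posOf B (-x) hy) hh).2 ?_⟩
  rw [map_neg]
  linarith

theorem mem_cls_of_hull (c : DedekindCut (Pos A B)) {h : Submodule ℝ (Fin d → ℝ)}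
    (hh : h ∈ A.hyps) (hv : vec h ∈ convexHull ℝ (vec '' opn c)) : h ∈ cls c := by
  refine ⟨hh, fun R hR => ?_⟩
  obtain ⟨x, hx⟩ := Region.nonempty R
  rw [N.mem_iff hx hh]
  apply dotL_neg_of_mem_convexHull _ hv
  rintro _ ⟨k, hk, rfl⟩
  exact (N.mem_iff hx (opn_subset_hyps c hk)).1 ((mem_right_iff c R).1 hR hk)

theorem notMem_opn_of_hull (c : DedekindCut (Pos A B)) {h : Submodule ℝ (Fin d → ℝ)}
    (hh : h ∈ A.hyps) (hv : vec h ∈ convexHull ℝ (vec '' ((A.hyps : Set _) \ opn c))) :
    h ∉ opn c := by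
  rintro ⟨R, hR, hhR⟩
  obtain ⟨x, hx⟩ := Region.nonempty R
  have h1 := (N.mem_iff hx hh).1 hhR
  have h2 : 0 ≤ dotL (vec h) x := by
    apply dotL_nonneg_of_mem_convexHull _ hv
    rintro _ ⟨k, hk, rfl⟩
    by_contra hneg
    exact hk.2 ⟨R, hR, (N.mem_iff hx hk.1).2 (not_le.1 hneg)⟩
  linarith

omit N in
theorem le_of_opn_subset {c c' : DedekindCut (Pos A B)} (h : opn c ⊆ opn c') : c ≤ c' := by
  intro R hR
  have : R ∈ c'.left := by
    rw [mem_left_iff]
    intro k hk
    exact opn_subset_cls c' (h ⟨R, hR, hk⟩)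
  exact this

omit N in
theorem hull_eq_hull_extremePoints {s : Set (Fin d → ℝ)} (hs : s.Finite) :
    convexHull ℝ s = convexHull ℝ (extremePoints ℝ (convexHull ℝ s)) := by
  have h1 := closure_convexHull_extremePoints (E := Fin d → ℝ) (s := convexHull ℝ s)
    (hs.isCompact_convexHull ℝ) (convex_convexHull ℝ s)
  have h2 : (extremePoints ℝ (convexHull ℝ s)).Finite :=
    hs.subset extremePoints_convexHull_subset
  rw [(h2.isClosed_convexHull ℝ).closure_eq] at h1
  exact h1.symm

/-- A copy of `M_{d+3}` in the completion is degenerate. -/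
theorem collapse (x : Fin (d + 3) → DedekindCut (Pos A B)) (u v : DedekindCut (Pos A B))
    (hsup : ∀ i j, i ≠ j → x i ⊔ x j = u) (hinf : ∀ i j, i ≠ j → x i ⊓ x j = v) : u = v := by
  classical
  by_contra huv
  have hle : ∀ i, x i ≤ u := by
    intro i
    by_cases hi : i = 0
    · subst hi
      rw [← hsup 0 1 (by simp [Fin.ext_iff])]
      exact le_sup_left
    · rw [← hsup i 0 hi]
      exact le_sup_left
  -- extreme points above
  set K : Set (Fin d → ℝ) := convexHull ℝ (vec '' cls u) with hK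
  have hfin : (vec '' cls u).Finite := (A.hyps.finite_toSet.subset (cls_subset_hyps u)).image _
  have hE : ∀ i j, i ≠ j → extremePoints ℝ K ⊆ vec '' (opn (x i) ∪ opn (x j)) := by
    intro i j hij
    have hK' : K = convexHull ℝ (vec '' (opn (x i) ∪ opn (x j))) := by
      apply Subset.antisymm
      · apply convexHull_min _ (convex_convexHull ℝ _)
        rintro _ ⟨h, hh, rfl⟩
        rw [← hsup i j hij] at hh
        exact cls_sup N _ _ hh
      · apply convexHull_mono
        apply image_mono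
        apply union_subset
        · exact (opn_subset_cls _).trans (cls_mono (hle i))
        · exact (opn_subset_cls _).trans (cls_mono (hle j))
    rw [hK']
    exact extremePoints_convexHull_subset
  -- extreme points below
  set K' : Set (Fin d → ℝ) := convexHull ℝ (vec '' ((A.hyps : Set _) \ opn v)) with hK'
  have hfin' : (vec '' ((A.hyps : Set _) \ opn v)).Finite :=
    (A.hyps.finite_toSet.subset sdiff_subset).image _
  have hvle : ∀ i, v ≤ x i := by
    intro i
    by_cases hi : i = 0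
    · subst hi
      rw [← hinf 0 1 (by simp [Fin.ext_iff])]
      exact inf_le_left
    · rw [← hinf i 0 hi]
      exact inf_le_left
  have hopn_mono : ∀ {c c' : DedekindCut (Pos A B)}, c ≤ c' → opn c ⊆ opn c' := by
    rintro c c' hcc h ⟨R, hR, hh⟩
    exact ⟨R, hcc hR, hh⟩
  have hF : ∀ i j, i ≠ j → extremePoints ℝ K' ⊆
      vec '' (((A.hyps : Set _) \ cls (x i)) ∪ ((A.hyps : Set _) \ cls (x j))) := by
    intro i j hij
    have hK'' : K' = convexHull ℝ
        (vec '' (((A.hyps : Set _) \ cls (x i)) ∪ ((A.hyps : Set _) \ cls (x j)))) := by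
      apply Subset.antisymm
      · apply convexHull_min _ (convex_convexHull ℝ _)
        rintro _ ⟨h, hh, rfl⟩
        have := hh.2
        rw [← hinf i j hij] at this
        exact opn_inf N _ _ hh.1 this
      · apply convexHull_mono
        apply image_mono
        apply union_subset
        · rintro h ⟨hh, hh'⟩
          exact ⟨hh, fun hv => hh' (opn_subset_cls _ (hopn_mono (hvle i) hv))⟩
        · rintro h ⟨hh, hh'⟩
          exact ⟨hh, fun hv => hh' (opn_subset_cls _ (hopn_mono (hvle j) hv))⟩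
    rw [hK'']
    exact extremePoints_convexHull_subset
  -- the special extreme point
  have hex : ∃ f ∈ extremePoints ℝ K', f ∉ vec '' ((A.hyps : Set _) \ opn (x 0)) := by
    by_contra hcon
    push Not at hcon
    have h1 : K' ⊆ convexHull ℝ (vec '' ((A.hyps : Set _) \ opn (x 0))) := by
      rw [hK', hull_eq_hull_extremePoints hfin']
      exact convexHull_mono hcon
    have h2 : opn (x 0) ⊆ opn v := by
      intro h hh
      by_contra hnv
      have hhyp := opn_subset_hyps _ hh
      exact notMem_opn_of_hull N (x 0) hhyp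
        (h1 (subset_convexHull ℝ _ ⟨h, ⟨hhyp, hnv⟩, rfl⟩)) hh
    have h3 : x 0 = v := le_antisymm (le_of_opn_subset h2) (hvle 0)
    have e1 := hsup 0 ⟨1, by omega⟩ (by simp [Fin.ext_iff])
    have e2 := hsup 0 ⟨2, by omega⟩ (by simp [Fin.ext_iff])
    have e3 := hinf ⟨1, by omega⟩ ⟨2, by omega⟩ (by simp [Fin.ext_iff])
    rw [h3, sup_eq_right.2 (hvle _)] at e1 e2
    rw [e1, e2, inf_idem] at e3
    exact huv e3
  obtain ⟨f, hfF, hf0⟩ := hex
  obtain ⟨k, ⟨hk, hkv⟩, rfl⟩ := extremePoints_convexHull_subset hfF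
  have hk0 : k ∈ opn (x 0) := by
    by_contra h
    exact hf0 ⟨k, ⟨hk, h⟩, rfl⟩
  have hkc0 : k ∈ cls (x 0) := opn_subset_cls _ hk0
  have hkj : ∀ j, j ≠ 0 → k ∉ cls (x j) := by
    intro j hj hkj
    obtain ⟨k', hk', e⟩ := hF 0 j hj.symm hfF
    rcases hk' with hk' | hk'
    · have := N.inj hk'.1 hk e
      exact hk'.2 (this ▸ hkc0)
    · have := N.inj hk'.1 hk e
      exact hk'.2 (this ▸ hkj)
  have hkK : vec k ∈ convexHull ℝ (extremePoints ℝ K) := by
    rw [hK, ← hull_eq_hull_extremePoints hfin]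
    exact subset_convexHull ℝ _ ⟨k, cls_mono (hle 0) hkc0, rfl⟩
  rw [convexHull_eq_union] at hkK
  simp only [mem_iUnion] at hkK
  obtain ⟨t, htE, hai, hkt⟩ := hkK
  have hcard : t.card ≤ d + 1 := by
    have := hai.card_le_finrank_succ
    have h2 := Submodule.finrank_le (vectorSpan ℝ (Set.range ((↑) : t → Fin d → ℝ)))
    simp only [Fintype.card_coe, Module.finrank_fintype_fun_eq_card, Fintype.card_fin] at this h2
    omega
  have hsel : ∀ j : Fin (d + 3), j ≠ 0 → ∃ e ∈ t, e ∉ vec '' opn (x j) := by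
    intro j hj
    by_contra hcon
    push Not at hcon
    exact hkj j hj (mem_cls_of_hull N _ hk (convexHull_mono hcon hkt))
  choose! g hgt hgn using hsel
  have hinj : Set.InjOn g ((Finset.univ.erase (0 : Fin (d + 3)) : Finset (Fin (d + 3))) :
      Set (Fin (d + 3))) := by
    intro i hi j hj hij
    by_contra hne
    simp only [Finset.coe_erase, Finset.coe_univ, mem_sdiff, mem_univ, mem_singleton_iff,
      true_and] at hi hj
    obtain ⟨k', hk', e⟩ := hE i j hne (htE (hgt i hi))
    rcases hk' with hk' | hk'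
    · exact hgn i hi ⟨k', hk', e⟩
    · exact hgn j hj ⟨k', hk', by rw [e, hij]⟩
  have hc := Finset.card_le_card_of_injOn g (t := t) (fun i hi => hgt i (by simpa using hi)) hinj
  rw [Finset.card_erase_of_mem (Finset.mem_univ _), Finset.card_univ, Fintype.card_fin] at hc
  omega

end cuts

end CentralArrangement

end Pool.Agent.H178R3
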