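import Mathlib

set_option autoImplicit false

open Set

namespace Pool.Agent.H178R3

/-- A central hyperplane arrangement in `ℝ^d`: a finite set of linear hyperplanes, that is, of
linear subspaces of dimension `d - 1`. -/
structure CentralArrangement (d : ℕ) where
  /-- the hyperplanes -/
  hyps : Finset (Submodule ℝ (Fin d → ℝ))
  /-- each of them has dimension `d - 1` -/
  isHyp : ∀ h ∈ hyps, Module.finrank ℝ h + 1 = d

namespace CentralArrangement

variable {d : ℕ} (A : CentralArrangement d)

/-- The complement of the union of the hyperplanes. -/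
def complement : Set (Fin d → ℝ) := {x | ∀ h ∈ A.hyps, x ∉ h}

/-- The regions of the arrangement: the connected components of the complement. -/
def Region : Type := {R : Set (Fin d → ℝ) // ∃ x ∈ A.complement, R = connectedComponentIn A.complement x}

variable {A}

/-- The linear hyperplane `h` separates `R` from `B`: some linear functional with kernel `h` is
positive on `R` and negative on `B`. -/
def Separates (h : Submodule ℝ (Fin d → ℝ)) (R B : Set (Fin d → ℝ)) : Prop :=
  ∃ f : (Fin d → ℝ) →ₗ[ℝ] ℝ, LinearMap.ker f = h ∧ (∀ x ∈ R, 0 < f x) ∧ ∀ y ∈ B, f y < 0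

/-- `S(R)`: the set of hyperplanes of the arrangement that separate `R` from the base region. -/
def sepSet (B R : A.Region) : Set (Submodule ℝ (Fin d → ℝ)) :=
  {h | h ∈ A.hyps ∧ Separates h R.1 B.1}

theorem Region.subset (R : A.Region) : R.1 ⊆ A.complement := by
  obtain ⟨R, x, hx, rfl⟩ := R
  exact connectedComponentIn_subset _ _

theorem Region.nonempty (R : A.Region) : ∃ x, x ∈ R.1 := by
  obtain ⟨R, x, hx, rfl⟩ := R
  exact ⟨x, mem_connectedComponentIn hx⟩

/-- The region containing a given point of the complement. -/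
def regionOf (x : Fin d → ℝ) (hx : x ∈ A.complement) : A.Region :=
  ⟨connectedComponentIn A.complement x, x, hx, rfl⟩

theorem mem_regionOf (x : Fin d → ℝ) (hx : x ∈ A.complement) : x ∈ (regionOf x hx).1 :=
  mem_connectedComponentIn hx

theorem Region.eq_regionOf (R : A.Region) {x : Fin d → ℝ} (hx : x ∈ R.1) :
    R = regionOf x (R.subset hx) := by
  obtain ⟨R, y, hy, rfl⟩ := R
  apply Subtype.ext
  exact connectedComponentIn_eq hx

theorem Region.sign_const (R : A.Region) {f : (Fin d → ℝ) →ₗ[ℝ] ℝ}
    (hf : LinearMap.ker f ∈ A.hyps) {x y : Fin d → ℝ} (hx : x ∈ R.1) (hy : y ∈ R.1)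
    (h : 0 < f x) : 0 < f y := by
  by_contra hcon
  have hyne : f y ≠ 0 := fun h0 => R.subset hy _ hf (LinearMap.mem_ker.2 h0)
  have hylt : f y < 0 := lt_of_le_of_ne (not_lt.1 hcon) hyne
  have hpre : IsPreconnected R.1 := by
    obtain ⟨R, z, hz, rfl⟩ := R
    exact isPreconnected_connectedComponentIn
  have hcont : ContinuousOn f R.1 := (LinearMap.continuous_of_finiteDimensional f).continuousOn
  obtain ⟨z, hz, hz0⟩ := hpre.intermediate_value hy hx hcont ⟨hylt.le, h.le⟩
  exact R.subset hz _ hf (LinearMap.mem_ker.2 hz0)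

theorem exists_functional {h : Submodule ℝ (Fin d → ℝ)} (hh : h ∈ A.hyps) {b : Fin d → ℝ}
    (hb : b ∉ h) : ∃ f : (Fin d → ℝ) →ₗ[ℝ] ℝ, LinearMap.ker f = h ∧ f b = 1 := by
  obtain ⟨f, hf, hfm⟩ := Submodule.exists_dual_map_eq_bot_of_notMem hb inferInstance
  have hle : h ≤ LinearMap.ker f := by
    intro x hx
    have : f x ∈ Submodule.map f h := Submodule.mem_map_of_mem hx
    rw [hfm] at this
    simpa using this
  have hfne : f ≠ 0 := by
    rintro rfl
    simp at hf
  have h1 := Module.Dual.finrank_ker_add_one_of_ne_zero hfne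
  have h2 := A.isHyp h hh
  have hker : h = LinearMap.ker f := by
    apply Submodule.eq_of_le_of_finrank_eq hle
    have : Module.finrank ℝ (Fin d → ℝ) = d := by simp
    omega
  refine ⟨(f b)⁻¹ • f, ?_, ?_⟩
  · rw [hker]
    ext x
    simp [hf]
  · simp [hf]

theorem mem_sepSet_iff {B R : A.Region} {b x : Fin d → ℝ} (hb : b ∈ B.1) (hx : x ∈ R.1)
    {f : (Fin d → ℝ) →ₗ[ℝ] ℝ} (hf : LinearMap.ker f ∈ A.hyps) (hfb : 0 < f b) :
    LinearMap.ker f ∈ sepSet B R ↔ f x < 0 := by
  have hkn : LinearMap.ker (-f) = LinearMap.ker f := by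
    ext z; simp
  constructor
  · rintro ⟨_, g, hg, hgR, hgB⟩
    have hgb := hgB b hb
    have hgx := hgR x hx
    -- g = c f with c < 0
    have hfg : (g b) • f = (f b) • g := by
      apply Module.Dual.eq_of_ker_eq_of_apply_eq b
      · ext z
        simp only [LinearMap.mem_ker, LinearMap.smul_apply, smul_eq_mul, mul_eq_zero, hgb.ne,
          hfb.ne', false_or]
        rw [← LinearMap.mem_ker, ← LinearMap.mem_ker, hg]
      · simp [mul_comm]
      · simp [hgb.ne, hfb.ne']
    have := congrArg (fun l : (Fin d → ℝ) →ₗ[ℝ] ℝ => l x) hfg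
    simp only [LinearMap.smul_apply, smul_eq_mul] at this
    nlinarith [mul_pos hfb hgx]
  · intro h
    refine ⟨hf, -f, hkn, ?_, ?_⟩
    · intro y hy
      apply R.sign_const (f := -f) (by rw [hkn]; exact hf) hx hy
      simpa using h
    · intro y hy
      have := B.sign_const hf hb hy hfb
      simpa using this

theorem regionOf_eq_of_sign {x y : Fin d → ℝ} (hx : x ∈ A.complement) (hy : y ∈ A.complement)
    (h : ∀ f : (Fin d → ℝ) →ₗ[ℝ] ℝ, LinearMap.ker f ∈ A.hyps → 0 < f x → 0 < f y) :
    regionOf x hx = regionOf y hy := by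
  have hseg : segment ℝ x y ⊆ A.complement := by
    rintro z ⟨a, b, ha, hb, hab, rfl⟩ k hk hz
    obtain ⟨f, hf, hfx⟩ := exists_functional hk (hx k hk)
    have hfy : 0 < f y := h f (by rw [hf]; exact hk) (by rw [hfx]; exact one_pos)
    rw [← hf, LinearMap.mem_ker, map_add, map_smul, map_smul, hfx, smul_eq_mul, smul_eq_mul] at hz
    rcases ha.eq_or_lt with rfl | ha
    · have : b = 1 := by linarith
      subst this
      linarith
    · nlinarith [mul_nonneg hb hfy.le]
  apply Subtype.ext
  apply connectedComponentIn_eq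
  exact ((convex_segment x y).isPreconnected.subset_connectedComponentIn
    (left_mem_segment ℝ x y) hseg) (right_mem_segment ℝ x y)

theorem region_eq_of_sepSet_eq {B R R' : A.Region} (h : sepSet B R = sepSet B R') : R = R' := by
  obtain ⟨x, hx⟩ := R.nonempty
  obtain ⟨y, hy⟩ := R'.nonempty
  obtain ⟨b, hb⟩ := B.nonempty
  rw [R.eq_regionOf hx, R'.eq_regionOf hy]
  apply regionOf_eq_of_sign
  intro f hf hfx
  have hfb : f b ≠ 0 := fun h0 => B.subset hb _ hf (LinearMap.mem_ker.2 h0)
  have hfy : f y ≠ 0 := fun h0 => R'.subset hy _ hf (LinearMap.mem_ker.2 h0)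
  rcases lt_or_gt_of_ne hfb with hlt | hgt
  · have hkn : LinearMap.ker (-f) = LinearMap.ker f := by
      ext z; simp
    have hf' : LinearMap.ker (-f) ∈ A.hyps := by rw [hkn]; exact hf
    have h1 := (mem_sepSet_iff hb hx hf' (by simpa using hlt)).2 (by simpa using hfx)
    rw [h] at h1
    have h2 := (mem_sepSet_iff hb hy hf' (by simpa using hlt)).1 h1
    simpa using h2
  · by_contra hcon
    have h1 : f y < 0 := lt_of_le_of_ne (not_lt.1 hcon) hfy
    have h2 := (mem_sepSet_iff hb hy hf hgt).2 h1
    rw [← h] at h2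
    have h3 := (mem_sepSet_iff hb hx hf hgt).1 h2
    linarith

end CentralArrangement

open CentralArrangement

/-- The poset of regions `Pos(A, B)` of the arrangement `A` with base region `B`: the regions,
ordered by inclusion of the sets `S(R)`. -/
def Pos {d : ℕ} (A : CentralArrangement d) (_B : A.Region) : Type := A.Region

instance {d : ℕ} (A : CentralArrangement d) (B : A.Region) : PartialOrder (Pos A B) where
  le R R' := sepSet B R ⊆ sepSet B R'
  le_refl _ := Subset.rfl
  le_trans _ _ _ := Subset.trans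
  le_antisymm _ _ h h' := region_eq_of_sepSet_eq (Subset.antisymm h h')

end Pool.Agent.H178R3
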